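import Mathlib

set_option autoImplicit false

open Finset Filter Topology

namespace Pool.Agent.V1176.Th

/-- triangular numbers -/
def T (k : ℕ) : ℕ := k * (k + 1) / 2

theorem two_T (k : ℕ) : 2 * T k = k * (k + 1) := by
  unfold T
  exact Nat.mul_div_cancel' (Nat.even_mul_succ_self k).two_dvd

theorem T_succ (k : ℕ) : T (k + 1) = T k + (k + 1) := by
  have h1 := two_T k
  have h2 := two_T (k + 1)
  nlinarith

theorem T_zero : T 0 = 0 := rfl

theorem le_T (k : ℕ) : k ≤ T k := by
  induction k with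
  | zero => simp
  | succ k _ => rw [T_succ]; omega

/-- `(q)_n = ∏_{i<n} (1 - q^{i+1})` -/
noncomputable def ph (q : ℝ) (n : ℕ) : ℝ := ∏ i ∈ range n, (1 - q ^ (i + 1))

theorem ph_succ (q : ℝ) (n : ℕ) : ph q (n + 1) = ph q n * (1 - q ^ (n + 1)) := by
  rw [ph, prod_range_succ]; rfl

theorem fac_pos {q : ℝ} (hq0 : 0 < q) (hq1 : q < 1) (n : ℕ) : 0 < 1 - q ^ (n + 1) := by
  have : q ^ (n + 1) < 1 := pow_lt_one₀ hq0.le hq1 (Nat.succ_ne_zero n)
  linarith

theorem ph_pos {q : ℝ} (hq0 : 0 < q) (hq1 : q < 1) (n : ℕ) : 0 < ph q n :=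
  prod_pos fun i _ => fac_pos hq0 hq1 i

/-- Gaussian binomial coefficients -/
noncomputable def G (q : ℝ) (M m : ℕ) : ℝ := if m ≤ M then ph q M / (ph q m * ph q (M - m)) else 0

theorem G_pascal {q : ℝ} (hq0 : 0 < q) (hq1 : q < 1) {M m : ℕ} (hm : m ≤ M) :
    G q (M + 1) (m + 1) = G q M (m + 1) + q ^ (M - m) * G q M m := by
  have h0 := fun n => (ph_pos hq0 hq1 n).ne'
  rcases Nat.lt_or_ge m M with h | h
  · obtain ⟨r, rfl⟩ : ∃ r, M = m + 1 + r := ⟨M - m - 1, by omega⟩
    have e1 : m + 1 + r + 1 - (m + 1) = r + 1 := by omega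
    have e2 : m + 1 + r - (m + 1) = r := by omega
    have e3 : m + 1 + r - m = r + 1 := by omega
    rw [G, G, G, if_pos (by omega), if_pos (by omega), if_pos (by omega), e1, e2, e3]
    rw [ph_succ q (m + 1 + r), ph_succ q m, ph_succ q r]
    have a1 := h0 (m + 1 + r)
    have a2 := h0 m
    have a3 := h0 r
    have b1 := (fac_pos hq0 hq1 m).ne'
    have b2 := (fac_pos hq0 hq1 r).ne'
    field_simp
    ring
  · have : m = M := le_antisymm hm h
    subst this
    rw [G, G, G, if_pos le_rfl, if_neg (by omega), if_pos le_rfl]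
    have a1 := h0 (m + 1)
    have a2 := h0 m
    simp only [Nat.sub_self, pow_zero, ph, range_zero, prod_empty, mul_one, zero_add, one_mul]
    rw [← ph, ← ph, div_self a1, div_self a2]

open Polynomial in
/-- Rothe's identity, as a statement on coefficients -/
theorem rothe {q : ℝ} (hq0 : 0 < q) (hq1 : q < 1) (M m : ℕ) :
    (∏ i ∈ range M, (1 - C (q ^ i) * X) : ℝ[X]).coeff m = (-1) ^ m * G q M m * q ^ (T (m - 1)) := by
  induction M generalizing m with
  | zero =>
    rw [range_zero, prod_empty, coeff_one]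
    rcases Nat.eq_zero_or_pos m with rfl | h
    · simp [G, ph, T]
    · rw [if_neg h.ne', G, if_neg (by omega)]; ring
  | succ M ih =>
    rw [prod_range_succ, mul_sub, mul_one, coeff_sub, ← mul_assoc, mul_comm _ (C (q ^ M)), mul_assoc,
      coeff_C_mul]
    cases m with
    | zero =>
      have h1 := (ph_pos hq0 hq1 M).ne'
      have h2 := (ph_pos hq0 hq1 (M + 1)).ne'
      have h3 : ph q 0 = 1 := by simp [ph]
      have g1 : G q M 0 = 1 := by rw [G, if_pos (by omega), h3, one_mul, Nat.sub_zero, div_self h1]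
      have g2 : G q (M + 1) 0 = 1 := by
        rw [G, if_pos (by omega), h3, one_mul, Nat.sub_zero, div_self h2]
      rw [ih, mul_coeff_zero, g1, g2]
      simp
    | succ m =>
      rw [ih, coeff_mul_X, ih, Nat.add_sub_cancel]
      have hT : T m = T (m - 1) + m := by
        cases m with
        | zero => rfl
        | succ m => rw [T_succ]; rfl
      rcases Nat.lt_or_ge M m with h | h
      · rw [G, G, G, if_neg (by omega), if_neg (by omega), if_neg (by omega)]; ring
      · rw [G_pascal hq0 hq1 h]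
        have h3 : q ^ M = q ^ (M - m) * q ^ m := by rw [← pow_add, Nat.sub_add_cancel h]
        rw [h3, hT, pow_add, pow_succ]
        ring

open Polynomial in
theorem rothe_natDegree (q : ℝ) (M : ℕ) :
    (∏ i ∈ range M, (1 - C (q ^ i) * X) : ℝ[X]).natDegree ≤ M := by
  refine (natDegree_prod_le _ _).trans ?_
  calc ∑ i ∈ range M, (1 - C (q ^ i) * X : ℝ[X]).natDegree ≤ ∑ i ∈ range M, 1 := by
        apply sum_le_sum
        intro i _
        refine (natDegree_sub_le _ _).trans ?_
        rw [natDegree_one]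
        simp only [Nat.zero_le, sup_of_le_right]
        exact natDegree_C_mul_le _ _ |>.trans natDegree_X_le
    _ = M := by simp

open Polynomial in
/-- The finite form of Jacobi's identity. -/
theorem finite_jacobi {q : ℝ} (hq0 : 0 < q) (hq1 : q < 1) (N : ℕ) :
    ∑ j ∈ range (N + 1), (-1 : ℝ) ^ j * (2 * j + 1) * G q (2 * N + 1) (N - j) * q ^ (T j) =
      (ph q N) ^ 2 := by
  set R : ℝ[X] := ∏ i ∈ range (2 * N + 1), (1 - C (q ^ i) * X) with hR
  set z : ℝ := (q ^ N)⁻¹ with hz
  have hqN : q ^ N ≠ 0 := (pow_pos hq0 N).ne'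
  have hzq : z * q ^ N = 1 := inv_mul_cancel₀ hqN
  -- the derivative from the product
  have hprod : (derivative R).eval z * q ^ (T N) * z = (-1) ^ (N + 1) * (ph q N) ^ 2 := by
    have h1 : R = (∏ i ∈ range N, (1 - C (q ^ i) * X)) * (1 - C (q ^ N) * X) *
        ∏ i ∈ range N, (1 - C (q ^ (N + 1 + i)) * X) := by
      rw [hR, show 2 * N + 1 = (N + 1) + N by ring, prod_range_add, prod_range_succ]
    rw [h1]
    simp only [derivative_mul, eval_add, eval_mul, eval_sub, eval_one, eval_C, eval_X]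
    have h0 : 1 - q ^ N * z = 0 := by rw [mul_comm, hzq, sub_self]
    rw [h0]
    have hd : (derivative (1 - C (q ^ N) * X : ℝ[X])).eval z = -q ^ N := by
      rw [derivative_sub, derivative_one, derivative_C_mul, derivative_X]
      simp
    rw [hd]
    have e1 : (∏ i ∈ range N, (1 - C (q ^ (N + 1 + i)) * X : ℝ[X])).eval z = ph q N := by
      rw [eval_prod, ph]
      apply prod_congr rfl
      intro i _
      simp only [eval_sub, eval_one, eval_mul, eval_C, eval_X]
      have : q ^ (N + 1 + i) = q ^ N * q ^ (i + 1) := by rw [← pow_add]; congr 1; ring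
      rw [this]
      linear_combination (-(q ^ (i + 1))) * hzq
    have e2 : (∏ i ∈ range N, (1 - C (q ^ i) * X : ℝ[X])).eval z * q ^ (T N) =
        (-1) ^ N * ph q N := by
      rw [eval_prod, ← prod_range_reflect]
      have hTN : q ^ (T N) = ∏ i ∈ range N, q ^ (i + 1) := by
        have : ∀ n, q ^ (T n) = ∏ i ∈ range n, q ^ (i + 1) := by
          intro n
          induction n with
          | zero => simp [T]
          | succ n ih => rw [T_succ, pow_add, ih, prod_range_succ]
        exact this N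
      have hneg : (-1 : ℝ) ^ N = ∏ i ∈ range N, (-1 : ℝ) := by simp
      rw [hTN, hneg, ph, ← prod_mul_distrib, ← prod_mul_distrib]
      apply prod_congr rfl
      intro i hi
      have hi' := mem_range.mp hi
      simp only [eval_sub, eval_one, eval_mul, eval_C, eval_X]
      have h5 : q ^ (N - 1 - i) * q ^ (i + 1) = q ^ N := by rw [← pow_add]; congr 1; omega
      linear_combination (-z) * h5 - hzq
    rw [e1]
    calc _ = (-q ^ N * z) * ((∏ i ∈ range N, (1 - C (q ^ i) * X : ℝ[X])).eval z * q ^ (T N)) *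
          ph q N := by ring
      _ = _ := by
        rw [e2]
        have : -q ^ N * z = -1 := by linear_combination -hzq
        rw [this, pow_succ]; ring
  -- the derivative from the coefficients
  have hdeg := rothe_natDegree q (2 * N + 1)
  rw [← hR] at hdeg
  have hco : (derivative R).eval z * z = ∑ m ∈ range (2 * N + 2), (m : ℝ) * R.coeff m * z ^ m := by
    have h1 : (X * derivative R).eval z = (derivative R).eval z * z := by simp; ring
    rw [← h1, eval_eq_sum_range' (n := 2 * N + 2)]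
    · apply sum_congr rfl
      intro m _
      cases m with
      | zero => simp
      | succ m => rw [coeff_X_mul, coeff_derivative]; push_cast; ring
    · refine lt_of_le_of_lt natDegree_mul_le ?_
      have := natDegree_derivative_le R
      rw [natDegree_X]; omega
  have hsum : ∑ m ∈ range (2 * N + 2), (m : ℝ) * R.coeff m * z ^ m * q ^ (T N) =
      (-1) ^ (N + 1) * (ph q N) ^ 2 := by
    rw [← sum_mul, ← hco, ← hprod]; ring
  -- split the sum
  have hGsymm : ∀ j, j ≤ N → G q (2 * N + 1) (N + 1 + j) = G q (2 * N + 1) (N - j) := by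
    intro j hj
    rw [G, G, if_pos (by omega), if_pos (by omega)]
    have e1 : 2 * N + 1 - (N + 1 + j) = N - j := by omega
    have e2 : 2 * N + 1 - (N - j) = N + 1 + j := by omega
    rw [e1, e2, mul_comm (ph q (N + 1 + j))]
  rw [show 2 * N + 2 = (N + 1) + (N + 1) by ring, sum_range_add, ← sum_range_reflect,
    ← sum_add_distrib] at hsum
  have hterm : ∀ j ∈ range (N + 1),
      (((N + 1 - 1 - j : ℕ) : ℝ) * R.coeff (N + 1 - 1 - j) * z ^ (N + 1 - 1 - j) * q ^ (T N) +
      ((N + 1 + j : ℕ) : ℝ) * R.coeff (N + 1 + j) * z ^ (N + 1 + j) * q ^ (T N)) =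
      (-1) ^ (N + 1) * ((-1 : ℝ) ^ j * (2 * j + 1) * G q (2 * N + 1) (N - j) * q ^ (T j)) := by
    intro j hj
    have hj' : j ≤ N := Nat.lt_succ_iff.mp (mem_range.mp hj)
    rw [Nat.add_sub_cancel, hR, rothe hq0 hq1, rothe hq0 hq1, hGsymm j hj']
    have hs : (-1 : ℝ) ^ (N - j) * (-1) ^ j = (-1) ^ N := by rw [← pow_add, Nat.sub_add_cancel hj']
    have hjj : (-1 : ℝ) ^ j * (-1) ^ j = 1 := by rw [← mul_pow]; norm_num
    have hs' : (-1 : ℝ) ^ (N - j) = (-1) ^ N * (-1) ^ j := by
      rw [← hs, mul_assoc, hjj, mul_one]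
    -- exponents
    have x1 : q ^ (T (N - j - 1)) * z ^ (N - j) * q ^ (T N) = q ^ (T j) := by
      have h6 : T (N - j - 1) + T N = N * (N - j) + T j := by
        rcases Nat.lt_or_ge j N with h | h
        · obtain ⟨r, rfl⟩ : ∃ r, N = j + 1 + r := ⟨N - j - 1, by omega⟩
          have e1 : j + 1 + r - j - 1 = r := by omega
          have e2 : j + 1 + r - j = r + 1 := by omega
          rw [e1, e2]
          have := two_T r
          have := two_T (j + 1 + r)
          have := two_T j
          nlinarith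
        · have : j = N := le_antisymm hj' h
          subst this
          simp [T]
      have h7 : q ^ (T (N - j - 1)) * q ^ (T N) = (q ^ N) ^ (N - j) * q ^ (T j) := by
        rw [← pow_add, h6, pow_add, pow_mul]
      calc _ = z ^ (N - j) * (q ^ (T (N - j - 1)) * q ^ (T N)) := by ring
        _ = (z * q ^ N) ^ (N - j) * q ^ (T j) := by rw [h7, mul_pow]; ring
        _ = _ := by rw [hzq]; simp
    have x2 : q ^ (T (N + 1 + j - 1)) * z ^ (N + 1 + j) * q ^ (T N) = q ^ (T j) := by
      have e1 : N + 1 + j - 1 = N + j := by omega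
      rw [e1]
      have h6 : T (N + j) + T N = N * (N + 1 + j) + T j := by
        have := two_T (N + j)
        have := two_T N
        have := two_T j
        nlinarith
      have h7 : q ^ (T (N + j)) * q ^ (T N) = (q ^ N) ^ (N + 1 + j) * q ^ (T j) := by
        rw [← pow_add, h6, pow_add, pow_mul]
      calc _ = z ^ (N + 1 + j) * (q ^ (T (N + j)) * q ^ (T N)) := by ring
        _ = (z * q ^ N) ^ (N + 1 + j) * q ^ (T j) := by rw [h7, mul_pow]; ring
        _ = _ := by rw [hzq]; simp
    have hcast : ((N - j : ℕ) : ℝ) = (N : ℝ) - j := by rw [Nat.cast_sub hj']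
    have e3 : (-1 : ℝ) ^ (N + 1 + j) = (-1) ^ (N + 1) * (-1) ^ j := pow_add _ _ _
    rw [hcast, e3, hs']
    push_cast
    rw [pow_succ]
    calc _ = ((N : ℝ) - j) * ((-1) ^ N * (-1) ^ j) * G q (2 * N + 1) (N - j) *
          (q ^ (T (N - j - 1)) * z ^ (N - j) * q ^ (T N)) +
          ((N : ℝ) + 1 + j) * ((-1) ^ N * (-1) * (-1) ^ j) * G q (2 * N + 1) (N - j) *
          (q ^ (T (N + 1 + j - 1)) * z ^ (N + 1 + j) * q ^ (T N)) := by ring
      _ = _ := by rw [x1, x2]; ring
  rw [sum_congr rfl hterm, ← mul_sum] at hsum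
  exact mul_left_cancel₀ (pow_ne_zero _ (by norm_num)) hsum

/-! ### The limit -/

/-- the terms `(2k+1) q^{k(k+1)/2}` -/
noncomputable def t (k : ℕ) (q : ℝ) : ℝ := (2 * k + 1) * q ^ (T k)

theorem t_nonneg {q : ℝ} (hq0 : 0 ≤ q) (k : ℕ) : 0 ≤ t k q := by unfold t; positivity

theorem t_le {q : ℝ} (hq0 : 0 < q) (hq1 : q < 1) (k : ℕ) : t k q ≤ 2 * ((k : ℝ) ^ 1 * q ^ k) + q ^ k := by
  unfold t
  have : q ^ (T k) ≤ q ^ k := pow_le_pow_of_le_one hq0.le hq1.le (le_T k)
  have h : (0 : ℝ) ≤ 2 * k + 1 := by positivity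
  nlinarith

theorem bound_summable {q : ℝ} (hq0 : 0 < q) (hq1 : q < 1) :
    Summable fun k : ℕ => 2 * ((k : ℝ) ^ 1 * q ^ k) + q ^ k := by
  have hq : ‖q‖ < 1 := by rwa [Real.norm_eq_abs, abs_of_pos hq0]
  exact ((summable_pow_mul_geometric_of_norm_lt_one (R := ℝ) 1 hq).mul_left 2).add
    (summable_geometric_of_lt_one hq0.le hq1)

theorem t_summable {q : ℝ} (hq0 : 0 < q) (hq1 : q < 1) : Summable fun k => t k q :=
  Summable.of_nonneg_of_le (t_nonneg hq0.le) (t_le hq0 hq1) (bound_summable hq0 hq1)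

theorem alt_summable {q : ℝ} (hq0 : 0 < q) (hq1 : q < 1) : Summable fun k : ℕ => (-1) ^ k * t k q := by
  apply Summable.of_norm
  refine (t_summable hq0 hq1).congr ?_
  intro k
  rw [norm_mul, norm_pow, norm_neg, norm_one, one_pow, one_mul, Real.norm_eq_abs,
    abs_of_nonneg (t_nonneg hq0.le k)]

/-- the infinite alternating sum -/
noncomputable def f (q : ℝ) : ℝ := ∑' k : ℕ, (-1) ^ k * t k q

theorem ph_antitone {q : ℝ} (hq0 : 0 < q) (hq1 : q < 1) : Antitone (ph q) := by
  apply antitone_nat_of_succ_le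
  intro n
  rw [ph_succ]
  have h1 := ph_pos hq0 hq1 n
  have h2 : 0 < q ^ (n + 1) := pow_pos hq0 _
  nlinarith

theorem exists_limit {q : ℝ} (hq0 : 0 < q) (hq1 : q < 1) :
    ∃ l : ℝ, 0 < l ∧ Tendsto (ph q) atTop (𝓝 l) := by
  have hs : Summable fun i : ℕ => ‖(-q ^ (i + 1) : ℝ)‖ := by
    have h := (summable_nat_add_iff 1).mpr (summable_geometric_of_lt_one hq0.le hq1)
    refine h.congr ?_
    intro i
    rw [norm_neg, Real.norm_eq_abs, abs_of_pos (pow_pos hq0 _)]
  have hm : Multipliable fun i : ℕ => (1 + -q ^ (i + 1) : ℝ) := multipliable_one_add_of_summable hs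
  have hne : ∏' i : ℕ, (1 + -q ^ (i + 1) : ℝ) ≠ 0 :=
    tprod_one_add_ne_zero_of_summable (fun i => by
      have := fac_pos hq0 hq1 i
      have h2 : 1 + -q ^ (i + 1) = 1 - q ^ (i + 1) := by ring
      rw [h2]; exact this.ne') hs
  have ht : Tendsto (ph q) atTop (𝓝 (∏' i : ℕ, (1 + -q ^ (i + 1) : ℝ))) := by
    have := hm.hasProd.tendsto_prod_nat
    refine this.congr ?_
    intro n
    unfold ph
    apply prod_congr rfl
    intro i _
    ring
  refine ⟨_, lt_of_le_of_ne ?_ hne.symm, ht⟩
  exact ge_of_tendsto' ht fun n => (ph_pos hq0 hq1 n).le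

/-- **Jacobi's identity**: the alternating sum is the cube of the Euler product. -/
theorem jacobi {q : ℝ} (hq0 : 0 < q) (hq1 : q < 1) {l : ℝ} (hl0 : 0 < l)
    (hl : Tendsto (ph q) atTop (𝓝 l)) : f q = l ^ 3 := by
  have hle : ∀ n, l ≤ ph q n := fun n => (ph_antitone hq0 hq1).le_of_tendsto hl n
  set g : ℕ → ℕ → ℝ := fun N j => if j ≤ N then
    (-1 : ℝ) ^ j * (2 * j + 1) * G q (2 * N + 1) (N - j) * q ^ (T j) else 0 with hg
  have h1 : ∀ N, ∑' j, g N j = (ph q N) ^ 2 := by
    intro N
    rw [← finite_jacobi hq0 hq1 N, tsum_eq_sum (s := range (N + 1))]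
    · apply sum_congr rfl
      intro j hj
      simp only [hg]
      rw [if_pos (Nat.lt_succ_iff.mp (mem_range.mp hj))]
    · intro j hj
      rw [mem_range] at hj
      simp only [hg]
      rw [if_neg (by omega)]
  have h2 : Tendsto (fun N => ∑' j, g N j) atTop (𝓝 (∑' j : ℕ, (-1) ^ j * t j q * l⁻¹)) := by
    apply tendsto_tsum_of_dominated_convergence ((bound_summable hq0 hq1).mul_right l⁻¹)
    · intro j
      rw [← tendsto_add_atTop_iff_nat j]
      have h3 : (fun N => g (N + j) j) = fun N => ((-1) ^ j * t j q) *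
          (ph q (2 * (N + j) + 1) / (ph q N * ph q (N + 2 * j + 1))) := by
        funext N
        simp only [hg]
        rw [if_pos (by omega), Nat.add_sub_cancel, G, if_pos (by omega), t]
        have e1 : 2 * (N + j) + 1 - N = N + 2 * j + 1 := by omega
        rw [e1]; ring
      rw [h3]
      apply Tendsto.const_mul
      have a1 : Tendsto (fun N : ℕ => ph q (2 * (N + j) + 1)) atTop (𝓝 l) := by
        apply hl.comp
        apply tendsto_atTop_mono (fun N => ?_) tendsto_id
        simp only [id]; omega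
      have a2 : Tendsto (fun N : ℕ => ph q (N + 2 * j + 1)) atTop (𝓝 l) := by
        apply hl.comp
        apply tendsto_atTop_mono (fun N => ?_) tendsto_id
        simp only [id]; omega
      have a3 := a1.div (hl.mul a2) (mul_ne_zero hl0.ne' hl0.ne')
      have : l / (l * l) = l⁻¹ := by field_simp
      rw [this] at a3
      exact a3
    · refine Eventually.of_forall fun N j => ?_
      simp only [hg]
      split_ifs with h
      · have hG : |G q (2 * N + 1) (N - j)| ≤ l⁻¹ := by
          rw [G, if_pos (by omega)]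
          have p1 := ph_pos hq0 hq1 (2 * N + 1)
          have p2 := ph_pos hq0 hq1 (N - j)
          have p3 := ph_pos hq0 hq1 (2 * N + 1 - (N - j))
          rw [abs_of_nonneg (by positivity)]
          have e := ph_antitone hq0 hq1 (show 2 * N + 1 - (N - j) ≤ 2 * N + 1 by omega)
          rw [div_le_iff₀ (by positivity), inv_mul_eq_div, le_div_iff₀ hl0]
          have := hle (N - j)
          nlinarith
        have e1 : ‖(-1 : ℝ) ^ j * (2 * j + 1) * G q (2 * N + 1) (N - j) * q ^ (T j)‖ =
            t j q * |G q (2 * N + 1) (N - j)| := by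
          rw [norm_mul, norm_mul, norm_mul, norm_pow, norm_neg, norm_one, one_pow, one_mul,
            Real.norm_eq_abs, Real.norm_eq_abs, Real.norm_eq_abs, abs_of_nonneg (by positivity),
            abs_of_nonneg (a := q ^ (T j)) (by positivity), t]
          ring
        rw [e1]
        have e2 := t_le hq0 hq1 j
        have e3 := t_nonneg hq0.le j
        exact mul_le_mul e2 hG (abs_nonneg _) (by positivity)
      · rw [norm_zero]
        have : 0 < l⁻¹ := inv_pos.mpr hl0
        positivity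
  simp only [h1] at h2
  have h4 := tendsto_nhds_unique h2 (hl.pow 2)
  rw [tsum_mul_right] at h4
  have h5 : f q * l⁻¹ = l ^ 2 := h4
  have : f q = l ^ 2 * l := by rw [← h5]; field_simp
  rw [this]; ring

theorem f_pos {q : ℝ} (hq0 : 0 < q) (hq1 : q < 1) : 0 < f q := by
  obtain ⟨l, hl0, hl⟩ := exists_limit hq0 hq1
  rw [jacobi hq0 hq1 hl0 hl]; positivity

theorem f_le {q : ℝ} (hq0 : 0 < q) (hq1 : q < 1) (M : ℕ) : f q ≤ (ph q M) ^ 3 := by
  obtain ⟨l, hl0, hl⟩ := exists_limit hq0 hq1
  rw [jacobi hq0 hq1 hl0 hl]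
  exact pow_le_pow_left₀ hl0.le ((ph_antitone hq0 hq1).le_of_tendsto hl M) 3

theorem f_antitone {q r : ℝ} (hq0 : 0 < q) (hqr : q ≤ r) (hr1 : r < 1) : f r ≤ f q := by
  have hr0 : 0 < r := lt_of_lt_of_le hq0 hqr
  have hq1 : q < 1 := lt_of_le_of_lt hqr hr1
  obtain ⟨l, hl0, hl⟩ := exists_limit hq0 hq1
  obtain ⟨l', hl0', hl'⟩ := exists_limit hr0 hr1
  rw [jacobi hq0 hq1 hl0 hl, jacobi hr0 hr1 hl0' hl']
  apply pow_le_pow_left₀ hl0'.le
  apply le_of_tendsto_of_tendsto' hl' hl
  intro n
  apply Finset.prod_le_prod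
  · intro i _; exact (fac_pos hr0 hr1 i).le
  · intro i _
    have := pow_le_pow_left₀ hq0.le hqr (i + 1)
    linarith

end Pool.Agent.V1176.Th
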