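import Mathlib
import Pool.Agent.V1176.ThetaA

set_option autoImplicit false

open Finset Filter Topology

namespace Pool.Agent.V1176.Th

/-- the partial sum -/
noncomputable def s (n : ℕ) (q : ℝ) : ℝ := ∑ k ∈ range (n + 1), (-1) ^ k * t k q

/-- the tail sum starting with a positive term -/
noncomputable def Gt (M : ℕ) (q : ℝ) : ℝ := ∑' j : ℕ, (-1) ^ j * t (M + j) q

/-! ### alternating sums -/

theorem alt_antitone (J : ℕ) : ∀ a : ℕ → ℝ, (∀ j, 0 ≤ a j) → (∀ j, a (j + 1) ≤ a j) →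
    0 ≤ ∑ j ∈ range J, (-1 : ℝ) ^ j * a j ∧ ∑ j ∈ range J, (-1 : ℝ) ^ j * a j ≤ a 0 := by
  induction J with
  | zero => intro a h0 _; simpa using h0 0
  | succ J ih =>
    intro a h0 h1
    have h2 := ih (fun j => a (j + 1)) (fun j => h0 _) (fun j => h1 _)
    have h3 : ∑ j ∈ range (J + 1), (-1 : ℝ) ^ j * a j =
        a 0 - ∑ j ∈ range J, (-1 : ℝ) ^ j * a (j + 1) := by
      have h4 : ∑ j ∈ range J, (-1 : ℝ) ^ (j + 1) * a (j + 1) =
          -∑ j ∈ range J, (-1 : ℝ) ^ j * a (j + 1) := by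
        rw [← sum_neg_distrib]
        apply sum_congr rfl
        intro j _
        rw [pow_succ]; ring
      rw [sum_range_succ', h4]
      ring
    rw [h3]
    have := h1 0
    constructor <;> linarith [h2.1, h2.2]

theorem alt_monotone (a : ℕ → ℝ) (h0 : ∀ j, 0 ≤ a j) (J : ℕ) (h1 : ∀ j, j < J → a j ≤ a (j + 1)) :
    0 ≤ (-1) ^ J * ∑ j ∈ range (J + 1), (-1 : ℝ) ^ j * a j ∧
      (-1) ^ J * ∑ j ∈ range (J + 1), (-1 : ℝ) ^ j * a j ≤ a J := by
  induction J with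
  | zero => simpa using h0 0
  | succ J ih =>
    obtain ⟨h2, h3⟩ := ih (fun j hj => h1 j (by omega))
    rw [sum_range_succ, mul_add]
    have e1 : (-1 : ℝ) ^ (J + 1) * ∑ j ∈ range (J + 1), (-1 : ℝ) ^ j * a j =
        -((-1) ^ J * ∑ j ∈ range (J + 1), (-1 : ℝ) ^ j * a j) := by rw [pow_succ]; ring
    have e2 : (-1 : ℝ) ^ (J + 1) * ((-1) ^ (J + 1) * a (J + 1)) = a (J + 1) := by
      rw [← mul_assoc, ← mul_pow]; norm_num
    rw [e1, e2]
    have := h1 J (by omega)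
    constructor <;> linarith

/-! ### Abel summation -/

/-- `d_k = (k+1) q^{T_k} (1 - q^{k+1})` -/
noncomputable def d (q : ℝ) (k : ℕ) : ℝ := (k + 1) * q ^ (T k) * (1 - q ^ (k + 1))

theorem d_nonneg {q : ℝ} (hq0 : 0 < q) (hq1 : q < 1) (k : ℕ) : 0 ≤ d q k := by
  have := fac_pos hq0 hq1 k
  unfold d
  positivity

theorem abel (q : ℝ) (M J : ℕ) : ∑ j ∈ range J, (-1 : ℝ) ^ j * t (M + j) q =
    M * q ^ (T M) + ∑ j ∈ range J, (-1 : ℝ) ^ j * d q (M + j) -
      (-1) ^ J * ((M + J) * q ^ (T (M + J))) := by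
  induction J with
  | zero => simp
  | succ J ih =>
    rw [sum_range_succ, sum_range_succ, ih, t, d]
    have h : q ^ (T (M + (J + 1))) = q ^ (T (M + J)) * q ^ (M + J + 1) := by
      rw [← add_assoc, T_succ, pow_add]
    rw [h, pow_succ]
    push_cast
    ring

theorem s_abel (n : ℕ) (q : ℝ) : s n q = ∑ k ∈ range n, (-1 : ℝ) ^ k * d q k +
    (-1) ^ n * ((n + 1) * q ^ (T n)) := by
  have h := abel q 0 n
  simp only [zero_add, CharP.cast_eq_zero, zero_mul] at h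
  rw [s, sum_range_succ, h, t]
  ring

theorem Gt_summable {q : ℝ} (hq0 : 0 < q) (hq1 : q < 1) (M : ℕ) :
    Summable fun j : ℕ => (-1) ^ j * t (M + j) q := by
  apply Summable.of_norm
  have h := (summable_nat_add_iff M).mpr (t_summable hq0 hq1)
  refine h.congr ?_
  intro k
  rw [norm_mul, norm_pow, norm_neg, norm_one, one_pow, one_mul, Real.norm_eq_abs,
    abs_of_nonneg (t_nonneg hq0.le _), add_comm]

theorem f_split {q : ℝ} (hq0 : 0 < q) (hq1 : q < 1) (n : ℕ) :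
    f q = s n q + (-1) ^ (n + 1) * Gt (n + 1) q := by
  have h := (alt_summable hq0 hq1).sum_add_tsum_nat_add (n + 1)
  rw [f, ← h, s, Gt, ← tsum_mul_left]
  congr 1
  apply tsum_congr
  intro j
  rw [add_comm j (n + 1), pow_add]
  ring

theorem s_tail {q : ℝ} (hq0 : 0 < q) (hq1 : q < 1) (n : ℕ) :
    s n q = f q + (-1) ^ n * Gt (n + 1) q := by
  rw [f_split hq0 hq1 n, pow_succ]; ring

theorem Gt_tendsto {q : ℝ} (hq0 : 0 < q) (hq1 : q < 1) (M : ℕ) :
    Tendsto (fun J => ∑ j ∈ range J, (-1 : ℝ) ^ j * t (M + j) q) atTop (𝓝 (Gt M q)) :=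
  (Gt_summable hq0 hq1 M).hasSum.tendsto_sum_nat

/-- the condition `d_{k+1} ≤ d_k` -/
def Cnd (q : ℝ) (k : ℕ) : Prop := (k + 2) * q ^ (k + 1) * (1 - q ^ (k + 2)) ≤
  (k + 1) * (1 - q ^ (k + 1))

theorem d_succ_le {q : ℝ} (hq0 : 0 < q) {k : ℕ} (h : Cnd q k) : d q (k + 1) ≤ d q k := by
  unfold d
  rw [T_succ, pow_add]
  have h1 : 0 < q ^ (T k) := pow_pos hq0 _
  have h2 := mul_le_mul_of_nonneg_left h h1.le
  unfold Cnd at h
  push_cast
  calc _ = q ^ (T k) * (((k : ℝ) + 2) * q ^ (k + 1) * (1 - q ^ (k + 2))) := by ring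
    _ ≤ q ^ (T k) * (((k : ℝ) + 1) * (1 - q ^ (k + 1))) := h2
    _ = _ := by ring

theorem le_d_succ {q : ℝ} (hq0 : 0 < q) {k : ℕ} (h : ¬ Cnd q k) : d q k ≤ d q (k + 1) := by
  unfold Cnd at h
  push Not at h
  unfold d
  rw [T_succ, pow_add]
  have h1 : 0 < q ^ (T k) := pow_pos hq0 _
  have h2 := mul_le_mul_of_nonneg_left h.le h1.le
  push_cast
  calc _ = q ^ (T k) * (((k : ℝ) + 1) * (1 - q ^ (k + 1))) := by ring
    _ ≤ q ^ (T k) * (((k : ℝ) + 2) * q ^ (k + 1) * (1 - q ^ (k + 2))) := h2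
    _ = _ := by ring

theorem Cnd_succ {q : ℝ} (hq0 : 0 < q) (hq1 : q < 1) {k : ℕ} (h : Cnd q k) : Cnd q (k + 1) := by
  unfold Cnd at *
  set x := q ^ (k + 1) with hx
  have hx0 : 0 < x := pow_pos hq0 _
  have hx1 : x < 1 := pow_lt_one₀ hq0.le hq1 (Nat.succ_ne_zero k)
  have e1 : q ^ (k + 2) = q * x := by rw [hx, ← pow_succ']
  have e2 : q ^ (k + 1 + 1) = q * x := by rw [hx, ← pow_succ']
  have e3 : q ^ (k + 1 + 2) = q ^ 2 * x := by rw [hx, ← pow_add]; congr 1; ring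
  rw [e1] at h
  rw [e2, e3]
  push_cast
  have hk : (0 : ℝ) ≤ k := by positivity
  have hqx : q * x < 1 := by nlinarith
  have hy : 0 < 1 - q * x := by linarith
  -- (k+3) q x (1 - q x) ≤ (k+2) (1 - x)
  have h5 : ((k : ℝ) + 3) * q * (x * (1 - q * x)) ≤ (k + 2) * (1 - x) := by
    have h6 : (k + 2 : ℝ) * (x * (1 - q * x)) ≤ (k + 1) * (1 - x) := by linarith
    have h7 : 0 ≤ x * (1 - q * x) := by positivity
    have h8 : ((k : ℝ) + 3) * q * (x * (1 - q * x)) ≤ ((k : ℝ) + 3) * (x * (1 - q * x)) := by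
      have : ((k : ℝ) + 3) * q ≤ ((k : ℝ) + 3) * 1 := by
        apply mul_le_mul_of_nonneg_left hq1.le; positivity
      rw [mul_one] at this
      exact mul_le_mul_of_nonneg_right this h7
    have h9 : (k + 2 : ℝ) * (((k : ℝ) + 3) * (x * (1 - q * x))) ≤ (k + 2) * ((k + 2) * (1 - x)) := by
      calc (k + 2 : ℝ) * (((k : ℝ) + 3) * (x * (1 - q * x))) =
            (k + 3) * ((k + 2) * (x * (1 - q * x))) := by ring
        _ ≤ (k + 3) * ((k + 1) * (1 - x)) := mul_le_mul_of_nonneg_left h6 (by positivity)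
        _ ≤ (k + 2) * ((k + 2) * (1 - x)) := by nlinarith
    have := le_of_mul_le_mul_left h9 (by positivity)
    linarith
  -- multiply by (1-x)
  have h10 : (1 - q ^ 2 * x) * (1 - x) ≤ (1 - q * x) ^ 2 := by nlinarith [mul_nonneg hx0.le (sq_nonneg (1 - q))]
  have h11 : 0 < 1 - x := by linarith
  have h12 : ((k : ℝ) + 3) * (q * x) * (1 - q ^ 2 * x) * (1 - x) ≤ (k + 2) * (1 - q * x) * (1 - x) := by
    calc ((k : ℝ) + 3) * (q * x) * (1 - q ^ 2 * x) * (1 - x) =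
          ((k : ℝ) + 3) * (q * x) * ((1 - q ^ 2 * x) * (1 - x)) := by ring
      _ ≤ ((k : ℝ) + 3) * (q * x) * (1 - q * x) ^ 2 := mul_le_mul_of_nonneg_left h10 (by positivity)
      _ = (((k : ℝ) + 3) * q * (x * (1 - q * x))) * (1 - q * x) := by ring
      _ ≤ ((k + 2) * (1 - x)) * (1 - q * x) := mul_le_mul_of_nonneg_right h5 hy.le
      _ = _ := by ring
  have := le_of_mul_le_mul_right h12 h11
  calc _ = ((k : ℝ) + 3) * (q * x) * (1 - q ^ 2 * x) := by ring
    _ ≤ (k + 2) * (1 - q * x) := this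
    _ = _ := by ring

theorem Cnd_of_le {q : ℝ} (hq0 : 0 < q) (hq1 : q < 1) {k M : ℕ} (h : Cnd q k) (hkM : k ≤ M) :
    Cnd q M := by
  induction M, hkM using Nat.le_induction with
  | base => exact h
  | succ M _ ih => exact Cnd_succ hq0 hq1 ih

/-- Case A -/
theorem Gt_ge {q : ℝ} (hq0 : 0 < q) (hq1 : q < 1) {M : ℕ} (h : Cnd q M) : M * q ^ (T M) ≤ Gt M q := by
  have h1 := Gt_tendsto hq0 hq1 M
  have h2 : Tendsto (fun J : ℕ => (-1 : ℝ) ^ J * ((M + J) * q ^ (T (M + J)))) atTop (𝓝 0) := by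
    have h3 := (t_summable hq0 hq1).tendsto_atTop_zero
    have h4 : Tendsto (fun J : ℕ => t (J + M) q) atTop (𝓝 0) :=
      (tendsto_add_atTop_iff_nat M).mpr h3
    apply squeeze_zero_norm _ h4
    intro J
    rw [norm_mul, norm_pow, norm_neg, norm_one, one_pow, one_mul, Real.norm_eq_abs,
      abs_of_nonneg (by positivity), t, add_comm J M]
    push_cast
    have : 0 < q ^ (T (M + J)) := pow_pos hq0 _
    nlinarith [mul_nonneg (show (0 : ℝ) ≤ M + J by positivity) this.le]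
  have h5 := h1.add h2
  rw [add_zero] at h5
  refine ge_of_tendsto' h5 fun J => ?_
  rw [abel]
  have h6 := (alt_antitone J (fun j => d q (M + j)) (fun j => d_nonneg hq0 hq1 _)
    (fun j => d_succ_le (k := M + j) hq0 (Cnd_of_le hq0 hq1 h (Nat.le_add_right M j)))).1
  linarith

/-- Case B: `q^{M+1}` is large -/
theorem large_of_not_Cnd {q : ℝ} (hq0 : 0 < q) (hq1 : q < 1) {M : ℕ} (hM : 3 ≤ M) (h : ¬ Cnd q M) :
    1 / 2 < q ^ (M + 1) := by
  by_contra hcon
  push Not at hcon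
  apply h
  unfold Cnd
  set x := q ^ (M + 1) with hx
  have hx0 : 0 < x := pow_pos hq0 _
  have e1 : q ^ (M + 2) = q * x := by rw [hx, ← pow_succ']
  rw [e1]
  -- (1 - q) x (M+1) ≤ 1 - x
  have h1 : (1 - q) * ((M + 1) * x) ≤ 1 - x := by
    have h2 : 1 - x = (1 - q) * ∑ i ∈ range (M + 1), q ^ i := by
      rw [hx]; exact (mul_neg_geom_sum q (M + 1)).symm
    rw [h2]
    apply mul_le_mul_of_nonneg_left _ (by linarith)
    have h3 : ((M + 1 : ℕ) : ℝ) * x = ∑ i ∈ range (M + 1), x := by simp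
    push_cast at h3
    rw [h3]
    apply sum_le_sum
    intro i hi
    rw [hx]
    exact pow_le_pow_of_le_one hq0.le hq1.le (mem_range.mp hi).le
  have hM' : (3 : ℝ) ≤ M := by exact_mod_cast hM
  have h4 : (M + 1 : ℝ) * (x * (1 - q * x)) ≤ (M + 2) * (x * (1 - x)) := by
    nlinarith [mul_le_mul_of_nonneg_left h1 hx0.le]
  have h5 : (M + 1 : ℝ) * ((M + 2) * x * (1 - q * x)) ≤ (M + 1) * ((M + 1) * (1 - x)) := by
    calc (M + 1 : ℝ) * ((M + 2) * x * (1 - q * x)) = (M + 2) * ((M + 1) * (x * (1 - q * x))) := by ring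
      _ ≤ (M + 2) * ((M + 2) * (x * (1 - x))) := mul_le_mul_of_nonneg_left h4 (by positivity)
      _ = (M + 2) ^ 2 * x * (1 - x) := by ring
      _ ≤ (M + 1) ^ 2 * (1 - x) := by
        apply mul_le_mul_of_nonneg_right _ (by linarith)
        nlinarith
      _ = _ := by ring
  exact le_of_mul_le_mul_left h5 (by positivity)

/-- Case B: sign of the partial sum -/
theorem sign_caseB {q : ℝ} (hq0 : 0 < q) (hq1 : q < 1) {n : ℕ} (hn : 2 ≤ n) (h : ¬ Cnd q (n + 1)) :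
    0 < (-1) ^ n * s n q := by
  have hx := large_of_not_Cnd hq0 hq1 (by omega : 3 ≤ n + 1) h
  have hqn : 1 / 2 < q ^ n := lt_of_lt_of_le hx (pow_le_pow_of_le_one hq0.le hq1.le (by omega))
  obtain ⟨m, rfl⟩ : ∃ m, n = m + 1 := ⟨n - 1, by omega⟩
  have hmono : ∀ j, j < m → d q j ≤ d q (j + 1) := by
    intro j hj
    apply le_d_succ hq0
    intro hc
    exact h (Cnd_of_le hq0 hq1 hc (by omega))
  obtain ⟨-, h2⟩ := alt_monotone (d q) (d_nonneg hq0 hq1) m hmono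
  rw [s_abel, mul_add]
  have e1 : (-1 : ℝ) ^ (m + 1) * ∑ k ∈ range (m + 1), (-1 : ℝ) ^ k * d q k =
      -((-1) ^ m * ∑ k ∈ range (m + 1), (-1 : ℝ) ^ k * d q k) := by rw [pow_succ]; ring
  have hone : (-1 : ℝ) ^ (m + 1) * (-1) ^ (m + 1) = 1 := by rw [← mul_pow]; norm_num
  have e2' : (-1 : ℝ) ^ (m + 1) * ((-1) ^ (m + 1) * ((((m + 1 : ℕ) : ℝ) + 1) * q ^ (T (m + 1)))) =
      (m + 2) * q ^ (T (m + 1)) := by
    push_cast
    linear_combination ((m : ℝ) + 2) * q ^ (T (m + 1)) * hone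
  rw [e1, e2']
  have h3 : d q m < (m + 2) * q ^ (T (m + 1)) := by
    unfold d
    rw [T_succ, pow_add q (T m) (m + 1)]
    have h4 : 0 < q ^ (T m) := pow_pos hq0 _
    have hm : (0 : ℝ) ≤ m := by positivity
    have h5 : ((m : ℝ) + 1) * (1 - q ^ (m + 1)) < (m + 2) * q ^ (m + 1) := by nlinarith
    calc ((m : ℝ) + 1) * q ^ (T m) * (1 - q ^ (m + 1)) =
          q ^ (T m) * (((m : ℝ) + 1) * (1 - q ^ (m + 1))) := by ring
      _ < q ^ (T m) * ((m + 2) * q ^ (m + 1)) := mul_lt_mul_of_pos_left h5 h4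
      _ = _ := by ring
  linarith

/-- `q ≥ 1` -/
theorem sign_ge_one {q : ℝ} (hq1 : 1 ≤ q) {n : ℕ} (hn : 1 ≤ n) : 0 < (-1) ^ n * s n q := by
  have hq0 : 0 < q := by linarith
  obtain ⟨m, rfl⟩ : ∃ m, n = m + 1 := ⟨n - 1, by omega⟩
  have hmono : ∀ j, t j q < t (j + 1) q := by
    intro j
    unfold t
    have h1 : q ^ (T j) ≤ q ^ (T (j + 1)) := pow_le_pow_right₀ hq1 (by rw [T_succ]; omega)
    have h2 : 0 < q ^ (T j) := pow_pos hq0 _
    push_cast
    nlinarith [mul_nonneg (show (0 : ℝ) ≤ j by positivity) (sub_nonneg.mpr h1)]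
  obtain ⟨-, h2⟩ := alt_monotone (fun k => t k q) (fun k => t_nonneg hq0.le k) m
    (fun j _ => (hmono j).le)
  rw [s, sum_range_succ, mul_add]
  have e1 : (-1 : ℝ) ^ (m + 1) * ∑ k ∈ range (m + 1), (-1 : ℝ) ^ k * t k q =
      -((-1) ^ m * ∑ k ∈ range (m + 1), (-1 : ℝ) ^ k * t k q) := by rw [pow_succ]; ring
  have e2 : (-1 : ℝ) ^ (m + 1) * ((-1) ^ (m + 1) * t (m + 1) q) = t (m + 1) q := by
    rw [← mul_assoc, ← mul_pow]; norm_num
  rw [e1, e2]
  have := hmono m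
  linarith

/-- even `n`: positivity -/
theorem even_pos {n : ℕ} (hn : Even n) (hn2 : 2 ≤ n) {q : ℝ} (hq0 : 0 ≤ q) : 0 < s n q := by
  have hs : (-1 : ℝ) ^ n = 1 := hn.neg_one_pow
  rcases eq_or_lt_of_le hq0 with h0 | h0
  · rw [← h0, s, sum_range_succ', sum_eq_zero]
    · simp [t, T]
    · intro k _
      have : T (k + 1) ≠ 0 := by rw [T_succ]; omega
      simp [t, this]
  rcases le_or_gt 1 q with h1 | h1
  · have := sign_ge_one h1 (by omega : 1 ≤ n)
    rwa [hs, one_mul] at this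
  by_cases hc : Cnd q (n + 1)
  · have h2 := Gt_ge h0 h1 hc
    rw [s_tail h0 h1, hs, one_mul]
    have h3 := f_pos h0 h1
    have h4 : 0 ≤ ((n + 1 : ℕ) : ℝ) * q ^ (T (n + 1)) := by positivity
    linarith
  · have := sign_caseB h0 h1 hn2 hc
    rwa [hs, one_mul] at this

/-- odd `n`: negativity for `q^{n+1} ≥ 1/3` -/
theorem odd_neg {n : ℕ} (hn : Odd n) (hn3 : 3 ≤ n) {q : ℝ} (hq0 : 0 < q) (hq : 1 / 3 ≤ q ^ (n + 1)) :
    s n q < 0 := by
  have hs : (-1 : ℝ) ^ n = -1 := hn.neg_one_pow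
  rcases le_or_gt 1 q with h1 | h1
  · have := sign_ge_one h1 (by omega : 1 ≤ n)
    rw [hs] at this
    linarith
  by_cases hc : Cnd q (n + 1)
  · have h2 := Gt_ge hq0 h1 hc
    rw [s_tail hq0 h1, hs]
    have h3 := f_le hq0 h1 (n + 1)
    have h4 : (ph q (n + 1)) ^ 3 ≤ q ^ (T (n + 1)) := by
      have hT : ∀ m, q ^ (T m) = ∏ i ∈ range m, q ^ (i + 1) := by
        intro m
        induction m with
        | zero => simp [T]
        | succ m ih => rw [T_succ, pow_add, ih, prod_range_succ]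
      rw [hT, ph, ← prod_pow]
      apply Finset.prod_le_prod
      · intro i _
        have := fac_pos hq0 h1 i
        positivity
      · intro i hi
        have h5 : 1 / 3 ≤ q ^ (i + 1) := hq.trans
          (pow_le_pow_of_le_one hq0.le h1.le (by have := mem_range.mp hi; omega))
        have h6 := fac_pos hq0 h1 i
        have h7 : (1 - q ^ (i + 1)) ^ 3 ≤ (2 / 3) ^ 3 := pow_le_pow_left₀ h6.le (by linarith) 3
        have h8 : ((2 : ℝ) / 3) ^ 3 ≤ 1 / 3 := by norm_num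
        linarith
    have h5 : 0 < q ^ (T (n + 1)) := pow_pos hq0 _
    have hn' : (3 : ℝ) ≤ n := by exact_mod_cast hn3
    push_cast at h2
    nlinarith
  · have := sign_caseB hq0 h1 (by omega : 2 ≤ n) hc
    rw [hs] at this
    linarith

/-! ### region 3 -/

/-- `h_k = t_k - t_{k+1}` -/
noncomputable def hk (k : ℕ) (q : ℝ) : ℝ := t k q - t (k + 1) q

theorem hasDerivAt_t (k : ℕ) (q : ℝ) :
    HasDerivAt (t k) ((2 * k + 1) * ((T k : ℝ) * q ^ (T k - 1))) q := by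
  unfold t
  exact (hasDerivAt_pow (T k) q).const_mul _

theorem deriv_hk_pos {k : ℕ} (hk4 : 2 ≤ k) {q : ℝ} (hq0 : 0 < q) (hq : q ^ (k + 1) ≤ 1 / 3) :
    0 < (2 * (k : ℝ) + 1) * ((T k : ℝ) * q ^ (T k - 1)) -
      (2 * ((k + 1 : ℕ) : ℝ) + 1) * ((T (k + 1) : ℝ) * q ^ (T (k + 1) - 1)) := by
  have hT := two_T k
  have hT1 := two_T (k + 1)
  have hTpos : 1 ≤ T k := le_trans (by omega) (le_T k)
  have e1 : T (k + 1) - 1 = (T k - 1) + (k + 1) := by rw [T_succ]; omega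
  rw [e1, pow_add]
  have h1 : (2 : ℝ) * T k = k * (k + 1) := by exact_mod_cast hT
  have h2 : (2 : ℝ) * T (k + 1) = (k + 1) * (k + 2) := by
    have : 2 * T (k + 1) = (k + 1) * (k + 2) := by rw [hT1]
    exact_mod_cast this
  have h3 : 0 < q ^ (T k - 1) := pow_pos hq0 _
  have hkr : (2 : ℝ) ≤ k := by exact_mod_cast hk4
  have h4 : (2 * (k : ℝ) + 3) * T (k + 1) * q ^ (k + 1) < (2 * k + 1) * T k := by
    have h5 : (2 * (k : ℝ) + 3) * T (k + 1) * q ^ (k + 1) ≤ (2 * (k : ℝ) + 3) * T (k + 1) * (1 / 3) :=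
      mul_le_mul_of_nonneg_left hq (by positivity)
    have h6 : (2 * (k : ℝ) + 3) * T (k + 1) * (1 / 3) < (2 * k + 1) * T k := by
      have h7 : (T k : ℝ) = k * (k + 1) / 2 := by linarith
      have h8 : (T (k + 1) : ℝ) = (k + 1) * (k + 2) / 2 := by linarith
      rw [h7, h8]
      nlinarith [mul_pos (show (0 : ℝ) < k + 1 by positivity) (show (0 : ℝ) < 2 * k ^ 2 - 2 * k - 3 by nlinarith)]
    linarith
  push_cast
  nlinarith [mul_pos h3 (sub_pos.mpr h4)]

theorem hk_monotone {k : ℕ} (hk4 : 2 ≤ k) {a b : ℝ} (ha0 : 0 < a) (hab : a ≤ b)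
    (hb : b ^ (k + 1) ≤ 1 / 3) : hk k a ≤ hk k b := by
  have hm : MonotoneOn (hk k) (Set.Icc a b) := by
    apply monotoneOn_of_deriv_nonneg (convex_Icc _ _)
    · intro x _
      exact ((hasDerivAt_t k x).sub (hasDerivAt_t (k + 1) x)).continuousAt.continuousWithinAt
    · intro x _
      exact ((hasDerivAt_t k x).sub (hasDerivAt_t (k + 1) x)).differentiableAt.differentiableWithinAt
    · intro x hx
      rw [interior_Icc] at hx
      have hd : HasDerivAt (hk k) _ x := (hasDerivAt_t k x).sub (hasDerivAt_t (k + 1) x)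
      rw [hd.deriv]
      apply (deriv_hk_pos hk4 (lt_trans ha0 hx.1) _).le
      exact (pow_le_pow_left₀ (lt_trans ha0 hx.1).le hx.2.le _).trans hb
  exact hm (Set.left_mem_Icc.mpr hab) (Set.right_mem_Icc.mpr hab) hab

theorem Gt_mono {M : ℕ} (hM : 2 ≤ M) {a b : ℝ} (ha0 : 0 < a) (hab : a ≤ b) (hb1 : b < 1)
    (hb : b ^ (M + 1) ≤ 1 / 3) : Gt M a ≤ Gt M b := by
  have ha1 : a < 1 := lt_of_le_of_lt hab hb1
  have hb0 : 0 < b := lt_of_lt_of_le ha0 hab
  have h2 : Tendsto (fun J : ℕ => 2 * J) atTop atTop :=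
    tendsto_atTop_mono (fun n => by simp only [id]; omega) tendsto_id
  have ta := (Gt_tendsto ha0 ha1 M).comp h2
  have tb := (Gt_tendsto hb0 hb1 M).comp h2
  refine le_of_tendsto_of_tendsto' ta tb fun J => ?_
  simp only [Function.comp]
  have hpair : ∀ q : ℝ, ∑ j ∈ range (2 * J), (-1 : ℝ) ^ j * t (M + j) q =
      ∑ i ∈ range J, hk (M + 2 * i) q := by
    intro q
    induction J with
    | zero => simp
    | succ J ih =>
      rw [show 2 * (J + 1) = 2 * J + 1 + 1 by ring, sum_range_succ, sum_range_succ, ih,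
        sum_range_succ, hk, pow_succ, pow_mul]
      norm_num
      rw [add_assoc M]
      ring
  rw [hpair, hpair]
  apply sum_le_sum
  intro i _
  apply hk_monotone (by omega) ha0 hab
  exact (pow_le_pow_of_le_one hb0.le hb1.le (by omega)).trans hb

theorem Gt_succ {q : ℝ} (hq0 : 0 < q) (hq1 : q < 1) (M : ℕ) : Gt M q = t M q - Gt (M + 1) q := by
  unfold Gt
  rw [(Gt_summable hq0 hq1 M).tsum_eq_zero_add]
  simp only [pow_zero, one_mul, add_zero]
  rw [sub_eq_add_neg, ← tsum_neg]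
  congr 1
  apply tsum_congr
  intro j
  rw [pow_succ, add_assoc, add_comm 1 j]
  ring

/-- for odd `n`, `s_n + h_{n+1}` is antitone in region 3 -/
theorem s_add_antitone {n : ℕ} (hn : Odd n) (hn3 : 3 ≤ n) {a b : ℝ} (ha0 : 0 < a) (hab : a ≤ b)
    (hb1 : b < 1) (hb : b ^ (n + 1) ≤ 1 / 3) :
    s n b + hk (n + 1) b ≤ s n a + hk (n + 1) a := by
  have hs : (-1 : ℝ) ^ n = -1 := hn.neg_one_pow
  have ha1 : a < 1 := lt_of_le_of_lt hab hb1
  have hb0 : 0 < b := lt_of_lt_of_le ha0 hab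
  have key : ∀ q : ℝ, 0 < q → q < 1 → s n q + hk (n + 1) q = f q - Gt (n + 3) q := by
    intro q h0 h1
    rw [s_tail h0 h1, hs, Gt_succ h0 h1 (n + 1), Gt_succ h0 h1 (n + 1 + 1), hk]
    ring
  rw [key a ha0 ha1, key b hb0 hb1]
  have h1 := f_antitone ha0 hab hb1
  have h2 := Gt_mono (M := n + 3) (by omega) ha0 hab hb1
    ((pow_le_pow_of_le_one hb0.le hb1.le (by omega)).trans hb)
  linarith

theorem hk_strict {k : ℕ} (hk4 : 2 ≤ k) {a b : ℝ} (ha0 : 0 < a) (hab : a < b)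
    (hb : b ^ (k + 1) ≤ 1 / 3) : hk k a < hk k b := by
  have hm : StrictMonoOn (hk k) (Set.Icc a b) := by
    apply strictMonoOn_of_deriv_pos (convex_Icc _ _)
    · intro x _
      exact ((hasDerivAt_t k x).sub (hasDerivAt_t (k + 1) x)).continuousAt.continuousWithinAt
    · intro x hx
      rw [interior_Icc] at hx
      have hd : HasDerivAt (hk k) _ x := (hasDerivAt_t k x).sub (hasDerivAt_t (k + 1) x)
      rw [hd.deriv]
      apply deriv_hk_pos hk4 (lt_trans ha0 hx.1) _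
      exact (pow_le_pow_left₀ (lt_trans ha0 hx.1).le hx.2.le _).trans hb
  exact hm (Set.left_mem_Icc.mpr hab.le) (Set.right_mem_Icc.mpr hab.le) hab

theorem lt_one_of_pow {n : ℕ} {q : ℝ} (_hq0 : 0 < q) (hq : q ^ (n + 1) ≤ 1 / 3) : q < 1 := by
  by_contra h
  push Not at h
  have := one_le_pow₀ h (n := n + 1)
  linarith

/-- for odd `n` there is at most one positive zero -/
theorem odd_unique {n : ℕ} (hn : Odd n) (hn3 : 3 ≤ n) {a b : ℝ} (ha0 : 0 < a) (hb0 : 0 < b)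
    (ha : s n a = 0) (hb : s n b = 0) : a = b := by
  have hlt : ∀ x : ℝ, 0 < x → s n x = 0 → x ^ (n + 1) < 1 / 3 := by
    intro x hx h
    by_contra hcon
    push Not at hcon
    have := odd_neg hn hn3 hx hcon
    linarith
  have main : ∀ x y : ℝ, 0 < x → x < y → s n x = 0 → s n y = 0 → False := by
    intro x y hx hxy h1 h2
    have hy := hlt y (lt_trans hx hxy) h2
    have hy1 : y < 1 := lt_one_of_pow (lt_trans hx hxy) hy.le
    have h3 := s_add_antitone hn hn3 hx hxy.le hy1 hy.le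
    have h4 := hk_strict (k := n + 1) (by omega) hx hxy
      ((pow_le_pow_of_le_one (lt_trans hx hxy).le hy1.le (by omega)).trans hy.le)
    linarith
  rcases lt_trichotomy a b with h | h | h
  · exact (main a b ha0 h ha hb).elim
  · exact h
  · exact (main b a hb0 h hb ha).elim

theorem hasDerivAt_s (n : ℕ) (q : ℝ) : HasDerivAt (s n)
    (∑ k ∈ range (n + 1), (-1 : ℝ) ^ k * ((2 * k + 1) * ((T k : ℝ) * q ^ (T k - 1)))) q := by
  unfold s
  apply HasDerivAt.fun_sum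
  intro k _
  exact (hasDerivAt_t k q).const_mul _

/-- the zero is simple -/
theorem odd_simple {n : ℕ} (hn : Odd n) (hn3 : 3 ≤ n) {a : ℝ} (ha0 : 0 < a) (ha : s n a = 0) :
    deriv (s n) a < 0 := by
  have hlt : a ^ (n + 1) < 1 / 3 := by
    by_contra hcon
    push Not at hcon
    have := odd_neg hn hn3 ha0 hcon
    linarith
  have ha1 : a < 1 := lt_one_of_pow ha0 hlt.le
  -- a neighbourhood in which the bound holds
  have hev : ∀ᶠ b : ℝ in 𝓝 a, b ^ (n + 1) < 1 / 3 ∧ 0 < b := by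
    have h1 : ContinuousAt (fun b : ℝ => b ^ (n + 1)) a := by fun_prop
    exact (h1.eventually_lt continuousAt_const hlt).and (eventually_gt_nhds ha0)
  -- the function F = s_n + h_{n+1}
  have hd1 := (hasDerivAt_s n a)
  have hd2 : HasDerivAt (hk (n + 1)) _ a := (hasDerivAt_t (n + 1) a).sub (hasDerivAt_t (n + 1 + 1) a)
  have hdF := hd1.add hd2
  have hpos := deriv_hk_pos (k := n + 1) (by omega) ha0
    ((pow_le_pow_of_le_one ha0.le ha1.le (by omega : n + 1 ≤ n + 1 + 1)).trans hlt.le)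
  -- nonpositivity of the derivative of F
  have hnonpos : (∑ k ∈ range (n + 1), (-1 : ℝ) ^ k * ((2 * k + 1) * ((T k : ℝ) * a ^ (T k - 1)))) +
      ((2 * ((n + 1 : ℕ) : ℝ) + 1) * ((T (n + 1) : ℝ) * a ^ (T (n + 1) - 1)) -
      (2 * ((n + 1 + 1 : ℕ) : ℝ) + 1) * ((T (n + 1 + 1) : ℝ) * a ^ (T (n + 1 + 1) - 1))) ≤ 0 := by
    have hslope := hdF.tendsto_slope
    have h1 : Tendsto (slope (s n + hk (n + 1)) a) (𝓝[>] a) (𝓝 _) :=
      hslope.mono_left (nhdsWithin_mono _ (fun x hx => ne_of_gt hx))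
    refine le_of_tendsto h1 ?_
    have hev' : ∀ᶠ b : ℝ in 𝓝[>] a, b ^ (n + 1) < 1 / 3 ∧ 0 < b := nhdsWithin_le_nhds hev
    filter_upwards [hev', self_mem_nhdsWithin] with b hb hab
    have hab' : a < b := hab
    rw [slope_def_field]
    apply div_nonpos_of_nonpos_of_nonneg
    · have := s_add_antitone hn hn3 ha0 hab'.le (lt_one_of_pow hb.2 hb.1.le) hb.1.le
      simp only [Pi.add_apply]
      linarith
    · linarith
  rw [hd1.deriv]
  linarith

theorem odd_exists {n : ℕ} (hn : Odd n) (hn3 : 3 ≤ n) : ∃ a : ℝ, 0 < a ∧ s n a = 0 := by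
  have h1 : s n 1 < 0 := odd_neg hn hn3 one_pos (by simp; norm_num)
  have h0 : s n 0 = 1 := by
    rw [s, sum_range_succ', sum_eq_zero]
    · simp [t, T]
    · intro k _
      have : T (k + 1) ≠ 0 := by rw [T_succ]; omega
      simp [t, this]
  have hcont : Continuous (s n) := by
    unfold s t
    fun_prop
  have := intermediate_value_Icc' (zero_le_one) hcont.continuousOn (f := s n)
  have hmem : (0 : ℝ) ∈ Set.Icc (s n 1) (s n 0) := ⟨h1.le, by rw [h0]; norm_num⟩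
  obtain ⟨a, ha, ha'⟩ := this hmem
  refine ⟨a, lt_of_le_of_ne ha.1 ?_, ha'⟩
  rintro rfl
  rw [h0] at ha'
  norm_num at ha'

end Pool.Agent.V1176.Th
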