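import Mathlib
import Pool.Agent.V1176.ThetaB

set_option autoImplicit false

open Polynomial Finset

namespace Pool.Agent.V1176.Th

/-- `p_n(z) = ∑_{j ≤ n} (-1)^j (2j+1) z^{j²+j}` -/
noncomputable def p (n : ℕ) : ℝ[X] :=
  ∑ j ∈ range (n + 1), C ((-1 : ℝ) ^ j * (2 * (j : ℝ) + 1)) * X ^ (j ^ 2 + j)

theorem p_eval (n : ℕ) (x : ℝ) : (p n).eval x = s n (x ^ 2) := by
  rw [p, eval_finsetSum, s]
  apply sum_congr rfl
  intro j _
  have h : j ^ 2 + j = 2 * T j := by rw [two_T]; ring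
  simp only [eval_mul, eval_C, eval_pow, eval_X]
  rw [h, pow_mul, t]
  ring

theorem p_deriv_eval (n : ℕ) (x : ℝ) :
    (derivative (p n)).eval x = deriv (s n) (x ^ 2) * (2 * x) := by
  have h1 : HasDerivAt (fun y => (p n).eval y) ((derivative (p n)).eval x) x := (p n).hasDerivAt x
  have h2 : HasDerivAt (s n) (deriv (s n) (x ^ 2)) (x ^ 2) := by
    have := hasDerivAt_s n (x ^ 2)
    rwa [this.deriv]
  have h3 : HasDerivAt (fun y : ℝ => y ^ 2) (2 * x) x := by
    simpa using hasDerivAt_pow 2 x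
  have h4 : HasDerivAt (s n ∘ fun y : ℝ => y ^ 2) (deriv (s n) (x ^ 2) * (2 * x)) x :=
    HasDerivAt.comp (h₂ := s n) (h := fun y : ℝ => y ^ 2) x h2 h3
  have h5 : (fun y => (p n).eval y) = s n ∘ fun y : ℝ => y ^ 2 := by
    funext y
    rw [Function.comp, p_eval]
  rw [h5] at h1
  exact h1.unique h4

theorem even_no_zero {n : ℕ} (hn : Even n) (hn2 : 2 ≤ n) (x : ℝ) : (p n).eval x ≠ 0 := by
  rw [p_eval]
  exact (even_pos hn hn2 (sq_nonneg x)).ne'

theorem odd_two_zeros {n : ℕ} (hn : Odd n) (hn3 : 3 ≤ n) :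
    ∃ x₀ : ℝ, 0 < x₀ ∧ (p n).roots = {x₀, -x₀} := by
  obtain ⟨a, ha0, ha⟩ := odd_exists hn hn3
  refine ⟨Real.sqrt a, Real.sqrt_pos.mpr ha0, ?_⟩
  have hs0 : 0 < Real.sqrt a := Real.sqrt_pos.mpr ha0
  have hsq : Real.sqrt a ^ 2 = a := Real.sq_sqrt ha0.le
  have hz : (p n).eval 0 = 1 := by
    rw [p_eval, s, sum_range_succ', sum_eq_zero]
    · simp [t, T]
    · intro k _
      have : T (k + 1) ≠ 0 := by rw [T_succ]; omega
      simp [t, this]
  have hp0 : p n ≠ 0 := by
    intro h; rw [h] at hz; simp at hz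
  have hroot : ∀ x : ℝ, (p n).eval x = 0 → x = Real.sqrt a ∨ x = -Real.sqrt a := by
    intro x hx
    have hx0 : x ≠ 0 := by rintro rfl; rw [hz] at hx; exact one_ne_zero hx
    rw [p_eval] at hx
    have h1 : x ^ 2 = a := odd_unique hn hn3 (by positivity) ha0 hx ha
    rw [← hsq] at h1
    exact sq_eq_sq_iff_eq_or_eq_neg.mp h1
  have hnd : (p n).roots.Nodup := by
    rw [Multiset.nodup_iff_count_le_one]
    intro x
    rw [count_roots]
    by_contra hcon
    push Not at hcon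
    rw [one_lt_rootMultiplicity_iff_isRoot hp0] at hcon
    obtain ⟨h2, h1⟩ := hcon
    have hx0 : x ≠ 0 := by
      rintro rfl
      have h2' : (p n).eval 0 = 0 := h2
      rw [hz] at h2'; exact one_ne_zero h2'
    have h1' : (derivative (p n)).eval x = 0 := h1
    have h2' : (p n).eval x = 0 := h2
    rw [p_deriv_eval] at h1'
    rw [p_eval] at h2'
    have h3 := odd_simple hn hn3 (by positivity) h2'
    rcases mul_eq_zero.mp h1' with h4 | h4
    · linarith
    · exact hx0 (by linarith)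
  have hnd2 : ({Real.sqrt a, -Real.sqrt a} : Multiset ℝ).Nodup := by
    simp
    intro h
    linarith
  rw [Multiset.Nodup.ext hnd hnd2]
  intro x
  rw [mem_roots hp0, IsRoot.def]
  simp only [Multiset.insert_eq_cons, Multiset.mem_cons, Multiset.mem_singleton]
  constructor
  · exact hroot x
  · rintro (rfl | rfl)
    · rw [p_eval, hsq, ha]
    · rw [p_eval, neg_sq, hsq, ha]

end Pool.Agent.V1176.Th
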