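import Mathlib
import Pool.Agent.V1176.RR

set_option autoImplicit false

open Polynomial

namespace Pool.Agent.V1176

theorem im_sum_inv_le {s : Multiset ℂ} (hs : ∀ w ∈ s, w.im = 0) {z : ℂ} (_hz : z.im ≠ 0) :
    z.im * ((s.map fun w => 1 / (z - w)).sum).im ≤ 0 ∧
      (s ≠ 0 → z.im * ((s.map fun w => 1 / (z - w)).sum).im < 0) := by
  induction s using Multiset.induction_on with
  | empty => simp
  | cons a s ih =>
    have ha : a.im = 0 := hs a (Multiset.mem_cons_self a s)
    have ih' := (ih fun w hw => hs w (Multiset.mem_cons_of_mem hw)).1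
    have h1 : z.im * (1 / (z - a)).im < 0 := by
      have hne : z - a ≠ 0 := by
        intro h
        have : z.im - a.im = 0 := by rw [← Complex.sub_im, h]; simp
        rw [ha] at this
        exact _hz (by linarith)
      have hn : 0 < Complex.normSq (z - a) := Complex.normSq_pos.mpr hne
      rw [one_div, Complex.inv_im, Complex.sub_im, ha, sub_zero]
      rw [neg_div, mul_neg, neg_lt_zero, ← mul_div_assoc]
      have : 0 < z.im * z.im := mul_self_pos.mpr _hz
      positivity
    rw [Multiset.map_cons, Multiset.sum_cons, Complex.add_im, mul_add]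
    exact ⟨by linarith, fun _ => by linarith⟩

/-- Roots of the complexification of a real-rooted polynomial. -/
theorem RR.roots_im {f : ℝ[X]} (hf : RR f) : ∀ w ∈ (f.map (algebraMap ℝ ℂ)).roots, w.im = 0 := by
  intro w hw
  rcases hf with rfl | h
  · simp at hw
  · have h0 : (f.map (algebraMap ℝ ℂ)) ≠ 0 := fun h => by simp [h] at hw
    have h1 : (f.map (algebraMap ℝ ℂ)).eval w = 0 := (mem_roots h0).mp hw
    rw [eval_map_algebraMap] at h1
    exact h w h1

theorem aeval_logDeriv {f : ℝ[X]} {z : ℂ} (hz : aeval z f ≠ 0) :
    aeval z (derivative f) / aeval z f =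
      ((f.map (algebraMap ℝ ℂ)).roots.map fun w => 1 / (z - w)).sum := by
  have h := (IsAlgClosed.splits (f.map (algebraMap ℝ ℂ))).eval_derivative_div_eval_of_ne_zero
    (x := z) (by rwa [eval_map_algebraMap])
  rw [derivative_map, eval_map_algebraMap, eval_map_algebraMap] at h
  exact h

/-- The derivative of a real-rooted polynomial is real-rooted. -/
theorem RR.derivative {f : ℝ[X]} (hf : RR f) : RR (derivative f) := by
  by_cases hd : (Polynomial.derivative f) = 0
  · left; exact hd
  right
  intro z hz
  by_contra him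
  have hf0 : f ≠ 0 := by rintro rfl; simp at hd
  have hfz : aeval z f ≠ 0 := by
    intro h
    rcases hf with h' | h'
    · exact hf0 h'
    · exact him (h' z h)
  have h1 := aeval_logDeriv hfz
  rw [hz, zero_div] at h1
  have h2 := (im_sum_inv_le hf.roots_im him).2
  rw [← h1] at h2
  simp only [Complex.zero_im, mul_zero, lt_irrefl, imp_false, not_not] at h2
  apply hd
  have h3 : (f.map (algebraMap ℝ ℂ)).natDegree = 0 := by
    rw [(IsAlgClosed.splits (f.map (algebraMap ℝ ℂ))).natDegree_eq_card_roots, h2]; simp
  rw [natDegree_map] at h3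
  rw [natDegree_eq_zero] at h3
  obtain ⟨c, rfl⟩ := h3
  simp

/-- If `f` is real-rooted, so is `f + 2 x f'`. -/
theorem RR.add_two_X_derivative {f : ℝ[X]} (hf : RR f) :
    RR (f + C 2 * X * Polynomial.derivative f) := by
  by_cases hf0 : f = 0
  · left; simp [hf0]
  right
  intro z hz
  by_contra him
  have hfz : aeval z f ≠ 0 := by
    intro h
    rcases hf with h' | h'
    · exact hf0 h'
    · exact him (h' z h)
  have hz0 : z ≠ 0 := by rintro rfl; simp at him
  have h1 := aeval_logDeriv hfz
  have h2 := (im_sum_inv_le hf.roots_im him).1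
  rw [← h1] at h2
  have h3 : aeval z (Polynomial.derivative f) / aeval z f = -(1 / (2 * z)) := by
    simp only [map_add, map_mul, aeval_C, aeval_X, Complex.coe_algebraMap] at hz
    push_cast at hz
    field_simp
    linear_combination hz
  rw [h3] at h2
  have h4 : z.im * (-(1 / (2 * z))).im = z.im ^ 2 / (2 * Complex.normSq z) := by
    have hn : Complex.normSq z ≠ 0 := (Complex.normSq_pos.mpr hz0).ne'
    rw [one_div, mul_inv, Complex.neg_im, Complex.mul_im, Complex.inv_im, Complex.inv_im,
      Complex.inv_re, Complex.inv_re]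
    simp
    field_simp
  rw [h4] at h2
  have hn : 0 < Complex.normSq z := Complex.normSq_pos.mpr hz0
  have : 0 < z.im ^ 2 / (2 * Complex.normSq z) := by positivity
  linarith

end Pool.Agent.V1176
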