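import Mathlib

set_option autoImplicit false

open Complex ComplexConjugate Filter Topology

namespace Pool.Agent.V1176.Bl

/-- The Blaschke factor `(|a|/a) (a - z)/(1 - conj a z)` (used for `a ≠ 0`). -/
noncomputable def bf (a z : ℂ) : ℂ := (‖a‖ / a) * ((a - z) / (1 - conj a * z))

/-- Blaschke products (nonconstant, finite or infinite). -/
def IsBlaschke (B : ℂ → ℂ) : Prop :=
  (∃ (θ : ℝ) (m : ℕ) (ι : Type) (_ : Countable ι) (a : ι → ℂ),
    (∀ n, a n ≠ 0 ∧ ‖a n‖ < 1) ∧ Summable (fun n => 1 - ‖a n‖) ∧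
    ∀ z : ℂ, ‖z‖ < 1 → Multipliable (fun n => bf (a n) z) ∧
      B z = exp (θ * I) * z ^ m * ∏' n, bf (a n) z) ∧
  ∃ z w : ℂ, ‖z‖ < 1 ∧ ‖w‖ < 1 ∧ B z ≠ B w

/-- The conformal automorphism `w ↦ e^{iφ} (w - a)/(1 - conj a w)` of the disc. -/
noncomputable def mob (φ : ℝ) (a w : ℂ) : ℂ := exp (φ * I) * ((w - a) / (1 - conj a * w))

/-- Indestructible Blaschke products. -/
def Indestructible (B : ℂ → ℂ) : Prop :=
  IsBlaschke B ∧ ∀ (φ : ℝ) (a : ℂ), ‖a‖ < 1 → IsBlaschke (fun z => mob φ a (B z))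

/-- Unified factor. -/
noncomputable def g (a z : ℂ) : ℂ := if a = 0 then z else bf a z

theorem den_ne {a z : ℂ} (ha : ‖a‖ < 1) (hz : ‖z‖ < 1) : 1 - conj a * z ≠ 0 := by
  intro h
  have h1 : conj a * z = 1 := by linear_combination -h
  have h2 : ‖a‖ * ‖z‖ = 1 := by
    rw [← norm_one (α := ℂ), ← h1, norm_mul, RCLike.norm_conj]
  have h3 : ‖a‖ * ‖z‖ < 1 := by
    have := norm_nonneg a; have := norm_nonneg z; nlinarith
  linarith

theorem den_le {a z : ℂ} (ha : ‖a‖ < 1) : 1 - ‖z‖ ≤ ‖1 - conj a * z‖ := by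
  have h := norm_sub_norm_le (1 : ℂ) (conj a * z)
  rw [norm_one, norm_mul, RCLike.norm_conj] at h
  have := norm_nonneg a; have := norm_nonneg z
  nlinarith

theorem norm_g_sub_one_le {a z : ℂ} (ha : ‖a‖ < 1) (hz : ‖z‖ < 1) :
    ‖g a z - 1‖ ≤ (1 - ‖a‖) * ((1 + ‖z‖) / (1 - ‖z‖)) := by
  have hz0 := norm_nonneg z
  have hz1 : 0 < 1 - ‖z‖ := by linarith
  by_cases h : a = 0
  · rw [g, if_pos h, h, norm_zero, sub_zero, one_mul]
    have h1 : ‖z - 1‖ ≤ ‖z‖ + ‖(1 : ℂ)‖ := norm_sub_le _ _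
    rw [norm_one] at h1
    rw [le_div_iff₀ hz1]
    have : 0 ≤ ‖z - 1‖ := norm_nonneg _
    nlinarith
  · rw [g, if_neg h, bf]
    have hd := den_ne ha hz
    have ha0 : ‖a‖ ≠ 0 := norm_ne_zero_iff.mpr h
    have hcc : a * conj a = (‖a‖ : ℂ) ^ 2 := by rw [mul_conj, normSq_eq_norm_sq]; push_cast; rfl
    have key : (‖a‖ / a : ℂ) * ((a - z) / (1 - conj a * z)) - 1 =
        ((‖a‖ - 1 : ℝ) : ℂ) * ((1 + (‖a‖ / a) * z) / (1 - conj a * z)) := by
      have hd' : 1 - z * conj a ≠ 0 := by rwa [mul_comm (conj a) z] at hd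
      push_cast
      rw [mul_comm (conj a) z]
      field_simp
      linear_combination z * hcc
    rw [key, norm_mul, norm_div, Complex.norm_real, Real.norm_eq_abs, abs_of_neg (by linarith),
      neg_sub]
    apply mul_le_mul_of_nonneg_left _ (by linarith)
    have h1 : ‖1 + (‖a‖ / a : ℂ) * z‖ ≤ 1 + ‖z‖ := by
      refine (norm_add_le _ _).trans ?_
      rw [norm_one, norm_mul, norm_div, Complex.norm_real, norm_norm, div_self ha0, one_mul]
    exact div_le_div₀ (by positivity) h1 hz1 (den_le ha)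

theorem normSq_g {a z : ℂ} (ha : ‖a‖ < 1) (hz : ‖z‖ < 1) :
    1 - ‖g a z‖ ^ 2 = (1 - ‖a‖ ^ 2) * (1 - ‖z‖ ^ 2) / ‖1 - conj a * z‖ ^ 2 := by
  have hd := den_ne ha hz
  have hdn : ‖1 - conj a * z‖ ≠ 0 := norm_ne_zero_iff.mpr hd
  have base : ‖1 - conj a * z‖ ^ 2 - ‖a - z‖ ^ 2 = (1 - ‖a‖ ^ 2) * (1 - ‖z‖ ^ 2) := by
    simp only [← normSq_eq_norm_sq, normSq_apply]
    simp
    ring
  have hval : ‖g a z‖ ^ 2 = ‖a - z‖ ^ 2 / ‖1 - conj a * z‖ ^ 2 := by
    by_cases h : a = 0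
    · rw [g, if_pos h, h]; simp
    · have ha0 : ‖a‖ ≠ 0 := norm_ne_zero_iff.mpr h
      rw [g, if_neg h, bf, norm_mul, norm_div, norm_div, Complex.norm_real, norm_norm,
        div_self ha0, one_mul, div_pow]
  rw [hval, ← base, eq_div_iff (pow_ne_zero 2 hdn), sub_mul, div_mul_cancel₀ _ (pow_ne_zero 2 hdn),
    one_mul]

theorem norm_g_lt_one {a z : ℂ} (ha : ‖a‖ < 1) (hz : ‖z‖ < 1) : ‖g a z‖ < 1 := by
  have h := normSq_g ha hz
  have h1 : 0 < (1 - ‖a‖ ^ 2) * (1 - ‖z‖ ^ 2) / ‖1 - conj a * z‖ ^ 2 := by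
    have hdn : 0 < ‖1 - conj a * z‖ := norm_pos_iff.mpr (den_ne ha hz)
    have h2 : 0 < 1 - ‖a‖ ^ 2 := by have := norm_nonneg a; nlinarith
    have h3 : 0 < 1 - ‖z‖ ^ 2 := by have := norm_nonneg z; nlinarith
    positivity
  by_contra hcon
  push Not at hcon
  nlinarith

theorem lower {a z : ℂ} (ha : ‖a‖ < 1) (hz : ‖z‖ < 1) :
    (1 - ‖a‖) * ((1 - ‖z‖ ^ 2) / 8) ≤ 1 - ‖g a z‖ := by
  have h := normSq_g ha hz
  have ha0 := norm_nonneg a
  have hz0 := norm_nonneg z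
  have hdn : 0 < ‖1 - conj a * z‖ := norm_pos_iff.mpr (den_ne ha hz)
  have hdu : ‖1 - conj a * z‖ ≤ 2 := by
    refine (norm_sub_le _ _).trans ?_
    rw [norm_one, norm_mul, RCLike.norm_conj]
    nlinarith
  have hg0 := norm_nonneg (g a z)
  have hg1 := norm_g_lt_one ha hz
  have h3 : 0 < 1 - ‖z‖ ^ 2 := by nlinarith
  have h4 : (1 - ‖a‖) * (1 - ‖z‖ ^ 2) / 4 ≤ (1 - ‖a‖ ^ 2) * (1 - ‖z‖ ^ 2) / ‖1 - conj a * z‖ ^ 2 := by
    apply div_le_div₀
    · have : 0 ≤ 1 - ‖a‖ ^ 2 := by nlinarith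
      positivity
    · apply mul_le_mul_of_nonneg_right _ h3.le
      nlinarith
    · positivity
    · nlinarith
  rw [← h] at h4
  nlinarith

theorem g_eq_zero_iff {a z : ℂ} (ha : ‖a‖ < 1) (hz : ‖z‖ < 1) : g a z = 0 ↔ z = a := by
  by_cases h : a = 0
  · rw [g, if_pos h, h]
  · have ha0 : (‖a‖ : ℂ) ≠ 0 := by exact_mod_cast norm_ne_zero_iff.mpr h
    have hd := den_ne ha hz
    rw [g, if_neg h, bf, mul_eq_zero, div_eq_zero_iff, div_eq_zero_iff]
    constructor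
    · rintro ((h1 | h1) | (h1 | h1))
      · exact absurd h1 ha0
      · exact absurd h1 h
      · linear_combination -h1
      · exact absurd h1 hd
    · rintro rfl
      right; left; ring

section
variable {κ : Type} {d : κ → ℂ}

theorem summable_g (hd : ∀ k, ‖d k‖ < 1) (hs : Summable (fun k => 1 - ‖d k‖)) {z : ℂ}
    (hz : ‖z‖ < 1) : Summable (fun k => ‖g (d k) z - 1‖) :=
  Summable.of_nonneg_of_le (fun _ => norm_nonneg _) (fun k => norm_g_sub_one_le (hd k) hz)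
    (hs.mul_right _)

theorem multipliable_g (hd : ∀ k, ‖d k‖ < 1) (hs : Summable (fun k => 1 - ‖d k‖)) {z : ℂ}
    (hz : ‖z‖ < 1) : Multipliable (fun k => g (d k) z) := by
  have := multipliable_one_add_of_summable (summable_g hd hs hz)
  simpa using this

theorem tprod_g_ne_zero (hd : ∀ k, ‖d k‖ < 1) (hs : Summable (fun k => 1 - ‖d k‖)) {z : ℂ}
    (hz : ‖z‖ < 1) (hne : ∀ k, z ≠ d k) : ∏' k, g (d k) z ≠ 0 := by
  have := tprod_one_add_ne_zero_of_summable (f := fun k => g (d k) z - 1)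
    (fun k => by
      have := (g_eq_zero_iff (hd k) hz).not.mpr (hne k)
      simpa using this) (summable_g hd hs hz)
  simpa using this

theorem norm_tprod_le (hd : ∀ k, ‖d k‖ < 1) (hs : Summable (fun k => 1 - ‖d k‖)) {z : ℂ}
    (hz : ‖z‖ < 1) (s : Finset κ) : ‖∏' k, g (d k) z‖ ≤ ∏ k ∈ s, ‖g (d k) z‖ := by
  have h := (multipliable_g hd hs hz).hasProd
  have h' : Tendsto (fun t : Finset κ => ‖∏ k ∈ t, g (d k) z‖) atTop (𝓝 ‖∏' k, g (d k) z‖) :=
    (continuous_norm.tendsto _).comp h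
  refine le_of_tendsto h' ?_
  filter_upwards [eventually_ge_atTop s] with t ht
  rw [norm_prod]
  exact Finset.prod_le_prod_of_subset_of_le_one ht (fun _ _ => norm_nonneg _)
    (fun k _ _ => (norm_g_lt_one (hd k) hz).le)

end

/-- Representation by a unimodular constant and a nonempty family of zeros. -/
def Rep (B : ℂ → ℂ) : Prop :=
  ∃ (c : ℂ) (κ : Type) (_ : Countable κ) (_ : Nonempty κ) (d : κ → ℂ), ‖c‖ = 1 ∧
    (∀ k, ‖d k‖ < 1) ∧ Summable (fun k => 1 - ‖d k‖) ∧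
    ∀ z : ℂ, ‖z‖ < 1 → B z = c * ∏' k, g (d k) z

theorem exists_generic {κ : Type} [Countable κ] (d : κ → ℂ) :
    ∃ z : ℂ, ‖z‖ < 1 ∧ ∀ k, z ≠ d k := by
  have hc : (Set.range d).Countable := Set.countable_range d
  have hden := hc.dense_compl ℝ
  obtain ⟨z, hz1, hz2⟩ := hden.inter_open_nonempty (Metric.ball (0 : ℂ) 1) Metric.isOpen_ball
    ⟨0, by simp⟩
  refine ⟨z, by simpa using hz1, fun k hk => hz2 ⟨k, hk.symm⟩⟩

theorem Rep.norm_lt_one {B : ℂ → ℂ} (h : Rep B) {z : ℂ} (hz : ‖z‖ < 1) : ‖B z‖ < 1 := by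
  obtain ⟨c, κ, _, ⟨k₀⟩, d, hc, hd, hs, hB⟩ := h
  rw [hB z hz, norm_mul, hc, one_mul]
  have := norm_tprod_le hd hs hz {k₀}
  rw [Finset.prod_singleton] at this
  exact this.trans_lt (norm_g_lt_one (hd k₀) hz)

/-- The main lemma. -/
theorem rep_comp {κ : Type} [Countable κ] [Nonempty κ] {d : κ → ℂ} (hd : ∀ k, ‖d k‖ < 1)
    (hs : Summable (fun k => 1 - ‖d k‖)) {C : ℂ → ℂ} (hC : ∀ z, ‖z‖ < 1 → ‖C z‖ < 1)
    (hrep : ∀ k, Rep (fun z => g (d k) (C z))) {c : ℂ} (hc : ‖c‖ = 1) :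
    Rep (fun z => c * ∏' k, g (d k) (C z)) := by
  choose c' ι hι hne a hc' ha hsa hval₀ using hrep
  have hval : ∀ k z, ‖z‖ < 1 → g (d k) (C z) = c' k * ∏' n, g (a k n) z := hval₀
  have : ∀ k, Countable (ι k) := hι
  have : ∀ k, Nonempty (ι k) := hne
  obtain ⟨z₀, hz₀, hgen⟩ := exists_generic (fun p : Σ k, ι k => a p.1 p.2)
  have hgen' : ∀ k n, z₀ ≠ a k n := fun k n => hgen ⟨k, n⟩
  have hinner_ne : ∀ k, ∏' n, g (a k n) z₀ ≠ 0 := fun k =>
    tprod_g_ne_zero (ha k) (hsa k) hz₀ (hgen' k)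
  -- summability over `k` of `-log |g (d k) (C z₀)|`
  have hlog : Summable (fun k => Real.log ‖g (d k) (C z₀)‖) := by
    have := (summable_g hd hs (hC z₀ hz₀)).summable_log_norm_one_add
    simpa using this
  set δ : ℝ := (1 - ‖z₀‖ ^ 2) / 8 with hδ
  have hδ0 : 0 < δ := by
    have := norm_nonneg z₀
    have : 0 < 1 - ‖z₀‖ ^ 2 := by nlinarith
    positivity
  have hbound : ∀ k, ∑' n, (1 - ‖a k n‖) ≤ δ⁻¹ * (-Real.log ‖g (d k) (C z₀)‖) := by
    intro k
    refine Real.tsum_le_of_sum_le (fun n => sub_nonneg.mpr (ha k n).le) ?_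
    intro s
    have h1 : ‖g (d k) (C z₀)‖ ≤ ∏ n ∈ s, ‖g (a k n) z₀‖ := by
      rw [hval k z₀ hz₀, norm_mul, hc' k, one_mul]
      exact norm_tprod_le (ha k) (hsa k) hz₀ s
    have hpos : 0 < ‖g (d k) (C z₀)‖ := by
      rw [hval k z₀ hz₀, norm_mul, hc' k, one_mul]
      exact norm_pos_iff.mpr (hinner_ne k)
    have h2 : Real.log ‖g (d k) (C z₀)‖ ≤ ∑ n ∈ s, Real.log ‖g (a k n) z₀‖ := by
      rw [← Real.log_prod]
      · exact Real.log_le_log hpos h1
      · intro n _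
        exact (norm_pos_iff.mpr ((g_eq_zero_iff (ha k n) hz₀).not.mpr (hgen' k n))).ne'
    have h3 : ∑ n ∈ s, Real.log ‖g (a k n) z₀‖ ≤ ∑ n ∈ s, -(δ * (1 - ‖a k n‖)) := by
      apply Finset.sum_le_sum
      intro n _
      have hp : 0 < ‖g (a k n) z₀‖ :=
        norm_pos_iff.mpr ((g_eq_zero_iff (ha k n) hz₀).not.mpr (hgen' k n))
      have h4 := Real.log_le_sub_one_of_pos hp
      have h5 := lower (ha k n) hz₀
      rw [← hδ] at h5
      linarith
    rw [Finset.sum_neg_distrib, ← Finset.mul_sum] at h3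
    rw [inv_mul_eq_div, le_div_iff₀ hδ0]
    linarith
  have hsk : Summable (fun k => ∑' n, (1 - ‖a k n‖)) :=
    Summable.of_nonneg_of_le (fun k => tsum_nonneg fun n => by linarith [ha k n]) hbound
      ((hlog.neg).mul_left _)
  have hsig : Summable (fun p : Σ k, ι k => 1 - ‖a p.1 p.2‖) := by
    rw [summable_sigma_of_nonneg (fun p => by linarith [ha p.1 p.2])]
    exact ⟨hsa, hsk⟩
  have hasig : ∀ p : Σ k, ι k, ‖a p.1 p.2‖ < 1 := fun p => ha p.1 p.2
  -- products over the sigma type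
  have hP : ∀ z : ℂ, ‖z‖ < 1 → HasProd (fun k => ∏' n, g (a k n) z)
      (∏' p : Σ k, ι k, g (a p.1 p.2) z) := by
    intro z hz
    exact (multipliable_g (d := fun p : Σ k, ι k => a p.1 p.2) hasig hsig hz).hasProd.sigma
      (fun k => (multipliable_g (ha k) (hsa k) hz).hasProd)
  have hQ : ∀ z : ℂ, ‖z‖ < 1 → HasProd (fun k => g (d k) (C z)) (∏' k, g (d k) (C z)) :=
    fun z hz => (multipliable_g hd hs (hC z hz)).hasProd
  set B₀ := ∏' p : Σ k, ι k, g (a p.1 p.2) z₀ with hB₀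
  have hB₀ne : B₀ ≠ 0 :=
    tprod_g_ne_zero (d := fun p : Σ k, ι k => a p.1 p.2) hasig hsig hz₀ hgen
  have hconst : HasProd c' ((∏' k, g (d k) (C z₀)) / B₀) := by
    have h := (hQ z₀ hz₀).div₀ (hP z₀ hz₀) hB₀ne
    have heq : c' = fun k => g (d k) (C z₀) / ∏' n, g (a k n) z₀ := by
      funext k
      rw [hval k z₀ hz₀, mul_div_assoc, div_self (hinner_ne k), mul_one]
    rw [heq]
    exact h
  set c₀ := (∏' k, g (d k) (C z₀)) / B₀ with hc₀
  have hc₀norm : ‖c₀‖ = 1 := by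
    have h' : Tendsto (fun t : Finset κ => ‖∏ k ∈ t, c' k‖) atTop (𝓝 ‖c₀‖) :=
      (continuous_norm.tendsto _).comp hconst
    have h'' : (fun t : Finset κ => ‖∏ k ∈ t, c' k‖) = fun _ => 1 := by
      funext t
      rw [norm_prod, Finset.prod_eq_one (fun k _ => hc' k)]
    rw [h''] at h'
    exact (tendsto_nhds_unique h' tendsto_const_nhds)
  refine ⟨c * c₀, Σ k, ι k, inferInstance, ?_, fun p => a p.1 p.2, ?_, hasig, hsig, ?_⟩
  · exact ⟨⟨Classical.arbitrary κ, Classical.arbitrary _⟩⟩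
  · rw [norm_mul, hc, hc₀norm, one_mul]
  · intro z hz
    have h := hconst.mul (hP z hz)
    have h2 : HasProd (fun k => g (d k) (C z)) (c₀ * ∏' p : Σ k, ι k, g (a p.1 p.2) z) := by
      have heq : (fun k => g (d k) (C z)) = fun k => c' k * ∏' n, g (a k n) z := by
        funext k
        exact hval k z hz
      rw [heq]
      exact h
    change c * ∏' k, g (d k) (C z) = _
    rw [h2.tprod_eq, mul_assoc]

theorem IsBlaschke.rep {B : ℂ → ℂ} (h : IsBlaschke B) : Rep B := by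
  obtain ⟨⟨θ, m, ι, hι, a, ha, hs, hB⟩, z₁, w₁, hz₁, hw₁, hne⟩ := h
  have hd : ∀ k : Fin m ⊕ ι, ‖Sum.elim (fun _ => (0 : ℂ)) a k‖ < 1 := by
    rintro (k | k)
    · simp
    · exact (ha k).2
  refine ⟨exp (θ * I), Fin m ⊕ ι, inferInstance, ?_, Sum.elim (fun _ => 0) a,
    norm_exp_ofReal_mul_I θ, hd, ?_, ?_⟩
  · by_contra hemp
    rw [not_nonempty_iff] at hemp
    have hm : m = 0 := by
      by_contra hm
      exact hemp.false (Sum.inl ⟨0, Nat.pos_of_ne_zero hm⟩)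
    have hι' : IsEmpty ι := ⟨fun i => hemp.false (Sum.inr i)⟩
    apply hne
    rw [(hB z₁ hz₁).2, (hB w₁ hw₁).2, hm]
    simp
  · apply Summable.sum
    · exact Summable.of_finite
    · exact hs
  · intro z hz
    have hg : ∀ n, g (a n) z = bf (a n) z := fun n => by rw [g, if_neg (ha n).1]
    rw [(hB z hz).2, mul_assoc]
    congr 1
    rw [Multipliable.tprod_sum]
    · simp only [Sum.elim_inl, Sum.elim_inr, hg]
      congr 1
      rw [tprod_fintype]
      simp [g]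
    · exact Multipliable.of_finite
    · have := (hB z hz).1
      convert this using 1
      funext n
      exact hg n

theorem Rep.isBlaschke {B : ℂ → ℂ} (h : Rep B) : IsBlaschke B := by
  obtain ⟨c, κ, _, ⟨k₀⟩, d, hc, hd, hs, hB⟩ := h
  constructor
  · obtain ⟨θ, hθ⟩ := (Complex.norm_eq_one_iff c).mp hc
    set s : Set κ := {k | d k = 0} with hsdef
    have hfin : s.Finite := by
      have h1 := hs.tendsto_cofinite_zero
      have h2 : ∀ᶠ k in cofinite, 1 - ‖d k‖ < 1 := h1.eventually_lt_const one_pos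
      refine h2.subset ?_
      intro k hk
      have : d k = 0 := hk
      simp [this]
    have : Finite s := hfin
    let _ : Fintype s := Fintype.ofFinite s
    refine ⟨θ, Fintype.card s, ↥(sᶜ : Set κ), inferInstance, fun k => d k, ?_, ?_, ?_⟩
    · rintro ⟨k, hk⟩
      exact ⟨hk, hd k⟩
    · exact hs.comp_injective Subtype.val_injective
    · intro z hz
      have hsc : Summable (fun k : ↥(sᶜ : Set κ) => 1 - ‖d k‖) :=
        hs.comp_injective Subtype.val_injective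
      have hm : Multipliable (fun k : ↥(sᶜ : Set κ) => g (d k) z) :=
        multipliable_g (d := fun k : ↥(sᶜ : Set κ) => d k) (fun k => hd k) hsc hz
      have hbf : (fun k : ↥(sᶜ : Set κ) => g (d k) z) = fun k : ↥(sᶜ : Set κ) => bf (d k) z := by
        funext k
        have hk : ¬ (d k = 0) := k.2
        rw [g, if_neg hk]
      constructor
      · rw [← hbf]; exact hm
      · rw [hB z hz, ← hθ, mul_assoc, ← hbf]
        congr 1
        have h1 := Multipliable.tprod_mul_tprod_compl (s := s) (f := fun k => g (d k) z)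
          (Multipliable.of_finite) hm
        rw [← h1]
        congr 1
        rw [tprod_fintype]
        have : ∀ k : s, g (d k) z = z := fun k => by
          have hk : d k = 0 := k.2
          rw [g, if_pos hk]
        simp [this]
  · obtain ⟨z₀, hz₀, hgen⟩ := exists_generic d
    refine ⟨z₀, d k₀, hz₀, hd k₀, ?_⟩
    rw [hB z₀ hz₀, hB (d k₀) (hd k₀)]
    have h1 : ∏' k, g (d k) (d k₀) = 0 := by
      have h2 := norm_tprod_le hd hs (hd k₀) {k₀}
      rw [Finset.prod_singleton, (g_eq_zero_iff (hd k₀) (hd k₀)).mpr rfl, norm_zero] at h2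
      exact norm_le_zero_iff.mp h2
    rw [h1, mul_zero]
    have hc0 : c ≠ 0 := by rw [← norm_pos_iff, hc]; exact one_pos
    exact mul_ne_zero hc0 (tprod_g_ne_zero hd hs hz₀ hgen)

/-- `g d` is an automorphism of the disc. -/
theorem g_eq_mob {d : ℂ} : ∃ (φ : ℝ), ∀ w, g d w = mob φ d w := by
  by_cases h : d = 0
  · refine ⟨0, fun w => ?_⟩
    rw [g, if_pos h, mob, h]
    simp
  · have ha0 : ‖d‖ ≠ 0 := norm_ne_zero_iff.mpr h
    have hn : ‖-(‖d‖ / d : ℂ)‖ = 1 := by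
      rw [norm_neg, norm_div, Complex.norm_real, norm_norm, div_self ha0]
    obtain ⟨φ, hφ⟩ := (Complex.norm_eq_one_iff _).mp hn
    refine ⟨φ, fun w => ?_⟩
    rw [g, if_neg h, mob, hφ, bf]
    ring

theorem comp_rep {D C : ℂ → ℂ} (hD : IsBlaschke D) (hC : Indestructible C) :
    IsBlaschke (fun z => D (C z)) := by
  obtain ⟨c, κ, hκ, hne, d, hc, hd, hs, hB⟩ := hD.rep
  have hC1 : ∀ z, ‖z‖ < 1 → ‖C z‖ < 1 := fun z hz => hC.1.rep.norm_lt_one hz
  have hrep : ∀ k, Rep (fun z => g (d k) (C z)) := by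
    intro k
    obtain ⟨φ, hφ⟩ := g_eq_mob (d := d k)
    have := (hC.2 φ (d k) (hd k)).rep
    simpa only [← hφ] using this
  have h := (rep_comp hd hs hC1 hrep hc)
  obtain ⟨c₁, κ₁, h1, h2, d₁, h3, h4, h5, h6⟩ := h
  refine Rep.isBlaschke ⟨c₁, κ₁, h1, h2, d₁, h3, h4, h5, fun z hz => ?_⟩
  change D (C z) = _
  rw [hB (C z) (hC1 z hz)]
  exact h6 z hz

theorem Indestructible.comp {B C : ℂ → ℂ} (hB : Indestructible B) (hC : Indestructible C) :
    Indestructible (fun z => B (C z)) :=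
  ⟨comp_rep hB.1 hC, fun φ a ha =>
    comp_rep (D := fun w => mob φ a (B w)) (hB.2 φ a ha) hC⟩

end Pool.Agent.V1176.Bl
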