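import Mathlib
import Pool.Agent.V1176.RR

set_option autoImplicit false

open Polynomial Filter Topology

namespace Pool.Agent.V1176.PJ

/-- A simple set of polynomials: `deg q_k = k` for every `k`. -/
def IsSimpleSet (Q : ℕ → ℝ[X]) : Prop := ∀ k, (Q k).degree = k

/-- `γ` is a `Q`-multiplier sequence. -/
def IsMS (Q : ℕ → ℝ[X]) (γ : ℕ → ℝ) : Prop :=
  ∀ (n : ℕ) (a : ℕ → ℝ), RR (∑ k ∈ Finset.range (n + 1), C (a k) * Q k) →
    RR (∑ k ∈ Finset.range (n + 1), C (a k * γ k) * Q k)

/-- The set of `Q`-multiplier sequences. -/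
def MS (Q : ℕ → ℝ[X]) : Set (ℕ → ℝ) := {γ | IsMS Q γ}

/-- The standard basis. -/
noncomputable def std : ℕ → ℝ[X] := fun k => X ^ k

/-- The basis `P_j`. -/
noncomputable def P (j : ℕ) : ℕ → ℝ[X] := fun k =>
  if k ≤ j then ∑ i ∈ Finset.range (k + 1), X ^ i else X ^ k

theorem P_of_le {j k : ℕ} (h : k ≤ j) : P j k = ∑ i ∈ Finset.range (k + 1), X ^ i := by
  simp [P, h]

theorem P_of_lt {j k : ℕ} (h : j < k) : P j k = X ^ k := by
  simp [P, not_le.mpr h]

theorem degree_geom (k : ℕ) : (∑ i ∈ Finset.range (k + 1), (X : ℝ[X]) ^ i).degree = k := by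
  rw [Finset.sum_range_succ]
  rw [degree_add_eq_right_of_degree_lt]
  · exact degree_X_pow k
  · rw [degree_X_pow]
    refine lt_of_le_of_lt (degree_sum_le _ _) ?_
    rw [Finset.sup_lt_iff (by exact_mod_cast WithBot.bot_lt_coe k)]
    intro i hi
    rw [degree_X_pow]
    exact_mod_cast Finset.mem_range.mp hi

theorem isSimpleSet_P (j : ℕ) : IsSimpleSet (P j) := by
  intro k
  by_cases h : k ≤ j
  · rw [P_of_le h, degree_geom]
  · rw [P_of_lt (not_le.mp h), degree_X_pow]

theorem RR_monomial (c : ℝ) (k : ℕ) : RR (C c * X ^ k) := by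
  by_cases hc : c = 0
  · left; simp [hc]
  · right
    intro z hz
    simp [hc] at hz
    simp [hz.1]

/-- `e_i` is a multiplier sequence for `P_j` if `j < i`. -/
theorem single_mem {i j : ℕ} (h : j < i) : (Pi.single i 1 : ℕ → ℝ) ∈ MS (P j) := by
  intro n a _
  by_cases hi : i ∈ Finset.range (n + 1)
  · rw [Finset.sum_eq_single_of_mem i hi]
    · rw [P_of_lt h]
      exact RR_monomial _ _
    · intro k _ hk
      simp [Pi.single_eq_of_ne hk]
  · rw [Finset.sum_eq_zero]
    · exact RR.zero
    · intro k hk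
      have : k ≠ i := fun hki => hi (hki ▸ hk)
      simp [Pi.single_eq_of_ne this]

/-- `1 + x + ... + x^i` has a non-real zero if `i ≥ 2`. -/
theorem not_RR_geom {i : ℕ} (hi : 2 ≤ i) : ¬ RR (∑ k ∈ Finset.range (i + 1), (X : ℝ[X]) ^ k) := by
  rintro (h | h)
  · have := degree_geom i
    rw [h, degree_zero] at this
    exact absurd this (by simp)
  · have hprim := Complex.isPrimitiveRoot_exp (i + 1) (by omega)
    set ζ : ℂ := Complex.exp (2 * Real.pi * Complex.I / (i + 1 : ℕ)) with hζ
    have h0 : aeval ζ (∑ k ∈ Finset.range (i + 1), (X : ℝ[X]) ^ k) = 0 := by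
      rw [map_sum]
      simp only [map_pow, aeval_X]
      exact hprim.geom_sum_eq_zero (by omega)
    have him := h ζ h0
    have hre : ζ = (ζ.re : ℂ) := Complex.ext (by simp) (by simp [him])
    have hnorm : ‖ζ‖ = 1 := hprim.norm'_eq_one (by omega)
    have hsq : ζ ^ 2 = 1 := by
      rw [hre] at hnorm ⊢
      rw [Complex.norm_real, Real.norm_eq_abs] at hnorm
      have : ζ.re ^ 2 = 1 := by
        rw [← sq_abs, hnorm]; norm_num
      exact_mod_cast this
    have hdvd := hprim.dvd_of_pow_eq_one 2 hsq
    have := Nat.le_of_dvd (by norm_num) hdvd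
    omega

/-- `e_i` is not a multiplier sequence for `P_i` if `i ≥ 2`. -/
theorem single_not_mem {i : ℕ} (hi : 2 ≤ i) : (Pi.single i 1 : ℕ → ℝ) ∉ MS (P i) := by
  intro hmem
  -- x^i = q_i - q_{i-1}
  let a : ℕ → ℝ := fun k => if k = i then 1 else if k + 1 = i then -1 else 0
  have ha_i : a i = 1 := by simp [a]
  obtain ⟨m, rfl⟩ : ∃ m, i = m + 1 := ⟨i - 1, by omega⟩
  have ha_m : a m = -1 := by simp [a]
  have ha0 : ∀ k, k < m → a k = 0 := by
    intro k hk
    have h1 : k ≠ m + 1 := by omega
    have h2 : k + 1 ≠ m + 1 := by omega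
    simp only [a, h1, h2, if_false]
  have hsum : ∑ k ∈ Finset.range (m + 1 + 1), C (a k) * P (m + 1) k = X ^ (m + 1) := by
    rw [Finset.sum_range_succ, Finset.sum_range_succ, Finset.sum_eq_zero, ha_i, ha_m,
      P_of_le (le_refl (m + 1)), P_of_le (Nat.le_succ m), Finset.sum_range_succ _ (m + 1)]
    · simp
    · intro k hk
      rw [ha0 k (Finset.mem_range.mp hk)]; simp
  have h1 : RR (∑ k ∈ Finset.range (m + 1 + 1), C (a k) * P (m + 1) k) := by
    rw [hsum]
    have := RR_monomial 1 (m + 1)
    simpa using this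
  have h2 := hmem (m + 1) a h1
  rw [Finset.sum_range_succ, Finset.sum_eq_zero] at h2
  · rw [ha_i, P_of_le (le_refl (m + 1))] at h2
    simp only [Pi.single_eq_same, mul_one, map_one, one_mul, zero_add] at h2
    exact not_RR_geom hi h2
  · intro k hk
    have : k ≠ m + 1 := (Finset.mem_range.mp hk).ne
    simp [Pi.single_eq_of_ne this]

/-- The sets of multiplier sequences for the bases `P_j`, `j ≥ 1`, are pairwise different. -/
theorem MS_P_injective {i j : ℕ} (hi : 1 ≤ i) (hj : 1 ≤ j) (hij : i ≠ j) : MS (P i) ≠ MS (P j) := by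
  intro h
  rcases lt_or_gt_of_ne hij with hlt | hlt
  · exact single_not_mem (by omega : 2 ≤ j) (h ▸ single_mem hlt)
  · exact single_not_mem (by omega : 2 ≤ i) (h.symm ▸ single_mem hlt)

/-- Every multiplier sequence for `P_j` is a classical multiplier sequence. -/
theorem MS_P_subset (j : ℕ) : MS (P j) ⊆ MS std := by
  intro γ hγ n a hf
  -- the coefficients of `f(r x)` in the basis `P_j`
  -- `x^k = q_k - q_{k-1}` for `1 ≤ k ≤ j`, and `x^k = q_k` for `k = 0` or `k > j`
  let b : ℝ → ℕ → ℝ := fun r k =>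
    if k < j ∧ k < n then a k * r ^ k - a (k + 1) * r ^ (k + 1) else a k * r ^ k
  -- expansion lemma: for any weights `w`
  have hexp : ∀ (r : ℝ) (w : ℕ → ℝ), ∑ k ∈ Finset.range (n + 1), C (b r k * w k) * P j k =
      ∑ k ∈ Finset.range (n + 1), C (a k * r ^ k) *
        (C (w k) * P j k - (if 0 < k ∧ k ≤ j then C (w (k - 1)) * P j (k - 1) else 0)) := by
    intro r w
    have h1 : ∀ k ∈ Finset.range (n + 1), C (b r k * w k) * P j k =
        C (a k * r ^ k) * (C (w k) * P j k) -
          (if k < j ∧ k < n then C (a (k + 1) * r ^ (k + 1)) * (C (w k) * P j k) else 0) := by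
      intro k _
      by_cases hk : k < j ∧ k < n
      · simp only [b, hk, and_self, if_true]
        simp only [map_sub, map_mul]
        ring
      · simp only [b, hk, if_false]
        simp only [map_mul]
        ring
    rw [Finset.sum_congr rfl h1, Finset.sum_sub_distrib]
    have h2 : ∀ k ∈ Finset.range (n + 1), C (a k * r ^ k) *
        (C (w k) * P j k - (if 0 < k ∧ k ≤ j then C (w (k - 1)) * P j (k - 1) else 0)) =
        C (a k * r ^ k) * (C (w k) * P j k) -
        (if 0 < k ∧ k ≤ j then C (a k * r ^ k) * (C (w (k - 1)) * P j (k - 1)) else 0) := by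
      intro k _
      split_ifs
      · ring
      · ring
    rw [Finset.sum_congr rfl h2, Finset.sum_sub_distrib]
    congr 1
    rw [Finset.sum_range_succ, Finset.sum_range_succ']
    simp only [lt_self_iff_false, and_false, if_false, add_zero, false_and]
    apply Finset.sum_congr rfl
    intro k hk
    have hk' := Finset.mem_range.mp hk
    by_cases h3 : k < j
    · simp [hk', h3]
    · have h4 : ¬ (k + 1 ≤ j) := by omega
      simp [hk', h4]
      intro h5; omega
  -- with weight 1 we get `f(r x)`
  have hP1 : ∀ k, P j k - (if 0 < k ∧ k ≤ j then P j (k - 1) else 0) = X ^ k := by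
    intro k
    by_cases h : 0 < k ∧ k ≤ j
    · rw [if_pos h, P_of_le h.2, P_of_le (by omega : k - 1 ≤ j)]
      obtain ⟨m, rfl⟩ : ∃ m, k = m + 1 := ⟨k - 1, by omega⟩
      rw [Nat.add_sub_cancel, Finset.sum_range_succ _ (m + 1)]
      simp
    · rw [if_neg h]
      by_cases hk : k = 0
      · subst hk
        rw [P_of_le (Nat.zero_le j)]; simp
      · rw [P_of_lt (by omega)]; simp
  have hone : ∀ r : ℝ, ∑ k ∈ Finset.range (n + 1), C (b r k) * P j k =
      (∑ k ∈ Finset.range (n + 1), C (a k) * std k).comp (C r * X) := by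
    intro r
    have h := hexp r (fun _ => 1)
    simp only [mul_one, map_one, one_mul] at h
    rw [h]
    have : (∑ k ∈ Finset.range (n + 1), C (a k) * std k).comp (C r * X) =
        ∑ k ∈ Finset.range (n + 1), C (a k * r ^ k) * X ^ k := by
      rw [← Polynomial.coe_compRingHom_apply, map_sum]
      apply Finset.sum_congr rfl
      intro k _
      simp [std, mul_pow]
      ring
    rw [this]
    exact Finset.sum_congr rfl fun k _ => by rw [hP1]
  have hRRr : ∀ r : ℝ, 0 < r → RR (∑ k ∈ Finset.range (n + 1), C (b r k * γ k) * P j k) := by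
    intro r hr
    apply hγ n (b r)
    rw [hone]
    rcases hf with h | h
    · left; rw [h]; simp
    · right
      intro z hz
      rw [aeval_comp] at hz
      have := h _ hz
      simp at this
      rcases this with h1 | h1
      · exact absurd h1 hr.ne'
      · exact h1
  -- rescale by 1/r
  have hRRs : ∀ r : ℝ, 0 < r →
      RR ((∑ k ∈ Finset.range (n + 1), C (b r k * γ k) * P j k).comp (C r⁻¹ * X)) := by
    intro r hr
    rcases hRRr r hr with h | h
    · left; rw [h]; simp
    · right
      intro z hz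
      rw [aeval_comp] at hz
      have := h _ hz
      simp at this
      rcases this with h1 | h1
      · exact absurd h1 hr.ne'
      · exact h1
  -- evaluate
  have hcont : ∀ k, ∃ G : ℝ[X], (P j k) = X ^ k + G ∧ G.degree < k := by
    intro k
    by_cases h : k ≤ j
    · refine ⟨∑ i ∈ Finset.range k, X ^ i, ?_, ?_⟩
      · rw [P_of_le h, Finset.sum_range_succ]; ring
      · rcases Nat.eq_zero_or_pos k with rfl | hk
        · simp
        · refine lt_of_le_of_lt (degree_sum_le _ _) ?_
          rw [Finset.sup_lt_iff (by exact_mod_cast WithBot.bot_lt_coe k)]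
          intro i hi
          rw [degree_X_pow]
          exact_mod_cast Finset.mem_range.mp hi
    · refine ⟨0, ?_, ?_⟩
      · rw [P_of_lt (not_le.mp h)]; simp
      · simp
  -- scaling limit: for degree < k polynomial G, r^k G(z/r) → 0; r^k (z/r)^k = z^k
  have hlow : ∀ (G : ℝ[X]) (k : ℕ), G.degree < k → ∀ z : ℂ,
      Tendsto (fun r : ℝ => ((r : ℂ) ^ k) * aeval ((r : ℂ)⁻¹ * z) G) (𝓝[>] 0) (𝓝 0) := by
    intro G k hG z
    have h1 : ∀ r : ℝ, 0 < r → ((r : ℂ) ^ k) * aeval ((r : ℂ)⁻¹ * z) G =
        ∑ i ∈ Finset.range k, (r : ℂ) ^ (k - i) * ((G.coeff i : ℂ) * z ^ i) := by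
      intro r hr
      have hr' : (r : ℂ) ≠ 0 := by exact_mod_cast hr.ne'
      have hnat : G.natDegree < k ∨ G = 0 := by
        by_cases hG0 : G = 0
        · exact Or.inr hG0
        · left
          rw [degree_eq_natDegree hG0] at hG
          exact_mod_cast hG
      rcases hnat with hnat | hG0
      · rw [aeval_eq_sum_range' hnat, Finset.mul_sum]
        apply Finset.sum_congr rfl
        intro i hi
        have hik := Finset.mem_range.mp hi
        have : (r : ℂ) ^ k = (r : ℂ) ^ (k - i) * (r : ℂ) ^ i := by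
          rw [← pow_add]; congr 1; omega
        rw [this, mul_pow, inv_pow]
        have h3 : (r : ℂ) ^ i ≠ 0 := pow_ne_zero _ hr'
        rw [Algebra.smul_def]
        simp only [Complex.coe_algebraMap]
        field_simp
      · simp [hG0]
    have h2 : Tendsto (fun r : ℝ => ∑ i ∈ Finset.range k, (r : ℂ) ^ (k - i) *
        ((G.coeff i : ℂ) * z ^ i)) (𝓝[>] 0) (𝓝 0) := by
      have h3 : Continuous (fun r : ℝ => ∑ i ∈ Finset.range k, (r : ℂ) ^ (k - i) *
        ((G.coeff i : ℂ) * z ^ i)) := by fun_prop
      have h4 := (h3.tendsto 0).mono_left (nhdsWithin_le_nhds (s := Set.Ioi (0 : ℝ)))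
      have h5 : ∑ i ∈ Finset.range k, ((0 : ℝ) : ℂ) ^ (k - i) * ((G.coeff i : ℂ) * z ^ i) = 0 := by
        apply Finset.sum_eq_zero
        intro i hi
        have hik := Finset.mem_range.mp hi
        have : k - i ≠ 0 := by omega
        simp [this]
      rw [h5] at h4
      exact h4
    refine h2.congr' ?_
    filter_upwards [self_mem_nhdsWithin] with r hr
    exact (h1 r hr).symm
  -- the limit
  have hnew : RR (∑ k ∈ Finset.range (n + 1), C (a k * γ k) * std k) := by
    apply RR.of_tendsto (l := 𝓝[>] (0 : ℝ))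
      (h := fun r : ℝ => (∑ k ∈ Finset.range (n + 1), C (b r k * γ k) * P j k).comp (C r⁻¹ * X))
    · filter_upwards [self_mem_nhdsWithin] with r hr
      exact hRRs r hr
    · intro z
      have hval : ∀ r : ℝ,
          aeval z ((∑ k ∈ Finset.range (n + 1), C (b r k * γ k) * P j k).comp (C r⁻¹ * X)) =
          ∑ k ∈ Finset.range (n + 1), (a k : ℂ) * ((γ k : ℂ) *
            ((r : ℂ) ^ k * aeval ((r : ℂ)⁻¹ * z) (P j k)) -
            (if 0 < k ∧ k ≤ j then (γ (k - 1) : ℂ) *
              ((r : ℂ) ^ k * aeval ((r : ℂ)⁻¹ * z) (P j (k - 1))) else 0)) := by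
        intro r
        rw [hexp r γ, aeval_comp, map_sum]
        apply Finset.sum_congr rfl
        intro k _
        by_cases h : 0 < k ∧ k ≤ j
        · simp only [h, and_self, if_true, map_mul, map_sub, aeval_C, aeval_X, map_pow,
            Complex.coe_algebraMap, Complex.ofReal_inv]
          ring
        · simp only [h, if_false, map_mul, map_sub, aeval_C, aeval_X, map_pow,
            Complex.coe_algebraMap, map_zero, Complex.ofReal_inv]
          ring
      have htarget : aeval z (∑ k ∈ Finset.range (n + 1), C (a k * γ k) * std k) =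
          ∑ k ∈ Finset.range (n + 1), (a k : ℂ) * ((γ k : ℂ) * (z ^ k) -
            (if 0 < k ∧ k ≤ j then (γ (k - 1) : ℂ) * 0 else 0)) := by
        rw [map_sum]
        apply Finset.sum_congr rfl
        intro k _
        simp [std]
        ring
      simp only [hval]
      rw [htarget]
      apply tendsto_finsetSum
      intro k _
      apply Tendsto.const_mul
      apply Tendsto.sub
      · apply Tendsto.const_mul
        obtain ⟨G, hG, hGdeg⟩ := hcont k
        have h1 := hlow G k hGdeg z
        have h2 : Tendsto (fun r : ℝ => z ^ k + ((r : ℂ) ^ k) * aeval ((r : ℂ)⁻¹ * z) G)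
            (𝓝[>] 0) (𝓝 (z ^ k + 0)) := h1.const_add _
        rw [add_zero] at h2
        refine h2.congr' ?_
        filter_upwards [self_mem_nhdsWithin] with r hr
        have hr' : (r : ℂ) ≠ 0 := by exact_mod_cast (ne_of_gt hr)
        rw [hG, map_add, map_pow, aeval_X, mul_pow, inv_pow]
        have h3 : (r : ℂ) ^ k ≠ 0 := pow_ne_zero _ hr'
        field_simp
      · by_cases h : 0 < k ∧ k ≤ j
        · simp only [h, and_self, if_true]
          apply Tendsto.const_mul
          apply hlow
          rw [isSimpleSet_P j (k - 1)]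
          exact_mod_cast (by omega : k - 1 < k)
        · simp only [h, if_false]
          exact tendsto_const_nhds
  exact hnew

end Pool.Agent.V1176.PJ
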