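import Mathlib
import Pool.Agent.V1176.RR

set_option autoImplicit false

open Polynomial

namespace Pool.Agent.V1176

/-- A real-rooted polynomial is a constant times a product of linear factors. -/
theorem RR.exists_prod {f : ℝ[X]} (hf : RR f) :
    ∃ (c : ℝ) (s : Multiset ℝ), f = C c * (s.map fun r => X - C r).prod := by
  by_cases hf0 : f = 0
  · exact ⟨0, 0, by simp [hf0]⟩
  obtain ⟨s, hs⟩ := hf.exists_roots hf0
  refine ⟨f.leadingCoeff, s, ?_⟩
  apply Polynomial.funext
  intro x
  have h := hs (x : ℂ)
  have h1 : aeval (x : ℂ) f = ((f.eval x : ℝ) : ℂ) := by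
    rw [show (x : ℂ) = algebraMap ℝ ℂ x from rfl, aeval_algebraMap_apply]
    simp
  have h2 : ∀ s : Multiset ℝ, (s.map fun r : ℝ => (x : ℂ) - r).prod =
      (((s.map fun r : ℝ => x - r).prod : ℝ) : ℂ) := by
    intro s
    induction s using Multiset.induction_on with
    | empty => simp
    | cons a s ih =>
      rw [Multiset.map_cons, Multiset.prod_cons, ih, Multiset.map_cons, Multiset.prod_cons]
      push_cast
      rfl
  rw [h1, h2] at h
  have h3 : f.eval x = f.leadingCoeff * (s.map fun r : ℝ => x - r).prod := by exact_mod_cast h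
  rw [h3, eval_mul, eval_C, eval_multiset_prod, Multiset.map_map]
  congr 3
  funext r
  simp

theorem laguerre_prod (s : Multiset ℝ) (x : ℝ) :
    (s.map fun r => X - C r).prod.eval x *
      (derivative (derivative (s.map fun r => X - C r).prod)).eval x ≤
      (derivative (s.map fun r => X - C r).prod).eval x ^ 2 := by
  induction s using Multiset.induction_on with
  | empty => simp
  | cons a s ih =>
    rw [Multiset.map_cons, Multiset.prod_cons]
    set g := (s.map fun r => X - C r).prod with hg
    simp only [derivative_mul, derivative_sub, derivative_X, derivative_C, sub_zero, one_mul,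
      derivative_add, eval_add, eval_mul, eval_sub, eval_X, eval_C]
    nlinarith [sq_nonneg (x - a), sq_nonneg (g.eval x),
      mul_nonneg (sq_nonneg (x - a)) (sub_nonneg.mpr ih)]

/-- The Laguerre inequality. -/
theorem RR.laguerre {f : ℝ[X]} (hf : RR f) (x : ℝ) :
    f.eval x * (Polynomial.derivative (Polynomial.derivative f)).eval x ≤
      (Polynomial.derivative f).eval x ^ 2 := by
  obtain ⟨c, s, rfl⟩ := hf.exists_prod
  have h := laguerre_prod s x
  simp only [derivative_C_mul, eval_mul, eval_C]
  nlinarith [mul_nonneg (sq_nonneg c) (sub_nonneg.mpr h)]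

end Pool.Agent.V1176
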