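import Mathlib
import Pool.Agent.V1176.Laguerre

set_option autoImplicit false

open Polynomial Finset

namespace Pool.Agent.V1176.Leg

/-- Legendre polynomials by Rodrigues' formula. -/
noncomputable def leg (n : ℕ) : ℝ[X] :=
  C (1 / (2 ^ n * (n.factorial : ℝ))) * derivative^[n] ((X ^ 2 - 1) ^ n)

/-- Legendre multiplier sequences. -/
def IsLegendreMS (γ : ℕ → ℝ) : Prop :=
  ∀ (n : ℕ) (a : ℕ → ℝ), RR (∑ k ∈ range (n + 1), C (a k) * leg k) →
    RR (∑ k ∈ range (n + 1), C (γ k * a k) * leg k)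

/-! ### Numbers -/

/-- `b_k = C(2N+1, N-k)` -/
noncomputable def b (N k : ℕ) : ℝ := if k ≤ N then ((2 * N + 1).choose (N - k) : ℝ) else 0

/-- `E_m(k) = ∏_{i<m} (k(k+1) - i(i+1))` -/
noncomputable def E (m : ℕ) (k : ℝ) : ℝ := ∏ i ∈ range m, (k * (k + 1) - (i : ℝ) * (i + 1))

theorem b_rec (N k : ℕ) (hk : k ≤ N) : (N + k + 2 : ℝ) * b N (k + 1) = (N - k : ℝ) * b N k := by
  rcases Nat.lt_or_ge k N with h | h
  · rw [b, b, if_pos hk, if_pos (by omega)]
    obtain ⟨j, hj⟩ : ∃ j, N = k + 1 + j := ⟨N - k - 1, by omega⟩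
    subst hj
    have e1 : k + 1 + j - (k + 1) = j := by omega
    have e2 : k + 1 + j - k = j + 1 := by omega
    rw [e1, e2]
    have h1 := Nat.choose_succ_right_eq (2 * (k + 1 + j) + 1) j
    have h2 : 2 * (k + 1 + j) + 1 - j = 2 * k + 3 + j := by omega
    rw [h2] at h1
    have h3 : ((2 * (k + 1 + j) + 1).choose (j + 1) : ℝ) * (j + 1) =
        ((2 * (k + 1 + j) + 1).choose j : ℝ) * (2 * k + 3 + j) := by exact_mod_cast h1
    push_cast
    linear_combination -h3
  · have : k = N := le_antisymm hk h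
    subst this
    simp [b]

theorem b_self (N : ℕ) : b N N = 1 := by simp [b]

theorem b_succ_self (N : ℕ) : b N (N + 1) = 0 := by simp [b]

theorem E_succ (m : ℕ) (k : ℝ) : E (m + 1) k = E m k * (k * (k + 1) - (m : ℝ) * (m + 1)) := by
  rw [E, prod_range_succ]; rfl

theorem E_shift (m : ℕ) (k : ℝ) : E m (k + 1) * (k + 1 - m) = E m k * (k + 1 + m) := by
  induction m with
  | zero => simp [E]
  | succ m ih =>
    rw [E_succ, E_succ]
    push_cast
    linear_combination (k + 2 + m) * (k - m) * ih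

theorem E_zero_right (m : ℕ) : E (m + 1) 0 = 0 := by
  rw [E, prod_range_succ']; simp

theorem E_eq_zero {m k : ℕ} (h : k < m) : E m k = 0 := by
  rw [E]
  apply prod_eq_zero (mem_range.mpr h)
  ring

theorem E_choose (m k : ℕ) : E m k = (m.factorial : ℝ) ^ 2 * (k.choose m : ℝ) * ((k + m).choose k : ℝ) := by
  induction m with
  | zero => simp [E]
  | succ m ih =>
    rw [E_succ, ih]
    have h1 : (k.choose (m + 1) : ℝ) * (m + 1) = (k.choose m : ℝ) * (k - m) := by
      rcases Nat.lt_or_ge k m with h | h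
      · rw [Nat.choose_eq_zero_of_lt h, Nat.choose_eq_zero_of_lt (by omega)]; simp
      · have := Nat.choose_succ_right_eq k m
        have h2 : ((k - m : ℕ) : ℝ) = (k : ℝ) - m := by push_cast [Nat.cast_sub h]; ring
        rw [← h2]
        exact_mod_cast this
    have h2 : ((k + (m + 1)).choose k : ℝ) * (m + 1) = ((k + m).choose k : ℝ) * (k + m + 1) := by
      have := Nat.choose_mul_succ_eq (k + m) k
      have h3 : k + m + 1 - k = m + 1 := by omega
      rw [h3] at this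
      have h4 : (((k + m).choose k : ℕ) : ℝ) * (k + m + 1) =
          (((k + m + 1).choose k : ℕ) : ℝ) * (m + 1) := by exact_mod_cast this
      rw [← add_assoc, h4]
    rw [Nat.factorial_succ]
    push_cast
    linear_combination (-(m.factorial : ℝ) ^ 2 * (m + 1) * ((k + (m + 1)).choose k : ℝ)) * h1 -
      (m.factorial : ℝ) ^ 2 * (k.choose m : ℝ) * (k - m) * h2

/-- the odd sums vanish for `m ≠ N` -/
theorem sum_odd (N m : ℕ) :
    ((N : ℝ) - m) * ∑ k ∈ range (N + 1), (-1 : ℝ) ^ k * ((2 * k + 1) * b N k) * E m k = 0 := by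
  set g : ℕ → ℝ := fun k => (-1) ^ k * b N k * (N + k + 1) * E m k * (k - m) with hg
  have h1 : ∀ k ∈ range (N + 1), ((N : ℝ) - m) * ((-1 : ℝ) ^ k * ((2 * k + 1) * b N k) * E m k) =
      g k - g (k + 1) := by
    intro k hk
    have hk' : k ≤ N := Nat.lt_succ_iff.mp (mem_range.mp hk)
    have h2 := b_rec N k hk'
    have h3 := E_shift m (k : ℝ)
    simp only [hg]
    push_cast
    rw [pow_succ]
    linear_combination (-(-1 : ℝ) ^ k * E m (k + 1) * (k + 1 - m)) * h2 -
      (-1 : ℝ) ^ k * (N - k) * b N k * h3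
  rw [mul_sum, sum_congr rfl h1, sum_range_sub', hg]
  simp only [b_succ_self]
  cases m with
  | zero => simp
  | succ m => simp [E_zero_right]

theorem sum_odd_zero {N m : ℕ} (h : m ≠ N) :
    ∑ k ∈ range (N + 1), (-1 : ℝ) ^ k * ((2 * k + 1) * b N k) * E m k = 0 := by
  have h1 := sum_odd N m
  rcases mul_eq_zero.mp h1 with h2 | h2
  · exfalso
    apply h
    have : (N : ℝ) = m := by linarith
    exact_mod_cast this.symm
  · exact h2

theorem sum_odd_self (N : ℕ) :
    ∑ k ∈ range (N + 1), (-1 : ℝ) ^ k * ((2 * k + 1) * b N k) * E N k =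
      (-1) ^ N * ((2 * N + 1) * (N.factorial : ℝ) ^ 2 * (N.centralBinom : ℝ)) := by
  rw [sum_range_succ, sum_eq_zero]
  · rw [b_self, E_choose, Nat.choose_self, Nat.centralBinom_eq_two_mul_choose, ← two_mul]
    push_cast; ring
  · intro k hk
    rw [E_eq_zero (mem_range.mp hk), mul_zero]

/-- the even sums -/
theorem sum_even_rec (N m : ℕ) :
    (2 * ((N : ℝ) - m) - 1) * ∑ k ∈ range (N + 1), (-1 : ℝ) ^ k * b N k * E (m + 1) k =
      -((m + 1) * (2 * m + 1) * (N - m)) * ∑ k ∈ range (N + 1), (-1 : ℝ) ^ k * b N k * E m k := by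
  set g : ℕ → ℝ := fun k => (-1) ^ k * b N k * (N + k + 1) * k * E m k * (k - m) with hg
  have h1 : ∀ k ∈ range (N + 1), (2 * ((N : ℝ) - m) - 1) * ((-1 : ℝ) ^ k * b N k * E (m + 1) k) +
      ((m + 1) * (2 * m + 1) * (N - m)) * ((-1 : ℝ) ^ k * b N k * E m k) = g k - g (k + 1) := by
    intro k hk
    have hk' : k ≤ N := Nat.lt_succ_iff.mp (mem_range.mp hk)
    have h2 := b_rec N k hk'
    have h3 := E_shift m (k : ℝ)
    simp only [hg]
    rw [E_succ]
    push_cast
    rw [pow_succ]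
    linear_combination (-(-1 : ℝ) ^ k * (k + 1) * E m (k + 1) * (k + 1 - m)) * h2 -
      (-1 : ℝ) ^ k * (N - k) * (k + 1) * b N k * h3
  have h4 := sum_congr rfl h1
  rw [sum_add_distrib, ← mul_sum, ← mul_sum, sum_range_sub', hg] at h4
  simp only [b_succ_self] at h4
  simp at h4
  linear_combination h4

theorem sum_even (N m : ℕ) (hm : m ≤ N) :
    ∑ k ∈ range (N + 1), (-1 : ℝ) ^ k * b N k * E m k =
      (-1) ^ m * ((m.factorial : ℝ) ^ 2 * ((N - m).centralBinom : ℝ) * (m.centralBinom : ℝ)) := by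
  induction m with
  | zero =>
    have h := Int.alternating_sum_range_choose_eq_choose (n := 2 * N) (m := N)
    have h' : ∑ k ∈ range (N + 1), (-1 : ℝ) ^ k * ((2 * N + 1).choose k : ℝ) =
        (-1) ^ N * ((2 * N).choose N : ℝ) := by exact_mod_cast h
    rw [← sum_range_reflect] at h'
    have h2 : ∀ k ∈ range (N + 1), (-1 : ℝ) ^ (N + 1 - 1 - k) *
        ((2 * N + 1).choose (N + 1 - 1 - k) : ℝ) = (-1) ^ N * ((-1) ^ k * b N k * E 0 k) := by
      intro k hk
      have hk' : k ≤ N := Nat.lt_succ_iff.mp (mem_range.mp hk)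
      rw [b, if_pos hk', Nat.add_sub_cancel, E, prod_range_zero, mul_one, ← mul_assoc]
      congr 1
      have h3 : (-1 : ℝ) ^ (N - k) * (-1) ^ k = (-1) ^ N := by rw [← pow_add, Nat.sub_add_cancel hk']
      have h4 : (-1 : ℝ) ^ k * (-1) ^ k = 1 := by rw [← mul_pow]; norm_num
      rw [← h3, mul_assoc, h4, mul_one]
    rw [sum_congr rfl h2, ← mul_sum] at h'
    have h5 : (-1 : ℝ) ^ N ≠ 0 := pow_ne_zero _ (by norm_num)
    have h6 := mul_left_cancel₀ h5 h'
    rw [h6]
    simp [Nat.centralBinom_eq_two_mul_choose]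
  | succ m ih =>
    have hm' : m ≤ N := by omega
    have h := sum_even_rec N m
    rw [ih hm'] at h
    obtain ⟨M, hM⟩ : ∃ M, N = m + (M + 1) := ⟨N - m - 1, by omega⟩
    subst hM
    have e1 : m + (M + 1) - m = M + 1 := by omega
    have e2 : m + (M + 1) - (m + 1) = M := by omega
    rw [e1] at h
    rw [e2]
    have c1 : ((M + 1 : ℕ) : ℝ) * ((M + 1).centralBinom : ℝ) =
        2 * (2 * M + 1) * (M.centralBinom : ℝ) := by
      exact_mod_cast Nat.succ_mul_centralBinom_succ M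
    have c2 : ((m + 1 : ℕ) : ℝ) * ((m + 1).centralBinom : ℝ) =
        2 * (2 * m + 1) * (m.centralBinom : ℝ) := by
      exact_mod_cast Nat.succ_mul_centralBinom_succ m
    have hne : (2 * (M : ℝ) + 1) ≠ 0 := by positivity
    apply mul_left_cancel₀ hne
    rw [Nat.factorial_succ]
    push_cast at h c1 c2 ⊢
    rw [pow_succ]
    linear_combination h - (-1 : ℝ) ^ m * (m.factorial : ℝ) ^ 2 * (m.centralBinom : ℝ) *
      (m + 1) * (2 * m + 1) * c1 + (-1 : ℝ) ^ m * (m.factorial : ℝ) ^ 2 * (M.centralBinom : ℝ) *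
      (m + 1) * (2 * M + 1) * c2

/-! ### The shifted polynomials -/

/-- `p_k(q) = P_k(2q - 1)` -/
noncomputable def pk (k : ℕ) : ℝ[X] := (leg k).comp (C 2 * X - 1)

theorem iterate_derivative_comp_lin (p : ℝ[X]) (n : ℕ) :
    derivative^[n] (p.comp (C 2 * X - 1)) = C (2 ^ n) * (derivative^[n] p).comp (C 2 * X - 1) := by
  induction n with
  | zero => simp
  | succ n ih =>
    rw [Function.iterate_succ_apply', ih, Function.iterate_succ_apply', derivative_C_mul,
      derivative_comp]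
    simp only [derivative_sub, derivative_mul, derivative_C, derivative_X, derivative_one,
      zero_mul, zero_add, mul_one, sub_zero]
    rw [pow_succ, C_mul]
    ring

theorem pk_eq (k : ℕ) : pk k = C ((-1) ^ k) * ((shiftedLegendre k).map (Int.castRingHom ℝ)) := by
  have h1 := congrArg (Polynomial.map (Int.castRingHom ℝ)) (factorial_mul_shiftedLegendre_eq k)
  rw [Polynomial.map_mul, ← iterate_derivative_map] at h1
  simp only [Polynomial.map_natCast, Polynomial.map_mul, Polynomial.map_pow, Polynomial.map_sub,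
    Polynomial.map_one, map_X] at h1
  have h2 := iterate_derivative_comp_lin ((X ^ 2 - 1) ^ k) k
  have h3 : (((X : ℝ[X]) ^ 2 - 1) ^ k).comp (C 2 * X - 1) =
      C ((-4) ^ k) * (X ^ k * (1 - X) ^ k) := by
    simp only [pow_comp, sub_comp, X_comp, one_comp]
    rw [C_pow, ← mul_pow, ← mul_pow]
    congr 1
    have e2 : (C (2 : ℝ) : ℝ[X]) = 2 := rfl
    have e4 : (C (-4 : ℝ) : ℝ[X]) = -4 := by rw [C_neg]; rfl
    rw [e2, e4]
    ring
  rw [h3, iterate_derivative_C_mul, ← h1] at h2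
  -- h2 : C ((-4)^k) * (k! * S) = C (2^k) * (D^k ..).comp
  have hfac : (k.factorial : ℝ) ≠ 0 := by positivity
  have h2k : (2 : ℝ) ^ k ≠ 0 := by positivity
  rw [pk, leg, mul_comp, C_comp]
  have h4 : (derivative^[k] ((X ^ 2 - 1 : ℝ[X]) ^ k)).comp (C 2 * X - 1) =
      C ((-2) ^ k * (k.factorial : ℝ)) * ((shiftedLegendre k).map (Int.castRingHom ℝ)) := by
    have h5 : (C ((2 : ℝ) ^ k) : ℝ[X]) ≠ 0 := by simp
    apply mul_left_cancel₀ h5
    rw [← h2, ← mul_assoc, ← mul_assoc, ← C_mul]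
    have h6 : ((k.factorial : ℕ) : ℝ[X]) = C (k.factorial : ℝ) := by simp
    rw [h6, ← C_mul]
    congr 2
    have : (-4 : ℝ) = 2 * (-2) := by norm_num
    rw [this, mul_pow]
    ring
  rw [h4, ← mul_assoc, ← C_mul]
  congr 2
  have : (-2 : ℝ) ^ k = (-1) ^ k * 2 ^ k := by rw [← mul_pow]; norm_num
  rw [this]
  field_simp

theorem pk_coeff (k m : ℕ) : (pk k).coeff m = (-1) ^ (k + m) * E m k / (m.factorial : ℝ) ^ 2 := by
  rw [pk_eq, coeff_C_mul, coeff_map, coeff_shiftedLegendre, E_choose]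
  have hfac : (m.factorial : ℝ) ≠ 0 := by positivity
  simp
  rw [pow_add]
  field_simp

/-- `∑ (2k+1) b_k p_k = (2N+1) C(2N,N) q^N` -/
theorem sum_O (N : ℕ) : ∑ k ∈ range (N + 1), C ((2 * k + 1) * b N k) * pk k =
    C ((2 * N + 1) * (N.centralBinom : ℝ)) * X ^ N := by
  ext m
  rw [finsetSum_coeff]
  simp only [coeff_C_mul, pk_coeff, coeff_X_pow]
  have h1 : ∀ k ∈ range (N + 1), ((2 * k + 1) * b N k) * ((-1) ^ (k + m) * E m k /
      (m.factorial : ℝ) ^ 2) = ((-1) ^ m / (m.factorial : ℝ) ^ 2) *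
      ((-1 : ℝ) ^ k * ((2 * k + 1) * b N k) * E m k) := by
    intro k _
    rw [pow_add]; ring
  rw [sum_congr rfl h1, ← mul_sum]
  by_cases hm : m = N
  · subst hm
    rw [sum_odd_self, if_pos rfl]
    have hfac : (m.factorial : ℝ) ≠ 0 := by positivity
    have h4 : (-1 : ℝ) ^ m * (-1) ^ m = 1 := by rw [← mul_pow]; norm_num
    have h5 : (m.factorial : ℝ) ^ 2 / (m.factorial : ℝ) ^ 2 = 1 := div_self (pow_ne_zero 2 hfac)
    calc _ = ((-1 : ℝ) ^ m * (-1) ^ m) * ((m.factorial : ℝ) ^ 2 / (m.factorial : ℝ) ^ 2) *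
          ((2 * m + 1) * (m.centralBinom : ℝ)) := by ring
      _ = _ := by rw [h4, h5]; ring
  · rw [sum_odd_zero hm, if_neg hm]; simp

/-- `∑ b_k p_k = ∑ C(2(N-m),N-m) C(2m,m) q^m` -/
theorem sum_Z (N : ℕ) : ∑ k ∈ range (N + 1), C (b N k) * pk k =
    ∑ m ∈ range (N + 1), C (((N - m).centralBinom : ℝ) * (m.centralBinom : ℝ)) * X ^ m := by
  ext m
  rw [finsetSum_coeff, finsetSum_coeff]
  simp only [coeff_C_mul, pk_coeff, coeff_X_pow, mul_ite, mul_one, mul_zero]
  rw [Finset.sum_ite_eq]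
  have h1 : ∀ k ∈ range (N + 1), b N k * ((-1) ^ (k + m) * E m k /
      (m.factorial : ℝ) ^ 2) = ((-1) ^ m / (m.factorial : ℝ) ^ 2) *
      ((-1 : ℝ) ^ k * b N k * E m k) := by
    intro k _
    rw [pow_add]; ring
  rw [sum_congr rfl h1, ← mul_sum]
  by_cases hm : m ∈ range (N + 1)
  · rw [if_pos hm, sum_even N m (Nat.lt_succ_iff.mp (mem_range.mp hm))]
    have hfac : (m.factorial : ℝ) ≠ 0 := by positivity
    have h4 : (-1 : ℝ) ^ m * (-1) ^ m = 1 := by rw [← mul_pow]; norm_num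
    have h5 : (m.factorial : ℝ) ^ 2 / (m.factorial : ℝ) ^ 2 = 1 := div_self (pow_ne_zero 2 hfac)
    calc _ = ((-1 : ℝ) ^ m * (-1) ^ m) * ((m.factorial : ℝ) ^ 2 / (m.factorial : ℝ) ^ 2) *
          (((N - m).centralBinom : ℝ) * (m.centralBinom : ℝ)) := by ring
      _ = _ := by rw [h4, h5]; ring
  · rw [if_neg hm, sum_eq_zero, mul_zero]
    intro k hk
    rw [mem_range] at hm hk
    rw [E_eq_zero (by omega), mul_zero]

/-! ### The differential operator -/

/-- `L y = q(1-q) y'' + (1-2q) y'` -/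
noncomputable def L : ℝ[X] →ₗ[ℝ] ℝ[X] :=
  LinearMap.mulLeft ℝ (X * (1 - X)) ∘ₗ Polynomial.derivative ∘ₗ Polynomial.derivative +
    LinearMap.mulLeft ℝ (1 - 2 * X) ∘ₗ Polynomial.derivative

theorem L_apply (y : ℝ[X]) : L y = X * (1 - X) * derivative (derivative y) +
    (1 - 2 * X) * derivative y := by
  simp [L]
  ring

theorem L_coeff (y : ℝ[X]) (m : ℕ) :
    (L y).coeff m = ((m : ℝ) + 1) ^ 2 * y.coeff (m + 1) - (m : ℝ) * (m + 1) * y.coeff m := by
  have h : L y = X * derivative (derivative y) - X * (X * derivative (derivative y)) +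
      derivative y - C 2 * (X * derivative y) := by
    rw [L_apply]
    have e2 : (C (2 : ℝ) : ℝ[X]) = 2 := rfl
    rw [e2]; ring
  rw [h]
  simp only [coeff_add, coeff_sub, coeff_C_mul]
  match m with
  | 0 => simp [coeff_derivative]
  | 1 => simp [coeff_derivative, coeff_X_mul]; ring
  | (m + 2) => simp only [coeff_derivative, coeff_X_mul]; push_cast; ring

theorem L_pk (k : ℕ) : L (pk k) = (-((k : ℝ) * (k + 1))) • pk k := by
  ext m
  rw [L_coeff, coeff_smul, pk_coeff, pk_coeff, E_succ, Nat.factorial_succ, ← add_assoc, pow_succ]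
  have hfac : (m.factorial : ℝ) ≠ 0 := by positivity
  have h1 : ((m : ℝ) + 1) ≠ 0 := by positivity
  push_cast
  rw [smul_eq_mul]
  field_simp
  ring

theorem aeval_L_pk (α : ℝ[X]) (k : ℕ) :
    aeval (-L) α (pk k) = (α.eval ((k : ℝ) * (k + 1))) • pk k := by
  have h : (-L : Module.End ℝ ℝ[X]) (pk k) = ((k : ℝ) * (k + 1)) • pk k := by
    rw [LinearMap.neg_apply, L_pk, neg_smul, neg_neg]
  induction α using Polynomial.induction_on' with
  | add p q hp hq => rw [map_add, LinearMap.add_apply, hp, hq, eval_add, add_smul]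
  | monomial n a =>
    rw [aeval_monomial]
    have h2 : ∀ n : ℕ, ((-L : Module.End ℝ ℝ[X]) ^ n) (pk k) = (((k : ℝ) * (k + 1)) ^ n) • pk k := by
      intro n
      induction n with
      | zero => simp
      | succ n ih =>
        rw [pow_succ, Module.End.mul_apply, h, map_smul, ih, smul_smul, pow_succ]
        congr 1; ring
    rw [Module.End.mul_apply, h2, eval_monomial, Module.algebraMap_end_apply, smul_smul]

end Pool.Agent.V1176.Leg
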