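import Mathlib
import Pool.Agent.V1176.LegA

set_option autoImplicit false

open Polynomial Finset Filter Topology

namespace Pool.Agent.V1176.Leg

/-! ### Decomposition `U(k) = α(k(k+1)) + (2k+1) β(k(k+1))` -/

/-- `κ = X (X+1)` -/
noncomputable def kap : ℝ[X] := X * (X + 1)

theorem kap_natDegree : kap.natDegree = 2 := by
  have h1 : (X + 1 : ℝ[X]).natDegree = 1 := natDegree_X_add_C 1
  have h0 : (X + 1 : ℝ[X]) ≠ 0 := X_add_C_ne_zero 1
  rw [kap, natDegree_mul X_ne_zero h0, natDegree_X, h1]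

theorem kap_monic : kap.Monic := by
  rw [kap]
  exact monic_X.mul (monic_X_add_C 1)

theorem exists_decomp (U : ℝ[X]) : ∃ α β : ℝ[X],
    U = α.comp kap + (C 2 * X + 1) * β.comp kap := by
  induction' hn : U.natDegree using Nat.strong_induction_on with n ih generalizing U
  by_cases hU0 : U.natDegree = 0
  · rw [natDegree_eq_zero] at hU0
    obtain ⟨c, rfl⟩ := hU0
    exact ⟨C c, 0, by simp⟩
  -- remove the leading term
  have key : ∀ V : ℝ[X], V.natDegree = U.natDegree → V.leadingCoeff = U.leadingCoeff →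
      (∃ α β : ℝ[X], V = α.comp kap + (C 2 * X + 1) * β.comp kap) →
      ∃ α β : ℝ[X], U = α.comp kap + (C 2 * X + 1) * β.comp kap := by
    intro V hV1 hV2 ⟨α, β, hV⟩
    by_cases hUV : U - V = 0
    · exact ⟨α, β, by rw [← hV]; exact sub_eq_zero.mp hUV⟩
    have hlt : (U - V).natDegree < n := by
      have hU0' : U ≠ 0 := by rintro rfl; simp at hU0
      have hV0' : V ≠ 0 := by rintro rfl; simp at hV1; omega
      have hdeg : U.degree = V.degree := by
        rw [degree_eq_natDegree hU0', degree_eq_natDegree hV0', hV1]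
      have := degree_sub_lt_left hdeg hU0' hV2.symm
      rw [degree_eq_natDegree hUV, degree_eq_natDegree hU0'] at this
      rw [← hn]
      exact_mod_cast this
    obtain ⟨α', β', h'⟩ := ih _ hlt (U - V) rfl
    refine ⟨α' + α, β' + β, ?_⟩
    rw [add_comp, add_comp]
    linear_combination h' + hV
  rcases Nat.even_or_odd' U.natDegree with ⟨m, hm | hm⟩
  · apply key (C U.leadingCoeff * kap ^ m)
    · rw [natDegree_C_mul (by rw [Ne, leadingCoeff_eq_zero]; rintro rfl; simp at hU0),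
        natDegree_pow, kap_natDegree, hm]; ring
    · rw [leadingCoeff_mul, leadingCoeff_C, (kap_monic.pow m).leadingCoeff, mul_one]
    · exact ⟨C U.leadingCoeff * X ^ m, 0, by simp⟩
  · have hlc : U.leadingCoeff ≠ 0 := by
      rw [Ne, leadingCoeff_eq_zero]; rintro rfl; simp at hU0
    have h2 : (C 2 * X + 1 : ℝ[X]).natDegree = 1 := by
      have := natDegree_linear (a := (2 : ℝ)) (b := 1) (by norm_num)
      simpa using this
    have h2l : (C 2 * X + 1 : ℝ[X]).leadingCoeff = 2 := by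
      have := leadingCoeff_linear (a := (2 : ℝ)) (b := 1) (by norm_num)
      simpa using this
    have h20 : (C 2 * X + 1 : ℝ[X]) ≠ 0 := by
      intro h; rw [h] at h2; simp at h2
    apply key ((C 2 * X + 1) * (C (U.leadingCoeff / 2) * kap ^ m))
    · rw [natDegree_mul h20 (mul_ne_zero (by simpa using hlc) (kap_monic.pow m).ne_zero), h2,
        natDegree_C_mul (by simpa using hlc), natDegree_pow, kap_natDegree, hm]; ring
    · rw [leadingCoeff_mul, h2l, leadingCoeff_mul, leadingCoeff_C, (kap_monic.pow m).leadingCoeff]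
      ring
    · exact ⟨0, C (U.leadingCoeff / 2) * X ^ m, by simp⟩

theorem decomp_natDegree {U α β : ℝ[X]} (h : U = α.comp kap + (C 2 * X + 1) * β.comp kap) {m : ℕ}
    (hU : U.natDegree = 2 * m) : α.natDegree = m := by
  have h2 : (C 2 * X + 1 : ℝ[X]).natDegree = 1 := by
    have := natDegree_linear (a := (2 : ℝ)) (b := 1) (by norm_num)
    simpa using this
  have h20 : (C 2 * X + 1 : ℝ[X]) ≠ 0 := by
    intro h; rw [h] at h2; simp at h2
  have ha : (α.comp kap).natDegree = α.natDegree * 2 := by rw [natDegree_comp, kap_natDegree]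
  by_cases hb0 : β = 0
  · rw [hb0] at h
    simp only [zero_comp, mul_zero, add_zero] at h
    rw [← h, hU] at ha
    omega
  have hbk : β.comp kap ≠ 0 := by
    intro h0
    rw [comp_eq_zero_iff] at h0
    rcases h0 with h0 | ⟨-, h0⟩
    · exact hb0 h0
    · have := kap_natDegree
      rw [h0] at this; simp at this
  have hb : ((C 2 * X + 1) * β.comp kap).natDegree = 1 + β.natDegree * 2 := by
    rw [natDegree_mul h20 hbk, h2, natDegree_comp, kap_natDegree]
  rcases lt_trichotomy (α.natDegree * 2) (1 + β.natDegree * 2) with hlt | heq | hgt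
  · rw [← ha, ← hb] at hlt
    have := natDegree_add_eq_right_of_natDegree_lt hlt
    rw [← h, hU, hb] at this
    omega
  · omega
  · rw [← ha, ← hb] at hgt
    have := natDegree_add_eq_left_of_natDegree_lt hgt
    rw [← h, hU, ha] at this
    omega

/-! ### Jets -/

/-- the sequence of derivatives at `q` -/
noncomputable def jet (q : ℝ) : ℝ[X] →ₗ[ℝ] (ℕ → ℝ) where
  toFun y := fun i => (derivative^[i] y).eval q
  map_add' y z := by funext i; simp [iterate_map_add]
  map_smul' c y := by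
    funext i
    simp [iterate_derivative_smul]

theorem jet_apply (q : ℝ) (y : ℝ[X]) (i : ℕ) : jet q y i = (derivative^[i] y).eval q := rfl

/-- the action of `L` on jets -/
noncomputable def LJ (q : ℝ) : (ℕ → ℝ) →ₗ[ℝ] (ℕ → ℝ) where
  toFun y := fun i => q * (1 - q) * y (i + 2) + (i + 1) * (1 - 2 * q) * y (i + 1) - i * (i + 1) * y i
  map_add' y z := by funext i; simp; ring
  map_smul' c y := by funext i; simp; ring

theorem LJ_apply (q : ℝ) (y : ℕ → ℝ) (i : ℕ) : LJ q y i =
    q * (1 - q) * y (i + 2) + (i + 1) * (1 - 2 * q) * y (i + 1) - i * (i + 1) * y i := rfl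

theorem iterate_L (y : ℝ[X]) (i : ℕ) : derivative^[i] (L y) =
    X * (1 - X) * derivative^[i + 2] y + C ((i : ℝ) + 1) * (1 - 2 * X) * derivative^[i + 1] y -
      C ((i : ℝ) * (i + 1)) * derivative^[i] y := by
  induction i with
  | zero => simp [L_apply]
  | succ i ih =>
    rw [Function.iterate_succ_apply', ih]
    have e1 : derivative^[i + 1 + 2] y = derivative (derivative^[i + 2] y) := by
      rw [← Function.iterate_succ_apply' (f := derivative)]
    have e2 : derivative^[i + 1 + 1] y = derivative (derivative^[i + 1] y) := by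
      rw [← Function.iterate_succ_apply' (f := derivative)]
    have e2' : derivative^[i + 2] y = derivative (derivative^[i + 1] y) := e2
    have e3 : derivative^[i + 1] y = derivative (derivative^[i] y) := by
      rw [← Function.iterate_succ_apply' (f := derivative)]
    rw [e1, e2]
    simp only [derivative_sub, derivative_add, derivative_mul, derivative_C, derivative_X,
      derivative_one, derivative_ofNat]
    rw [← e3, ← e2']
    push_cast
    simp only [map_add, map_mul, map_one, map_natCast]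
    ring

theorem jet_L (q : ℝ) (y : ℝ[X]) : jet q (L y) = LJ q (jet q y) := by
  funext i
  rw [LJ_apply, jet_apply, iterate_L, jet_apply, jet_apply, jet_apply]
  simp

theorem jet_aeval (q : ℝ) (α y : ℝ[X]) :
    jet q (aeval (-L) α y) = aeval (-LJ q : Module.End ℝ (ℕ → ℝ)) α (jet q y) := by
  induction α using Polynomial.induction_on' with
  | add p r hp hr => rw [map_add, map_add, LinearMap.add_apply, map_add, hp, hr]; rfl
  | monomial n a =>
    have h : ∀ (n : ℕ) (y : ℝ[X]), jet q (((-L : Module.End ℝ ℝ[X]) ^ n) y) =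
        ((-LJ q : Module.End ℝ (ℕ → ℝ)) ^ n) (jet q y) := by
      intro n
      induction n with
      | zero => intro y; simp
      | succ n ih =>
        intro y
        rw [pow_succ, pow_succ, Module.End.mul_apply, Module.End.mul_apply, ih,
          LinearMap.neg_apply, LinearMap.neg_apply, map_neg, jet_L]
    rw [aeval_monomial, aeval_monomial, Module.End.mul_apply, Module.End.mul_apply,
      Module.algebraMap_end_apply, Module.algebraMap_end_apply, map_smul, h]

theorem continuous_LJ (q : ℝ) : Continuous (LJ q : (ℕ → ℝ) → (ℕ → ℝ)) := by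
  apply continuous_pi
  intro i
  simp only [LJ_apply]
  fun_prop

theorem continuous_aeval_LJ (q : ℝ) (α : ℝ[X]) :
    Continuous (aeval (-LJ q : Module.End ℝ (ℕ → ℝ)) α : (ℕ → ℝ) → (ℕ → ℝ)) := by
  induction α using Polynomial.induction_on' with
  | add p r hp hr =>
    have : (aeval (-LJ q : Module.End ℝ (ℕ → ℝ)) (p + r) : (ℕ → ℝ) → (ℕ → ℝ)) =
        fun y => aeval (-LJ q : Module.End ℝ (ℕ → ℝ)) p y +
          aeval (-LJ q : Module.End ℝ (ℕ → ℝ)) r y := by
      funext y; rw [map_add]; rfl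
    rw [this]
    exact hp.add hr
  | monomial n a =>
    have h : ∀ n : ℕ, Continuous ((((-LJ q : Module.End ℝ (ℕ → ℝ)) ^ n : Module.End ℝ (ℕ → ℝ))) :
        (ℕ → ℝ) → (ℕ → ℝ)) := by
      intro n
      induction n with
      | zero => exact continuous_id
      | succ n ih =>
        have : ((((-LJ q : Module.End ℝ (ℕ → ℝ)) ^ (n + 1) : Module.End ℝ (ℕ → ℝ))) :
            (ℕ → ℝ) → (ℕ → ℝ)) = fun y => ((-LJ q : Module.End ℝ (ℕ → ℝ)) ^ n) (-(LJ q y)) := by
          funext y; rw [pow_succ]; rfl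
        rw [this]
        exact ih.comp (continuous_LJ q).neg
    have : (aeval (-LJ q : Module.End ℝ (ℕ → ℝ)) (monomial n a) : (ℕ → ℝ) → (ℕ → ℝ)) =
        fun y => a • (((-LJ q : Module.End ℝ (ℕ → ℝ)) ^ n) y) := by
      funext y
      rw [aeval_monomial]; rfl
    rw [this]
    exact (h n).const_smul a

/-! ### The model jets -/

/-- rising factorials `∏_{l<i} (n + 1/2 + l)` -/
noncomputable def rf (n i : ℕ) : ℝ := ∏ l ∈ range i, ((n : ℝ) + 1 / 2 + l)

theorem rf_succ (n i : ℕ) : rf n (i + 1) = rf n i * (n + 1 / 2 + i) := by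
  rw [rf, prod_range_succ]; rfl

theorem rf_shift (n i : ℕ) : (n + 1 / 2 : ℝ) * rf (n + 1) i = rf n i * (n + 1 / 2 + i) := by
  rw [← rf_succ, rf, rf, prod_range_succ']
  push_cast
  rw [mul_comm, add_zero]
  congr 1
  apply prod_congr rfl
  intro l _
  ring

/-- the jet of `(1-q)^{-n-1/2}` divided by `(1-q)^{-1/2}` -/
noncomputable def yh (τ : ℝ) (n : ℕ) : ℕ → ℝ := fun i => rf n i * τ ^ (n + i)

theorem LJ_yh {q τ : ℝ} (hτ : q = 1 - 1 / τ) (hτ0 : τ ≠ 0) (n : ℕ) :
    LJ q (yh τ n) = ((n : ℝ) + 1 / 2) ^ 2 • yh τ (n + 1) + (1 / 4 - (n : ℝ) ^ 2) • yh τ n := by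
  funext i
  rw [LJ_apply]
  simp only [yh, Pi.add_apply, Pi.smul_apply, smul_eq_mul]
  have h1 : (n + 1 / 2 : ℝ) ^ 2 * (rf (n + 1) i * τ ^ (n + 1 + i)) =
      (n + 1 / 2 : ℝ) * (rf n i * (n + 1 / 2 + i)) * τ ^ (n + 1 + i) := by
    rw [← rf_shift]; ring
  rw [h1, rf_succ, rf_succ]
  have e1 : τ ^ (n + (i + 2)) = τ ^ (n + i) * τ ^ 2 := by rw [← pow_add]; congr 1
  have e2 : τ ^ (n + (i + 1)) = τ ^ (n + i) * τ := by rw [← pow_succ]; congr 1
  have e3 : τ ^ (n + 1 + i) = τ ^ (n + i) * τ := by rw [← pow_succ]; congr 1; ring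
  rw [e1, e2, e3, hτ]
  push_cast
  field_simp
  ring

/-- the linear extension `X^n ↦ yh τ n` -/
noncomputable def Y (τ : ℝ) : ℝ[X] →ₗ[ℝ] (ℕ → ℝ) := (Polynomial.basisMonomials ℝ).constr ℝ (yh τ)

theorem Y_X_pow (τ : ℝ) (n : ℕ) : Y τ (X ^ n) = yh τ n := by
  have h : (X ^ n : ℝ[X]) = Polynomial.basisMonomials ℝ n := by
    simp [Polynomial.coe_basisMonomials, X_pow_eq_monomial]
  rw [Y, h, Module.Basis.constr_basis]

/-- the operator `Λ` with `Λ X^n = (n+1/2)² X^{n+1} + (1/4 - n²) X^n` -/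
noncomputable def Lam : ℝ[X] →ₗ[ℝ] ℝ[X] := (Polynomial.basisMonomials ℝ).constr ℝ
  (fun n => ((n : ℝ) + 1 / 2) ^ 2 • (X ^ (n + 1) : ℝ[X]) + (1 / 4 - (n : ℝ) ^ 2) • (X ^ n : ℝ[X]))

theorem Lam_X_pow (n : ℕ) : Lam (X ^ n) =
    ((n : ℝ) + 1 / 2) ^ 2 • (X ^ (n + 1) : ℝ[X]) + (1 / 4 - (n : ℝ) ^ 2) • (X ^ n : ℝ[X]) := by
  have h : (X ^ n : ℝ[X]) = Polynomial.basisMonomials ℝ n := by
    simp [Polynomial.coe_basisMonomials, X_pow_eq_monomial]
  conv_lhs => rw [h]
  rw [Lam, Module.Basis.constr_basis]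

theorem lin_ext {M : Type*} [AddCommMonoid M] [Module ℝ M] {f g : ℝ[X] →ₗ[ℝ] M}
    (h : ∀ n : ℕ, f (X ^ n) = g (X ^ n)) : f = g := by
  apply Polynomial.lhom_ext'
  intro n
  apply LinearMap.ext_ring
  have := h n
  simpa [X_pow_eq_monomial] using this

theorem Y_Lam {q τ : ℝ} (hτ : q = 1 - 1 / τ) (hτ0 : τ ≠ 0) (η : ℝ[X]) :
    Y τ (Lam η) = LJ q (Y τ η) := by
  have h : Y τ ∘ₗ Lam = LJ q ∘ₗ Y τ := by
    apply lin_ext
    intro n
    rw [LinearMap.comp_apply, LinearMap.comp_apply, Lam_X_pow, Y_X_pow, LJ_yh hτ hτ0, map_add,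
      map_smul, map_smul, Y_X_pow, Y_X_pow]
  exact LinearMap.congr_fun h η

theorem Y_aeval {q τ : ℝ} (hτ : q = 1 - 1 / τ) (hτ0 : τ ≠ 0) (α η : ℝ[X]) :
    aeval (-LJ q : Module.End ℝ (ℕ → ℝ)) α (Y τ η) =
      Y τ (aeval (-Lam : Module.End ℝ ℝ[X]) α η) := by
  induction α using Polynomial.induction_on' with
  | add p r hp hr =>
    rw [map_add, map_add, LinearMap.add_apply, LinearMap.add_apply, map_add, hp, hr]
  | monomial n a =>
    have h : ∀ (n : ℕ) (η : ℝ[X]), ((-LJ q : Module.End ℝ (ℕ → ℝ)) ^ n) (Y τ η) =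
        Y τ (((-Lam : Module.End ℝ ℝ[X]) ^ n) η) := by
      intro n
      induction n with
      | zero => intro y; simp
      | succ n ih =>
        intro y
        rw [pow_succ, pow_succ, Module.End.mul_apply, Module.End.mul_apply, ← ih,
          LinearMap.neg_apply, LinearMap.neg_apply, map_neg (Y τ), Y_Lam hτ hτ0]
    rw [aeval_monomial, aeval_monomial, Module.End.mul_apply, Module.End.mul_apply,
      Module.algebraMap_end_apply, Module.algebraMap_end_apply, map_smul, h]

theorem Lam_coeff (η : ℝ[X]) (k : ℕ) : (Lam η).coeff (k + 1) =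
    ((k : ℝ) + 1 / 2) ^ 2 * η.coeff k + (1 / 4 - ((k : ℝ) + 1) ^ 2) * η.coeff (k + 1) := by
  have h : (Polynomial.lcoeff ℝ (k + 1)) ∘ₗ Lam =
      ((k : ℝ) + 1 / 2) ^ 2 • Polynomial.lcoeff ℝ k +
        (1 / 4 - ((k : ℝ) + 1) ^ 2) • Polynomial.lcoeff ℝ (k + 1) := by
    apply lin_ext
    intro n
    simp only [LinearMap.comp_apply, Lam_X_pow, LinearMap.add_apply, LinearMap.smul_apply,
      lcoeff_apply, coeff_add, coeff_smul, coeff_X_pow, smul_eq_mul]
    by_cases h1 : k = n
    · subst h1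
      simp
    · have h2 : ¬ (k + 1 = n + 1) := by omega
      simp only [h1, h2, if_false, mul_zero, zero_add]
      by_cases h3 : k + 1 = n
      · subst h3
        simp
      · simp [h3]
  have := LinearMap.congr_fun h η
  simpa using this

/-- coefficients of `(-Λ)^j 1` -/
theorem negLam_pow (j : ℕ) : (∀ k, j < k → (((-Lam : Module.End ℝ ℝ[X]) ^ j) 1).coeff k = 0) ∧
    (((-Lam : Module.End ℝ ℝ[X]) ^ j) 1).coeff j ≠ 0 := by
  induction j with
  | zero =>
    constructor
    · intro k hk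
      rw [pow_zero, Module.End.one_apply, coeff_one, if_neg (by omega)]
    · simp
  | succ j ih =>
    rw [pow_succ', Module.End.mul_apply, LinearMap.neg_apply]
    set z := ((-Lam : Module.End ℝ ℝ[X]) ^ j) 1 with hz
    constructor
    · intro k hk
      obtain ⟨k', rfl⟩ : ∃ k', k = k' + 1 := ⟨k - 1, by omega⟩
      rw [coeff_neg, Lam_coeff, ih.1 k' (by omega), ih.1 (k' + 1) (by omega)]
      simp
    · rw [coeff_neg, Lam_coeff, ih.1 (j + 1) (by omega), mul_zero, add_zero]
      have : ((j : ℝ) + 1 / 2) ^ 2 ≠ 0 := by positivity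
      exact neg_ne_zero.mpr (mul_ne_zero this ih.2)

theorem aeval_negLam {α : ℝ[X]} {m : ℕ} (hα : α.natDegree = m) (hα0 : α ≠ 0) :
    (∀ k, m < k → (aeval (-Lam : Module.End ℝ ℝ[X]) α 1).coeff k = 0) ∧
    (aeval (-Lam : Module.End ℝ ℝ[X]) α 1).coeff m ≠ 0 := by
  have h : aeval (-Lam : Module.End ℝ ℝ[X]) α 1 =
      ∑ i ∈ range (m + 1), α.coeff i • (((-Lam : Module.End ℝ ℝ[X]) ^ i) 1) := by
    rw [aeval_eq_sum_range, hα, LinearMap.sum_apply]
    rfl
  rw [h]
  constructor
  · intro k hk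
    rw [finsetSum_coeff]
    apply sum_eq_zero
    intro i hi
    rw [coeff_smul, (negLam_pow i).1 k (by have := mem_range.mp hi; omega), smul_zero]
  · rw [finsetSum_coeff, sum_range_succ, sum_eq_zero]
    · rw [zero_add, coeff_smul, smul_eq_mul]
      apply mul_ne_zero _ (negLam_pow m).2
      rw [← hα]
      exact leadingCoeff_ne_zero.mpr hα0
    · intro i hi
      rw [coeff_smul, (negLam_pow i).1 m (mem_range.mp hi), smul_zero]

/-- first and second jets of `Y τ η` -/
noncomputable def Th1 (η : ℝ[X]) : ℝ[X] := X * derivative η + C (1 / 2) * η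

theorem Y_zero (τ : ℝ) (η : ℝ[X]) : Y τ η 0 = η.eval τ := by
  have h : (LinearMap.proj 0 : (ℕ → ℝ) →ₗ[ℝ] ℝ) ∘ₗ Y τ = Polynomial.leval τ := by
    apply lin_ext
    intro n
    simp [Y_X_pow, yh, rf]
  exact LinearMap.congr_fun h η

theorem Y_succ (τ : ℝ) (i : ℕ) (η : ℝ[X]) : Y τ η (i + 1) =
    τ * Y τ (X * derivative η + C ((i : ℝ) + 1 / 2) * η) i := by
  have h : (LinearMap.proj (i + 1) : (ℕ → ℝ) →ₗ[ℝ] ℝ) ∘ₗ Y τ =
      τ • ((LinearMap.proj i : (ℕ → ℝ) →ₗ[ℝ] ℝ) ∘ₗ Y τ ∘ₗ
        (LinearMap.mulLeft ℝ (X : ℝ[X]) ∘ₗ Polynomial.derivative +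
          ((i : ℝ) + 1 / 2) • LinearMap.id)) := by
    apply lin_ext
    intro n
    simp only [LinearMap.comp_apply, LinearMap.smul_apply, LinearMap.add_apply,
      LinearMap.proj_apply, LinearMap.mulLeft_apply, LinearMap.id_apply, map_add, map_smul]
    have h1 : (X * derivative (X ^ n) : ℝ[X]) = (n : ℝ) • X ^ n := by
      rw [derivative_X_pow, smul_eq_C_mul]
      cases n with
      | zero => simp
      | succ n => simp; ring
    rw [h1, map_smul, Y_X_pow]
    simp only [yh, rf_succ, Pi.add_apply, Pi.smul_apply, smul_eq_mul]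
    rw [← add_assoc, pow_succ]
    ring
  have h2 := LinearMap.congr_fun h η
  simpa [smul_eq_C_mul] using h2

end Pool.Agent.V1176.Leg
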