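import Mathlib
import Pool.Agent.V1176.LegB

set_option autoImplicit false

open Polynomial Finset Filter Topology

namespace Pool.Agent.V1176.Leg

/-- `c_j = C(2j,j)/4^j` -/
noncomputable def cb (j : ℕ) : ℝ := (j.centralBinom : ℝ) / 4 ^ j

theorem cb_pos (j : ℕ) : 0 < cb j := by
  have : 0 < (j.centralBinom : ℝ) := by exact_mod_cast Nat.centralBinom_pos j
  unfold cb
  positivity

theorem cb_succ (j : ℕ) : cb (j + 1) * (j + 1) = cb j * (j + 1 / 2) := by
  have c2 : ((j + 1 : ℕ) : ℝ) * ((j + 1).centralBinom : ℝ) =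
      2 * (2 * j + 1) * (j.centralBinom : ℝ) := by
    exact_mod_cast Nat.succ_mul_centralBinom_succ j
  push_cast at c2
  unfold cb
  rw [pow_succ]
  have h4 : (4 : ℝ) ^ j ≠ 0 := by positivity
  field_simp
  linear_combination 2 * c2

theorem cb_le_one (j : ℕ) : cb j ≤ 1 := by
  induction j with
  | zero => simp [cb]
  | succ j ih =>
    have h := cb_succ j
    have h0 : (0 : ℝ) < j + 1 := by positivity
    have := cb_pos j
    by_contra hcon
    push Not at hcon
    nlinarith

theorem cb_ratio_le (M j : ℕ) : cb M ≤ (j + 1) * cb (M + j) := by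
  induction j with
  | zero => simp
  | succ j ih =>
    have h := cb_succ (M + j)
    have h1 := cb_pos (M + j)
    have h2 := cb_pos (M + (j + 1))
    rw [← add_assoc] at h2 ⊢
    push_cast at h ⊢
    have hM : (0 : ℝ) ≤ M := by positivity
    have hj : (0 : ℝ) ≤ j := by positivity
    have h3 : (0 : ℝ) < M + j + 1 := by positivity
    -- multiply by (M + j + 1)
    have h4 : ((j : ℝ) + 1) * (M + j + 1) ≤ (j + 1 + 1) * (M + j + 1 / 2) := by nlinarith
    have h5 : cb M * (M + j + 1) ≤ (j + 1 + 1) * cb (M + j + 1) * (M + j + 1) := by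
      calc cb M * (M + j + 1) ≤ ((j + 1) * cb (M + j)) * (M + j + 1) :=
            mul_le_mul_of_nonneg_right ih h3.le
        _ = cb (M + j) * ((j + 1) * (M + j + 1)) := by ring
        _ ≤ cb (M + j) * ((j + 1 + 1) * (M + j + 1 / 2)) := mul_le_mul_of_nonneg_left h4 h1.le
        _ = (j + 1 + 1) * (cb (M + j) * (M + j + 1 / 2)) := by ring
        _ = (j + 1 + 1) * (cb (M + j + 1) * (M + j + 1)) := by rw [h]
        _ = _ := by ring
    exact le_of_mul_le_mul_right h5 h3

theorem cb_ratio_tendsto (j : ℕ) : Tendsto (fun M : ℕ => cb M / cb (M + j)) atTop (𝓝 1) := by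
  induction j with
  | zero =>
    have : (fun M : ℕ => cb M / cb (M + 0)) = fun _ => 1 := by
      funext M; rw [add_zero, div_self (cb_pos M).ne']
    rw [this]; exact tendsto_const_nhds
  | succ j ih =>
    have h1 : (fun M : ℕ => cb M / cb (M + (j + 1))) =
        fun M : ℕ => (cb M / cb (M + j)) * (1 + (1 / 2) / ((M : ℝ) + (j + 1 / 2))) := by
      funext M
      have h := cb_succ (M + j)
      have h1 := cb_pos (M + j)
      have h2 := cb_pos (M + j + 1)
      push_cast at h
      have hj : (0 : ℝ) < (M : ℝ) + (j + 1 / 2) := by positivity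
      rw [← add_assoc]
      have h5 : cb (M + j + 1) = cb (M + j) * (M + j + 1 / 2) / (M + j + 1) := by
        rw [eq_div_iff (by positivity)]; exact h
      rw [h5]
      have h6 : (M : ℝ) + j + 1 / 2 ≠ 0 := by positivity
      have h7 : (M : ℝ) + (j + 1 / 2) ≠ 0 := by positivity
      have h8 : (M : ℝ) + j + 1 ≠ 0 := by positivity
      field_simp
      ring
    rw [h1]
    have h2 : Tendsto (fun M : ℕ => 1 + (1 / 2) / ((M : ℝ) + (j + 1 / 2))) atTop (𝓝 (1 + 0)) := by
      apply Tendsto.const_add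
      apply Tendsto.div_atTop tendsto_const_nhds
      exact tendsto_atTop_add_const_right _ _ tendsto_natCast_atTop_atTop
    have := ih.mul h2
    simpa using this

/-- coefficients of the normalised polynomial -/
noncomputable def w (N j : ℕ) : ℝ := cb (N - j) * cb j / cb N

/-- the normalised polynomial -/
noncomputable def A (N : ℕ) : ℝ[X] := ∑ j ∈ range (N + 1), C (w N j) * X ^ j

theorem jet_monomial (q c : ℝ) (j i : ℕ) :
    jet q (C c * X ^ j) i = c * ((j.descFactorial i : ℝ) * q ^ (j - i)) := by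
  rw [jet_apply, iterate_derivative_C_mul, iterate_derivative_X_pow_eq_natCast_mul]
  simp

theorem jet_A (q : ℝ) (N i : ℕ) : jet q (A N) i =
    ∑ j ∈ range (N + 1), w N j * ((j.descFactorial i : ℝ) * q ^ (j - i)) := by
  rw [A, map_sum, Finset.sum_apply]
  exact sum_congr rfl fun j _ => jet_monomial q _ j i

/-- the limit terms -/
noncomputable def u (q : ℝ) (i j : ℕ) : ℝ := cb j * ((j.descFactorial i : ℝ) * q ^ (j - i))

noncomputable def bd (q : ℝ) (i j : ℕ) : ℝ := ((j : ℝ) + 1) * ((j : ℝ) ^ i * (q ^ j * (q ^ i)⁻¹))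

theorem bd_summable {q : ℝ} (hq0 : 0 < q) (hq1 : q < 1) (i : ℕ) : Summable (bd q i) := by
  have hq : ‖q‖ < 1 := by rwa [Real.norm_eq_abs, abs_of_pos hq0]
  have h1 := (summable_pow_mul_geometric_of_norm_lt_one (R := ℝ) (i + 1) hq).mul_right ((q ^ i)⁻¹)
  have h2 := (summable_pow_mul_geometric_of_norm_lt_one (R := ℝ) i hq).mul_right ((q ^ i)⁻¹)
  refine (h1.add h2).congr ?_
  intro j
  unfold bd
  ring

theorem desc_le {q : ℝ} (hq0 : 0 < q) (i j : ℕ) :
    (j.descFactorial i : ℝ) * q ^ (j - i) ≤ (j : ℝ) ^ i * (q ^ j * (q ^ i)⁻¹) := by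
  rcases Nat.lt_or_ge j i with h | h
  · rw [Nat.descFactorial_of_lt h]
    simp only [Nat.cast_zero, zero_mul]
    positivity
  · have h1 : q ^ (j - i) = q ^ j * (q ^ i)⁻¹ := pow_sub₀ q hq0.ne' h
    rw [h1]
    apply mul_le_mul_of_nonneg_right _ (by positivity)
    exact_mod_cast Nat.descFactorial_le_pow j i

theorem u_nonneg {q : ℝ} (hq0 : 0 < q) (i j : ℕ) : 0 ≤ u q i j := by
  have := cb_pos j
  unfold u
  positivity

theorem u_le {q : ℝ} (hq0 : 0 < q) (i j : ℕ) : u q i j ≤ bd q i j := by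
  have h1 := desc_le hq0 i j
  have h2 := cb_le_one j
  have h3 := cb_pos j
  unfold u bd
  have h4 : 0 ≤ (j.descFactorial i : ℝ) * q ^ (j - i) := by positivity
  have h5 : (0 : ℝ) ≤ j := by positivity
  calc cb j * ((j.descFactorial i : ℝ) * q ^ (j - i)) ≤
        1 * ((j.descFactorial i : ℝ) * q ^ (j - i)) := mul_le_mul_of_nonneg_right h2 h4
    _ ≤ ((j : ℝ) + 1) * ((j.descFactorial i : ℝ) * q ^ (j - i)) :=
        mul_le_mul_of_nonneg_right (by linarith) h4
    _ ≤ _ := mul_le_mul_of_nonneg_left h1 (by positivity)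

theorem u_summable {q : ℝ} (hq0 : 0 < q) (hq1 : q < 1) (i : ℕ) : Summable (u q i) :=
  Summable.of_nonneg_of_le (u_nonneg hq0 i) (u_le hq0 i) (bd_summable hq0 hq1 i)

/-- the limit of the jets -/
noncomputable def S (q : ℝ) : ℕ → ℝ := fun i => ∑' j, u q i j

theorem tendsto_jet_A {q : ℝ} (hq0 : 0 < q) (hq1 : q < 1) :
    Tendsto (fun N => jet q (A N)) atTop (𝓝 (S q)) := by
  rw [tendsto_pi_nhds]
  intro i
  set f : ℕ → ℕ → ℝ := fun N j => if j ≤ N then w N j * ((j.descFactorial i : ℝ) * q ^ (j - i))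
    else 0 with hf
  have h1 : ∀ N, jet q (A N) i = ∑' j, f N j := by
    intro N
    rw [jet_A, tsum_eq_sum (s := range (N + 1))]
    · apply sum_congr rfl
      intro j hj
      rw [hf]
      simp only
      rw [if_pos (Nat.lt_succ_iff.mp (mem_range.mp hj))]
    · intro j hj
      rw [mem_range] at hj
      simp only [hf]
      rw [if_neg (by omega)]
  simp only [h1]
  apply tendsto_tsum_of_dominated_convergence (bd_summable hq0 hq1 i)
  · intro j
    -- pointwise
    rw [← tendsto_add_atTop_iff_nat j]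
    have h2 : (fun N => f (N + j) j) = fun N => (cb N / cb (N + j)) * u q i j := by
      funext N
      simp only [hf]
      rw [if_pos (by omega), w, Nat.add_sub_cancel, u]
      ring
    rw [h2]
    have := (cb_ratio_tendsto j).mul_const (u q i j)
    simpa using this
  · refine Eventually.of_forall fun N j => ?_
    simp only [hf]
    split_ifs with h
    · have hcN := cb_pos N
      have hcj := cb_pos j
      have hc := cb_pos (N - j)
      have hw0 : 0 ≤ w N j := by unfold w; positivity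
      have hw : w N j ≤ (j : ℝ) + 1 := by
        unfold w
        rw [div_le_iff₀ hcN]
        have h3 := cb_ratio_le (N - j) j
        rw [Nat.sub_add_cancel h] at h3
        have h4 := cb_le_one j
        calc cb (N - j) * cb j ≤ cb (N - j) * 1 := mul_le_mul_of_nonneg_left h4 hc.le
          _ ≤ _ := by rw [mul_one]; exact h3
      have h4 : 0 ≤ (j.descFactorial i : ℝ) * q ^ (j - i) := by positivity
      rw [Real.norm_eq_abs, abs_of_nonneg (mul_nonneg hw0 h4)]
      unfold bd
      exact mul_le_mul hw (desc_le hq0 i j) h4 (by positivity)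
    · rw [norm_zero]
      unfold bd
      positivity

theorem S_rec {q : ℝ} (hq0 : 0 < q) (hq1 : q < 1) (i : ℕ) :
    (1 - q) * S q (i + 1) = (i + 1 / 2) * S q i := by
  have hs1 := u_summable hq0 hq1 (i + 1)
  have hs0 := u_summable hq0 hq1 i
  have h1 : S q (i + 1) = ∑' j, u q (i + 1) (j + 1) := by
    unfold S
    rw [hs1.tsum_eq_zero_add]
    simp [u]
  have hs1' : Summable fun j => u q (i + 1) (j + 1) := (summable_nat_add_iff 1).mpr hs1
  have h2 : (1 - q) * S q (i + 1) = ∑' j, (u q (i + 1) (j + 1) - q * u q (i + 1) j) := by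
    rw [Summable.tsum_sub hs1' (hs1.mul_left q), ← h1, tsum_mul_left]
    unfold S
    ring
  rw [h2]
  unfold S
  rw [← tsum_mul_left]
  apply tsum_congr
  intro j
  unfold u
  rw [Nat.succ_descFactorial_succ, Nat.add_sub_add_right]
  have h3 := cb_succ j
  rcases Nat.lt_or_ge j i with h | h
  · rw [Nat.descFactorial_of_lt h, Nat.descFactorial_of_lt (by omega)]
    simp
  · obtain ⟨l, rfl⟩ : ∃ l, j = i + l := ⟨j - i, by omega⟩
    rw [Nat.descFactorial_succ, Nat.add_sub_cancel_left]
    cases l with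
    | zero =>
      push_cast at h3 ⊢
      linear_combination ((i + 0).descFactorial i : ℝ) * q ^ 0 * h3
    | succ l =>
      have e : i + (l + 1) - (i + 1) = l := by omega
      rw [e]
      push_cast at h3 ⊢
      rw [pow_succ]
      linear_combination ((i + (l + 1)).descFactorial i : ℝ) * (q ^ l * q) * h3

theorem S_zero_pos {q : ℝ} (hq0 : 0 < q) (hq1 : q < 1) : 0 < S q 0 := by
  unfold S
  have h := (u_summable hq0 hq1 0).le_tsum 0 (fun j _ => u_nonneg hq0 0 j)
  have : u q 0 0 = 1 := by simp [u, cb]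
  linarith

theorem S_eq {q τ : ℝ} (hq0 : 0 < q) (hq1 : q < 1) (hτ : q = 1 - 1 / τ) (hτ0 : τ ≠ 0) :
    S q = S q 0 • Y τ 1 := by
  have h1 : Y τ 1 = yh τ 0 := by
    have := Y_X_pow τ 0
    rwa [pow_zero] at this
  rw [h1]
  funext i
  simp only [Pi.smul_apply, smul_eq_mul, yh, zero_add]
  induction i with
  | zero => simp [rf]
  | succ i ih =>
    have h2 := S_rec hq0 hq1 i
    rw [ih] at h2
    have h3 : (1 - q) = 1 / τ := by rw [hτ]; ring
    rw [h3] at h2
    rw [rf_succ, pow_succ]
    have h4 : S q (i + 1) = τ * ((1 / τ) * S q (i + 1)) := by field_simp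
    rw [h4, h2]
    push_cast
    ring

theorem tendsto_jet_B {q : ℝ} (hq0 : 0 < q) (hq1 : q < 1) :
    Tendsto (fun N : ℕ => jet q (C (2 * (N : ℝ) + 1) * X ^ N)) atTop (𝓝 0) := by
  rw [tendsto_pi_nhds]
  intro i
  have hq : ‖q‖ < 1 := by rwa [Real.norm_eq_abs, abs_of_pos hq0]
  have h1 := ((summable_pow_mul_geometric_of_norm_lt_one (R := ℝ) (i + 1) hq).mul_right
    (2 * (q ^ i)⁻¹))
  have h2 := (summable_pow_mul_geometric_of_norm_lt_one (R := ℝ) i hq).mul_right ((q ^ i)⁻¹)
  have h3 := (h1.add h2).tendsto_atTop_zero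
  refine squeeze_zero (fun N => ?_) (fun N => ?_) h3
  · rw [jet_monomial]; positivity
  · rw [jet_monomial]
    have h4 := desc_le hq0 i N
    calc (2 * (N : ℝ) + 1) * ((N.descFactorial i : ℝ) * q ^ (N - i)) ≤
          (2 * (N : ℝ) + 1) * ((N : ℝ) ^ i * (q ^ N * (q ^ i)⁻¹)) :=
          mul_le_mul_of_nonneg_left h4 (by positivity)
      _ = _ := by ring

/-! ### The Laguerre expression -/

/-- coefficients of `X η' + c η` -/
theorem coeff_theta (η : ℝ[X]) (c : ℝ) (k : ℕ) :
    (X * derivative η + C c * η).coeff k = ((k : ℝ) + c) * η.coeff k := by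
  rw [coeff_add, coeff_C_mul]
  cases k with
  | zero => simp
  | succ k => rw [coeff_X_mul, coeff_derivative]; push_cast; ring

theorem natDegree_theta_le (η : ℝ[X]) (c : ℝ) :
    (X * derivative η + C c * η).natDegree ≤ η.natDegree := by
  rw [natDegree_le_iff_coeff_eq_zero]
  intro N hN
  rw [coeff_theta, coeff_eq_zero_of_natDegree_lt hN, mul_zero]

theorem exists_tau {η : ℝ[X]} (hη : 0 < η.natDegree) : ∃ τ : ℝ, 1 < τ ∧
    (Y τ η 1) ^ 2 < Y τ η 0 * Y τ η 2 := by
  set m := η.natDegree with hm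
  set T1 : ℝ[X] := X * derivative η + C (((0 : ℕ) : ℝ) + 1 / 2) * η with hT1
  set T2' : ℝ[X] := X * derivative η + C (((1 : ℕ) : ℝ) + 1 / 2) * η with hT2'
  set T2 : ℝ[X] := X * derivative T2' + C (((0 : ℕ) : ℝ) + 1 / 2) * T2' with hT2
  have e0 : ∀ τ, Y τ η 0 = η.eval τ := fun τ => Y_zero τ η
  have e1 : ∀ τ, Y τ η 1 = τ * T1.eval τ := fun τ => by rw [Y_succ, Y_zero]
  have e2 : ∀ τ, Y τ η 2 = τ * (τ * T2.eval τ) := fun τ => by
    rw [Y_succ, Y_succ, Y_zero]
  have d1 : T1.natDegree ≤ m := natDegree_theta_le η _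
  have d2' : T2'.natDegree ≤ m := natDegree_theta_le η _
  have d2 : T2.natDegree ≤ m := (natDegree_theta_le T2' _).trans d2'
  set R : ℝ[X] := η * T2 - T1 * T1 with hR
  have hlc : η.coeff m ≠ 0 := by
    rw [hm]
    apply leadingCoeff_ne_zero.mpr
    intro h0
    rw [h0] at hm
    simp at hm
    omega
  have hcoeff : R.coeff (m + m) = ((m : ℝ) + 1 / 2) * (η.coeff m) ^ 2 := by
    rw [hR, coeff_sub, coeff_mul_add_eq_of_natDegree_le le_rfl d2, coeff_mul_add_eq_of_natDegree_le d1 d1,
      hT2, coeff_theta, hT2', coeff_theta, hT1, coeff_theta]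
    push_cast
    ring
  have hdeg : R.natDegree ≤ m + m := by
    rw [hR]
    refine (natDegree_sub_le _ _).trans (max_le ?_ ?_)
    · exact natDegree_mul_le.trans (add_le_add le_rfl d2)
    · exact natDegree_mul_le.trans (add_le_add d1 d1)
  have hpos : 0 < R.coeff (m + m) := by rw [hcoeff]; positivity
  have hnd : R.natDegree = m + m := le_antisymm hdeg (le_natDegree_of_ne_zero hpos.ne')
  have hR0 : R ≠ 0 := by rintro h; rw [h] at hpos; simp at hpos
  have hdegpos : 0 < R.degree := by
    rw [degree_eq_natDegree hR0, hnd]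
    exact_mod_cast (by omega : 0 < m + m)
  have hlead : 0 ≤ R.leadingCoeff := by rw [leadingCoeff, hnd]; exact hpos.le
  have htend := R.tendsto_atTop_of_leadingCoeff_nonneg hdegpos hlead
  obtain ⟨τ, hτ1, hτ2⟩ := ((htend.eventually_gt_atTop 0).and (eventually_gt_atTop 1)).exists
  refine ⟨τ, hτ2, ?_⟩
  rw [e0, e1, e2]
  rw [hR, eval_sub, eval_mul, eval_mul] at hτ1
  have hτ3 : 0 < τ ^ 2 := by positivity
  nlinarith [mul_pos hτ3 hτ1]

/-! ### Real-rootedness bookkeeping -/

theorem RR_C_mul {f : ℝ[X]} (hf : RR f) (c : ℝ) : RR (C c * f) := by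
  by_cases hc : c = 0
  · left; simp [hc]
  rcases hf with rfl | h
  · left; simp
  · right
    intro z hz
    apply h
    rw [map_mul, aeval_C] at hz
    rcases mul_eq_zero.mp hz with h2 | h2
    · simp [hc] at h2
    · exact h2

theorem RR_comp_lin {f : ℝ[X]} (hf : RR f) : RR (f.comp (C 2 * X - 1)) := by
  rcases hf with rfl | h
  · left; simp
  · right
    intro z hz
    rw [aeval_comp] at hz
    have h1 := h _ hz
    simp at h1
    exact h1

theorem RR_of_comp_eq {V : ℝ[X]} {c : ℝ} (hc : c ≠ 0) {N : ℕ}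
    (h : V.comp (C 2 * X - 1) = C c * X ^ N) : RR V := by
  right
  intro z hz
  have h1 : aeval ((z + 1) / 2) (V.comp (C 2 * X - 1)) = aeval z V := by
    rw [aeval_comp]
    congr 2
    simp
    ring
  rw [h, hz, map_mul, aeval_C, map_pow, aeval_X] at h1
  rcases mul_eq_zero.mp h1 with h2 | h2
  · simp [hc] at h2
  · have h3 := eq_zero_of_pow_eq_zero h2
    have h4 : z = -1 := by
      have : z + 1 = 0 := by
        rcases div_eq_zero_iff.mp h3 with h5 | h5
        · exact h5
        · norm_num at h5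
      linear_combination this
    simp [h4]

/-- **Main theorem**: no polynomial sequence of odd degree is a Legendre multiplier sequence. -/
theorem main (Q : ℝ[X]) (hodd : Odd Q.natDegree) : ¬ IsLegendreMS (fun k => Q.eval (k : ℝ)) := by
  intro hMS
  obtain ⟨m', hm'⟩ := hodd
  set m := m' + 1 with hm
  have hQ0 : Q ≠ 0 := by rintro rfl; simp at hm'
  have h2 : (C 2 * X + 1 : ℝ[X]).natDegree = 1 := by
    have := natDegree_linear (a := (2 : ℝ)) (b := 1) (by norm_num)
    simpa using this
  have h20 : (C 2 * X + 1 : ℝ[X]) ≠ 0 := by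
    intro h; rw [h] at h2; simp at h2
  obtain ⟨α, β, hdec⟩ := exists_decomp (Q * (C 2 * X + 1))
  have hUdeg : (Q * (C 2 * X + 1)).natDegree = 2 * m := by
    rw [natDegree_mul hQ0 h20, h2, hm', hm]; ring
  have hα : α.natDegree = m := decomp_natDegree hdec hUdeg
  have hα0 : α ≠ 0 := by rintro rfl; simp [hm] at hα
  set η := aeval (-Lam : Module.End ℝ ℝ[X]) α 1 with hη
  obtain ⟨hη1, hη2⟩ := aeval_negLam hα hα0
  have hηdeg : η.natDegree = m := by
    apply le_antisymm
    · rw [natDegree_le_iff_coeff_eq_zero]; exact fun N hN => hη1 N hN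
    · exact le_natDegree_of_ne_zero hη2
  obtain ⟨τ, hτ1, hlag⟩ := exists_tau (η := η) (by omega)
  have hτ0 : τ ≠ 0 := by linarith
  set q := 1 - 1 / τ with hq
  have hinv : 0 < 1 / τ := by positivity
  have hinv1 : 1 / τ < 1 := by rw [div_lt_one (by linarith)]; exact hτ1
  have hq0 : 0 < q := by rw [hq]; linarith
  have hq1 : q < 1 := by rw [hq]; linarith
  -- the polynomials
  set G : ℕ → ℝ[X] := fun N => aeval (-L) α (A N) + aeval (-L) β (C (2 * (N : ℝ) + 1) * X ^ N)
    with hG
  have hRR : ∀ N, RR (G N) := by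
    intro N
    set a : ℕ → ℝ := fun k => (2 * k + 1) * b N k with ha
    have hcB : (0 : ℝ) < N.centralBinom := by exact_mod_cast Nat.centralBinom_pos N
    have hV : RR (∑ k ∈ range (N + 1), C (a k) * leg k) := by
      apply RR_of_comp_eq (c := (2 * N + 1) * (N.centralBinom : ℝ)) (N := N) (by positivity)
      rw [← sum_O, ← Polynomial.coe_compRingHom_apply, map_sum]
      apply sum_congr rfl
      intro k _
      simp [pk, ha]
    have hW := hMS N a hV
    have hF := RR_comp_lin hW
    have hFeq : (∑ k ∈ range (N + 1), C (Q.eval (k : ℝ) * a k) * leg k).comp (C 2 * X - 1) =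
        C (N.centralBinom : ℝ) * G N := by
      have h1 : (∑ k ∈ range (N + 1), C (Q.eval (k : ℝ) * a k) * leg k).comp (C 2 * X - 1) =
          ∑ k ∈ range (N + 1), C (Q.eval (k : ℝ) * a k) * pk k := by
        rw [← Polynomial.coe_compRingHom_apply, map_sum]
        apply sum_congr rfl
        intro k _
        simp [pk]
      rw [h1]
      have h3 : ∀ k ∈ range (N + 1), C (Q.eval (k : ℝ) * a k) * pk k =
          aeval (-L) α (C (b N k) * pk k) + aeval (-L) β (C ((2 * k + 1) * b N k) * pk k) := by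
        intro k _
        have h4 := congrArg (Polynomial.eval (k : ℝ)) hdec
        simp only [eval_mul, eval_add, eval_C, eval_X, eval_one, eval_comp, kap] at h4
        have h5 : Q.eval (k : ℝ) * a k = α.eval ((k : ℝ) * (k + 1)) * b N k +
            β.eval ((k : ℝ) * (k + 1)) * ((2 * k + 1) * b N k) := by
          simp only [ha]
          linear_combination b N k * h4
        rw [h5, ← smul_eq_C_mul, ← smul_eq_C_mul, ← smul_eq_C_mul, map_smul, map_smul, aeval_L_pk,
          aeval_L_pk, smul_smul, smul_smul, ← add_smul]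
        congr 1
        ring
      rw [sum_congr rfl h3, sum_add_distrib, ← map_sum, ← map_sum, sum_O, sum_Z]
      have h6 : ∑ j ∈ range (N + 1), C (((N - j).centralBinom : ℝ) * (j.centralBinom : ℝ)) * X ^ j =
          (N.centralBinom : ℝ) • A N := by
        rw [A, smul_sum]
        apply sum_congr rfl
        intro j hj
        have hj' : j ≤ N := Nat.lt_succ_iff.mp (mem_range.mp hj)
        rw [smul_eq_C_mul, ← mul_assoc, ← C_mul]
        congr 2
        unfold w cb
        have h7 : (4 : ℝ) ^ N = 4 ^ (N - j) * 4 ^ j := by rw [← pow_add, Nat.sub_add_cancel hj']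
        have h8 : (4 : ℝ) ^ (N - j) ≠ 0 := by positivity
        have h9 : (4 : ℝ) ^ j ≠ 0 := by positivity
        rw [h7]
        field_simp
      have h7 : (C ((2 * N + 1) * (N.centralBinom : ℝ)) * X ^ N : ℝ[X]) =
          (N.centralBinom : ℝ) • (C (2 * (N : ℝ) + 1) * X ^ N) := by
        rw [smul_eq_C_mul, ← mul_assoc, ← C_mul]
        congr 2
        ring
      rw [h6, h7, map_smul, map_smul, ← smul_add, smul_eq_C_mul]
    rw [hFeq] at hF
    have := RR_C_mul hF ((N.centralBinom : ℝ)⁻¹)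
    rwa [← mul_assoc, ← C_mul, inv_mul_cancel₀ hcB.ne', map_one, one_mul] at this
  -- the Laguerre inequality
  have hLag : ∀ N, jet q (G N) 0 * jet q (G N) 2 ≤ (jet q (G N) 1) ^ 2 := fun N =>
    (hRR N).laguerre q
  -- the limit
  have hlim : Tendsto (fun N => jet q (G N)) atTop (𝓝 (S q 0 • Y τ η)) := by
    have h1 : ∀ N, jet q (G N) = aeval (-LJ q : Module.End ℝ (ℕ → ℝ)) α (jet q (A N)) +
        aeval (-LJ q : Module.End ℝ (ℕ → ℝ)) β (jet q (C (2 * (N : ℝ) + 1) * X ^ N)) := by
      intro N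
      rw [hG]
      simp only
      rw [map_add, jet_aeval, jet_aeval]
    simp only [h1]
    have h2 := ((continuous_aeval_LJ q α).tendsto (S q)).comp (tendsto_jet_A hq0 hq1)
    have h3 := ((continuous_aeval_LJ q β).tendsto 0).comp (tendsto_jet_B hq0 hq1)
    have h4 := h2.add h3
    rw [map_zero, add_zero, S_eq hq0 hq1 hq hτ0, map_smul, Y_aeval hq hτ0] at h4
    exact h4
  have hl : ∀ i, Tendsto (fun N => jet q (G N) i) atTop (𝓝 (S q 0 * Y τ η i)) := by
    intro i
    have := (tendsto_pi_nhds.mp hlim) i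
    simpa using this
  have hfin := le_of_tendsto_of_tendsto ((hl 0).mul (hl 2)) ((hl 1).pow 2)
    (Eventually.of_forall hLag)
  have hS := S_zero_pos hq0 hq1
  have hS2 : 0 < (S q 0) ^ 2 := by positivity
  nlinarith [mul_pos hS2 (sub_pos.mpr hlag)]

end Pool.Agent.V1176.Leg
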