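import Mathlib

set_option autoImplicit false

open Polynomial Filter Topology ComplexConjugate

namespace Pool.Agent.V1176.Circ

/-- `p` has degree at most `n` and `p_j = conj p_{n-j}` for `0 ≤ j ≤ n`. -/
def SI (n : ℕ) (p : ℂ[X]) : Prop := p.natDegree ≤ n ∧ ∀ j, j ≤ n → p.coeff j = conj (p.coeff (n - j))

/-- all roots lie on the unit circle -/
def CR (p : ℂ[X]) : Prop := ∀ z : ℂ, p.eval z = 0 → ‖z‖ = 1

/-- degree `n`, with `n` distinct roots, all on the unit circle -/
def Strict (n : ℕ) (p : ℂ[X]) : Prop := p.natDegree = n ∧ p.roots.Nodup ∧ ∀ z ∈ p.roots, ‖z‖ = 1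

theorem SI.add {n : ℕ} {p q : ℂ[X]} (hp : SI n p) (hq : SI n q) : SI n (p + q) := by
  refine ⟨(natDegree_add_le _ _).trans (max_le hp.1 hq.1), fun j hj => ?_⟩
  rw [coeff_add, coeff_add, hp.2 j hj, hq.2 j hj, map_add]

theorem SI.smul {n : ℕ} {p : ℂ[X]} (hp : SI n p) (c : ℝ) : SI n (C (c : ℂ) * p) := by
  refine ⟨(natDegree_C_mul_le _ _).trans hp.1, fun j hj => ?_⟩
  rw [coeff_C_mul, coeff_C_mul, hp.2 j hj, map_mul, Complex.conj_ofReal]

/-- evaluation of a self-inversive polynomial -/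
theorem SI.eval {n : ℕ} {p : ℂ[X]} (hp : SI n p) {z : ℂ} (hz : z ≠ 0) :
    p.eval z = z ^ n * conj (p.eval (conj z)⁻¹) := by
  have hn : p.natDegree < n + 1 := Nat.lt_succ_of_le hp.1
  have hz' : conj z ≠ 0 := by simpa using hz
  conv_lhs => rw [eval_eq_sum_range' hn, ← Finset.sum_range_reflect]
  rw [eval_eq_sum_range' hn, map_sum, Finset.mul_sum]
  apply Finset.sum_congr rfl
  intro j hj
  have hj' : j ≤ n := Nat.lt_succ_iff.mp (Finset.mem_range.mp hj)
  rw [Nat.add_sub_cancel, hp.2 (n - j) (by omega), Nat.sub_sub_self hj', map_mul, map_pow, map_inv₀,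
    Complex.conj_conj]
  have h1 : z ^ n = z ^ (n - j) * z ^ j := by rw [← pow_add, Nat.sub_add_cancel hj']
  rw [h1, inv_pow]
  have h2 : z ^ j ≠ 0 := pow_ne_zero _ hz
  field_simp

theorem inv_conj {z : ℂ} (hz : ‖z‖ = 1) : (conj z)⁻¹ = z := by
  have h0 : z ≠ 0 := by intro h; rw [h] at hz; simp at hz
  have h1 : z * conj z = 1 := by
    rw [Complex.mul_conj, Complex.normSq_eq_norm_sq, hz]; norm_num
  have h2 : conj z ≠ 0 := by simpa using h0
  field_simp
  rw [mul_comm] at h1
  exact h1.symm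

theorem SI.eval_circle {n : ℕ} {p : ℂ[X]} (hp : SI n p) {z : ℂ} (hz : ‖z‖ = 1) :
    p.eval z = z ^ n * conj (p.eval z) := by
  have h0 : z ≠ 0 := by intro h; rw [h] at hz; simp at hz
  have := hp.eval h0
  rwa [inv_conj hz] at this

theorem SI.reflect {n : ℕ} {p : ℂ[X]} (hp : SI n p) {z : ℂ} (hz0 : z ≠ 0) (hz : p.eval z = 0) :
    p.eval (conj z)⁻¹ = 0 := by
  have h := hp.eval hz0
  rw [hz] at h
  rcases mul_eq_zero.mp h.symm with h1 | h1
  · exact absurd h1 (pow_ne_zero _ hz0)
  · simpa using h1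

/-- lower bounds from the factorisation -/
theorem norm_eval_ge {p : ℂ[X]} {z : ℂ} {η : ℝ} (hη : 0 ≤ η) (h : ∀ w ∈ p.roots, η ≤ ‖z - w‖) :
    ‖p.leadingCoeff‖ * η ^ p.natDegree ≤ ‖p.eval z‖ := by
  have hs := IsAlgClosed.splits p
  have h1 := hs.eq_prod_roots
  have h2 := hs.natDegree_eq_card_roots
  rw [h2]
  conv_rhs => rw [h1]
  rw [eval_mul, eval_C, norm_mul]
  apply mul_le_mul_of_nonneg_left _ (norm_nonneg _)
  rw [eval_multiset_prod, Multiset.map_map]
  have key : ∀ s : Multiset ℂ, (∀ w ∈ s, η ≤ ‖z - w‖) →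
      η ^ (Multiset.card s) ≤ ‖(s.map ((fun x => eval z x) ∘ fun a => X - C a)).prod‖ := by
    intro s
    induction s using Multiset.induction_on with
    | empty => simp
    | cons a s ih =>
      intro hw
      rw [Multiset.card_cons, pow_succ', Multiset.map_cons, Multiset.prod_cons, norm_mul]
      apply mul_le_mul _ (ih fun w hw' => hw w (Multiset.mem_cons_of_mem hw')) (by positivity)
        (norm_nonneg _)
      simpa using hw a (Multiset.mem_cons_self a s)
  exact key _ h

/-- circle-rooted polynomials are bounded below off the circle -/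
theorem CR.norm_eval_ge {p : ℂ[X]} (hp : CR p) (hp0 : p ≠ 0) (z : ℂ) :
    ‖p.leadingCoeff‖ * |1 - ‖z‖| ^ p.natDegree ≤ ‖p.eval z‖ := by
  apply Circ.norm_eval_ge (abs_nonneg _)
  intro w hw
  have h1 : ‖w‖ = 1 := hp w ((mem_roots hp0).mp hw)
  rw [abs_sub_comm, ← h1]
  exact abs_norm_sub_norm_le z w

/-- perturbations -/
noncomputable def pert (P q : ℂ[X]) (ε : ℝ) : ℂ[X] := P + C (ε : ℂ) * q

theorem pert_degree {P q : ℂ[X]} (hPq : q.degree < P.degree) (ε : ℝ) :
    (pert P q ε).natDegree = P.natDegree ∧ (pert P q ε).leadingCoeff = P.leadingCoeff := by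
  have h : (C (ε : ℂ) * q).degree < P.degree := by
    rw [← smul_eq_C_mul]
    exact lt_of_le_of_lt (degree_smul_le _ _) hPq
  refine ⟨?_, ?_⟩
  · rw [pert]
    exact natDegree_add_eq_left_of_degree_lt h
  · rw [pert]
    exact leadingCoeff_add_of_degree_lt' h

theorem pert_eval (P q : ℂ[X]) (ε : ℝ) (z : ℂ) :
    (pert P q ε).eval z = P.eval z + ε * q.eval z := by
  simp [pert]

/-- failure of circle-rootedness is stable -/
theorem not_CR_stable {P q : ℂ[X]} (hPq : q.degree < P.degree) (h : ¬ CR P) :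
    ∀ᶠ ε : ℝ in 𝓝 0, ¬ CR (pert P q ε) := by
  unfold CR at h
  push Not at h
  obtain ⟨z, hz, hz1⟩ := h
  have hP0 : P ≠ 0 := by rintro rfl; simp at hPq
  have hpos : 0 < ‖P.leadingCoeff‖ * |1 - ‖z‖| ^ P.natDegree := by
    have h1 : 0 < ‖P.leadingCoeff‖ := norm_pos_iff.mpr (leadingCoeff_ne_zero.mpr hP0)
    have h2 : 0 < |1 - ‖z‖| := abs_pos.mpr (sub_ne_zero.mpr (Ne.symm hz1))
    positivity
  have hcont : Tendsto (fun ε : ℝ => ‖(ε : ℂ) * q.eval z‖) (𝓝 0) (𝓝 0) := by
    have : Continuous fun ε : ℝ => ‖(ε : ℂ) * q.eval z‖ := by fun_prop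
    simpa using this.tendsto 0
  filter_upwards [hcont.eventually_lt_const hpos] with ε hε hCR
  obtain ⟨h1, h2⟩ := pert_degree hPq ε
  have hne : pert P q ε ≠ 0 := by
    intro h0
    rw [h0, leadingCoeff_zero] at h2
    exact hP0 (leadingCoeff_eq_zero.mp h2.symm)
  have h3 := hCR.norm_eval_ge hne z
  rw [h1, h2, pert_eval, hz, zero_add] at h3
  linarith

/-- strict circle-rootedness is stable -/
theorem Strict_stable {n : ℕ} {P q : ℂ[X]} (hP : Strict n P) (hPs : SI n P) (hqs : SI n q)
    (hPq : q.degree < P.degree) : ∀ᶠ ε : ℝ in 𝓝 0, Strict n (pert P q ε) := by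
  classical
  obtain ⟨hdeg, hnd, hcirc⟩ := hP
  have hP0 : P ≠ 0 := by rintro rfl; simp at hPq
  have hlc : 0 < ‖P.leadingCoeff‖ := norm_pos_iff.mpr (leadingCoeff_ne_zero.mpr hP0)
  set S := P.roots.toFinset with hS
  have hScard : S.card = n := by
    rw [hS, Multiset.toFinset_card_of_nodup hnd, ← hdeg]
    exact (IsAlgClosed.splits P).natDegree_eq_card_roots.symm
  -- separation
  obtain ⟨η, hη0, hη1, hsep⟩ : ∃ η : ℝ, 0 < η ∧ η ≤ 1 / 2 ∧
      ∀ x ∈ S, ∀ y ∈ S, ‖x - y‖ < 4 * η → x = y := by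
    have hfin : (S.offDiag).Nonempty ∨ S.offDiag = ∅ := (S.offDiag).eq_empty_or_nonempty.symm
    rcases hfin with hne | hemp
    · obtain ⟨⟨x₀, y₀⟩, hxy, hmin⟩ := (S.offDiag).exists_min_image (fun xy => ‖xy.1 - xy.2‖) hne
      have hxy' := Finset.mem_offDiag.mp hxy
      have hpos : 0 < ‖x₀ - y₀‖ := norm_pos_iff.mpr (sub_ne_zero.mpr hxy'.2.2)
      refine ⟨min (1 / 2) (‖x₀ - y₀‖ / 4), lt_min (by norm_num) (by positivity), min_le_left _ _, ?_⟩
      intro x hx y hy hlt
      by_contra hne'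
      have := hmin (x, y) (Finset.mem_offDiag.mpr ⟨hx, hy, hne'⟩)
      simp only at this
      have h2 : min (1 / 2) (‖x₀ - y₀‖ / 4) ≤ ‖x₀ - y₀‖ / 4 := min_le_right _ _
      linarith
    · refine ⟨1 / 2, by norm_num, le_rfl, ?_⟩
      intro x hx y hy _
      by_contra hne'
      have : (x, y) ∈ S.offDiag := Finset.mem_offDiag.mpr ⟨hx, hy, hne'⟩
      rw [hemp] at this
      simp at this
  -- smallness at the roots
  have hsmall : ∀ᶠ ε : ℝ in 𝓝 0, ∀ x ∈ S, ‖(ε : ℂ) * q.eval x‖ < ‖P.leadingCoeff‖ * η ^ n := by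
    rw [Filter.eventually_all_finset]
    intro x _
    have hcont : Tendsto (fun ε : ℝ => ‖(ε : ℂ) * q.eval x‖) (𝓝 0) (𝓝 0) := by
      have : Continuous fun ε : ℝ => ‖(ε : ℂ) * q.eval x‖ := by fun_prop
      simpa using this.tendsto 0
    exact hcont.eventually_lt_const (by positivity)
  filter_upwards [hsmall] with ε hε
  set F := pert P q ε with hF
  obtain ⟨h1, h2⟩ := pert_degree hPq ε
  rw [← hF] at h1 h2
  have hF0 : F ≠ 0 := by
    intro h0
    rw [h0, leadingCoeff_zero] at h2
    exact hP0 (leadingCoeff_eq_zero.mp h2.symm)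
  have hFs : SI n F := hPs.add (hqs.smul ε)
  have hFn : F.natDegree = n := by rw [h1, hdeg]
  -- a root of F near every root of P
  have hroot : ∀ x : ℂ, x ∈ S → ∃ w : ℂ, w ∈ F.roots ∧ ‖x - w‖ < η := by
    intro x hx
    by_contra hcon
    push Not at hcon
    have h3 := norm_eval_ge hη0.le hcon
    have hPx : P.eval x = 0 := (mem_roots hP0).mp (Multiset.mem_toFinset.mp hx)
    rw [h2, hFn, hF, pert_eval, hPx, zero_add] at h3
    have := hε x hx
    linarith
  choose! w hw1 hw2 using hroot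
  have hinj : Set.InjOn w S := by
    intro x hx y hy hxy
    apply hsep x hx y hy
    have e : x - y = (x - w x) - (y - w y) := by rw [hxy]; ring
    rw [e]
    have := norm_sub_le (x - w x) (y - w y)
    have := hw2 x hx
    have := hw2 y hy
    linarith
  have himg : S.image w ⊆ F.roots.toFinset := by
    intro z hz
    obtain ⟨x, hx, rfl⟩ := Finset.mem_image.mp hz
    exact Multiset.mem_toFinset.mpr (hw1 x hx)
  have hcardimg : (S.image w).card = n := by rw [Finset.card_image_of_injOn hinj, hScard]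
  have hcardF : Multiset.card F.roots = n := by
    rw [← hFn]; exact (IsAlgClosed.splits F).natDegree_eq_card_roots.symm
  have hle : F.roots.toFinset.card ≤ n := by
    rw [← hcardF]; exact Multiset.toFinset_card_le _
  have heq : S.image w = F.roots.toFinset :=
    Finset.eq_of_subset_of_card_le himg (by rw [hcardimg]; exact hle)
  have hnodup : F.roots.Nodup := by
    apply Multiset.toFinset_card_eq_card_iff_nodup.mp
    rw [← heq, hcardimg, hcardF]
  refine ⟨hFn, hnodup, ?_⟩
  intro z hz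
  have hz' : z ∈ S.image w := by rw [heq]; exact Multiset.mem_toFinset.mpr hz
  obtain ⟨x, hx, rfl⟩ := Finset.mem_image.mp hz'
  have hxn : ‖x‖ = 1 := hcirc x (Multiset.mem_toFinset.mp hx)
  have hwx := hw2 x hx
  have hwn : 1 / 2 < ‖w x‖ := by
    have := norm_sub_norm_le x (w x)
    linarith
  have hwx0 : w x ≠ 0 := by intro h; rw [h] at hwn; norm_num at hwn
  have hFw : F.eval (w x) = 0 := (mem_roots hF0).mp hz
  have hrefl := hFs.reflect hwx0 hFw
  have hrefl' : (conj (w x))⁻¹ ∈ S.image w := by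
    rw [heq]; exact Multiset.mem_toFinset.mpr ((mem_roots hF0).mpr hrefl)
  obtain ⟨y, hy, hyw⟩ := Finset.mem_image.mp hrefl'
  have hdist : ‖x - (conj (w x))⁻¹‖ < 2 * η := by
    have hcw : conj (w x) ≠ 0 := by simpa using hwx0
    have e1 : x - (conj (w x))⁻¹ = x * (conj (w x) - conj x) / conj (w x) := by
      have hxx : x * conj x = 1 := by
        rw [Complex.mul_conj, Complex.normSq_eq_norm_sq, hxn]; norm_num
      field_simp
      linear_combination hxx
    rw [e1, norm_div, norm_mul, hxn, one_mul, ← map_sub, RCLike.norm_conj, RCLike.norm_conj,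
      div_lt_iff₀ (by linarith), norm_sub_rev]
    nlinarith
  have hxy : x = y := by
    apply hsep x hx y hy
    have e : x - y = (x - (conj (w x))⁻¹) - (y - w y) := by rw [hyw]; ring
    rw [e]
    have := norm_sub_le (x - (conj (w x))⁻¹) (y - w y)
    have := hw2 y hy
    linarith
  rw [← hxy] at hyw
  -- w x = (conj (w x))⁻¹
  have hcw : conj (w x) ≠ 0 := by simpa using hwx0
  have h5 : w x * conj (w x) = 1 := by
    conv_lhs => rw [hyw]
    rw [map_inv₀, Complex.conj_conj]
    have h6 : w x * conj (w x) = 1 := by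
      have := congrArg (fun t => t * conj (w x)) hyw
      simp only [inv_mul_cancel₀ hcw] at this
      exact this
    rw [← mul_inv, mul_comm, h6, inv_one]
  rw [Complex.mul_conj, Complex.normSq_eq_norm_sq] at h5
  have h6 : ‖w x‖ ^ 2 = 1 := by exact_mod_cast h5
  have h7 : 0 ≤ ‖w x‖ := norm_nonneg _
  nlinarith

/-! ### The Laguerre-type inequality on the circle -/

theorem circle_identity {T ζ : ℂ} (hT : ‖T‖ = 1) (hζ : ‖ζ‖ = 1) (hne : T ≠ ζ) :
    T / (T - ζ) - (T / (T - ζ)) ^ 2 = ((Complex.normSq (T / (T - ζ)) : ℝ) : ℂ) := by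
  have hT0 : T ≠ 0 := by intro h; rw [h] at hT; simp at hT
  have hζ0 : ζ ≠ 0 := by intro h; rw [h] at hζ; simp at hζ
  have h1 : conj T = T⁻¹ := by
    have := inv_conj hT
    rw [inv_eq_iff_eq_inv] at this
    exact this
  have h2 : conj ζ = ζ⁻¹ := by
    have := inv_conj hζ
    rw [inv_eq_iff_eq_inv] at this
    exact this
  have hd : T - ζ ≠ 0 := sub_ne_zero.mpr hne
  have hd' : ζ - T ≠ 0 := sub_ne_zero.mpr hne.symm
  rw [← Complex.mul_conj, map_div₀, map_sub, h1, h2]
  have h3 : T⁻¹ - ζ⁻¹ = (ζ - T) / (T * ζ) := by field_simp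
  rw [h3]
  field_simp
  ring

/-- For a circle-rooted polynomial and `T` on the circle with `F(T) ≠ 0`, the expression
`A - A² + B` is a nonnegative real number. -/
theorem laguerre_circle {F : ℂ[X]} (hF : CR F) (hF0 : F ≠ 0) {T : ℂ} (hT : ‖T‖ = 1)
    (hFT : F.eval T ≠ 0) : ∃ r : ℝ, 0 ≤ r ∧
      T * (derivative F).eval T / F.eval T - (T * (derivative F).eval T / F.eval T) ^ 2 +
        T ^ 2 * (derivative (derivative F)).eval T / F.eval T = r := by
  have hs := (IsAlgClosed.splits F).eq_prod_roots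
  have hroots : ∀ w ∈ F.roots, ‖w‖ = 1 := fun w hw => hF w ((mem_roots hF0).mp hw)
  have key : ∀ s : Multiset ℂ, (∀ w ∈ s, ‖w‖ = 1 ∧ T ≠ w) →
      ∃ r : ℝ, 0 ≤ r ∧ (s.map fun a => X - C a).prod.eval T ≠ 0 ∧
      T * (derivative (s.map fun a => X - C a).prod).eval T / (s.map fun a => X - C a).prod.eval T -
        (T * (derivative (s.map fun a => X - C a).prod).eval T /
          (s.map fun a => X - C a).prod.eval T) ^ 2 +
        T ^ 2 * (derivative (derivative (s.map fun a => X - C a).prod)).eval T /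
          (s.map fun a => X - C a).prod.eval T = r := by
    intro s
    induction s using Multiset.induction_on with
    | empty => intro _; exact ⟨0, le_rfl, by simp, by simp⟩
    | cons a s ih =>
      intro hw
      obtain ⟨r, hr0, hV0, hr⟩ := ih fun w hw' => hw w (Multiset.mem_cons_of_mem hw')
      obtain ⟨ha, hTa⟩ := hw a (Multiset.mem_cons_self a s)
      rw [Multiset.map_cons, Multiset.prod_cons]
      set V := (s.map fun a => X - C a).prod with hV
      have hd : T - a ≠ 0 := sub_ne_zero.mpr hTa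
      refine ⟨r + Complex.normSq (T / (T - a)), add_nonneg hr0 (Complex.normSq_nonneg _), ?_, ?_⟩
      · simp only [eval_mul, eval_sub, eval_X, eval_C]
        exact mul_ne_zero hd hV0
      · push_cast
        rw [← hr, ← circle_identity hT ha hTa]
        simp only [derivative_mul, derivative_sub, derivative_X, derivative_C, sub_zero, one_mul,
          derivative_add, eval_add, eval_mul, eval_sub, eval_X, eval_C]
        field_simp
        ring
  have hne : ∀ w ∈ F.roots, ‖w‖ = 1 ∧ T ≠ w := by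
    intro w hw
    refine ⟨hroots w hw, ?_⟩
    rintro rfl
    exact hFT ((mem_roots hF0).mp hw)
  obtain ⟨r, hr0, hV0, hr⟩ := key _ hne
  refine ⟨r, hr0, ?_⟩
  set V := (F.roots.map fun a => X - C a).prod with hV
  have hlc : F.leadingCoeff ≠ 0 := leadingCoeff_ne_zero.mpr hF0
  rw [← hr]
  conv_lhs => rw [hs]
  simp only [derivative_C_mul, eval_mul, eval_C]
  field_simp

/-- a double root on the circle can be pushed off the circle -/
theorem double_root {W q : ℂ[X]} (hWq : q.degree < W.degree) {T : ℂ} (hT : ‖T‖ = 1)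
    (h0 : W.eval T = 0) (h1 : (derivative W).eval T = 0)
    (h2 : (derivative (derivative W)).eval T ≠ 0) (hq : q.eval T ≠ 0) :
    (∀ᶠ ε : ℝ in 𝓝[>] 0, ¬ CR (pert W q ε)) ∨ (∀ᶠ ε : ℝ in 𝓝[<] 0, ¬ CR (pert W q ε)) := by
  have hT0 : T ≠ 0 := by intro h; rw [h] at hT; simp at hT
  have hW0 : W ≠ 0 := by rintro rfl; simp at hWq
  set ρ : ℂ := T ^ 2 * (derivative (derivative W)).eval T / q.eval T with hρ
  have hρ0 : ρ ≠ 0 := div_ne_zero (mul_ne_zero (pow_ne_zero _ hT0) h2) hq
  set κ : ℂ := T * (derivative q).eval T / q.eval T - (T * (derivative q).eval T / q.eval T) ^ 2 +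
    T ^ 2 * (derivative (derivative q)).eval T / q.eval T with hκ
  -- the consequence of circle-rootedness
  have key : ∀ ε : ℝ, ε ≠ 0 → CR (pert W q ε) → ∃ r : ℝ, 0 ≤ r ∧ κ + ρ / ε = r := by
    intro ε hε hCR
    have hεc : (ε : ℂ) ≠ 0 := by exact_mod_cast hε
    obtain ⟨-, hlc⟩ := pert_degree hWq ε
    have hne : pert W q ε ≠ 0 := by
      intro h0
      rw [h0, leadingCoeff_zero] at hlc
      exact hW0 (leadingCoeff_eq_zero.mp hlc.symm)
    have e0 : (pert W q ε).eval T = ε * q.eval T := by rw [pert_eval, h0, zero_add]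
    have e1 : (derivative (pert W q ε)).eval T = ε * (derivative q).eval T := by
      simp [pert, h1]
    have e2 : (derivative (derivative (pert W q ε))).eval T =
        (derivative (derivative W)).eval T + ε * (derivative (derivative q)).eval T := by
      simp [pert]
    obtain ⟨r, hr0, hr⟩ := laguerre_circle hCR hne hT (by rw [e0]; exact mul_ne_zero hεc hq)
    refine ⟨r, hr0, ?_⟩
    rw [← hr, e0, e1, e2, hκ, hρ]
    field_simp
    ring
  by_cases him : ρ.im = 0
  · have hre : ρ.re ≠ 0 := by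
      intro h; exact hρ0 (Complex.ext h him)
    have hdiv : ∀ ε : ℝ, (κ + ρ / ε).re = κ.re + ρ.re / ε := by
      intro ε
      rw [Complex.add_re, Complex.div_ofReal_re]
    rcases lt_or_gt_of_ne hre with hneg | hpos
    · left
      have h3 : Tendsto (fun ε : ℝ => κ.re + ρ.re / ε) (𝓝[>] 0) atBot := by
        apply tendsto_atBot_add_const_left
        have := (tendsto_inv_nhdsGT_zero (𝕜 := ℝ)).const_mul_atTop_of_neg hneg
        change Tendsto (fun ε : ℝ => ρ.re / ε) _ _
        simp only [div_eq_mul_inv]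
        exact this
      filter_upwards [h3.eventually_lt_atBot 0, self_mem_nhdsWithin] with ε hε hε0 hCR
      obtain ⟨r, hr0, hr⟩ := key ε (ne_of_gt hε0) hCR
      have := hdiv ε
      rw [hr, Complex.ofReal_re] at this
      linarith
    · right
      have h3 : Tendsto (fun ε : ℝ => κ.re + ρ.re / ε) (𝓝[<] 0) atBot := by
        apply tendsto_atBot_add_const_left
        have := (tendsto_inv_nhdsLT_zero (𝕜 := ℝ)).const_mul_atBot hpos
        change Tendsto (fun ε : ℝ => ρ.re / ε) _ _
        simp only [div_eq_mul_inv]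
        exact this
      filter_upwards [h3.eventually_lt_atBot 0, self_mem_nhdsWithin] with ε hε hε0 hCR
      obtain ⟨r, hr0, hr⟩ := key ε (ne_of_lt hε0) hCR
      have := hdiv ε
      rw [hr, Complex.ofReal_re] at this
      linarith
  · left
    have hdiv : ∀ ε : ℝ, (κ + ρ / ε).im = κ.im + ρ.im / ε := by
      intro ε
      rw [Complex.add_im, Complex.div_ofReal_im]
    have h3 : Tendsto (fun ε : ℝ => |κ.im + ρ.im / ε|) (𝓝[>] 0) atTop := by
      rcases lt_or_gt_of_ne him with hneg | hpos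
      · have h4 : Tendsto (fun ε : ℝ => κ.im + ρ.im / ε) (𝓝[>] 0) atBot := by
          apply tendsto_atBot_add_const_left
          have := (tendsto_inv_nhdsGT_zero (𝕜 := ℝ)).const_mul_atTop_of_neg hneg
          change Tendsto (fun ε : ℝ => ρ.im / ε) _ _
          simp only [div_eq_mul_inv]
          exact this
        exact tendsto_abs_atBot_atTop.comp h4
      · have h4 : Tendsto (fun ε : ℝ => κ.im + ρ.im / ε) (𝓝[>] 0) atTop := by
          apply tendsto_atTop_add_const_left
          have := (tendsto_inv_nhdsGT_zero (𝕜 := ℝ)).const_mul_atTop hpos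
          change Tendsto (fun ε : ℝ => ρ.im / ε) _ _
          simp only [div_eq_mul_inv]
          exact this
        exact tendsto_abs_atTop_atTop.comp h4
    filter_upwards [h3.eventually_gt_atTop 0, self_mem_nhdsWithin] with ε hε hε0 hCR
    obtain ⟨r, hr0, hr⟩ := key ε (ne_of_gt hε0) hCR
    have := hdiv ε
    rw [hr, Complex.ofReal_im] at this
    rw [← this] at hε
    simp at hε

end Pool.Agent.V1176.Circ
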