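import Mathlib
import Pool.Agent.V1176.CircA

set_option autoImplicit false

open Polynomial Filter Topology ComplexConjugate

namespace Pool.Agent.V1176.Circ

theorem SI_iff {n : ℕ} {p : ℂ[X]} :
    SI n p ↔ p.natDegree ≤ n ∧ (reflect n p).map (starRingEnd ℂ) = p := by
  constructor
  · rintro ⟨h1, h2⟩
    refine ⟨h1, ?_⟩
    ext j
    rw [coeff_map, coeff_reflect]
    rcases le_or_gt j n with hj | hj
    · rw [revAt_le hj, h2 j hj]
    · rw [revAt_eq_self_of_lt hj, coeff_eq_zero_of_natDegree_lt (lt_of_le_of_lt h1 hj), map_zero]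
  · rintro ⟨h1, h2⟩
    refine ⟨h1, fun j hj => ?_⟩
    conv_lhs => rw [← h2]
    rw [coeff_map, coeff_reflect, revAt_le hj]

theorem SI.mul {a b : ℕ} {p r : ℂ[X]} (hp : SI a p) (hr : SI b r) : SI (a + b) (p * r) := by
  rw [SI_iff] at *
  refine ⟨natDegree_mul_le.trans (add_le_add hp.1 hr.1), ?_⟩
  rw [reflect_mul p r hp.1 hr.1, Polynomial.map_mul, hp.2, hr.2]

/-- cancellation -/
theorem SI.of_mul {a b : ℕ} {p r : ℂ[X]} (hp : SI a p) (hp0 : p ≠ 0) (hr : r.natDegree ≤ b)
    (h : SI (a + b) (p * r)) : SI b r := by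
  rw [SI_iff] at *
  refine ⟨hr, ?_⟩
  have h2 := h.2
  rw [reflect_mul p r hp.1 hr, Polynomial.map_mul, hp.2] at h2
  exact mul_left_cancel₀ hp0 h2

/-- `x^n + 1` -/
noncomputable def bin (n : ℕ) : ℂ[X] := X ^ n + 1

theorem bin_natDegree (n : ℕ) : (bin n).natDegree = n := by
  have : (bin n) = X ^ n + C 1 := by simp [bin]
  rw [this]
  exact natDegree_X_pow_add_C

theorem bin_monic {n : ℕ} (hn : n ≠ 0) : (bin n).Monic := by
  have : (bin n) = X ^ n + C 1 := by simp [bin]
  rw [this]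
  exact monic_X_pow_add_C 1 hn

theorem bin_SI (n : ℕ) : SI n (bin n) := by
  rw [SI_iff]
  refine ⟨(bin_natDegree n).le, ?_⟩
  rw [bin, reflect_add, reflect_monomial, reflect_one, revAt_le le_rfl]
  simp
  ring

theorem bin_eval (n : ℕ) (z : ℂ) : (bin n).eval z = z ^ n + 1 := by simp [bin]

theorem norm_eq_one_of_pow {n : ℕ} (hn : n ≠ 0) {z : ℂ} (h : z ^ n = -1) : ‖z‖ = 1 := by
  have h1 : ‖z‖ ^ n = 1 := by rw [← norm_pow, h]; simp
  exact (pow_eq_one_iff_of_nonneg (norm_nonneg z) hn).mp h1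

theorem bin_separable {n : ℕ} (hn : n ≠ 0) : (bin n).Separable := by
  have : bin n = X ^ n - C (-1) := by simp [bin]
  rw [this]
  exact separable_X_pow_sub_C (-1) (by exact_mod_cast hn) (by norm_num)

theorem bin_strict {n : ℕ} (hn : n ≠ 0) : Strict n (bin n) := by
  refine ⟨bin_natDegree n, nodup_roots (bin_separable hn), ?_⟩
  intro z hz
  have h1 : (bin n).eval z = 0 := (mem_roots (bin_monic hn).ne_zero).mp hz
  rw [bin_eval] at h1
  exact norm_eq_one_of_pow hn (by linear_combination h1)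

/-- the family `α (x^n + 1) + p` -/
noncomputable def fam (n : ℕ) (p : ℂ[X]) (α : ℝ) : ℂ[X] := C (α : ℂ) * bin n + p

theorem fam_eq_pert {n : ℕ} {p : ℂ[X]} {α : ℝ} (hα : α ≠ 0) :
    fam n p α = C (α : ℂ) * pert (bin n) p α⁻¹ := by
  have h : (C (α : ℂ) * C ((α⁻¹ : ℝ) : ℂ) : ℂ[X]) = 1 := by
    rw [← C_mul, ← Complex.ofReal_mul, mul_inv_cancel₀ hα]; simp
  rw [fam, pert]
  linear_combination (-p) * h

theorem Strict.C_mul {n : ℕ} {P : ℂ[X]} (h : Strict n P) {c : ℂ} (hc : c ≠ 0) :
    Strict n (C c * P) := by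
  obtain ⟨h1, h2, h3⟩ := h
  refine ⟨?_, ?_, ?_⟩
  · rw [natDegree_C_mul hc, h1]
  · rwa [roots_C_mul P hc]
  · rwa [roots_C_mul P hc]

theorem eventually_strict {n : ℕ} {p : ℂ[X]} (hn : n ≠ 0) (hp : SI n p)
    (hd : p.degree < (bin n).degree) : ∀ᶠ α : ℝ in atTop, Strict n (fam n p α) := by
  have h := Strict_stable (bin_strict hn) (bin_SI n) hp hd
  have h2 := tendsto_inv_atTop_zero (𝕜 := ℝ)
  filter_upwards [h2.eventually h, eventually_gt_atTop 0] with α hα hα0
  rw [fam_eq_pert hα0.ne']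
  exact hα.C_mul (by exact_mod_cast hα0.ne')

theorem degree_lt_bin {n : ℕ} {p : ℂ[X]} (hp : SI n p) (h0 : p.coeff 0 = 0) :
    p.degree < (bin n).degree := by
  rcases Nat.eq_zero_or_pos n with rfl | hn
  · have : p = 0 := by
      have h1 := hp.1
      rw [Nat.le_zero, natDegree_eq_zero] at h1
      obtain ⟨c, rfl⟩ := h1
      simpa using h0
    rw [this, degree_zero, bin]
    have : (X ^ 0 + 1 : ℂ[X]) ≠ 0 := by
      simp only [pow_zero]; norm_num
    exact bot_lt_iff_ne_bot.mpr (degree_ne_bot.mpr this)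
  have hn' := (bin_monic hn.ne').ne_zero
  rw [degree_eq_natDegree hn', bin_natDegree]
  rw [degree_lt_iff_coeff_zero]
  intro m hm
  rcases eq_or_lt_of_le hm with h | h
  · rw [← h, hp.2 n le_rfl, Nat.sub_self, h0, map_zero]
  · exact coeff_eq_zero_of_natDegree_lt (lt_of_le_of_lt hp.1 h)

/-! ### the factor `R` -/

theorem exists_R (n m : ℕ) (hm : Odd m) (hn : n ≠ 0) : ∃ R : ℂ[X], bin n * R = bin (n * m) ∧
    SI (n * (m - 1)) R ∧ R.Monic := by
  set R : ℂ[X] := ∑ j ∈ Finset.range m, (-X ^ n) ^ j with hR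
  have h1 : bin n * R = bin (n * m) := by
    have h := geom_sum_mul (-X ^ n : ℂ[X]) m
    rw [hm.neg_pow, ← pow_mul] at h
    rw [bin, bin]
    linear_combination -h
  have hm0 : m ≠ 0 := by rintro rfl; simp at hm
  have hmon : R.Monic := by
    have h2 : (bin n * R).Monic := by rw [h1]; exact bin_monic (mul_ne_zero hn hm0)
    exact (bin_monic hn).of_mul_monic_left h2
  have hdeg : R.natDegree = n * (m - 1) := by
    have h2 := (bin_monic hn).natDegree_mul hmon
    rw [h1, bin_natDegree, bin_natDegree] at h2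
    obtain ⟨k, rfl⟩ : ∃ k, m = k + 1 := ⟨m - 1, by omega⟩
    rw [Nat.add_sub_cancel]
    rw [Nat.mul_succ] at h2
    omega
  refine ⟨R, h1, ?_, hmon⟩
  apply (bin_SI n).of_mul (bin_monic hn).ne_zero hdeg.le
  rw [h1]
  have : n + n * (m - 1) = n * m := by
    obtain ⟨k, rfl⟩ : ∃ k, m = k + 1 := ⟨m - 1, by omega⟩
    rw [Nat.add_sub_cancel]; ring
  rw [this]
  exact bin_SI _

theorem exists_L (Z : Finset ℂ) : ∃ L : ℕ, 1 ≤ L ∧ ∀ z ∈ Z, ∀ k : ℕ, 1 ≤ k → z ^ k = 1 → z ^ L = 1 := by
  classical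
  induction Z using Finset.induction_on with
  | empty => exact ⟨1, le_rfl, by simp⟩
  | insert a Z _ ih =>
    obtain ⟨L, hL1, hL⟩ := ih
    by_cases h : ∃ k : ℕ, 1 ≤ k ∧ a ^ k = 1
    · obtain ⟨k, hk1, hk⟩ := h
      refine ⟨L * k, Nat.mul_pos hL1 hk1, ?_⟩
      intro z hz k' hk' hzk
      rcases Finset.mem_insert.mp hz with rfl | hz'
      · rw [mul_comm, pow_mul, hk, one_pow]
      · rw [pow_mul, hL z hz' k' hk' hzk, one_pow]
    · refine ⟨L, hL1, ?_⟩
      intro z hz k' hk' hzk
      rcases Finset.mem_insert.mp hz with rfl | hz'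
      · exact absurd ⟨k', hk', hzk⟩ h
      · exact hL z hz' k' hk' hzk

/-! ### the new double root -/

theorem exists_omega {n : ℕ} (hn : n ≠ 0) {p : ℂ[X]} (hp0 : p ≠ 0) (hd : p.degree < (bin n).degree) :
    ∃ ω : ℂ, ω ^ n = -1 ∧ p.eval ω ≠ 0 := by
  classical
  by_contra hcon
  push Not at hcon
  have hbn := (bin_monic hn).ne_zero
  have hsub : (bin n).roots.toFinset ⊆ p.roots.toFinset := by
    intro z hz
    rw [Multiset.mem_toFinset, mem_roots hbn, IsRoot.def, bin_eval] at hz
    rw [Multiset.mem_toFinset, mem_roots hp0, IsRoot.def]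
    exact hcon z (by linear_combination hz)
  have h1 := Finset.card_le_card hsub
  rw [Multiset.toFinset_card_of_nodup (bin_strict hn).2.1,
    ← (IsAlgClosed.splits (bin n)).natDegree_eq_card_roots, bin_natDegree] at h1
  have h2 := (Multiset.toFinset_card_le p.roots).trans (card_roots' p)
  rw [degree_eq_natDegree hp0, degree_eq_natDegree hbn, bin_natDegree] at hd
  have h3 : p.natDegree < n := by exact_mod_cast hd
  omega

theorem tendsto_exp_div : Tendsto (fun w : ℂ => w / (Complex.exp w - 1)) (𝓝[≠] 0) (𝓝 1) := by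
  have h := (Complex.hasDerivAt_exp 0).tendsto_slope_zero
  rw [Complex.exp_zero] at h
  have h2 := h.inv₀ one_ne_zero
  rw [inv_one] at h2
  refine h2.congr fun w => ?_
  rw [zero_add, smul_eq_mul, mul_inv, inv_inv, div_eq_mul_inv]

theorem exists_T {n : ℕ} (hn : n ≠ 0) {p : ℂ[X]} (hp : SI n p) (hp0 : p ≠ 0)
    (hd : p.degree < (bin n).degree) {L : ℕ} (hL : 1 ≤ L) (B : ℝ) :
    ∃ (j : ℕ) (T : ℂ) (c : ℝ), 1 ≤ j ∧ B < c ∧ ‖T‖ = 1 ∧ T ^ (n * (2 * L * j + 1)) = -1 ∧
      T ^ n ≠ -1 ∧ (fam n p c).eval T = 0 := by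
  obtain ⟨ω, hω, hpω⟩ := exists_omega hn hp0 hd
  have hωn : ‖ω‖ = 1 := norm_eq_one_of_pow hn hω
  have hncast : (n : ℂ) ≠ 0 := by exact_mod_cast hn
  -- p(ω) is purely imaginary
  have hre : (p.eval ω).re = 0 := by
    have h := hp.eval_circle hωn
    rw [hω] at h
    have h2 := congrArg Complex.re h
    simp at h2
    linarith
  have him : (p.eval ω).im ≠ 0 := fun h => hpω (Complex.ext hre h)
  obtain ⟨s, hs2, hspos, hsint⟩ : ∃ s : ℝ, s * s = 1 ∧ 0 < s * (p.eval ω).im ∧
      Complex.exp (2 * Real.pi * s * Complex.I) = 1 := by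
    rcases lt_or_gt_of_ne him with h | h
    · refine ⟨-1, by norm_num, by linarith, ?_⟩
      have : (2 * Real.pi * ((-1 : ℝ) : ℂ) * Complex.I) = -(2 * Real.pi * Complex.I) := by
        push_cast; ring
      rw [this, Complex.exp_neg, Complex.exp_two_pi_mul_I, inv_one]
    · refine ⟨1, by norm_num, by linarith, ?_⟩
      have : (2 * Real.pi * ((1 : ℝ) : ℂ) * Complex.I) = (2 * Real.pi * Complex.I) := by
        push_cast; ring
      rw [this, Complex.exp_two_pi_mul_I]
  have hs0 : s ≠ 0 := by rintro rfl; norm_num at hs2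
  set m : ℕ → ℕ := fun j => 2 * L * j + 1 with hm
  set θ : ℕ → ℝ := fun j => 2 * Real.pi * s / (m j : ℝ) with hθ
  set x : ℕ → ℂ := fun j => (θ j : ℂ) * Complex.I with hx
  have hmpos : ∀ j, (0 : ℝ) < m j := fun j => by
    have : 0 < m j := by simp only [hm]; omega
    exact_mod_cast this
  have hmtop : Tendsto (fun j => (m j : ℝ)) atTop atTop := by
    apply tendsto_natCast_atTop_atTop.comp
    apply tendsto_atTop_mono (fun j => ?_) tendsto_id
    simp only [id, hm]
    nlinarith
  have hθ0 : ∀ j, θ j ≠ 0 := fun j => by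
    simp only [hθ]
    have := Real.pi_pos
    exact div_ne_zero (mul_ne_zero (by positivity) hs0) (hmpos j).ne'
  have hθlim : Tendsto θ atTop (𝓝 0) := by
    simp only [hθ]
    exact hmtop.const_div_atTop _
  have hxlim : Tendsto x atTop (𝓝 0) := by
    have h1 : Tendsto (fun j => ((θ j : ℝ) : ℂ)) atTop (𝓝 ((0 : ℝ) : ℂ)) :=
      (Complex.continuous_ofReal.tendsto 0).comp hθlim
    have := h1.mul_const Complex.I
    simpa using this
  have hx0 : ∀ j, x j ≠ 0 := fun j => by
    simp only [hx]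
    exact mul_ne_zero (by exact_mod_cast hθ0 j) Complex.I_ne_zero
  set T : ℕ → ℂ := fun j => ω * Complex.exp (x j / n) with hT
  have hTlim : Tendsto T atTop (𝓝 ω) := by
    have h1 : Tendsto (fun j => x j / n) atTop (𝓝 0) := by
      have := hxlim.div_const (n : ℂ)
      simpa using this
    have h2 := (Complex.continuous_exp.tendsto 0).comp h1
    rw [Complex.exp_zero] at h2
    have h3 := h2.const_mul ω
    rw [mul_one] at h3
    exact h3
  have hTn : ∀ j, T j ^ n = -Complex.exp (x j) := by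
    intro j
    simp only [hT]
    rw [mul_pow, hω, ← Complex.exp_nat_mul, mul_div_cancel₀ _ hncast]
    ring
  have hTnm : ∀ j, T j ^ (n * m j) = -1 := by
    intro j
    rw [pow_mul, hTn, neg_pow, ← Complex.exp_nat_mul]
    have h1 : ((m j : ℕ) : ℂ) * x j = 2 * Real.pi * s * Complex.I := by
      simp only [hx, hθ]
      have : ((m j : ℕ) : ℂ) ≠ 0 := by exact_mod_cast (hmpos j).ne'
      push_cast
      field_simp
    rw [h1, hsint, mul_one]
    have hodd : Odd (m j) := ⟨L * j, by simp only [hm]; ring⟩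
    exact hodd.neg_one_pow
  have hTnorm : ∀ j, ‖T j‖ = 1 := by
    intro j
    apply norm_eq_one_of_pow _ (hTnm j)
    have : 0 < m j := by simp only [hm]; omega
    exact mul_ne_zero hn this.ne'
  -- eventually exp (x j) ≠ 1
  have hxne : Tendsto x atTop (𝓝[≠] 0) :=
    tendsto_nhdsWithin_iff.mpr ⟨hxlim, Eventually.of_forall hx0⟩
  have hratio : Tendsto (fun j => x j / (Complex.exp (x j) - 1)) atTop (𝓝 1) :=
    tendsto_exp_div.comp hxne
  have hexpne : ∀ᶠ j in atTop, Complex.exp (x j) ≠ 1 := by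
    have h1 := hratio.eventually_ne one_ne_zero
    filter_upwards [h1] with j hj h2
    apply hj
    rw [h2]; simp
  -- the number c
  set c : ℕ → ℂ := fun j => p.eval (T j) / (Complex.exp (x j) - 1) with hc
  have hclim : Tendsto (fun j => c j * x j) atTop (𝓝 (p.eval ω)) := by
    have h1 := ((p.continuous.tendsto ω).comp hTlim).mul hratio
    rw [mul_one] at h1
    refine h1.congr fun j => ?_
    simp only [hc, Function.comp]
    ring
  -- c is real
  have hcreal : ∀ j, Complex.exp (x j) ≠ 1 → c j = ((c j).re : ℂ) := by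
    intro j hj
    have h1 := hp.eval_circle (hTnorm j)
    have h2 : conj (Complex.exp (x j)) = (Complex.exp (x j))⁻¹ := by
      rw [← Complex.exp_conj, ← Complex.exp_neg]
      congr 1
      simp [hx]
    have hE0 : Complex.exp (x j) ≠ 0 := Complex.exp_ne_zero _
    have hE1 : Complex.exp (x j) - 1 ≠ 0 := sub_ne_zero.mpr hj
    have h3 : conj (c j) = c j := by
      simp only [hc]
      rw [map_div₀, map_sub, map_one, h2]
      rw [hTn] at h1
      have h4 : conj (p.eval (T j)) = -(Complex.exp (x j))⁻¹ * p.eval (T j) := by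
        apply mul_left_cancel₀ hE0
        have h6 : Complex.exp (x j) * (-(Complex.exp (x j))⁻¹ * p.eval (T j)) =
            -p.eval (T j) := by
          field_simp
        rw [h6]
        linear_combination h1
      rw [h4]
      have h5 : (Complex.exp (x j))⁻¹ - 1 = -(Complex.exp (x j) - 1) * (Complex.exp (x j))⁻¹ := by
        field_simp
        ring
      rw [h5]
      field_simp
    exact (Complex.conj_eq_iff_re.mp h3).symm
  -- c tends to infinity
  have hrlim : Tendsto (fun j => (c j).re * θ j) atTop (𝓝 (p.eval ω).im) := by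
    have h1 := (Complex.continuous_im.tendsto _).comp hclim
    refine h1.congr' ?_
    filter_upwards [hexpne] with j hj
    have h2 := hcreal j hj
    simp only [Function.comp]
    rw [h2]
    simp [hx]
  have hctop : Tendsto (fun j => (c j).re) atTop atTop := by
    have h1 : Tendsto (fun j => ((c j).re * θ j * s) * ((m j : ℝ) * (2 * Real.pi)⁻¹)) atTop atTop := by
      apply Tendsto.pos_mul_atTop (C := (p.eval ω).im * s) (by linarith)
        (hrlim.mul_const s)
      exact hmtop.atTop_mul_const (by have := Real.pi_pos; positivity)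
    refine h1.congr fun j => ?_
    simp only [hθ]
    have hpi := Real.pi_pos.ne'
    have hmj := (hmpos j).ne'
    field_simp
    rw [pow_two, hs2]
    ring
  obtain ⟨j, hj1, hj2, hj3⟩ := ((hctop.eventually_gt_atTop B).and
    (hexpne.and (eventually_ge_atTop 1))).exists
  refine ⟨j, T j, (c j).re, hj3, hj1, hTnorm j, hTnm j, ?_, ?_⟩
  · rw [hTn]
    intro h
    apply hj2
    linear_combination -h
  · rw [fam, eval_add, eval_mul, eval_C, bin_eval, hTn, ← hcreal j hj2]
    have hE1 : Complex.exp (x j) - 1 ≠ 0 := sub_ne_zero.mpr hj2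
    simp only [hc]
    field_simp
    ring

end Pool.Agent.V1176.Circ
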