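import Mathlib
import Pool.Agent.V1176.CircB

set_option autoImplicit false

open Polynomial Filter Topology ComplexConjugate

namespace Pool.Agent.V1176.Circ

theorem fam_degree {n : ℕ} {p : ℂ[X]} (hd : p.degree < (bin n).degree) {t : ℝ} (ht : t ≠ 0) :
    (fam n p t).degree = (bin n).degree := by
  have h : (C (t : ℂ) * bin n).degree = (bin n).degree := by
    rw [degree_C_mul]; exact_mod_cast ht
  rw [fam, degree_add_eq_left_of_degree_lt (by rw [h]; exact hd), h]

theorem fam_SI {n : ℕ} {p : ℂ[X]} (hp : SI n p) (t : ℝ) : SI n (fam n p t) :=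
  ((bin_SI n).smul t).add hp

theorem deriv_ne {P : ℂ[X]} (hP0 : P ≠ 0) (hnd : P.roots.Nodup) {T : ℂ} (hT : P.eval T = 0) :
    (derivative P).eval T ≠ 0 := by
  classical
  intro h
  have h1 := (one_lt_rootMultiplicity_iff_isRoot hP0).mpr ⟨hT, h⟩
  have h2 := Multiset.nodup_iff_count_le_one.mp hnd T
  rw [count_roots] at h2
  omega

/-- `K + 1` strictly circle-rooted parameters separated by `K` bad ones -/
structure State (K n : ℕ) (p : ℂ[X]) (α τ : ℕ → ℝ) : Prop where
  hn : 2 ≤ n
  hp0 : p ≠ 0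
  hSI : SI n p
  hc0 : p.coeff 0 = 0
  hpos : ∀ i, i ≤ K → 0 < α i
  hst : ∀ i, i ≤ K → Strict n (fam n p (α i))
  hτ : ∀ i, i < K → α i < τ i ∧ τ i < α (i + 1) ∧ ¬ CR (fam n p (τ i))

theorem q_SI {n : ℕ} (hn : 3 ≤ n) (c : ℂ) :
    SI n (C c * X + C (conj c) * X ^ (n - 1) : ℂ[X]) := by
  rw [SI_iff]
  constructor
  · refine (natDegree_add_le _ _).trans (max_le ?_ ?_)
    · refine (natDegree_C_mul_le c X).trans ?_
      rw [natDegree_X]; omega
    · exact (natDegree_C_mul_X_pow_le _ _).trans (by omega)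
  · have h1 : (C c * X : ℂ[X]) = C c * X ^ 1 := by rw [pow_one]
    rw [h1, reflect_add, reflect_C_mul_X_pow, reflect_C_mul_X_pow, revAt_le (by omega),
      revAt_le (by omega)]
    have h2 : n - (n - 1) = 1 := by omega
    rw [h2]
    simp
    ring

theorem step {K n : ℕ} {p : ℂ[X]} {α τ : ℕ → ℝ} (h : State K n p α τ) :
    ∃ (n' : ℕ) (p' : ℂ[X]) (α' τ' : ℕ → ℝ), State (K + 1) n' p' α' τ' := by
  classical
  obtain ⟨hn2, hp0, hSI, hc0, hpos, hst, hτ⟩ := h
  have hn : n ≠ 0 := by omega
  have hd := degree_lt_bin hSI hc0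
  obtain ⟨L, hL1, hL⟩ := exists_L
    ((Finset.range (K + 1)).biUnion fun i => (fam n p (α i)).roots.toFinset)
  obtain ⟨B, hB⟩ := eventually_atTop.mp
    ((eventually_strict hn hSI hd).and (eventually_gt_atTop (α K)))
  obtain ⟨j, T, c, hj1, hBc, hTn, hTm, hTn1, hTr⟩ := exists_T hn hSI hp0 hd hL1 B
  obtain ⟨hcst, hcK⟩ := hB c hBc.le
  have hc0' : 0 < c := (hpos K le_rfl).trans hcK
  set m := 2 * L * j + 1 with hm
  have hmodd : Odd m := ⟨L * j, by rw [hm]; ring⟩
  obtain ⟨R, hR1, hRSI, hRm⟩ := exists_R n m hmodd hn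
  have hLj : 1 ≤ L * j := Nat.mul_pos hL1 hj1
  have hm3 : 3 ≤ m := by rw [hm]; nlinarith
  set n' := n * m with hn'
  have hnn' : n * (m - 1) + n = n' := by
    rw [hn']
    obtain ⟨k, hk⟩ : ∃ k, m = k + 1 := ⟨m - 1, by omega⟩
    rw [hk, Nat.add_sub_cancel]; ring
  have hn'6 : 6 ≤ n' := by rw [hn']; nlinarith
  have hn'0 : n' ≠ 0 := by omega
  have hbn := (bin_monic hn).ne_zero
  have hbn' := (bin_monic hn'0).ne_zero
  have hR0 := hRm.ne_zero
  have hdR : R.natDegree = n * (m - 1) := by
    have h2 := (bin_monic hn).natDegree_mul hRm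
    rw [hR1, bin_natDegree, bin_natDegree] at h2
    omega
  -- roots of `R`
  have hrootsbin : (bin n').roots = (bin n).roots + R.roots := by
    rw [← hR1]
    exact roots_mul (mul_ne_zero hbn hR0)
  obtain ⟨-, hRnd, hRdisj⟩ : (bin n).roots.Nodup ∧ R.roots.Nodup ∧
      Disjoint (bin n).roots R.roots := by
    have h1 := (bin_strict hn'0).2.1
    rw [hrootsbin] at h1
    exact Multiset.nodup_add.mp h1
  have hRroot : ∀ z, z ∈ R.roots → z ^ n' = -1 := by
    intro z hz
    have h1 : z ∈ (bin n').roots := by rw [hrootsbin]; exact Multiset.mem_add.mpr (Or.inr hz)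
    rw [mem_roots hbn', IsRoot.def, bin_eval] at h1
    linear_combination h1
  -- products with `R`
  have hprod : ∀ t : ℝ, R * fam n p t = fam n' (R * p) t := by
    intro t
    rw [fam, fam, ← hR1]
    ring
  have hpdeg : ∀ t : ℝ, t ≠ 0 → (R * fam n p t).degree = (bin n').degree := by
    intro t ht
    rw [degree_mul, fam_degree hd ht, ← degree_mul, mul_comm, hR1]
  have hfam0 : ∀ t : ℝ, t ≠ 0 → fam n p t ≠ 0 := by
    intro t ht h0
    have := fam_degree hd ht
    rw [h0, degree_zero] at this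
    exact hbn (degree_eq_bot.mp this.symm)
  have hstR : ∀ i, i ≤ K → Strict n' (R * fam n p (α i)) := by
    intro i hi
    have hf0 := hfam0 (α i) (hpos i hi).ne'
    obtain ⟨h1, h2, h3⟩ := hst i hi
    refine ⟨?_, ?_, ?_⟩
    · rw [natDegree_mul hR0 hf0, hdR, h1, hnn']
    · rw [roots_mul (mul_ne_zero hR0 hf0)]
      refine Multiset.nodup_add.mpr ⟨hRnd, h2, ?_⟩
      rw [Multiset.disjoint_left]
      intro z hz1 hz2
      have h4 := hRroot z hz1
      have h5 : z ^ L = 1 := by
        apply hL z _ (2 * n') (by omega)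
        · rw [mul_comm, pow_mul, h4]; norm_num
        · exact Finset.mem_biUnion.mpr ⟨i, Finset.mem_range.mpr (by omega),
            Multiset.mem_toFinset.mpr hz2⟩
      have h6 : z ^ n' = z ^ n := by
        have : n' = n + L * (2 * j * n) := by rw [hn', hm]; ring
        rw [this, pow_add, pow_mul, h5, one_pow, mul_one]
      have h7 : z ∈ (bin n).roots := by
        rw [mem_roots hbn, IsRoot.def, bin_eval, ← h6, h4]; norm_num
      exact Multiset.disjoint_left.mp hRdisj h7 hz1
    · intro z hz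
      rw [roots_mul (mul_ne_zero hR0 hf0)] at hz
      rcases Multiset.mem_add.mp hz with hz | hz
      · exact norm_eq_one_of_pow hn'0 (hRroot z hz)
      · exact h3 z hz
  -- the double root
  have hRT : R.eval T = 0 := by
    have h1 := congrArg (eval T) hR1
    rw [eval_mul, bin_eval, bin_eval, hTm] at h1
    have h2 : T ^ n + 1 ≠ 0 := fun h => hTn1 (by linear_combination h)
    have h3 : (T ^ n + 1) * R.eval T = 0 := by rw [h1]; ring
    exact (mul_eq_zero.mp h3).resolve_left h2
  set W := R * fam n p c with hW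
  have hRT' := deriv_ne hR0 hRnd hRT
  have hfT' := deriv_ne (hfam0 c hc0'.ne') hcst.2.1 hTr
  have hW0 : W.eval T = 0 := by rw [hW, eval_mul, hRT, zero_mul]
  have hW1 : (derivative W).eval T = 0 := by
    rw [hW, derivative_mul, eval_add, eval_mul, eval_mul, hRT, hTr]; ring
  have hW2 : (derivative (derivative W)).eval T ≠ 0 := by
    rw [hW]
    simp only [derivative_mul, derivative_add, eval_add, eval_mul, hRT, hTr]
    have h1 := mul_ne_zero hRT' hfT'
    intro h2
    apply h1
    linear_combination (1 / 2) * h2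
  -- the perturbation
  set q : ℂ[X] := C (Complex.I * conj T) * X + C (conj (Complex.I * conj T)) * X ^ (n' - 1) with hq
  have hqSI : SI n' q := q_SI (by omega) _
  have hqc0 : q.coeff 0 = 0 := by
    rw [hq, coeff_zero_eq_eval_zero]
    have : n' - 1 ≠ 0 := by omega
    simp [this]
  have hqd : q.degree < (bin n').degree := degree_lt_bin hqSI hqc0
  have hT0 : T ≠ 0 := by intro h; rw [h] at hTn; simp at hTn
  have hTT : T * conj T = 1 := by
    rw [Complex.mul_conj, Complex.normSq_eq_norm_sq, hTn]; norm_num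
  have hqT : q.eval T ≠ 0 := by
    have h1 : q.eval T = 2 * Complex.I := by
      rw [hq]
      simp only [eval_add, eval_mul, eval_C, eval_X, eval_pow, map_mul, Complex.conj_I,
        Complex.conj_conj]
      have h2 : T * T ^ (n' - 1) = T ^ n' := by rw [← pow_succ']; congr 1; omega
      have h3 : -Complex.I * T * T ^ (n' - 1) = -Complex.I * T ^ n' := by rw [mul_assoc, h2]
      rw [h3, hTm]
      linear_combination Complex.I * hTT
    rw [h1]
    exact mul_ne_zero two_ne_zero Complex.I_ne_zero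
  have hqW : ∀ t : ℝ, t ≠ 0 → q.degree < (R * fam n p t).degree := by
    intro t ht
    rw [hpdeg t ht]; exact hqd
  -- the family of new polynomials
  have hpert : ∀ ε t : ℝ, fam n' (R * p + C (ε : ℂ) * q) t = pert (R * fam n p t) q ε := by
    intro ε t
    rw [hprod, fam, fam, pert]
    ring
  have hev : ∀ᶠ ε : ℝ in 𝓝 0, (∀ i ∈ Finset.range (K + 1), Strict n' (pert (R * fam n p (α i)) q ε))
      ∧ (∀ i ∈ Finset.range K, ¬ CR (pert (R * fam n p (τ i)) q ε)) ∧
      (R * p + C (ε : ℂ) * q) ≠ 0 := by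
    refine Filter.Eventually.and ?_ (Filter.Eventually.and ?_ ?_)
    · rw [Filter.eventually_all_finset]
      intro i hi
      have hi' : i ≤ K := Nat.lt_succ_iff.mp (Finset.mem_range.mp hi)
      apply Strict_stable (hstR i hi') _ hqSI (hqW _ (hpos i hi').ne')
      rw [← hnn']
      exact hRSI.mul (fam_SI hSI _)
    · rw [Filter.eventually_all_finset]
      intro i hi
      have hi' := Finset.mem_range.mp hi
      obtain ⟨h1, -, h3⟩ := hτ i hi'
      have hτ0 : 0 < τ i := (hpos i hi'.le).trans h1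
      apply not_CR_stable (hqW _ hτ0.ne')
      unfold CR at h3 ⊢
      push Not at h3 ⊢
      obtain ⟨z, hz1, hz2⟩ := h3
      exact ⟨z, by rw [eval_mul, hz1, mul_zero], hz2⟩
    · set k := (R * p).natDegree with hk
      have hlc : (R * p).coeff k ≠ 0 := by
        rw [hk]
        exact leadingCoeff_ne_zero.mpr (mul_ne_zero hR0 hp0)
      have hcont : Tendsto (fun ε : ℝ => (R * p).coeff k + (ε : ℂ) * q.coeff k) (𝓝 0)
          (𝓝 ((R * p).coeff k)) := by
        have : Continuous fun ε : ℝ => (R * p).coeff k + (ε : ℂ) * q.coeff k := by fun_prop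
        simpa using this.tendsto 0
      filter_upwards [hcont.eventually_ne hlc] with ε hε h0
      apply hε
      have := congrArg (fun r => coeff r k) h0
      simpa using this
  have hWd : q.degree < W.degree := hqW c hc0'.ne'
  obtain ⟨ε, ⟨hε1, hε2, hε3⟩, hε4⟩ : ∃ ε : ℝ,
      ((∀ i ∈ Finset.range (K + 1), Strict n' (pert (R * fam n p (α i)) q ε))
      ∧ (∀ i ∈ Finset.range K, ¬ CR (pert (R * fam n p (τ i)) q ε)) ∧
      (R * p + C (ε : ℂ) * q) ≠ 0) ∧ ¬ CR (pert W q ε) := by
    rcases double_root hWd hTn hW0 hW1 hW2 hqT with h | h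
    · exact ((hev.filter_mono nhdsWithin_le_nhds).and h).exists
    · exact ((hev.filter_mono nhdsWithin_le_nhds).and h).exists
  set p' := R * p + C (ε : ℂ) * q with hp'
  have hp'SI : SI n' p' := by
    have h1 : SI n' (R * p) := by rw [← hnn']; exact hRSI.mul hSI
    exact h1.add (hqSI.smul ε)
  have hp'c0 : p'.coeff 0 = 0 := by
    rw [hp', coeff_add, mul_coeff_zero, hc0, mul_coeff_zero, hqc0]; ring
  obtain ⟨A, hA⟩ := ((eventually_strict hn'0 hp'SI (degree_lt_bin hp'SI hp'c0)).and
    (eventually_gt_atTop c)).exists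
  refine ⟨n', p', fun i => if i ≤ K then α i else A, fun i => if i < K then τ i else c, ?_⟩
  refine ⟨by omega, hε3, hp'SI, hp'c0, ?_, ?_, ?_⟩
  · intro i _
    split_ifs with h1
    · exact hpos i h1
    · exact hc0'.trans hA.2
  · intro i _
    split_ifs with h1
    · rw [hp', hpert]
      exact hε1 i (Finset.mem_range.mpr (by omega))
    · exact hA.1
  · intro i hi
    rcases Nat.lt_succ_iff_lt_or_eq.mp hi with h1 | h1
    · rw [if_pos h1, if_pos h1.le, if_pos (show i + 1 ≤ K by omega)]
      obtain ⟨h2, h3, -⟩ := hτ i h1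
      refine ⟨h2, h3, ?_⟩
      rw [hp', hpert]
      exact hε2 i (Finset.mem_range.mpr h1)
    · subst h1
      rw [if_neg (lt_irrefl _), if_pos le_rfl, if_neg (show ¬ (i + 1 ≤ i) by omega)]
      refine ⟨hcK, hA.2, ?_⟩
      rw [hp', hpert]
      exact hε4

theorem X_SI : SI 2 (X : ℂ[X]) := by
  refine ⟨by rw [natDegree_X]; norm_num, fun j hj => ?_⟩
  interval_cases j
  · simp [coeff_X]
  · simp [coeff_X]
  · simp [coeff_X]

theorem exists_state (K : ℕ) : ∃ (n : ℕ) (p : ℂ[X]) (α τ : ℕ → ℝ), State K n p α τ := by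
  induction K with
  | zero =>
    obtain ⟨A, hA⟩ := ((eventually_strict two_ne_zero X_SI
      (degree_lt_bin X_SI (by simp))).and (eventually_gt_atTop 0)).exists
    exact ⟨2, X, fun _ => A, fun _ => 0, le_rfl, X_ne_zero, X_SI, by simp, fun _ _ => hA.2,
      fun _ _ => hA.1, fun i hi => absurd hi (Nat.not_lt_zero i)⟩
  | succ K ih =>
    obtain ⟨n, p, α, τ, h⟩ := ih
    exact step h

end Pool.Agent.V1176.Circ
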