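import Mathlib

/-! Algebra for the leading coefficients in the two-ellipse problem. -/

namespace Pool.Agent.V1176.Bi

open Complex Finset ComplexConjugate

/-- the basic reproducing-kernel identity. -/
theorem kernel_id {a b k₁ k₂ : ℂ} {n : ℕ}
    (h1 : ‖k₁‖ < 1) (h2 : ‖k₂‖ < 1)
    (e1 : a + b * k₁ + conj b * k₁ ^ n + conj a * k₁ ^ (n + 1) = 0)
    (e2 : a + b * k₂ + conj b * k₂ ^ n + conj a * k₂ ^ (n + 1) = 0) :
    (b + a * conj k₁) * (conj b + conj a * k₂) * ∑ i ∈ range n, (conj k₁ * k₂) ^ i =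
      b * conj b - a * conj a := by
  have hq : ‖conj k₁ * k₂‖ < 1 := by
    rw [norm_mul, Complex.norm_conj]
    exact mul_lt_one_of_nonneg_of_lt_one_left (norm_nonneg _) h1 h2.le
  have hq1 : (1 - conj k₁ * k₂) ≠ 0 := by
    intro h
    have : conj k₁ * k₂ = 1 := (sub_eq_zero.mp h).symm
    rw [this] at hq
    simp at hq
  have e1' : conj a + conj b * conj k₁ + b * conj k₁ ^ n + a * conj k₁ ^ (n + 1) = 0 := by
    have := congrArg conj e1
    simpa using this
  have hg : (∑ i ∈ range n, (conj k₁ * k₂) ^ i) * (1 - conj k₁ * k₂) =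
      1 - (conj k₁ * k₂) ^ n := by
    have := geom_sum_mul_neg (conj k₁ * k₂) n
    exact this
  apply mul_right_cancel₀ hq1
  rw [mul_assoc, hg, mul_pow]
  have e2'' : a + b * k₂ = -(k₂ ^ n * (conj b + conj a * k₂)) := by
    linear_combination e2
  have e1'' : conj a + conj b * conj k₁ = -(conj k₁ ^ n * (b + a * conj k₁)) := by
    linear_combination e1'
  have hprod : (conj a + conj b * conj k₁) * (a + b * k₂) =
      (conj k₁ ^ n * (b + a * conj k₁)) * (k₂ ^ n * (conj b + conj a * k₂)) := by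
    rw [e1'', e2'']; ring
  linear_combination hprod

theorem alg_distinct {a b k₁ k₂ : ℂ} {n : ℕ} (hn : 2 ≤ n)
    (h1 : ‖k₁‖ < 1) (h2 : ‖k₂‖ < 1) (hne : k₁ ≠ k₂)
    (e1 : a + b * k₁ + conj b * k₁ ^ n + conj a * k₁ ^ (n + 1) = 0)
    (e2 : a + b * k₂ + conj b * k₂ ^ n + conj a * k₂ ^ (n + 1) = 0) :
    a = 0 ∧ b = 0 := by
  set D : ℂ := b * conj b - a * conj a with hD
  have k11 := kernel_id h1 h1 e1 e1
  have k12 := kernel_id h1 h2 e1 e2
  have k21 := kernel_id h2 h1 e2 e1
  have k22 := kernel_id h2 h2 e2 e2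
  rw [← hD] at k11 k12 k21 k22
  set V : ℂ := ∑ i ∈ range n, (conj k₁ * k₁) ^ i with hV
  set W : ℂ := ∑ i ∈ range n, (conj k₂ * k₂) ^ i with hW
  set G : ℂ := ∑ i ∈ range n, (conj k₁ * k₂) ^ i with hG
  set G' : ℂ := ∑ i ∈ range n, (conj k₂ * k₁) ^ i with hG'
  have posgen : ∀ k : ℂ, (∑ i ∈ range n, (conj k * k) ^ i) ≠ 0 := by
    intro k
    have : (∑ i ∈ range n, (conj k * k) ^ i) = ((∑ i ∈ range n, (‖k‖ ^ 2) ^ i : ℝ) : ℂ) := by
      push_cast
      apply Finset.sum_congr rfl
      intro i _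
      rw [mul_comm, Complex.mul_conj, Complex.normSq_eq_norm_sq]
      push_cast; rfl
    rw [this]
    have hpos : 0 < (∑ i ∈ range n, (‖k‖ ^ 2) ^ i : ℝ) := by
      apply Finset.sum_pos'
      · intro i _; positivity
      · exact ⟨0, by simp; omega, by simp⟩
    exact_mod_cast hpos.ne'
  have hV0 : V ≠ 0 := posgen k₁
  have hW0 : W ≠ 0 := posgen k₂
  by_cases hD0 : D = 0
  · rw [hD0] at k11 k22
    have hx1 : b + a * conj k₁ = 0 := by
      have h := k11
      rcases mul_eq_zero.mp h with h | h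
      · rcases mul_eq_zero.mp h with h | h
        · exact h
        · have := congrArg conj h
          simpa using this
      · exact absurd h hV0
    have hx2 : b + a * conj k₂ = 0 := by
      have h := k22
      rcases mul_eq_zero.mp h with h | h
      · rcases mul_eq_zero.mp h with h | h
        · exact h
        · have := congrArg conj h
          simpa using this
      · exact absurd h hW0
    have ha : a * (conj k₁ - conj k₂) = 0 := by linear_combination hx1 - hx2
    have hk : conj k₁ - conj k₂ ≠ 0 := by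
      intro h
      apply hne
      have := congrArg conj h
      simp only [map_sub, Complex.conj_conj, map_zero] at this
      exact sub_eq_zero.mp this
    have ha0 : a = 0 := (mul_eq_zero.mp ha).resolve_right hk
    refine ⟨ha0, ?_⟩
    rw [ha0] at hx1
    simpa using hx1
  · exfalso
    -- G * G' = V * W
    have hGG : G * G' = V * W := by
      have hx1 : (b + a * conj k₁) * (conj b + conj a * k₁) ≠ 0 := by
        intro h; rw [h, zero_mul] at k11; exact hD0 k11.symm
      have hx2 : (b + a * conj k₂) * (conj b + conj a * k₂) ≠ 0 := by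
        intro h; rw [h, zero_mul] at k22; exact hD0 k22.symm
      apply mul_left_cancel₀ (mul_ne_zero hx1 hx2)
      calc _ = ((b + a * conj k₁) * (conj b + conj a * k₂) * G) *
            ((b + a * conj k₂) * (conj b + conj a * k₁) * G') := by ring
        _ = D * D := by rw [k12, k21]
        _ = ((b + a * conj k₁) * (conj b + conj a * k₁) * V) *
            ((b + a * conj k₂) * (conj b + conj a * k₂) * W) := by rw [k11, k22]
        _ = _ := by ring
    -- T_i = W k₁^i - G' k₂^i
    have hGc : conj G' = G := by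
      rw [hG, hG', map_sum]
      apply Finset.sum_congr rfl
      intro i _
      simp only [map_pow, map_mul, Complex.conj_conj]
      ring
    have hWc : conj W = W := by
      rw [hW, map_sum]
      apply Finset.sum_congr rfl
      intro i _
      simp only [map_pow, map_mul, Complex.conj_conj]
      ring
    have hsum : ∑ i ∈ range n, (W * k₁ ^ i - G' * k₂ ^ i) * conj (W * k₁ ^ i - G' * k₂ ^ i) = 0 := by
      have hterm : ∀ i ∈ range n, (W * k₁ ^ i - G' * k₂ ^ i) * conj (W * k₁ ^ i - G' * k₂ ^ i) =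
          W * W * (conj k₁ * k₁) ^ i - W * G * (conj k₂ * k₁) ^ i - G' * W * (conj k₁ * k₂) ^ i
            + G' * G * (conj k₂ * k₂) ^ i := by
        intro i _
        simp only [map_sub, map_mul, map_pow, hGc, hWc, mul_pow]
        ring
      rw [Finset.sum_congr rfl hterm]
      rw [Finset.sum_add_distrib, Finset.sum_sub_distrib, Finset.sum_sub_distrib,
        ← Finset.mul_sum, ← Finset.mul_sum, ← Finset.mul_sum, ← Finset.mul_sum,
        ← hV, ← hW, ← hG, ← hG']
      linear_combination (-W) * hGG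
    have hsum' : ∑ i ∈ range n, Complex.normSq (W * k₁ ^ i - G' * k₂ ^ i) = 0 := by
      have : ((∑ i ∈ range n, Complex.normSq (W * k₁ ^ i - G' * k₂ ^ i) : ℝ) : ℂ) = 0 := by
        push_cast
        rw [← hsum]
        apply Finset.sum_congr rfl
        intro i _
        rw [Complex.mul_conj]
      exact_mod_cast this
    have hz := (Finset.sum_eq_zero_iff_of_nonneg
      (fun i _ => Complex.normSq_nonneg _)).mp hsum'
    have t0 := hz 0 (by simp; omega)
    have t1 := hz 1 (by simp; omega)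
    rw [Complex.normSq_eq_zero] at t0 t1
    simp only [pow_zero, mul_one, pow_one] at t0 t1
    have : W * (k₁ - k₂) = 0 := by linear_combination t1 - k₂ * t0
    rcases mul_eq_zero.mp this with h | h
    · exact hW0 h
    · exact hne (sub_eq_zero.mp h)

theorem amgm_strict {r : ℝ} (h0 : 0 ≤ r) (h1 : r < 1) {n : ℕ} (hn : 2 ≤ n) :
    (n : ℝ) * r ^ (n - 1) < ∑ i ∈ range n, (r ^ 2) ^ i := by
  have hrefl : ∑ i ∈ range n, (r ^ 2) ^ (n - 1 - i) = ∑ i ∈ range n, (r ^ 2) ^ i :=
    Finset.sum_range_reflect (fun i => (r ^ 2) ^ i) n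
  have h2 : ∑ _i ∈ range n, 2 * r ^ (n - 1) <
      ∑ i ∈ range n, ((r ^ 2) ^ i + (r ^ 2) ^ (n - 1 - i)) := by
    apply Finset.sum_lt_sum
    · intro i hi
      have hi' : i + (n - 1 - i) = n - 1 := by
        have := Finset.mem_range.mp hi
        omega
      have : r ^ (n - 1) = r ^ i * r ^ (n - 1 - i) := by rw [← pow_add, hi']
      rw [this, ← pow_mul, ← pow_mul, mul_comm 2 i, mul_comm 2 (n - 1 - i), pow_mul, pow_mul]
      nlinarith [sq_nonneg (r ^ i - r ^ (n - 1 - i))]
    · refine ⟨0, by simp; omega, ?_⟩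
      have hlt : r ^ (n - 1) < 1 := pow_lt_one₀ h0 h1 (by omega)
      have : (r ^ 2) ^ (n - 1 - 0) = (r ^ (n - 1)) ^ 2 := by
        rw [← pow_mul, ← pow_mul]; congr 1; simp; ring
      rw [this, pow_zero]
      nlinarith [sq_nonneg (1 - r ^ (n - 1)), sub_pos.mpr hlt, mul_pos (sub_pos.mpr hlt) (sub_pos.mpr hlt)]
  rw [Finset.sum_add_distrib, hrefl, Finset.sum_const, card_range, nsmul_eq_mul] at h2
  nlinarith

theorem alg_double {a b k : ℂ} {n : ℕ} (hn : 2 ≤ n) (h : ‖k‖ < 1)
    (e1 : a + b * k + conj b * k ^ n + conj a * k ^ (n + 1) = 0)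
    (e2 : b + conj b * (n * k ^ (n - 1)) + conj a * ((n + 1) * k ^ n) = 0) :
    a = 0 ∧ b = 0 := by
  have k11 := kernel_id h h e1 e1
  obtain ⟨m, rfl⟩ : ∃ m, n = m + 1 := ⟨n - 1, by omega⟩
  simp only [Nat.add_sub_cancel] at e2
  have hD : b * conj b - a * conj a = -((m + 1 : ℕ) * k ^ m * (conj b + conj a * k) ^ 2) := by
    have : conj a * (a + b * k + conj b * k ^ (m + 1) + conj a * k ^ (m + 1 + 1)) = 0 := by
      rw [e1, mul_zero]
    push_cast at e2 ⊢
    linear_combination (conj b + conj a * k) * e2 - this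
  by_cases hx : b + a * conj k = 0
  · have hx' : conj b + conj a * k = 0 := by
      have := congrArg conj hx
      simpa using this
    have hb : b = -(a * conj k) := by linear_combination hx
    have hy : a + b * k = 0 := by linear_combination e1 - k ^ (m + 1) * hx'
    rw [hb] at hy
    have : a * (1 - conj k * k) = 0 := by linear_combination hy
    have h1 : (1 - conj k * k) ≠ 0 := by
      intro h'
      have h2 : conj k * k = 1 := (sub_eq_zero.mp h').symm
      have h3 : ‖conj k * k‖ = 1 := by rw [h2]; simp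
      rw [norm_mul, Complex.norm_conj] at h3
      nlinarith [norm_nonneg k]
    have ha := (mul_eq_zero.mp this).resolve_right h1
    refine ⟨ha, ?_⟩
    rw [hb, ha]; simp
  · exfalso
    have hx' : ‖conj b + conj a * k‖ = ‖b + a * conj k‖ := by
      have : conj b + conj a * k = conj (b + a * conj k) := by simp
      rw [this, Complex.norm_conj]
    have hs : ‖∑ i ∈ range (m + 1), (conj k * k) ^ i‖ = ∑ i ∈ range (m + 1), (‖k‖ ^ 2) ^ i := by
      have : (∑ i ∈ range (m + 1), (conj k * k) ^ i) =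
          ((∑ i ∈ range (m + 1), (‖k‖ ^ 2) ^ i : ℝ) : ℂ) := by
        push_cast
        apply Finset.sum_congr rfl
        intro i _
        rw [mul_comm, Complex.mul_conj, Complex.normSq_eq_norm_sq]
        push_cast; rfl
      rw [this, Complex.norm_real, Real.norm_of_nonneg]
      apply Finset.sum_nonneg
      intro i _; positivity
    have hn1 := congrArg norm (k11.trans hD)
    rw [norm_neg, norm_mul, norm_mul, norm_mul, norm_mul, norm_pow, norm_pow, hx', hs,
      Complex.norm_natCast] at hn1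
    have hpos : 0 < ‖b + a * conj k‖ := norm_pos_iff.mpr hx
    have hlt := amgm_strict (norm_nonneg k) h hn
    simp only [Nat.add_sub_cancel] at hlt
    have : ‖b + a * conj k‖ ^ 2 * ((m + 1 : ℕ) * ‖k‖ ^ m) <
      ‖b + a * conj k‖ ^ 2 * ∑ i ∈ range (m + 1), (‖k‖ ^ 2) ^ i :=
      mul_lt_mul_of_pos_left hlt (by positivity)
    nlinarith

/-- combined statement for `n ≥ 2`. -/
theorem alg_main {a b k₁ k₂ : ℂ} {n : ℕ} (hn : 2 ≤ n)
    (h1 : ‖k₁‖ < 1) (h2 : ‖k₂‖ < 1)
    (e1 : a + b * k₁ + conj b * k₁ ^ n + conj a * k₁ ^ (n + 1) = 0)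
    (e2 : a + b * k₂ + conj b * k₂ ^ n + conj a * k₂ ^ (n + 1) = 0)
    (e3 : b + conj b * (∑ i ∈ range n, k₁ ^ i * k₂ ^ (n - 1 - i)) +
      conj a * (∑ i ∈ range (n + 1), k₁ ^ i * k₂ ^ (n - i)) = 0) :
    a = 0 ∧ b = 0 := by
  by_cases hne : k₁ = k₂
  · subst hne
    apply alg_double hn h1 e1
    have s1 : ∑ i ∈ range n, k₁ ^ i * k₁ ^ (n - 1 - i) = n * k₁ ^ (n - 1) := by
      rw [Finset.sum_congr rfl (g := fun _ => k₁ ^ (n - 1))]
      · simp
      · intro i hi
        have := Finset.mem_range.mp hi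
        rw [← pow_add]; congr 1; omega
    have s2 : ∑ i ∈ range (n + 1), k₁ ^ i * k₁ ^ (n - i) = (n + 1) * k₁ ^ n := by
      rw [Finset.sum_congr rfl (g := fun _ => k₁ ^ n)]
      · simp
      · intro i hi
        have := Finset.mem_range.mp hi
        rw [← pow_add]; congr 1; omega
    rw [s1, s2] at e3
    exact e3
  · exact alg_distinct hn h1 h2 hne e1 e2

/-- the case `n = 1`. -/
theorem alg_one {a b k₁ k₂ : ℂ}
    (h1 : ‖k₁‖ < 1) (h2 : ‖k₂‖ < 1)
    (e1 : a + b * k₁ + conj b * k₁ ^ 1 + conj a * k₁ ^ (1 + 1) = 0)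
    (e3 : b + conj b * (∑ i ∈ range 1, k₁ ^ i * k₂ ^ (1 - 1 - i)) +
      conj a * (∑ i ∈ range (1 + 1), k₁ ^ i * k₂ ^ (1 - i)) = 0) :
    a = 0 ∧ b + conj b = 0 := by
  simp only [range_one, sum_singleton, pow_zero, Finset.sum_range_succ] at e3
  norm_num at e3
  have hA : a = conj a * (k₁ * k₂) := by
    linear_combination e1 - k₁ * e3
  have ha : a = 0 := by
    by_contra hne
    have hn := congrArg norm hA
    rw [norm_mul, Complex.norm_conj, norm_mul] at hn
    have hpos : 0 < ‖a‖ := norm_pos_iff.mpr hne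
    have h12 : ‖k₁‖ * ‖k₂‖ < 1 := mul_lt_one_of_nonneg_of_lt_one_left (norm_nonneg _) h1 h2.le
    nlinarith
  refine ⟨ha, ?_⟩
  rw [ha] at e3
  simpa using e3

end Pool.Agent.V1176.Bi
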