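import Pool.Agent.V1176.BiEll

/-! Almansi decomposition of a biharmonic function of the plane, and transfer to ℝ². -/

namespace Pool.Agent.V1176.Bi

open Complex Finset ComplexConjugate Metric Filter Topology Laplacian InnerProductSpace

theorem hasFDeriv_ent {f : ℂ → ℂ} (hf : Differentiable ℂ f) (x : ℂ) :
    HasFDerivAt f (((1 : ℂ →L[ℂ] ℂ).smulRight (deriv f x)).restrictScalars ℝ) x :=
  (hf x).hasDerivAt.hasFDerivAt.restrictScalars ℝ

theorem fderiv_re {f : ℂ → ℂ} (hf : Differentiable ℂ f) (x h : ℂ) :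
    fderiv ℝ (fun z => (f z).re) x h = (deriv f x * h).re := by
  have h1 : HasFDerivAt (fun z => (f z).re)
      (reCLM.comp (((1 : ℂ →L[ℂ] ℂ).smulRight (deriv f x)).restrictScalars ℝ)) x :=
    reCLM.hasFDerivAt.comp x (hasFDeriv_ent hf x)
  rw [h1.fderiv]
  simp [mul_comm]

theorem fderiv_conj_mul {f : ℂ → ℂ} (hf : Differentiable ℂ f) (x h : ℂ) :
    fderiv ℝ (fun z => (conj z * f z).re) x h = (conj h * f x + conj x * (deriv f x * h)).re := by
  have h0 : HasFDerivAt (fun z : ℂ => conj z) (conjCLE : ℂ →L[ℝ] ℂ) x := conjCLE.hasFDerivAt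
  have h1 := h0.mul (hasFDeriv_ent hf x)
  have h2 : HasFDerivAt (fun z => (conj z * f z).re) _ x := reCLM.hasFDerivAt.comp x h1
  rw [h2.fderiv]
  simp
  ring

theorem contDiff_ent {f : ℂ → ℂ} (hf : Differentiable ℂ f) : ContDiff ℝ ⊤ f :=
  (hf.contDiff (n := ⊤)).restrict_scalars ℝ

theorem contDiff_conj_mul {f : ℂ → ℂ} (hf : Differentiable ℂ f) :
    ContDiff ℝ ⊤ (fun z : ℂ => (conj z * f z).re) := by
  have h1 : ContDiff ℝ ⊤ (fun z : ℂ => conj z) := conjCLE.contDiff
  exact reCLM.contDiff.comp (h1.mul (contDiff_ent hf))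

theorem second_eval {u : ℂ → ℝ} (hu : ContDiff ℝ 2 u) (x h k : ℂ) :
    iteratedFDeriv ℝ 2 u x ![h, k] = fderiv ℝ (fun y => fderiv ℝ u y k) x h := by
  rw [iteratedFDeriv_two_apply]
  have hd : DifferentiableAt ℝ (fderiv ℝ u) x :=
    (hu.fderiv_right (m := 1) (by norm_num)).differentiable (by norm_num) x
  rw [fderiv_clm_apply hd (differentiableAt_const k)]
  simp

theorem lap_conj_mul {f : ℂ → ℂ} (hf : Differentiable ℂ f) (z : ℂ) :
    Δ (fun z : ℂ => (conj z * f z).re) z = 4 * (deriv f z).re := by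
  have hdf : Differentiable ℂ (deriv f) :=
    (hf.contDiff (n := 2)).differentiable_deriv_two
  rw [laplacian_eq_iteratedFDeriv_complexPlane]
  have hc : ContDiff ℝ 2 (fun z : ℂ => (conj z * f z).re) :=
    (contDiff_conj_mul hf).of_le le_top
  simp only [second_eval hc]
  have key : ∀ k : ℂ, fderiv ℝ (fun y => fderiv ℝ (fun z : ℂ => (conj z * f z).re) y k) z k =
      ((conj k * (deriv f z * k)) + (conj k * (deriv f z * k) +
        conj z * (deriv (fun y => deriv f y * k) z * k))).re := by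
    intro k
    have e : (fun y => fderiv ℝ (fun z : ℂ => (conj z * f z).re) y k) =
        fun y => (conj k * f y).re + (conj y * (deriv f y * k)).re := by
      funext y
      rw [fderiv_conj_mul hf, Complex.add_re]
    rw [e]
    have g1 : Differentiable ℂ (fun y => conj k * f y) := hf.const_mul _
    have g2 : Differentiable ℂ (fun y => deriv f y * k) := hdf.mul_const _
    have d1 : DifferentiableAt ℝ (fun y => (conj k * f y).re) z :=
      ((reCLM.contDiff.comp (contDiff_ent g1)).differentiable (by simp)) z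
    have d2 : DifferentiableAt ℝ (fun y : ℂ => (conj y * (deriv f y * k)).re) z :=
      ((contDiff_conj_mul g2).differentiable (by simp)) z
    have hadd : fderiv ℝ (fun y => (conj k * f y).re + (conj y * (deriv f y * k)).re) z =
        fderiv ℝ (fun y => (conj k * f y).re) z +
        fderiv ℝ (fun y : ℂ => (conj y * (deriv f y * k)).re) z := fderiv_add d1 d2
    rw [hadd]
    change fderiv ℝ (fun y => (conj k * f y).re) z k +
        fderiv ℝ (fun y : ℂ => (conj y * (deriv f y * k)).re) z k = _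
    rw [fderiv_re g1, fderiv_conj_mul g2]
    have : deriv (fun y => conj k * f y) z = conj k * deriv f z := by
      exact deriv_const_mul _ (hf z)
    rw [this, Complex.add_re]
    congr 2
    ring
  rw [key 1, key I]
  have d1 : deriv (fun y => deriv f y * (1 : ℂ)) z = deriv (deriv f) z := by simp
  have dI : deriv (fun y => deriv f y * I) z = deriv (deriv f) z * I :=
    deriv_mul_const (hdf z) _
  rw [d1, dI]
  simp
  ring

theorem almansi {U : ℂ → ℝ} (hU : ContDiff ℝ 4 U) (hb : ∀ z, Δ (Δ U) z = 0) :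
    ∃ f g : ℂ → ℂ, Differentiable ℂ f ∧ Differentiable ℂ g ∧
      ∀ z, U z = (conj z * f z + g z).re := by
  have hV2 : ContDiff ℝ 2 (Δ U) := by
    rw [laplacian_eq_iteratedFDeriv_complexPlane]
    have h1 : ContDiff ℝ 2 (fun x => iteratedFDeriv ℝ 2 U x) :=
      hU.iteratedFDeriv_right (m := 2) (i := 2) (by norm_num)
    have h2 : ∀ m : Fin 2 → ℂ, ContDiff ℝ 2 (fun x => iteratedFDeriv ℝ 2 U x m) := fun m =>
      (ContinuousMultilinearMap.apply ℝ (fun _ : Fin 2 => ℂ) ℝ m).contDiff.comp h1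
    exact (h2 _).add (h2 _)
  have hVh : HarmonicOnNhd (Δ U) Set.univ := fun x _ =>
    ⟨hV2.contDiffAt, Eventually.of_forall fun y => hb y⟩
  obtain ⟨F, hF, hFV⟩ := hVh.exists_analyticOnNhd_univ_re_eq
  have hFd : Differentiable ℂ F := fun z => (hF z (Set.mem_univ z)).differentiableAt
  obtain ⟨f, hf⟩ := (hFd.div_const 4).isExactOn_univ
  have hf' : ∀ z, HasDerivAt f (F z / 4) z := fun z => hf z (Set.mem_univ z)
  have hfd : Differentiable ℂ f := fun z => (hf' z).differentiableAt
  have hWh : HarmonicOnNhd (U - fun z : ℂ => (conj z * f z).re) Set.univ := by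
    intro x _
    have c1 : ContDiff ℝ 2 U := hU.of_le (by norm_num)
    have c2 : ContDiff ℝ 2 (fun z : ℂ => (conj z * f z).re) :=
      (contDiff_conj_mul hfd).of_le le_top
    refine ⟨(c1.sub c2).contDiffAt, Eventually.of_forall fun y => ?_⟩
    rw [c1.contDiffAt.laplacian_sub c2.contDiffAt]
    rw [lap_conj_mul hfd, (hf' y).deriv, ← hFV]
    simp
    ring
  obtain ⟨g, hg, hgW⟩ := hWh.exists_analyticOnNhd_univ_re_eq
  refine ⟨f, g, hfd, fun z => (hg z (Set.mem_univ z)).differentiableAt, fun z => ?_⟩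
  have := congrFun hgW z
  simp only [Pi.sub_apply] at this
  rw [Complex.add_re, this]
  ring

/-- transfer of the Laplacian along a linear isometry. -/
theorem lap_comp (e : ℂ ≃ₗᵢ[ℝ] EuclideanSpace ℝ (Fin 2)) (u : EuclideanSpace ℝ (Fin 2) → ℝ) :
    Δ (u ∘ e) = (Δ u) ∘ e := by
  funext x
  rw [laplacian_eq_iteratedFDeriv_orthonormalBasis (u ∘ e) orthonormalBasisOneI]
  rw [laplacian_eq_iteratedFDeriv_orthonormalBasis u (orthonormalBasisOneI.map e)]
  simp only [Function.comp_apply]
  apply Finset.sum_congr rfl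
  intro i _
  have h := e.toContinuousLinearEquiv.iteratedFDerivWithin_comp_right u
    (s := Set.univ) uniqueDiffOn_univ (x := x) (Set.mem_univ _) 2
  simp only [Set.preimage_univ, iteratedFDerivWithin_univ] at h
  have h' : iteratedFDeriv ℝ 2 (u ∘ e) x = (iteratedFDeriv ℝ 2 u (e x)).compContinuousLinearMap
      fun _ => (e.toContinuousLinearEquiv : ℂ →L[ℝ] EuclideanSpace ℝ (Fin 2)) := h
  rw [h', ContinuousMultilinearMap.compContinuousLinearMap_apply]
  congr 1
  funext j
  fin_cases j <;> simp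

theorem poly_id {P m S q x y : ℝ} (h : q ^ 2 = P ^ 2 - m ^ 2 - S ^ 2) :
    (P + m) * ((P + S - m) * x - q * y) ^ 2 +
        2 * q * (((P + S - m) * x - q * y) * ((P + S + m) * y - q * x)) +
        (P - m) * ((P + S + m) * y - q * x) ^ 2 = 2 * S ^ 2 * (P + S) * (x * x + y * y) := by
  linear_combination (-(P + 2 * S - m) * x ^ 2 - (P + 2 * S + m) * y ^ 2 + 2 * q * x * y) * h

/-- a positive definite form is a round form in suitable coordinates. -/
theorem exists_param {p q r : ℝ} (hp : 0 < p) (hd : 0 < p * r - q ^ 2) :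
    ∃ (α : ℝ) (k : ℂ), 0 < α ∧ ‖k‖ < 1 ∧ ∀ w : ℂ,
      p * (α * w + (α * conj k) * conj w).re ^ 2 +
        2 * q * ((α * w + (α * conj k) * conj w).re * (α * w + (α * conj k) * conj w).im) +
        r * (α * w + (α * conj k) * conj w).im ^ 2 = ‖w‖ ^ 2 := by
  have hr : 0 < r := by
    by_contra h
    push Not at h
    nlinarith [sq_nonneg q, mul_nonneg hp.le (neg_nonneg.mpr h)]
  set P : ℝ := (p + r) / 2 with hP
  set m : ℝ := (p - r) / 2 with hm
  set S : ℝ := Real.sqrt (p * r - q ^ 2) with hS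
  have hSpos : 0 < S := Real.sqrt_pos.mpr hd
  have hS2 : S ^ 2 = p * r - q ^ 2 := Real.sq_sqrt hd.le
  set T : ℝ := P + S with hT
  have hPpos : 0 < P := by rw [hP]; linarith
  have hTpos : 0 < T := by linarith
  set α : ℝ := Real.sqrt (T / 2) / S with hα
  have hαpos : 0 < α := by positivity
  have hα2 : α ^ 2 = T / (2 * S ^ 2) := by
    rw [hα, div_pow, Real.sq_sqrt (by positivity)]
    field_simp
  have hpP : p = P + m := by rw [hP, hm]; ring
  have hrP : r = P - m := by rw [hP, hm]; ring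
  have hq2 : q ^ 2 = P ^ 2 - m ^ 2 - S ^ 2 := by rw [hS2, hpP, hrP]; ring
  refine ⟨α, ⟨-(m / T), q / T⟩, hαpos, ?_, ?_⟩
  · have : ‖(⟨-(m / T), q / T⟩ : ℂ)‖ ^ 2 < 1 := by
      rw [← Complex.normSq_eq_norm_sq, Complex.normSq_apply]
      have : -(m / T) * -(m / T) + q / T * (q / T) = (m ^ 2 + q ^ 2) / T ^ 2 := by
        field_simp
      simp only
      rw [this, div_lt_one (by positivity), hq2, hT]
      nlinarith
    nlinarith [norm_nonneg (⟨-(m / T), q / T⟩ : ℂ)]
  · intro w
    rw [← Complex.normSq_eq_norm_sq, Complex.normSq_apply]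
    simp only [Complex.add_re, Complex.mul_re, Complex.conj_re, Complex.conj_im, Complex.add_im,
      Complex.mul_im, Complex.ofReal_re, Complex.ofReal_im]
    set x := w.re
    set y := w.im
    have eX : α * x - 0 * y + ((α * -(m / T) - 0 * -(q / T)) * x -
        (α * -(q / T) + 0 * -(m / T)) * -y) = α / T * ((T - m) * x - q * y) := by
      field_simp
      ring
    have eY : α * y + 0 * x + ((α * -(m / T) - 0 * -(q / T)) * -y +
        (α * -(q / T) + 0 * -(m / T)) * x) = α / T * ((T + m) * y - q * x) := by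
      field_simp
      ring
    rw [eX, eY]
    have hαT : (α / T) ^ 2 = 1 / (2 * S ^ 2 * T) := by
      rw [div_pow, hα2]; field_simp
    have poly : p * ((T - m) * x - q * y) ^ 2 +
        2 * q * (((T - m) * x - q * y) * ((T + m) * y - q * x)) +
        r * ((T + m) * y - q * x) ^ 2 = 2 * S ^ 2 * T * (x * x + y * y) := by
      have h := poly_id (x := x) (y := y) hq2
      rw [← hpP, ← hrP, ← hT] at h
      exact h
    calc _ = (α / T) ^ 2 * (p * ((T - m) * x - q * y) ^ 2 +
        2 * q * (((T - m) * x - q * y) * ((T + m) * y - q * x)) +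
        r * ((T + m) * y - q * x) ^ 2) := by ring
      _ = _ := by rw [poly, hαT]; field_simp

end Pool.Agent.V1176.Bi
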