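import Pool.Agent.V1176.BiTop

/-! The two-branch hypothesis for two ellipses. -/

namespace Pool.Agent.V1176.Bi

open Complex Finset ComplexConjugate Metric Filter Topology

theorem conj_conj_differentiable {f : ℂ → ℂ} (hf : Differentiable ℂ f) :
    Differentiable ℂ (fun ζ => conj (f (conj ζ))) := by
  intro x
  have := (hf (conj x)).conj_conj
  simpa [Function.comp_def] using this

theorem cont {f g : ℂ → ℂ} (hf : Differentiable ℂ f) (hg : Differentiable ℂ g)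
    {c β : ℂ} {α : ℝ}
    (hu : ∀ w : ℂ, ‖w‖ = 1 → (conj (c + α * w + β * conj w) * f (c + α * w + β * conj w) +
      g (c + α * w + β * conj w)).re = 0) :
    ∀ w : ℂ, w ≠ 0 → E f g (c + α * w + β / w) (conj c + α / w + conj β * w) = 0 := by
  set Φ : ℂ → ℂ := fun w => E f g (c + α * w + β / w) (conj c + α / w + conj β * w) with hΦ
  have hd : DifferentiableOn ℂ Φ {0}ᶜ := by
    intro w hw
    have hw0 : w ≠ 0 := hw
    apply DifferentiableAt.differentiableWithinAt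
    have hz : DifferentiableAt ℂ (fun w : ℂ => c + α * w + β / w) w := by
      fun_prop (disch := exact hw0)
    have hs : DifferentiableAt ℂ (fun w : ℂ => conj c + α / w + conj β * w) w := by
      fun_prop (disch := exact hw0)
    have hf1 := (hf (c + α * w + β / w)).comp w hz
    have hg1 := (hg (c + α * w + β / w)).comp w hz
    have hf2 := (conj_conj_differentiable hf (conj c + α / w + conj β * w)).comp w hs
    have hg2 := (conj_conj_differentiable hg (conj c + α / w + conj β * w)).comp w hs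
    exact (((hs.mul hf1).add (hz.mul hf2)).add hg1).add hg2
  have ha : AnalyticOnNhd ℂ Φ {0}ᶜ := hd.analyticOnNhd isOpen_compl_singleton
  have hpre : IsPreconnected ({0}ᶜ : Set ℂ) :=
    (isConnected_compl_singleton_of_one_lt_rank (by simp [Complex.rank_real_complex]) 0).isPreconnected
  have hon : ∀ w : ℂ, ‖w‖ = 1 → Φ w = 0 := by
    intro w hw
    have hw0 : w ≠ 0 := by intro h; rw [h] at hw; simp at hw
    have hinv : w⁻¹ = conj w := by
      rw [Complex.inv_def, Complex.normSq_eq_norm_sq, hw]; simp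
    have e1 : c + α * w + β / w = c + α * w + β * conj w := by
      rw [div_eq_mul_inv, hinv]
    have e2 : conj c + α / w + conj β * w = conj (c + α * w + β * conj w) := by
      rw [div_eq_mul_inv, hinv]
      simp
    have h := hu w hw
    simp only [hΦ]
    rw [e1, e2]
    unfold E
    rw [Complex.conj_conj]
    set Z := c + α * w + β * conj w
    have : conj Z * f Z + Z * conj (f Z) + g Z + conj (g Z) =
        (conj Z * f Z + g Z) + conj (conj Z * f Z + g Z) := by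
      simp only [map_add, map_mul, Complex.conj_conj]; ring
    rw [this, Complex.add_conj, h]; simp
  have hfreq : ∃ᶠ w in 𝓝[≠] (1 : ℂ), Φ w = 0 := by
    have hsph : IsPreconnected (sphere (0 : ℂ) 1) :=
      isPreconnected_sphere (by simp [Complex.rank_real_complex]) 0 1
    have hnt : (sphere (0 : ℂ) 1).Nontrivial := by
      refine ⟨1, by simp, -1, by simp, ?_⟩
      intro h
      have := congrArg Complex.re h
      norm_num at this
    have hacc := hsph.preperfect_of_nontrivial hnt 1 (by simp)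
    rw [accPt_iff_frequently_nhdsNE] at hacc
    exact hacc.mono fun w hw => hon w (by simpa using hw)
  have hEq := ha.eqOn_zero_of_preconnected_of_frequently_eq_zero hpre (z₀ := 1) (by simp) hfreq
  intro w hw
  exact hEq hw

theorem root_choice {c β z : ℂ} {α : ℝ} (hα : 0 < α) (hz : z ≠ c) :
    ∃ w : ℂ, w ≠ 0 ∧ c + α * w + β / w = z ∧ ‖z - c‖ ≤ 2 * α * ‖w‖ := by
  obtain ⟨r, hr⟩ : ∃ r : ℂ, (z - c) ^ 2 - 4 * α * β = r * r := IsAlgClosed.exists_eq_mul_self _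
  have hα' : (α : ℂ) ≠ 0 := by exact_mod_cast hα.ne'
  have main : ∀ r : ℂ, (z - c) ^ 2 - 4 * α * β = r * r → ‖z - c‖ ≤ ‖(z - c) + r‖ →
      ∃ w : ℂ, w ≠ 0 ∧ c + α * w + β / w = z ∧ ‖z - c‖ ≤ 2 * α * ‖w‖ := by
    intro r hr hle
    have hpos : 0 < ‖z - c‖ := norm_pos_iff.mpr (sub_ne_zero.mpr hz)
    have hne : (z - c) + r ≠ 0 := norm_pos_iff.mp (lt_of_lt_of_le hpos hle)
    refine ⟨((z - c) + r) / (2 * α), ?_, ?_, ?_⟩
    · exact div_ne_zero hne (by simpa using hα')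
    · field_simp
      linear_combination (-1) * hr
    · rw [norm_div, norm_mul, Complex.norm_real, Real.norm_of_nonneg hα.le]
      have : 2 * α * (‖z - c + r‖ / (‖(2 : ℂ)‖ * α)) = ‖z - c + r‖ := by
        rw [Complex.norm_ofNat]; field_simp
      rw [this]; exact hle
  by_cases h : ‖z - c‖ ≤ ‖(z - c) + r‖
  · exact main r hr h
  · push Not at h
    apply main (-r) (by rw [hr]; ring)
    have : (2 : ℂ) * (z - c) = ((z - c) + r) + ((z - c) + -r) := by ring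
    have h2 : ‖(2 : ℂ) * (z - c)‖ ≤ ‖(z - c) + r‖ + ‖(z - c) + -r‖ := by
      rw [this]; exact norm_add_le _ _
    rw [norm_mul, Complex.norm_ofNat] at h2
    linarith

/-- the branch over a large point. -/
theorem branch {f g : ℂ → ℂ} (hf : Differentiable ℂ f) (hg : Differentiable ℂ g)
    {c k : ℂ} {α : ℝ} (hα : 0 < α) (hk : ‖k‖ < 1)
    (hu : ∀ w : ℂ, ‖w‖ = 1 →
      (conj (c + α * w + (α * conj k) * conj w) * f (c + α * w + (α * conj k) * conj w) +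
      g (c + α * w + (α * conj k) * conj w)).re = 0) {z : ℂ} (hz : 0 < ‖z - c‖) :
    ∃ w : ℂ, w ≠ 0 ∧ c + α * w + (α * conj k) / w = z ∧
      ‖(α * (1 - k * conj k)) / w‖ ≤ 2 * α ^ 2 / ‖z - c‖ ∧
      E f g z (k * z + (conj c - k * c) + (α * (1 - k * conj k)) / w) = 0 := by
  obtain ⟨w, hw0, hw, hn⟩ := root_choice (β := α * conj k) hα (sub_ne_zero.mp (norm_pos_iff.mp hz))
  refine ⟨w, hw0, hw, ?_, ?_⟩
  · have h1 : ‖(1 - k * conj k : ℂ)‖ ≤ 1 := by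
      rw [Complex.mul_conj, Complex.normSq_eq_norm_sq, ← Complex.ofReal_one, ← Complex.ofReal_sub,
        Complex.norm_real, Real.norm_eq_abs, abs_le]
      constructor <;> nlinarith [norm_nonneg k]
    rw [norm_div, norm_mul, Complex.norm_real, Real.norm_of_nonneg hα.le]
    have hwpos : 0 < ‖w‖ := norm_pos_iff.mpr hw0
    rw [div_le_div_iff₀ hwpos hz]
    calc α * ‖(1 - k * conj k : ℂ)‖ * ‖z - c‖ ≤ α * 1 * (2 * α * ‖w‖) := by gcongr
      _ = _ := by ring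
  · have h := cont hf hg hu w hw0
    rw [hw] at h
    convert h using 2
    rw [← hw]
    simp only [map_mul, Complex.conj_conj, Complex.conj_ofReal]
    field_simp
    ring

theorem eventually_small {c : ℂ} {α η : ℝ} (hη : 0 < η) :
    ∃ R : ℝ, ∀ z : ℂ, R ≤ ‖z‖ → 0 < ‖z - c‖ ∧ 2 * α ^ 2 / ‖z - c‖ ≤ η := by
  refine ⟨‖c‖ + 2 * α ^ 2 / η + 1, fun z hz => ?_⟩
  have h1 : ‖z‖ ≤ ‖z - c‖ + ‖c‖ := by
    calc ‖z‖ = ‖(z - c) + c‖ := by congr 1; ring
      _ ≤ _ := norm_add_le _ _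
  have h2 : 2 * α ^ 2 / η + 1 ≤ ‖z - c‖ := by linarith
  have h3 : 0 ≤ 2 * α ^ 2 / η := by positivity
  have h4 : 0 < ‖z - c‖ := by linarith
  refine ⟨h4, ?_⟩
  rw [div_le_iff₀ h4]
  have h5 : 2 * α ^ 2 / η ≤ ‖z - c‖ := by linarith
  rw [div_le_iff₀ hη] at h5
  linarith

theorem hyp_of_ellipses {f g : ℂ → ℂ} (hf : Differentiable ℂ f) (hg : Differentiable ℂ g)
    {c₁ k₁ c₂ k₂ : ℂ} {α₁ α₂ : ℝ} (hα₁ : 0 < α₁) (hk₁ : ‖k₁‖ < 1) (hα₂ : 0 < α₂) (hk₂ : ‖k₂‖ < 1)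
    (hu₁ : ∀ w : ℂ, ‖w‖ = 1 →
      (conj (c₁ + α₁ * w + (α₁ * conj k₁) * conj w) * f (c₁ + α₁ * w + (α₁ * conj k₁) * conj w) +
      g (c₁ + α₁ * w + (α₁ * conj k₁) * conj w)).re = 0)
    (hu₂ : ∀ w : ℂ, ‖w‖ = 1 →
      (conj (c₂ + α₂ * w + (α₂ * conj k₂) * conj w) * f (c₂ + α₂ * w + (α₂ * conj k₂) * conj w) +
      g (c₂ + α₂ * w + (α₂ * conj k₂) * conj w)).re = 0)
    (hne : ¬ (c₁ = c₂ ∧ α₁ = α₂ ∧ k₁ = k₂)) : Hyp f g k₁ k₂ := by
  refine ⟨hk₁, hk₂, ?_⟩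
  set l₁ : ℂ := conj c₁ - k₁ * c₁ with hl₁
  set l₂ : ℂ := conj c₂ - k₂ * c₂ with hl₂
  -- general production of branches
  have gen : ∀ η : ℝ, 0 < η → η ≤ 1 → ∃ R : ℝ, ∀ z : ℂ, R ≤ ‖z‖ → ∃ w₁ w₂ : ℂ, w₁ ≠ 0 ∧ w₂ ≠ 0 ∧
      c₁ + α₁ * w₁ + (α₁ * conj k₁) / w₁ = z ∧ c₂ + α₂ * w₂ + (α₂ * conj k₂) / w₂ = z ∧
      ‖(α₁ * (1 - k₁ * conj k₁)) / w₁‖ ≤ η ∧ ‖(α₂ * (1 - k₂ * conj k₂)) / w₂‖ ≤ η ∧
      E f g z (k₁ * z + l₁ + (α₁ * (1 - k₁ * conj k₁)) / w₁) = 0 ∧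
      E f g z (k₂ * z + l₂ + (α₂ * (1 - k₂ * conj k₂)) / w₂) = 0 := by
    intro η hη _
    obtain ⟨R₁, h1⟩ := eventually_small (c := c₁) (α := α₁) hη
    obtain ⟨R₂, h2⟩ := eventually_small (c := c₂) (α := α₂) hη
    refine ⟨max R₁ R₂, fun z hz => ?_⟩
    obtain ⟨p1, b1⟩ := h1 z ((le_max_left _ _).trans hz)
    obtain ⟨p2, b2⟩ := h2 z ((le_max_right _ _).trans hz)
    obtain ⟨w₁, a1, a2, a3, a4⟩ := branch hf hg hα₁ hk₁ hu₁ p1
    obtain ⟨w₂, d1, d2, d3, d4⟩ := branch hf hg hα₂ hk₂ hu₂ p2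
    exact ⟨w₁, w₂, a1, d1, a2, d2, a3.trans b1, d3.trans b2, a4, d4⟩
  -- conclude from distinctness
  have fin : ∀ (η R' : ℝ), 0 < η → η ≤ 1 →
      (∀ z w₁ w₂ : ℂ, R' ≤ ‖z‖ → w₁ ≠ 0 → w₂ ≠ 0 →
        c₁ + α₁ * w₁ + (α₁ * conj k₁) / w₁ = z → c₂ + α₂ * w₂ + (α₂ * conj k₂) / w₂ = z →
        ‖(α₁ * (1 - k₁ * conj k₁)) / w₁‖ ≤ η → ‖(α₂ * (1 - k₂ * conj k₂)) / w₂‖ ≤ η →
        k₁ * z + l₁ + (α₁ * (1 - k₁ * conj k₁)) / w₁ ≠
          k₂ * z + l₂ + (α₂ * (1 - k₂ * conj k₂)) / w₂) →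
      ∃ C R : ℝ, ∀ z : ℂ, R ≤ ‖z‖ → ∃ s₁ s₂ : ℂ, s₁ ≠ s₂ ∧ ‖s₁ - k₁ * z‖ ≤ C ∧
        ‖s₂ - k₂ * z‖ ≤ C ∧ E f g z s₁ = 0 ∧ E f g z s₂ = 0 := by
    intro η R' hη hη1 hd
    obtain ⟨R, hR⟩ := gen η hη hη1
    refine ⟨max ‖l₁‖ ‖l₂‖ + 1, max R R', fun z hz => ?_⟩
    obtain ⟨w₁, w₂, a1, a2, a3, a4, a5, a6, a7, a8⟩ := hR z ((le_max_left _ _).trans hz)
    refine ⟨_, _, hd z w₁ w₂ ((le_max_right _ _).trans hz) a1 a2 a3 a4 a5 a6, ?_, ?_, a7, a8⟩
    · have e : k₁ * z + l₁ + (α₁ * (1 - k₁ * conj k₁)) / w₁ - k₁ * z =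
          l₁ + (α₁ * (1 - k₁ * conj k₁)) / w₁ := by ring
      rw [e]
      refine (norm_add_le _ _).trans ?_
      exact add_le_add (le_max_left _ _) (a5.trans hη1)
    · have e : k₂ * z + l₂ + (α₂ * (1 - k₂ * conj k₂)) / w₂ - k₂ * z =
          l₂ + (α₂ * (1 - k₂ * conj k₂)) / w₂ := by ring
      rw [e]
      refine (norm_add_le _ _).trans ?_
      exact add_le_add (le_max_right _ _) (a6.trans hη1)
  by_cases hk : k₁ = k₂
  · by_cases hl : l₁ = l₂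
    · -- same centre; then the sizes differ
      have hc : c₁ = c₂ := by
        have hd : conj (c₁ - c₂) = k₁ * (c₁ - c₂) := by
          rw [map_sub]
          rw [hl₁, hl₂, ← hk] at hl
          linear_combination hl
        have hn := congrArg norm hd
        rw [Complex.norm_conj, norm_mul] at hn
        by_contra hcne
        have : 0 < ‖c₁ - c₂‖ := norm_pos_iff.mpr (sub_ne_zero.mpr hcne)
        nlinarith
      have hα : α₁ ≠ α₂ := fun h => hne ⟨hc, h, hk⟩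
      apply fin 1 0 one_pos le_rfl
      intro z w₁ w₂ _ h1 h2 hz1 hz2 _ _ heq
      apply hα
      rw [← hk, ← hc] at hz2
      rw [← hl, ← hk] at heq
      have hq : (1 - k₁ * conj k₁) ≠ 0 := by
        rw [Complex.mul_conj, Complex.normSq_eq_norm_sq, ← Complex.ofReal_one, ← Complex.ofReal_sub]
        have : (1 - ‖k₁‖ ^ 2 : ℝ) ≠ 0 := by nlinarith [norm_nonneg k₁]
        exact_mod_cast this
      have e1 : (α₁ : ℂ) / w₁ = α₂ / w₂ := by
        have h3 : (α₁ * (1 - k₁ * conj k₁)) / w₁ = (α₂ * (1 - k₁ * conj k₁)) / w₂ := by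
          linear_combination heq
        have h4 : (1 - k₁ * conj k₁) * ((α₁ : ℂ) / w₁) = (1 - k₁ * conj k₁) * (α₂ / w₂) := by
          linear_combination h3
        exact mul_left_cancel₀ hq h4
      have e2 : (α₁ : ℂ) * w₁ = α₂ * w₂ := by
        have h5 : (α₁ : ℂ) * w₁ + conj k₁ * (α₁ / w₁) = α₂ * w₂ + conj k₁ * (α₂ / w₂) := by
          linear_combination hz1 - hz2
        rw [e1] at h5
        exact add_right_cancel h5
      have e3 : (α₁ : ℂ) * α₁ = α₂ * α₂ := by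
        have h6 : ((α₁ : ℂ) * w₁) * (α₁ / w₁) = (α₂ * w₂) * (α₂ / w₂) := by rw [e1, e2]
        field_simp at h6
        linear_combination h6
      have e4 : α₁ * α₁ = α₂ * α₂ := by exact_mod_cast e3
      nlinarith
    · have hpos : 0 < ‖l₁ - l₂‖ := norm_pos_iff.mpr (sub_ne_zero.mpr hl)
      apply fin (min 1 (‖l₁ - l₂‖ / 3)) 0 (lt_min one_pos (by positivity)) (min_le_left _ _)
      intro z w₁ w₂ _ _ _ _ _ b1 b2 heq
      have b1' := b1.trans (min_le_right _ _)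
      have b2' := b2.trans (min_le_right _ _)
      have h : l₁ - l₂ = (α₂ * (1 - k₂ * conj k₂)) / w₂ - (α₁ * (1 - k₁ * conj k₁)) / w₁ := by
        have : k₁ * z = k₂ * z := by rw [hk]
        linear_combination heq - this
      have h' : ‖l₁ - l₂‖ ≤ ‖l₁ - l₂‖ / 3 + ‖l₁ - l₂‖ / 3 := by
        calc ‖l₁ - l₂‖ = _ := congrArg norm h
          _ ≤ _ := norm_sub_le _ _
          _ ≤ _ := add_le_add b2' b1'
      linarith
  · have hpos : 0 < ‖k₁ - k₂‖ := norm_pos_iff.mpr (sub_ne_zero.mpr hk)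
    apply fin 1 ((‖l₁ - l₂‖ + 3) / ‖k₁ - k₂‖) one_pos le_rfl
    intro z w₁ w₂ hz _ _ _ _ b1 b2 heq
    rw [div_le_iff₀ hpos] at hz
    have h : (k₁ - k₂) * z = (l₂ - l₁) +
        ((α₂ * (1 - k₂ * conj k₂)) / w₂ - (α₁ * (1 - k₁ * conj k₁)) / w₁) := by
      linear_combination heq
    have h' : ‖k₁ - k₂‖ * ‖z‖ ≤ ‖l₁ - l₂‖ + (1 + 1) := by
      rw [← norm_mul, h, norm_sub_rev l₁ l₂]
      refine (norm_add_le _ _).trans ?_
      gcongr
      exact (norm_sub_le _ _).trans (add_le_add b2 b1)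
    linarith

/-- an affine function vanishing on an ellipse is zero. -/
theorem affine_zero {c γ : ℂ} {k : ℂ} {α δ : ℝ} (hα : 0 < α) (hk : ‖k‖ < 1)
    (h : ∀ w : ℂ, ‖w‖ = 1 → (γ * (c + α * w + (α * conj k) * conj w)).re + δ = 0) :
    γ = 0 ∧ δ = 0 := by
  have h1 := h 1 (by simp)
  have h2 := h (-1) (by simp)
  have h3 := h I (by simp)
  have h4 := h (-I) (by simp)
  have hk' : k.re ^ 2 + k.im ^ 2 < 1 := by
    have : ‖k‖ ^ 2 < 1 := by nlinarith [norm_nonneg k]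
    rw [← Complex.normSq_eq_norm_sq, Complex.normSq_apply] at this
    linarith
  simp only [Complex.mul_re, Complex.add_re, Complex.add_im, Complex.mul_im, Complex.conj_re,
    Complex.conj_im, Complex.ofReal_re, Complex.ofReal_im, Complex.one_re, Complex.one_im,
    Complex.neg_re, Complex.neg_im, Complex.I_re, Complex.I_im] at h1 h2 h3 h4
  have e1 : α * (γ.re * (1 + k.re) + γ.im * k.im) = 0 := by linear_combination (h1 - h2) / 2
  have e2 : α * (γ.re * k.im + γ.im * (1 - k.re)) = 0 := by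
    linear_combination (h4 - h3) / 2
  have e1' := (mul_eq_zero.mp e1).resolve_left hα.ne'
  have e2' := (mul_eq_zero.mp e2).resolve_left hα.ne'
  have hre : γ.re = 0 := by
    have : γ.re * (1 - k.re ^ 2 - k.im ^ 2) = 0 := by
      linear_combination (1 - k.re) * e1' - k.im * e2'
    exact (mul_eq_zero.mp this).resolve_right (by linarith)
  have him : γ.im = 0 := by
    have : γ.im * (1 - k.re ^ 2 - k.im ^ 2) = 0 := by
      linear_combination (1 + k.re) * e2' - k.im * e1'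
    exact (mul_eq_zero.mp this).resolve_right (by linarith)
  refine ⟨Complex.ext hre him, ?_⟩
  rw [hre, him] at h1
  linarith

theorem zero_of_two_ellipses {f g : ℂ → ℂ} (hf : Differentiable ℂ f) (hg : Differentiable ℂ g)
    {c₁ k₁ c₂ k₂ : ℂ} {α₁ α₂ : ℝ} (hα₁ : 0 < α₁) (hk₁ : ‖k₁‖ < 1) (hα₂ : 0 < α₂) (hk₂ : ‖k₂‖ < 1)
    (hu₁ : ∀ w : ℂ, ‖w‖ = 1 →
      (conj (c₁ + α₁ * w + (α₁ * conj k₁) * conj w) * f (c₁ + α₁ * w + (α₁ * conj k₁) * conj w) +
      g (c₁ + α₁ * w + (α₁ * conj k₁) * conj w)).re = 0)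
    (hu₂ : ∀ w : ℂ, ‖w‖ = 1 →
      (conj (c₂ + α₂ * w + (α₂ * conj k₂) * conj w) * f (c₂ + α₂ * w + (α₂ * conj k₂) * conj w) +
      g (c₂ + α₂ * w + (α₂ * conj k₂) * conj w)).re = 0)
    (hne : ¬ (c₁ = c₂ ∧ α₁ = α₂ ∧ k₁ = k₂)) :
    ∀ z : ℂ, (conj z * f z + g z).re = 0 := by
  obtain ⟨γ, δ, h⟩ := affine_of_hyp hf hg (hyp_of_ellipses hf hg hα₁ hk₁ hα₂ hk₂ hu₁ hu₂ hne)
  obtain ⟨h1, h2⟩ := affine_zero (c := c₁) (γ := γ) (δ := δ) hα₁ hk₁ (fun w hw => by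
    rw [← h]; exact hu₁ w hw)
  intro z
  rw [h, h1, h2]; simp

end Pool.Agent.V1176.Bi
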