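import Mathlib

/-! Growth estimate and polynomial conclusion in the two-ellipse problem. -/

namespace Pool.Agent.V1176.Bi

open Complex Finset ComplexConjugate Metric Filter Topology

/-- the polarised form of `2 Re (conj z * f z + g z)`. -/
noncomputable def E (f g : ℂ → ℂ) (z s : ℂ) : ℂ :=
  s * f z + z * conj (f (conj s)) + g z + conj (g (conj s))

/-- two branches `s₁ ≠ s₂` over every large `z`. -/
structure Hyp (f g : ℂ → ℂ) (k₁ k₂ : ℂ) : Prop where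
  h1 : ‖k₁‖ < 1
  h2 : ‖k₂‖ < 1
  h : ∃ C R : ℝ, ∀ z : ℂ, R ≤ ‖z‖ → ∃ s₁ s₂ : ℂ, s₁ ≠ s₂ ∧ ‖s₁ - k₁ * z‖ ≤ C ∧
    ‖s₂ - k₂ * z‖ ≤ C ∧ E f g z s₁ = 0 ∧ E f g z s₂ = 0

theorem lip {f : ℂ → ℂ} (hf : Differentiable ℂ f) {r d A : ℝ} (hd : 0 < d)
    (hA : ∀ ζ : ℂ, ‖ζ‖ ≤ r + d → ‖f ζ‖ ≤ A) {x y : ℂ} (hx : ‖x‖ ≤ r) (hy : ‖y‖ ≤ r) :
    ‖f x - f y‖ ≤ A / d * ‖x - y‖ := by
  apply (convex_closedBall (0 : ℂ) r).norm_image_sub_le_of_norm_deriv_le (f := f) (C := A / d)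
    (fun z _ => hf z) (fun z hz => ?_) (by simpa using hy) (by simpa using hx)
  apply Complex.norm_deriv_le_of_forall_mem_sphere_norm_le hd hf.diffContOnCl
  intro w hw
  apply hA
  have h1 : ‖z‖ ≤ r := by simpa using hz
  have h2 : ‖w - z‖ = d := by simpa [dist_eq_norm] using hw
  calc ‖w‖ = ‖z + (w - z)‖ := by congr 1; ring
    _ ≤ ‖z‖ + ‖w - z‖ := norm_add_le _ _
    _ ≤ r + d := by linarith

theorem step {f g : ℂ → ℂ} (hf : Differentiable ℂ f) (hg : Differentiable ℂ g)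
    {z s₁ s₂ : ℂ} {ρ₁ ρ₂ A B : ℝ} (hρ : ρ₁ < ρ₂) (hρ2 : ρ₂ < 1) (hz : 0 < ‖z‖)
    (hne : s₁ ≠ s₂) (hs₁ : ‖s₁‖ ≤ ρ₁ * ‖z‖) (hs₂ : ‖s₂‖ ≤ ρ₁ * ‖z‖)
    (E1 : E f g z s₁ = 0) (E2 : E f g z s₂ = 0)
    (hA : ∀ ζ : ℂ, ‖ζ‖ ≤ ρ₂ * ‖z‖ → ‖f ζ‖ ≤ A) (hB : ∀ ζ : ℂ, ‖ζ‖ ≤ ρ₂ * ‖z‖ → ‖g ζ‖ ≤ B) :
    ‖z‖ * ‖f z‖ ≤ (‖z‖ * A + B) / (ρ₂ - ρ₁) ∧
    ‖g z‖ ≤ (‖z‖ * A + B) / (ρ₂ - ρ₁) + (‖z‖ * A + B) := by
  have hδ : 0 < ρ₂ - ρ₁ := sub_pos.mpr hρ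
  have hd : 0 < (ρ₂ - ρ₁) * ‖z‖ := mul_pos hδ hz
  have c1 : ‖conj s₁‖ ≤ ρ₁ * ‖z‖ := by rw [Complex.norm_conj]; exact hs₁
  have c2 : ‖conj s₂‖ ≤ ρ₁ * ‖z‖ := by rw [Complex.norm_conj]; exact hs₂
  have hrd : ρ₁ * ‖z‖ + (ρ₂ - ρ₁) * ‖z‖ = ρ₂ * ‖z‖ := by ring
  have lf := lip hf hd (A := A) (by rw [hrd]; exact hA) c1 c2
  have lg := lip hg hd (A := B) (by rw [hrd]; exact hB) c1 c2
  have hcs : ‖conj s₁ - conj s₂‖ = ‖s₁ - s₂‖ := by rw [← map_sub, Complex.norm_conj]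
  rw [hcs] at lf lg
  have hpos : 0 < ‖s₁ - s₂‖ := norm_pos_iff.mpr (sub_ne_zero.mpr hne)
  unfold E at E1 E2
  have hsub : (s₁ - s₂) * f z = -(z * conj (f (conj s₁) - f (conj s₂)) +
      conj (g (conj s₁) - g (conj s₂))) := by
    rw [map_sub, map_sub]
    linear_combination E1 - E2
  have hfz : ‖s₁ - s₂‖ * ‖f z‖ ≤ ‖z‖ * (A / ((ρ₂ - ρ₁) * ‖z‖) * ‖s₁ - s₂‖) +
      B / ((ρ₂ - ρ₁) * ‖z‖) * ‖s₁ - s₂‖ := by
    rw [← norm_mul, hsub, norm_neg]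
    calc _ ≤ ‖z * conj (f (conj s₁) - f (conj s₂))‖ + ‖conj (g (conj s₁) - g (conj s₂))‖ :=
          norm_add_le _ _
      _ = ‖z‖ * ‖f (conj s₁) - f (conj s₂)‖ + ‖g (conj s₁) - g (conj s₂)‖ := by
          rw [norm_mul, Complex.norm_conj, Complex.norm_conj]
      _ ≤ _ := by gcongr
  have hf1 : ‖z‖ * ‖f z‖ ≤ (‖z‖ * A + B) / (ρ₂ - ρ₁) := by
    have h3 : ‖f z‖ ≤ (‖z‖ * A + B) / ((ρ₂ - ρ₁) * ‖z‖) := by
      have : ‖s₁ - s₂‖ * ‖f z‖ ≤ ‖s₁ - s₂‖ * ((‖z‖ * A + B) / ((ρ₂ - ρ₁) * ‖z‖)) := by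
        refine hfz.trans (le_of_eq ?_)
        field_simp
      exact le_of_mul_le_mul_left this hpos
    calc ‖z‖ * ‖f z‖ ≤ ‖z‖ * ((‖z‖ * A + B) / ((ρ₂ - ρ₁) * ‖z‖)) := by gcongr
      _ = _ := by field_simp
  refine ⟨hf1, ?_⟩
  have hle : ρ₁ * ‖z‖ ≤ ρ₂ * ‖z‖ := by gcongr
  have hgz : g z = -(s₁ * f z + z * conj (f (conj s₁)) + conj (g (conj s₁))) := by
    linear_combination E1
  have hs1 : ‖s₁‖ ≤ ‖z‖ := by nlinarith
  calc ‖g z‖ = ‖s₁ * f z + z * conj (f (conj s₁)) + conj (g (conj s₁))‖ := by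
        rw [hgz, norm_neg]
    _ ≤ ‖s₁ * f z‖ + ‖z * conj (f (conj s₁))‖ + ‖conj (g (conj s₁))‖ := norm_add₃_le
    _ = ‖s₁‖ * ‖f z‖ + ‖z‖ * ‖f (conj s₁)‖ + ‖g (conj s₁)‖ := by
        rw [norm_mul, norm_mul, Complex.norm_conj, Complex.norm_conj]
    _ ≤ ‖z‖ * ‖f z‖ + ‖z‖ * A + B := by
        have := hA _ (c1.trans hle)
        have := hB _ (c1.trans hle)
        gcongr
    _ ≤ _ := by linarith

theorem final_calc {x F G L T K P : ℝ} {m : ℕ} (hx : 1 < x) (hF : 0 ≤ F) (hL : 0 < L)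
    (hK : 0 ≤ K) (hT0 : 0 ≤ T) (q1 : x * F ≤ L * T) (q2 : G ≤ L * T + T) (hP : 0 ≤ P)
    (hT : T ≤ 2 * K * (1 + x) * (P * (1 + x) ^ m)) (hc : 4 * (2 * L + 1) * P ≤ 1) :
    (1 + x) * F + G ≤ K * (1 + x) ^ (m + 1) := by
  have h1 : (1 + x) * F ≤ 2 * (x * F) := by nlinarith
  have h2 : 2 * (L * T) + (L * T + T) ≤ 2 * (2 * L + 1) * T := by nlinarith
  have h3 : 0 ≤ K * (1 + x) ^ (m + 1) := by positivity
  calc (1 + x) * F + G ≤ 2 * (L * T) + (L * T + T) := by linarith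
    _ ≤ 2 * (2 * L + 1) * T := h2
    _ ≤ 2 * (2 * L + 1) * (2 * K * (1 + x) * (P * (1 + x) ^ m)) := by gcongr
    _ = (4 * (2 * L + 1) * P) * (K * (1 + x) ^ (m + 1)) := by ring
    _ ≤ 1 * (K * (1 + x) ^ (m + 1)) := by gcongr
    _ = _ := one_mul _

theorem growth {f g : ℂ → ℂ} (hf : Differentiable ℂ f) (hg : Differentiable ℂ g)
    {k₁ k₂ : ℂ} (H : Hyp f g k₁ k₂) :
    ∃ (K : ℝ) (M : ℕ), ∀ z : ℂ, (1 + ‖z‖) * ‖f z‖ + ‖g z‖ ≤ K * (1 + ‖z‖) ^ M := by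
  obtain ⟨C, R, hH⟩ := H.h
  set ρ : ℝ := max ‖k₁‖ ‖k₂‖ with hρdef
  have hρ1 : ρ < 1 := max_lt H.h1 H.h2
  have hρ0 : 0 ≤ ρ := le_max_of_le_left (norm_nonneg _)
  set ρ₁ : ℝ := (1 + ρ) / 2 with hρ₁
  set ρ₂ : ℝ := (1 + ρ₁) / 2 with hρ₂
  set ρ₃ : ℝ := (1 + ρ₂) / 2 with hρ₃
  have a1 : ρ < ρ₁ := by rw [hρ₁]; linarith
  have a1' : ρ₁ < 1 := by rw [hρ₁]; linarith
  have a2 : ρ₁ < ρ₂ := by rw [hρ₂]; linarith
  have a2' : ρ₂ < 1 := by rw [hρ₂]; linarith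
  have a3' : ρ₃ < 1 := by rw [hρ₃]; linarith
  have p1 : 0 < ρ₁ := by linarith
  have p2 : 0 < ρ₂ := by linarith
  have p3 : 0 < ρ₃ := by rw [hρ₃]; linarith
  set L : ℝ := 1 / (ρ₂ - ρ₁) with hL
  have hLpos : 0 < L := by rw [hL]; exact div_pos one_pos (sub_pos.mpr a2)
  set R₁ : ℝ := max (max R 1) (C / (ρ₁ - ρ)) with hR₁
  have hR₁1 : 1 ≤ R₁ := (le_max_right R 1).trans (le_max_left _ _)
  obtain ⟨m, hm⟩ : ∃ m : ℕ, ρ₃ ^ m < 1 / (4 * (2 * L + 1)) :=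
    exists_pow_lt_of_lt_one (by positivity) a3'
  -- bound on the compact ball
  obtain ⟨K, hK⟩ : ∃ K : ℝ, ∀ z : ℂ, ‖z‖ ≤ R₁ → (1 + ‖z‖) * ‖f z‖ + ‖g z‖ ≤ K := by
    have hcont : ContinuousOn (fun z : ℂ => (1 + ‖z‖) * ‖f z‖ + ‖g z‖) (closedBall 0 R₁) := by
      apply Continuous.continuousOn
      have := hf.continuous
      have := hg.continuous
      fun_prop
    obtain ⟨K, hK⟩ := (isCompact_closedBall (0 : ℂ) R₁).bddAbove_image hcont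
    refine ⟨K, fun z hz => hK ⟨z, by simpa using hz, rfl⟩⟩
  have hK0 : 0 ≤ K := by
    have := hK 0 (by simp; linarith)
    have h2 : 0 ≤ (1 + ‖(0 : ℂ)‖) * ‖f 0‖ + ‖g 0‖ := by positivity
    linarith
  refine ⟨K, m + 1, ?_⟩
  have base : ∀ z : ℂ, ‖z‖ ≤ R₁ → (1 + ‖z‖) * ‖f z‖ + ‖g z‖ ≤ K * (1 + ‖z‖) ^ (m + 1) := by
    intro z hz
    refine (hK z hz).trans ?_
    have : 1 ≤ (1 + ‖z‖) ^ (m + 1) := one_le_pow₀ (by linarith [norm_nonneg z])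
    nlinarith
  have ind : ∀ n : ℕ, ∀ z : ℂ, ‖z‖ * ρ₂ ^ n ≤ R₁ →
      (1 + ‖z‖) * ‖f z‖ + ‖g z‖ ≤ K * (1 + ‖z‖) ^ (m + 1) := by
    intro n
    induction n with
    | zero => intro z hz; exact base z (by simpa using hz)
    | succ n ih =>
      intro z hz
      by_cases hzR : ‖z‖ ≤ R₁
      · exact base z hzR
      push Not at hzR
      have hz1 : 1 < ‖z‖ := lt_of_le_of_lt hR₁1 hzR
      have hzpos : 0 < ‖z‖ := by linarith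
      have hsmall : ∀ ζ : ℂ, ‖ζ‖ ≤ ρ₂ * ‖z‖ →
          (1 + ‖ζ‖) * ‖f ζ‖ + ‖g ζ‖ ≤ K * (1 + ‖ζ‖) ^ (m + 1) := by
        intro ζ hζ
        apply ih
        calc ‖ζ‖ * ρ₂ ^ n ≤ (ρ₂ * ‖z‖) * ρ₂ ^ n := by gcongr
          _ = ‖z‖ * ρ₂ ^ (n + 1) := by ring
          _ ≤ R₁ := hz
      have hA : ∀ ζ : ℂ, ‖ζ‖ ≤ ρ₂ * ‖z‖ → ‖f ζ‖ ≤ K * (1 + ρ₂ * ‖z‖) ^ m := by
        intro ζ hζ
        have h1 := hsmall ζ hζ
        have h2 : (1 + ‖ζ‖) * ‖f ζ‖ ≤ (1 + ‖ζ‖) * (K * (1 + ‖ζ‖) ^ m) := by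
          have : K * (1 + ‖ζ‖) ^ (m + 1) = (1 + ‖ζ‖) * (K * (1 + ‖ζ‖) ^ m) := by ring
          rw [← this]
          linarith [norm_nonneg (g ζ)]
        have h3 : ‖f ζ‖ ≤ K * (1 + ‖ζ‖) ^ m :=
          le_of_mul_le_mul_left h2 (by positivity)
        exact h3.trans (by gcongr)
      have hB : ∀ ζ : ℂ, ‖ζ‖ ≤ ρ₂ * ‖z‖ → ‖g ζ‖ ≤ K * (1 + ρ₂ * ‖z‖) ^ (m + 1) := by
        intro ζ hζ
        have h1 := hsmall ζ hζ
        have h2 : ‖g ζ‖ ≤ K * (1 + ‖ζ‖) ^ (m + 1) := by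
          have : 0 ≤ (1 + ‖ζ‖) * ‖f ζ‖ := by positivity
          linarith
        exact h2.trans (by gcongr)
      obtain ⟨s₁, s₂, hne, b1, b2, E1, E2⟩ := hH z
        (((le_max_left R 1).trans (le_max_left _ _)).trans hzR.le)
      have hC : C ≤ (ρ₁ - ρ) * ‖z‖ := by
        have h1 : C / (ρ₁ - ρ) ≤ ‖z‖ := (le_max_right _ _).trans hzR.le
        have h2 : 0 < ρ₁ - ρ := sub_pos.mpr a1
        rw [div_le_iff₀ h2] at h1
        linarith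
      have hs₁ : ‖s₁‖ ≤ ρ₁ * ‖z‖ := by
        calc ‖s₁‖ = ‖(s₁ - k₁ * z) + k₁ * z‖ := by congr 1; ring
          _ ≤ ‖s₁ - k₁ * z‖ + ‖k₁ * z‖ := norm_add_le _ _
          _ ≤ C + ρ * ‖z‖ := by
              rw [norm_mul]
              have : ‖k₁‖ ≤ ρ := le_max_left _ _
              gcongr
          _ ≤ _ := by linarith
      have hs₂ : ‖s₂‖ ≤ ρ₁ * ‖z‖ := by
        calc ‖s₂‖ = ‖(s₂ - k₂ * z) + k₂ * z‖ := by congr 1; ring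
          _ ≤ ‖s₂ - k₂ * z‖ + ‖k₂ * z‖ := norm_add_le _ _
          _ ≤ C + ρ * ‖z‖ := by
              rw [norm_mul]
              have : ‖k₂‖ ≤ ρ := le_max_right _ _
              gcongr
          _ ≤ _ := by linarith
      obtain ⟨q1, q2⟩ := step hf hg a2 a2' hzpos hne hs₁ hs₂ E1 E2 hA hB
      set X : ℝ := 1 + ρ₂ * ‖z‖ with hX
      set T : ℝ := ‖z‖ * (K * X ^ m) + K * X ^ (m + 1) with hT
      have hXpos : 0 < X := by positivity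
      have hXle : X ≤ ρ₃ * (1 + ‖z‖) := by
        rw [hX, hρ₃]
        nlinarith
      have hTle : T ≤ 2 * K * (1 + ‖z‖) * (ρ₃ ^ m * (1 + ‖z‖) ^ m) := by
        have e1 : T = K * X ^ m * (‖z‖ + X) := by rw [hT]; ring
        have e2 : ‖z‖ + X ≤ 2 * (1 + ‖z‖) := by
          rw [hX]; nlinarith
        have e3 : X ^ m ≤ ρ₃ ^ m * (1 + ‖z‖) ^ m := by
          rw [← mul_pow]; gcongr
        rw [e1]
        calc K * X ^ m * (‖z‖ + X) ≤ K * (ρ₃ ^ m * (1 + ‖z‖) ^ m) * (2 * (1 + ‖z‖)) := by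
              gcongr
          _ = _ := by ring
      have hT0 : 0 ≤ T := by rw [hT]; positivity
      have q1' : ‖z‖ * ‖f z‖ ≤ L * T := by
        rw [hL, one_div_mul_eq_div]; exact q1
      have q2' : ‖g z‖ ≤ L * T + T := by
        rw [hL, one_div_mul_eq_div]; exact q2
      have hc : 4 * (2 * L + 1) * ρ₃ ^ m ≤ 1 := by
        rw [lt_div_iff₀ (by positivity)] at hm
        linarith
      exact final_calc hz1 (norm_nonneg _) hLpos hK0 hT0 q1' q2' (by positivity) hTle hc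
  intro z
  have : Tendsto (fun n : ℕ => ‖z‖ * ρ₂ ^ n) atTop (𝓝 (‖z‖ * 0)) :=
    (tendsto_pow_atTop_nhds_zero_of_lt_one p2.le a2').const_mul _
  rw [mul_zero] at this
  obtain ⟨n, hn⟩ := (this.eventually_lt_const (by linarith : (0 : ℝ) < R₁)).exists
  exact ind n z hn.le

theorem poly_of_growth {f : ℂ → ℂ} (hf : Differentiable ℂ f) {K : ℝ} {M : ℕ}
    (h : ∀ z : ℂ, ‖f z‖ ≤ K * (1 + ‖z‖) ^ M) : ∃ p : Polynomial ℂ, ∀ z, f z = p.eval z := by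
  have hK0 : 0 ≤ K := by
    have := h 0
    simp at this
    exact (norm_nonneg _).trans this
  have hzero : ∀ n, M < n → iteratedDeriv n f 0 = 0 := by
    intro n hn
    have hb : ∀ R : ℝ, 1 ≤ R → ‖iteratedDeriv n f 0‖ ≤ n.factorial * (K * 2 ^ M) * R⁻¹ := by
      intro R hR
      have hRp : 0 < R := by linarith
      have h1 := Complex.norm_iteratedDeriv_le_of_forall_mem_sphere_norm_le (c := 0) (R := R)
        (C := K * (2 * R) ^ M) n hRp hf.diffContOnCl (fun z hz => by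
          have hz' : ‖z‖ = R := by simpa using hz
          refine (h z).trans ?_
          rw [hz']
          gcongr
          linarith)
      refine h1.trans ?_
      obtain ⟨j, rfl⟩ : ∃ j, n = M + 1 + j := ⟨n - (M + 1), by omega⟩
      rw [mul_pow, pow_add, pow_add, pow_one]
      rw [div_le_iff₀ (by positivity)]
      have hj : 1 ≤ R ^ j := one_le_pow₀ hR
      have e : ((M + 1 + j).factorial : ℝ) * (K * 2 ^ M) * R⁻¹ * (R ^ M * R * R ^ j) =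
          ((M + 1 + j).factorial : ℝ) * (K * (2 ^ M * R ^ M)) * R ^ j := by
        field_simp
      rw [e]
      have : 0 ≤ ((M + 1 + j).factorial : ℝ) * (K * (2 ^ M * R ^ M)) := by positivity
      nlinarith
    have hlim : Tendsto (fun R : ℝ => n.factorial * (K * 2 ^ M) * R⁻¹) atTop (𝓝 0) := by
      have := (tendsto_inv_atTop_zero (𝕜 := ℝ)).const_mul ((n.factorial : ℝ) * (K * 2 ^ M))
      simpa using this
    have hle : ‖iteratedDeriv n f 0‖ ≤ 0 :=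
      ge_of_tendsto hlim ((eventually_ge_atTop 1).mono fun R hR => hb R hR)
    exact norm_le_zero_iff.mp hle
  refine ⟨∑ n ∈ range (M + 1), Polynomial.C ((n.factorial : ℂ)⁻¹ * iteratedDeriv n f 0) *
    Polynomial.X ^ n, fun z => ?_⟩
  rw [← Complex.taylorSeries_eq_of_entire' 0 z hf, Polynomial.eval_finsetSum]
  rw [tsum_eq_sum (s := range (M + 1))]
  · apply Finset.sum_congr rfl
    intro n _
    simp
  · intro n hn
    have : M < n := by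
      by_contra hcon
      exact hn (by simp; omega)
    rw [hzero n this]; simp

theorem polys {f g : ℂ → ℂ} (hf : Differentiable ℂ f) (hg : Differentiable ℂ g)
    {k₁ k₂ : ℂ} (H : Hyp f g k₁ k₂) :
    ∃ p q : Polynomial ℂ, (∀ z, f z = p.eval z) ∧ (∀ z, g z = q.eval z) := by
  obtain ⟨K, M, h⟩ := growth hf hg H
  obtain ⟨p, hp⟩ := poly_of_growth hf (K := K) (M := M) (fun z => by
    have := h z
    have h2 : ‖f z‖ ≤ (1 + ‖z‖) * ‖f z‖ := by nlinarith [norm_nonneg z, norm_nonneg (f z)]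
    linarith [norm_nonneg (g z)])
  obtain ⟨q, hq⟩ := poly_of_growth hg (K := K) (M := M) (fun z => by
    have := h z
    have h2 : 0 ≤ (1 + ‖z‖) * ‖f z‖ := by positivity
    linarith)
  exact ⟨p, q, hp, hq⟩

end Pool.Agent.V1176.Bi
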