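import Pool.Agent.V1176.BiAlg
import Pool.Agent.V1176.BiGrowth

/-! Leading coefficients in the two-ellipse problem. -/

namespace Pool.Agent.V1176.Bi

open Complex Finset ComplexConjugate Metric Filter Topology

theorem ratio_tendsto {s : ℕ → ℂ} {k : ℂ} {C : ℝ}
    (h : ∀ᶠ n : ℕ in atTop, ‖s n - k * n‖ ≤ C) :
    Tendsto (fun n : ℕ => s n / n) atTop (𝓝 k) := by
  rw [tendsto_iff_norm_sub_tendsto_zero]
  have h0 : Tendsto (fun n : ℕ => C / (n : ℝ)) atTop (𝓝 0) :=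
    tendsto_const_div_atTop_nhds_zero_nat C
  refine squeeze_zero' (Eventually.of_forall fun n => norm_nonneg _) ?_ h0
  filter_upwards [h, eventually_ge_atTop 1] with n hn h1
  have hn0 : (n : ℂ) ≠ 0 := by exact_mod_cast (by omega : n ≠ 0)
  have : s n / n - k = (s n - k * n) / n := by field_simp
  rw [this, norm_div, Complex.norm_natCast]
  gcongr

theorem self_tendsto : Tendsto (fun n : ℕ => (n : ℂ) / n) atTop (𝓝 1) := by
  apply tendsto_const_nhds.congr'
  filter_upwards [eventually_ge_atTop 1] with n h1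
  have hn0 : (n : ℂ) ≠ 0 := by exact_mod_cast (by omega : n ≠ 0)
  field_simp

theorem inv_tendsto : Tendsto (fun n : ℕ => ((n : ℂ))⁻¹) atTop (𝓝 0) := by
  rw [tendsto_zero_iff_norm_tendsto_zero]
  simp only [norm_inv, Complex.norm_natCast]
  exact tendsto_inv_atTop_zero.comp tendsto_natCast_atTop_atTop

theorem mono2_tendsto {s₁ s₂ : ℕ → ℂ} {k₁ k₂ : ℂ}
    (h1 : Tendsto (fun n : ℕ => s₁ n / n) atTop (𝓝 k₁))
    (h2 : Tendsto (fun n : ℕ => s₂ n / n) atTop (𝓝 k₂)) {i j m : ℕ} (him : i + j ≤ m) :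
    Tendsto (fun n : ℕ => s₁ n ^ i * s₂ n ^ j / (n : ℂ) ^ m) atTop
      (𝓝 (if i + j = m then k₁ ^ i * k₂ ^ j else 0)) := by
  have key : Tendsto (fun n : ℕ => (s₁ n / n) ^ i * (s₂ n / n) ^ j * ((n : ℂ)⁻¹) ^ (m - (i + j)))
      atTop (𝓝 (k₁ ^ i * k₂ ^ j * 0 ^ (m - (i + j)))) :=
    ((h1.pow i).mul (h2.pow j)).mul (inv_tendsto.pow _)
  have hval : k₁ ^ i * k₂ ^ j * 0 ^ (m - (i + j)) =
      (if i + j = m then k₁ ^ i * k₂ ^ j else 0) := by
    split_ifs with h
    · rw [h]; simp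
    · have : m - (i + j) ≠ 0 := by omega
      rw [zero_pow this, mul_zero]
  rw [hval] at key
  apply key.congr'
  filter_upwards [eventually_ge_atTop 1] with n h1
  have hn0 : (n : ℂ) ≠ 0 := by exact_mod_cast (by omega : n ≠ 0)
  obtain ⟨l, rfl⟩ : ∃ l, m = i + j + l := ⟨m - (i + j), by omega⟩
  rw [Nat.add_sub_cancel_left, div_pow, div_pow, inv_pow, pow_add, pow_add]
  field_simp

theorem poly_tendsto {p : Polynomial ℂ} {m : ℕ} (hp : p.natDegree ≤ m) {s : ℕ → ℂ} {k : ℂ}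
    (hs : Tendsto (fun n : ℕ => s n / n) atTop (𝓝 k)) :
    Tendsto (fun n : ℕ => p.eval (s n) / (n : ℂ) ^ m) atTop (𝓝 (p.coeff m * k ^ m)) := by
  have h1 : (fun n : ℕ => p.eval (s n) / (n : ℂ) ^ m) = fun n : ℕ =>
      ∑ i ∈ range (m + 1), p.coeff i * (s n ^ i * s n ^ 0 / (n : ℂ) ^ m) := by
    funext n
    rw [Polynomial.eval_eq_sum_range' (Nat.lt_succ_of_le hp), Finset.sum_div]
    apply Finset.sum_congr rfl
    intro i _
    rw [pow_zero]; ring
  rw [h1]
  have h2 : Tendsto (fun n : ℕ => ∑ i ∈ range (m + 1), p.coeff i * (s n ^ i * s n ^ 0 / (n : ℂ) ^ m))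
      atTop (𝓝 (∑ i ∈ range (m + 1), p.coeff i * (if i + 0 = m then k ^ i * k ^ 0 else 0))) := by
    apply tendsto_finsetSum
    intro i hi
    exact (mono2_tendsto hs hs (by have := Finset.mem_range.mp hi; omega)).const_mul _
  convert h2 using 2
  rw [Finset.sum_eq_single m]
  · simp
  · intro b _ hb
    simp [hb]
  · intro h; simp at h

/-- divided difference of a polynomial. -/
noncomputable def dd (p : Polynomial ℂ) (m : ℕ) (x y : ℂ) : ℂ :=
  ∑ i ∈ range (m + 1), p.coeff i * ∑ j ∈ range i, x ^ j * y ^ (i - 1 - j)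

theorem dd_mul {p : Polynomial ℂ} {m : ℕ} (hp : p.natDegree ≤ m) (x y : ℂ) :
    dd p m x y * (x - y) = p.eval x - p.eval y := by
  rw [Polynomial.eval_eq_sum_range' (Nat.lt_succ_of_le hp),
    Polynomial.eval_eq_sum_range' (Nat.lt_succ_of_le hp), ← Finset.sum_sub_distrib, dd,
    Finset.sum_mul]
  apply Finset.sum_congr rfl
  intro i _
  rw [mul_assoc, (Commute.all x y).geom_sum₂_mul]
  ring

theorem dd_tendsto {p : Polynomial ℂ} {m : ℕ} {s₁ s₂ : ℕ → ℂ} {k₁ k₂ : ℂ}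
    (h1 : Tendsto (fun n : ℕ => s₁ n / n) atTop (𝓝 k₁))
    (h2 : Tendsto (fun n : ℕ => s₂ n / n) atTop (𝓝 k₂)) :
    Tendsto (fun n : ℕ => dd p (m + 1) (s₁ n) (s₂ n) / (n : ℂ) ^ m) atTop
      (𝓝 (p.coeff (m + 1) * ∑ j ∈ range (m + 1), k₁ ^ j * k₂ ^ (m - j))) := by
  have e1 : (fun n : ℕ => dd p (m + 1) (s₁ n) (s₂ n) / (n : ℂ) ^ m) = fun n : ℕ =>
      ∑ i ∈ range (m + 1 + 1), p.coeff i * ∑ j ∈ range i, (s₁ n ^ j * s₂ n ^ (i - 1 - j) /
        (n : ℂ) ^ m) := by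
    funext n
    rw [dd, Finset.sum_div]
    apply Finset.sum_congr rfl
    intro i _
    rw [← Finset.sum_div]; ring
  rw [e1]
  have e2 : Tendsto (fun n : ℕ => ∑ i ∈ range (m + 1 + 1), p.coeff i * ∑ j ∈ range i,
      (s₁ n ^ j * s₂ n ^ (i - 1 - j) / (n : ℂ) ^ m)) atTop
      (𝓝 (∑ i ∈ range (m + 1 + 1), p.coeff i * ∑ j ∈ range i,
        (if j + (i - 1 - j) = m then k₁ ^ j * k₂ ^ (i - 1 - j) else 0))) := by
    apply tendsto_finsetSum
    intro i hi
    apply Tendsto.const_mul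
    apply tendsto_finsetSum
    intro j hj
    have hi' := Finset.mem_range.mp hi
    have hj' := Finset.mem_range.mp hj
    exact mono2_tendsto h1 h2 (by omega)
  convert e2 using 2
  symm
  refine (Finset.sum_eq_single (m + 1) ?_ ?_).trans ?_
  · intro b hb hbm
    have hb' := Finset.mem_range.mp hb
    rw [Finset.sum_eq_zero, mul_zero]
    intro j hj
    have hj' := Finset.mem_range.mp hj
    rw [if_neg (by omega)]
  · intro h; simp at h
  · congr 1
    apply Finset.sum_congr rfl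
    intro j hj
    have hj' := Finset.mem_range.mp hj
    rw [if_pos (by omega)]
    rfl

theorem conj_eval (p : Polynomial ℂ) (s : ℂ) :
    conj (p.eval (conj s)) = (p.map (starRingEnd ℂ)).eval s := by
  rw [Polynomial.eval_map]
  conv_rhs => rw [← Complex.conj_conj s]
  rw [Polynomial.eval₂_at_apply]

theorem top_coeff {p q : Polynomial ℂ} {k₁ k₂ : ℂ}
    (H : Hyp (fun z => p.eval z) (fun z => q.eval z) k₁ k₂) {n : ℕ} (hn : 1 ≤ n)
    (hp : p.natDegree ≤ n) (hq : q.natDegree ≤ n + 1) :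
    (q.coeff (n + 1) + p.coeff n * k₁ + conj (p.coeff n) * k₁ ^ n +
      conj (q.coeff (n + 1)) * k₁ ^ (n + 1) = 0) ∧
    (q.coeff (n + 1) + p.coeff n * k₂ + conj (p.coeff n) * k₂ ^ n +
      conj (q.coeff (n + 1)) * k₂ ^ (n + 1) = 0) ∧
    (p.coeff n + conj (p.coeff n) * (∑ i ∈ range n, k₁ ^ i * k₂ ^ (n - 1 - i)) +
      conj (q.coeff (n + 1)) * (∑ i ∈ range (n + 1), k₁ ^ i * k₂ ^ (n - i)) = 0) := by
  obtain ⟨C, R, hH⟩ := H.h
  have hex : ∀ t : ℕ, ∃ s₁ s₂ : ℂ, R ≤ ‖(t : ℂ)‖ → (s₁ ≠ s₂ ∧ ‖s₁ - k₁ * t‖ ≤ C ∧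
    ‖s₂ - k₂ * t‖ ≤ C ∧ E (fun z => p.eval z) (fun z => q.eval z) t s₁ = 0 ∧
    E (fun z => p.eval z) (fun z => q.eval z) t s₂ = 0) := by
    intro t
    by_cases ht : R ≤ ‖(t : ℂ)‖
    · obtain ⟨s₁, s₂, h⟩ := hH t ht
      exact ⟨s₁, s₂, fun _ => h⟩
    · exact ⟨0, 0, fun h => absurd h ht⟩
  choose s₁ s₂ hs using hex
  have hlarge : ∀ᶠ t : ℕ in atTop, R ≤ ‖(t : ℂ)‖ := by
    simp only [Complex.norm_natCast]
    exact tendsto_natCast_atTop_atTop.eventually_ge_atTop R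
  have r1 : Tendsto (fun t : ℕ => s₁ t / t) atTop (𝓝 k₁) :=
    ratio_tendsto (hlarge.mono fun t ht => (hs t ht).2.1)
  have r2 : Tendsto (fun t : ℕ => s₂ t / t) atTop (𝓝 k₂) :=
    ratio_tendsto (hlarge.mono fun t ht => (hs t ht).2.2.1)
  set p' := p.map (starRingEnd ℂ) with hp'
  set q' := q.map (starRingEnd ℂ) with hq'
  have hp'd : p'.natDegree ≤ n := (Polynomial.natDegree_map_le).trans hp
  have hq'd : q'.natDegree ≤ n + 1 := (Polynomial.natDegree_map_le).trans hq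
  have cp : p'.coeff n = conj (p.coeff n) := Polynomial.coeff_map _ _
  have cq : q'.coeff (n + 1) = conj (q.coeff (n + 1)) := Polynomial.coeff_map _ _
  have hE : ∀ (t s : ℂ), E (fun z => p.eval z) (fun z => q.eval z) t s =
      s * p.eval t + t * p'.eval s + q.eval t + q'.eval s := by
    intro t s
    unfold E
    rw [conj_eval, conj_eval]
  have gen : ∀ (s : ℕ → ℂ) (k : ℂ), Tendsto (fun t : ℕ => s t / t) atTop (𝓝 k) →
      (∀ᶠ t : ℕ in atTop, E (fun z => p.eval z) (fun z => q.eval z) t (s t) = 0) →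
      q.coeff (n + 1) + p.coeff n * k + conj (p.coeff n) * k ^ n +
        conj (q.coeff (n + 1)) * k ^ (n + 1) = 0 := by
    intro s k hr hz
    have hlim : Tendsto (fun t : ℕ => (s t / t) * (p.eval (t : ℂ) / (t : ℂ) ^ n) +
        p'.eval (s t) / (t : ℂ) ^ n + q.eval (t : ℂ) / (t : ℂ) ^ (n + 1) +
        q'.eval (s t) / (t : ℂ) ^ (n + 1)) atTop
        (𝓝 (k * (p.coeff n * 1 ^ n) + p'.coeff n * k ^ n + q.coeff (n + 1) * 1 ^ (n + 1) +
          q'.coeff (n + 1) * k ^ (n + 1))) :=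
      (((hr.mul (poly_tendsto hp self_tendsto)).add (poly_tendsto hp'd hr)).add
        (poly_tendsto hq self_tendsto)).add (poly_tendsto hq'd hr)
    have hzero : Tendsto (fun t : ℕ => (s t / t) * (p.eval (t : ℂ) / (t : ℂ) ^ n) +
        p'.eval (s t) / (t : ℂ) ^ n + q.eval (t : ℂ) / (t : ℂ) ^ (n + 1) +
        q'.eval (s t) / (t : ℂ) ^ (n + 1)) atTop (𝓝 0) := by
      apply tendsto_const_nhds.congr'
      filter_upwards [hz, eventually_ge_atTop 1] with t ht h1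
      have hn0 : (t : ℂ) ≠ 0 := by exact_mod_cast (by omega : t ≠ 0)
      rw [hE] at ht
      symm
      calc _ = (s t * p.eval (t : ℂ) + t * p'.eval (s t) + q.eval (t : ℂ) + q'.eval (s t)) /
            (t : ℂ) ^ (n + 1) := by
            field_simp
            ring
        _ = 0 := by rw [ht, zero_div]
    have := tendsto_nhds_unique hlim hzero
    rw [cp, cq] at this
    simp only [one_pow, mul_one] at this
    linear_combination this
  refine ⟨gen s₁ k₁ r1 (hlarge.mono fun t ht => (hs t ht).2.2.2.1),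
    gen s₂ k₂ r2 (hlarge.mono fun t ht => (hs t ht).2.2.2.2), ?_⟩
  obtain ⟨m, rfl⟩ : ∃ m, n = m + 1 := ⟨n - 1, by omega⟩
  have hlim : Tendsto (fun t : ℕ => p.eval (t : ℂ) / (t : ℂ) ^ (m + 1) +
      dd p' (m + 1) (s₁ t) (s₂ t) / (t : ℂ) ^ m +
      dd q' (m + 1 + 1) (s₁ t) (s₂ t) / (t : ℂ) ^ (m + 1)) atTop
      (𝓝 (p.coeff (m + 1) * 1 ^ (m + 1) +
        p'.coeff (m + 1) * (∑ j ∈ range (m + 1), k₁ ^ j * k₂ ^ (m - j)) +
        q'.coeff (m + 1 + 1) * ∑ j ∈ range (m + 1 + 1), k₁ ^ j * k₂ ^ (m + 1 - j))) :=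
    ((poly_tendsto hp self_tendsto).add (dd_tendsto r1 r2)).add (dd_tendsto r1 r2)
  have hzero : Tendsto (fun t : ℕ => p.eval (t : ℂ) / (t : ℂ) ^ (m + 1) +
      dd p' (m + 1) (s₁ t) (s₂ t) / (t : ℂ) ^ m +
      dd q' (m + 1 + 1) (s₁ t) (s₂ t) / (t : ℂ) ^ (m + 1)) atTop (𝓝 0) := by
    apply tendsto_const_nhds.congr'
    filter_upwards [hlarge, eventually_ge_atTop 1] with t ht h1
    have hn0 : (t : ℂ) ≠ 0 := by exact_mod_cast (by omega : t ≠ 0)
    obtain ⟨hne, -, -, E1, E2⟩ := hs t ht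
    rw [hE] at E1 E2
    have d1 := dd_mul hp'd (s₁ t) (s₂ t)
    have d2 := dd_mul hq'd (s₁ t) (s₂ t)
    have hb : (s₁ t - s₂ t) * (p.eval (t : ℂ) + t * dd p' (m + 1) (s₁ t) (s₂ t) +
        dd q' (m + 1 + 1) (s₁ t) (s₂ t)) = 0 := by
      linear_combination E1 - E2 + t * d1 + d2
    have hb' := (mul_eq_zero.mp hb).resolve_left (sub_ne_zero.mpr hne)
    symm
    calc _ = (p.eval (t : ℂ) + t * dd p' (m + 1) (s₁ t) (s₂ t) +
        dd q' (m + 1 + 1) (s₁ t) (s₂ t)) / (t : ℂ) ^ (m + 1) := by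
          field_simp
          ring
      _ = 0 := by rw [hb', zero_div]
  have := tendsto_nhds_unique hlim hzero
  rw [cp, cq] at this
  simp only [one_pow, mul_one] at this
  exact this

theorem reduce {p q : Polynomial ℂ} {k₁ k₂ : ℂ}
    (H : Hyp (fun z => p.eval z) (fun z => q.eval z) k₁ k₂) :
    p.natDegree ≤ 1 ∧ q.natDegree ≤ 1 ∧ p.coeff 1 + conj (p.coeff 1) = 0 := by
  have key : ∀ n : ℕ, p.natDegree ≤ n + 1 → q.natDegree ≤ n + 2 →
      p.natDegree ≤ 1 ∧ q.natDegree ≤ 2 := by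
    intro n
    induction n with
    | zero => intro h1 h2; exact ⟨h1, h2⟩
    | succ n ih =>
      intro h1 h2
      obtain ⟨e1, e2, e3⟩ := top_coeff H (n := n + 1 + 1) (by omega) h1 h2
      obtain ⟨ha, hb⟩ := alg_main (by omega) H.h1 H.h2 e1 e2 e3
      apply ih
      · by_contra hcon
        have hd : p.natDegree = n + 1 + 1 := by omega
        have hne : p ≠ 0 := by
          intro h0; rw [h0] at hd; simp at hd
        have := Polynomial.leadingCoeff_ne_zero.mpr hne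
        rw [Polynomial.leadingCoeff, hd] at this
        exact this hb
      · by_contra hcon
        have hd : q.natDegree = n + 1 + 1 + 1 := by omega
        have hne : q ≠ 0 := by
          intro h0; rw [h0] at hd; simp at hd
        have := Polynomial.leadingCoeff_ne_zero.mpr hne
        rw [Polynomial.leadingCoeff, hd] at this
        exact this ha
  obtain ⟨h1, h2⟩ := key (p.natDegree + q.natDegree) (by omega) (by omega)
  obtain ⟨e1, e2, e3⟩ := top_coeff H (n := 1) le_rfl h1 h2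
  obtain ⟨ha, hb⟩ := alg_one H.h1 H.h2 e1 e3
  refine ⟨h1, ?_, hb⟩
  by_contra hcon
  have hd : q.natDegree = 2 := by omega
  have hne : q ≠ 0 := by
    intro h0; rw [h0] at hd; simp at hd
  have := Polynomial.leadingCoeff_ne_zero.mpr hne
  rw [Polynomial.leadingCoeff, hd] at this
  exact this ha

/-- under the two-branch hypothesis the biharmonic function is affine. -/
theorem affine_of_hyp {f g : ℂ → ℂ} (hf : Differentiable ℂ f) (hg : Differentiable ℂ g)
    {k₁ k₂ : ℂ} (H : Hyp f g k₁ k₂) :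
    ∃ (γ : ℂ) (δ : ℝ), ∀ z : ℂ, (conj z * f z + g z).re = (γ * z).re + δ := by
  obtain ⟨p, q, hp, hq⟩ := polys hf hg H
  have hf' : f = fun z => p.eval z := funext hp
  have hg' : g = fun z => q.eval z := funext hq
  subst hf' hg'
  obtain ⟨h1, h2, h3⟩ := reduce H
  refine ⟨conj (p.coeff 0) + q.coeff 1, (q.coeff 0).re, fun z => ?_⟩
  have ep : p.eval z = p.coeff 0 + p.coeff 1 * z := by
    rw [Polynomial.eval_eq_sum_range' (Nat.lt_succ_of_le h1)]
    simp [Finset.sum_range_succ]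
  have eq : q.eval z = q.coeff 0 + q.coeff 1 * z := by
    rw [Polynomial.eval_eq_sum_range' (Nat.lt_succ_of_le h2)]
    simp [Finset.sum_range_succ]
  have hre : (p.coeff 1).re = 0 := by
    have := congrArg Complex.re h3
    simp at this
    linarith
  simp only [ep, eq]
  simp only [Complex.add_re, Complex.mul_re, Complex.conj_re, Complex.conj_im, Complex.add_im,
    Complex.mul_im, hre]
  ring

end Pool.Agent.V1176.Bi
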