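import Pool.Agent.V1176.PLKh2
import Pool.Agent.H10R2.PL.SWA

/-!
Almost surely there are good cut-offs.
-/

namespace V1176PL

open MeasureTheory Matrix H10PL Set Filter Topology

variable {d : ℕ} {T0 : (Fin d → ℤ) → (Fin d → ℤ) → ℝ} {κ : (Fin d → ℤ) → ℝ} {ρ0 b : ℝ}

/-- cut-off function -/
noncomputable def cz (R : ℕ) (y : Fin d → ℤ) : ℝ := min 1 (max 0 (2 - ‖y‖ / R))

/-- box -/
noncomputable def bx (d R : ℕ) : Finset (Fin d → ℤ) :=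
  Fintype.piFinset fun _ => Finset.Icc (-(2 * R : ℤ)) (2 * R)

theorem mem_bx {R : ℕ} {y : Fin d → ℤ} : y ∈ bx d R ↔ ‖y‖ ≤ 2 * R := by
  unfold bx
  rw [Fintype.mem_piFinset, pi_norm_le_iff_of_nonneg (by positivity)]
  refine forall_congr' fun i => ?_
  rw [Finset.mem_Icc, Int.norm_eq_abs, abs_le]
  constructor
  · rintro ⟨h1, h2⟩
    exact ⟨by exact_mod_cast h1, by exact_mod_cast h2⟩
  · rintro ⟨h1, h2⟩
    exact ⟨by exact_mod_cast h1, by exact_mod_cast h2⟩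

theorem card_bx (R : ℕ) : (bx d R).card = (4 * R + 1) ^ d := by
  unfold bx
  rw [Fintype.card_piFinset]
  simp only [Int.card_Icc, Finset.prod_const, Finset.card_univ, Fintype.card_fin]
  congr 1
  omega

theorem cz_nonneg (R : ℕ) (y : Fin d → ℤ) : 0 ≤ cz R y := le_min zero_le_one (le_max_left _ _)

theorem cz_le (R : ℕ) (y : Fin d → ℤ) : cz R y ≤ 1 := min_le_left _ _

theorem cz_out {R : ℕ} (hR : 0 < R) {y : Fin d → ℤ} (hy : y ∉ bx d R) : cz R y = 0 := by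
  rw [mem_bx, not_le] at hy
  have hR' : (0 : ℝ) < R := by exact_mod_cast hR
  have h1 : 2 < ‖y‖ / R := by rwa [lt_div_iff₀ hR']
  unfold cz
  rw [max_eq_left (by linarith), min_eq_right zero_le_one]

theorem cz_in {R : ℕ} (hR : 0 < R) {y : Fin d → ℤ} (hy : ‖y‖ ≤ R) : cz R y = 1 := by
  have hR' : (0 : ℝ) < R := by exact_mod_cast hR
  have h1 : ‖y‖ / R ≤ 1 := by rwa [div_le_one hR']
  unfold cz
  rw [min_eq_left]
  exact le_max_of_le_right (by linarith)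

theorem cz_lip {R : ℕ} (hR : 0 < R) (y w : Fin d → ℤ) : |cz R y - cz R w| ≤ ‖y - w‖ / R := by
  have hR' : (0 : ℝ) < R := by exact_mod_cast hR
  unfold cz
  have h1 : |min 1 (max 0 (2 - ‖y‖ / R)) - min 1 (max 0 (2 - ‖w‖ / R))| ≤
      |max 0 (2 - ‖y‖ / R) - max 0 (2 - ‖w‖ / R)| := by
    have := abs_min_sub_min_le_max (1 : ℝ) (max 0 (2 - ‖y‖ / R)) 1 (max 0 (2 - ‖w‖ / R))
    simpa using this
  have h2 : |max 0 (2 - ‖y‖ / R) - max 0 (2 - ‖w‖ / R)| ≤ |(2 - ‖y‖ / R) - (2 - ‖w‖ / R)| := by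
    have := abs_max_sub_max_le_max (0 : ℝ) (2 - ‖y‖ / R) 0 (2 - ‖w‖ / R)
    simpa using this
  refine (h1.trans h2).trans ?_
  have e : (2 - ‖y‖ / R) - (2 - ‖w‖ / R) = (‖w‖ - ‖y‖) / R := by ring
  rw [e, abs_div, abs_of_pos hR']
  apply div_le_div_of_nonneg_right _ hR'.le
  rw [abs_sub_comm]
  exact abs_norm_sub_norm_le y w

theorem cz_one (R : ℕ) (y w : Fin d → ℤ) : |cz R y - cz R w| ≤ 1 := by
  rw [abs_le]
  have := cz_nonneg R y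
  have := cz_nonneg R w
  have := cz_le R y
  have := cz_le R w
  constructor <;> linarith

/-- weights -/
noncomputable def aw (κ : (Fin d → ℤ) → ℝ) (R : ℕ) (y w : Fin d → ℤ) : ℝ :=
  (cz R y - cz R w) * κ (y - w)

theorem aw_anti (hκ : ∀ y, κ (-y) = κ y) (R : ℕ) (y w : Fin d → ℤ) :
    aw κ R w y = -aw κ R y w := by
  unfold aw
  rw [← hκ (y - w), neg_sub]
  ring

theorem cz_rpow {R : ℕ} (hR : 0 < R) {θ : ℝ} (hθ : 0 < θ) (hθ2 : θ ≤ 2) (y w : Fin d → ℤ) :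
    (cz R y - cz R w) ^ 2 ≤ ‖y - w‖ ^ θ * (R : ℝ) ^ (-θ) := by
  have hR' : (0 : ℝ) < R := by exact_mod_cast hR
  have h0 : 0 ≤ ‖y - w‖ / R := by positivity
  have e : ‖y - w‖ ^ θ * (R : ℝ) ^ (-θ) = (‖y - w‖ / R) ^ θ := by
    rw [Real.div_rpow (norm_nonneg _) hR'.le, Real.rpow_neg hR'.le, div_eq_mul_inv]
  rw [e, ← sq_abs]
  by_cases h1 : ‖y - w‖ / R ≤ 1
  · calc |cz R y - cz R w| ^ 2 ≤ (‖y - w‖ / R) ^ 2 :=
          pow_le_pow_left₀ (abs_nonneg _) (cz_lip hR y w) 2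
      _ = (‖y - w‖ / R) ^ (2 : ℝ) := by norm_cast
      _ ≤ (‖y - w‖ / R) ^ θ := Real.rpow_le_rpow_of_exponent_ge_of_imp h0 h1 hθ2 (by
          intro _ h
          linarith)
  · calc |cz R y - cz R w| ^ 2 ≤ 1 ^ 2 := pow_le_pow_left₀ (abs_nonneg _) (cz_one R y w) 2
      _ = 1 := one_pow 2
      _ ≤ (‖y - w‖ / R) ^ θ := Real.one_le_rpow (not_le.1 h1).le hθ.le

theorem row_le {θ : ℝ} (hθ : 0 < θ) (hθ2 : θ ≤ 2)
    (hs : Summable fun z : Fin d → ℤ => ‖z‖ ^ θ * κ z ^ 2) {R : ℕ} (hR : 0 < R)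
    (Λ : Finset (Fin d → ℤ)) (y : Fin d → ℤ) :
    ∑ w ∈ Λ, aw κ R y w ^ 2 ≤ (∑' z, ‖z‖ ^ θ * κ z ^ 2) * (R : ℝ) ^ (-θ) := by
  have h1 : ∀ w ∈ Λ, aw κ R y w ^ 2 ≤ (‖y - w‖ ^ θ * κ (y - w) ^ 2) * (R : ℝ) ^ (-θ) := by
    intro w _
    unfold aw
    rw [mul_pow]
    have := mul_le_mul_of_nonneg_right (cz_rpow hR hθ hθ2 y w) (sq_nonneg (κ (y - w)))
    refine this.trans (le_of_eq ?_)
    ring
  refine (Finset.sum_le_sum h1).trans ?_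
  rw [← Finset.sum_mul]
  refine mul_le_mul_of_nonneg_right ?_ (by positivity)
  classical
  have hinj : Set.InjOn (fun w => y - w) (Λ : Set (Fin d → ℤ)) := by
    intro a _ c _ hac
    simpa using hac
  rw [← Finset.sum_image (f := fun z => ‖z‖ ^ θ * κ z ^ 2) hinj]
  exact hs.sum_le_tsum _ (fun z _ => by positivity)

theorem tot_le (hκ : ∀ y, κ (-y) = κ y) {θ : ℝ} (hθ : 0 < θ) (hθ2 : θ ≤ 2)
    (hs : Summable fun z : Fin d → ℤ => ‖z‖ ^ θ * κ z ^ 2) {R : ℕ} (hR : 0 < R)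
    (Λ : Finset (Fin d → ℤ)) :
    ∑ y ∈ Λ, ∑ w ∈ Λ, aw κ R y w ^ 2 ≤
      2 * (4 * R + 1) ^ d * ((∑' z, ‖z‖ ^ θ * κ z ^ 2) * (R : ℝ) ^ (-θ)) := by
  classical
  set r := (∑' z, ‖z‖ ^ θ * κ z ^ 2) * (R : ℝ) ^ (-θ) with hr
  have hr0 : 0 ≤ r := mul_nonneg (tsum_nonneg fun z => by positivity) (by positivity)
  have h1 : ∀ y w, aw κ R y w ^ 2 ≤ (if y ∈ bx d R then aw κ R y w ^ 2 else 0) +
      (if w ∈ bx d R then aw κ R y w ^ 2 else 0) := by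
    intro y w
    have := sq_nonneg (aw κ R y w)
    by_cases hy : y ∈ bx d R
    · rw [if_pos hy]
      split_ifs <;> linarith
    · by_cases hw : w ∈ bx d R
      · rw [if_neg hy, if_pos hw]
        linarith
      · have : aw κ R y w = 0 := by
          unfold aw
          rw [cz_out hR hy, cz_out hR hw, sub_zero, zero_mul]
        rw [this]
        simp
  have h2 : ∀ G : (Fin d → ℤ) → ℝ, (∀ y, G y ≤ r) →
      ∑ y ∈ Λ, (if y ∈ bx d R then G y else 0) ≤ (4 * R + 1) ^ d * r := by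
    intro G hG
    rw [← Finset.sum_filter]
    refine (Finset.sum_le_card_nsmul _ _ r (fun y _ => hG y)).trans ?_
    rw [nsmul_eq_mul]
    refine mul_le_mul_of_nonneg_right ?_ hr0
    have h3 : (Λ.filter (· ∈ bx d R)).card ≤ (bx d R).card :=
      Finset.card_le_card (fun y hy => (Finset.mem_filter.1 hy).2)
    rw [card_bx] at h3
    exact_mod_cast h3
  calc ∑ y ∈ Λ, ∑ w ∈ Λ, aw κ R y w ^ 2
      ≤ ∑ y ∈ Λ, ∑ w ∈ Λ, ((if y ∈ bx d R then aw κ R y w ^ 2 else 0) +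
        (if w ∈ bx d R then aw κ R y w ^ 2 else 0)) :=
        Finset.sum_le_sum fun y _ => Finset.sum_le_sum fun w _ => h1 y w
    _ = ∑ y ∈ Λ, (if y ∈ bx d R then ∑ w ∈ Λ, aw κ R y w ^ 2 else 0) +
        ∑ w ∈ Λ, (if w ∈ bx d R then ∑ y ∈ Λ, aw κ R y w ^ 2 else 0) := by
        simp_rw [Finset.sum_add_distrib]
        congr 1
        · refine Finset.sum_congr rfl fun y _ => ?_
          split_ifs
          · rfl
          · simp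
        · rw [Finset.sum_comm]
          refine Finset.sum_congr rfl fun y _ => ?_
          split_ifs
          · rfl
          · simp
    _ ≤ (4 * R + 1) ^ d * r + (4 * R + 1) ^ d * r := by
        refine add_le_add (h2 _ fun y => row_le hθ hθ2 hs hR Λ y) (h2 _ fun w => ?_)
        refine le_trans (le_of_eq ?_) (row_le hθ hθ2 hs hR Λ w)
        refine Finset.sum_congr rfl fun y _ => ?_
        rw [aw_anti hκ R w y, neg_sq]
    _ = 2 * (4 * R + 1) ^ d * r := by ring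

/-- the bad event of a box -/
def Bd (κ : (Fin d → ℤ) → ℝ) (R : ℕ) (ε : ℝ) (Λ : Finset (Fin d → ℤ)) :
    Set (Sym2 (Fin d → ℤ) → Bool) :=
  {s | ¬ ∀ u v : (Fin d → ℤ) → ℝ,
      |∑ y ∈ Λ, ∑ w ∈ Λ, aw κ R y w * sg (s s(y, w)) * (u y * v w)| ≤
        ε * (∑ y ∈ Λ, u y ^ 2 + ∑ y ∈ Λ, v y ^ 2)}

theorem Bd_mono (R : ℕ) (ε : ℝ) : Monotone (Bd κ R ε) := by
  classical
  intro Λ Λ' hΛ s hs hcon
  apply hs
  intro u v
  have h1 := hcon (fun y => if y ∈ Λ then u y else 0) (fun y => if y ∈ Λ then v y else 0)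
  have e1 : ∑ y ∈ Λ', ∑ w ∈ Λ', aw κ R y w * sg (s s(y, w)) *
      ((if y ∈ Λ then u y else 0) * (if w ∈ Λ then v w else 0)) =
      ∑ y ∈ Λ, ∑ w ∈ Λ, aw κ R y w * sg (s s(y, w)) * (u y * v w) := by
    rw [← Finset.sum_subset hΛ]
    · refine Finset.sum_congr rfl fun y hy => ?_
      rw [← Finset.sum_subset hΛ]
      · refine Finset.sum_congr rfl fun w hw => ?_
        rw [if_pos hy, if_pos hw]
      · intro w _ hw
        rw [if_neg hw]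
        ring
    · intro y _ hy
      refine Finset.sum_eq_zero fun w _ => ?_
      rw [if_neg hy]
      ring
  have e2 : ∀ f : (Fin d → ℤ) → ℝ, ∑ y ∈ Λ', (if y ∈ Λ then f y else 0) ^ 2 =
      ∑ y ∈ Λ, f y ^ 2 := by
    intro f
    rw [← Finset.sum_subset hΛ]
    · refine Finset.sum_congr rfl fun y hy => ?_
      rw [if_pos hy]
    · intro y _ hy
      rw [if_neg hy]
      ring
  rw [e1, e2, e2] at h1
  exact h1

theorem Bd_all (hκ : ∀ y, κ (-y) = κ y) {θ : ℝ} (hθ : 0 < θ) (hθ2 : θ ≤ 2)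
    (hs : Summable fun z : Fin d → ℤ => ‖z‖ ^ θ * κ z ^ 2) {ε : ℝ} (hε : 0 < ε) :
    ∃ C : ℝ, ∀ R : ℕ, 0 < R → (Ps d) (⋃ Λ, Bd κ R ε Λ) ≤ ENNReal.ofReal (C / R) := by
  obtain ⟨n, hn⟩ := exists_nat_ge (((d : ℝ) + 1) / θ)
  set M := ∑' z : Fin d → ℤ, ‖z‖ ^ θ * κ z ^ 2 with hM
  have hM0 : 0 ≤ M := tsum_nonneg fun z => by positivity
  refine ⟨KK n * M ^ (n + 1) * (2 * 5 ^ d) / ε ^ (2 * (n + 1)), fun R hR => ?_⟩
  have hR' : (0 : ℝ) < R := by exact_mod_cast hR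
  have hR1 : (1 : ℝ) ≤ R := by exact_mod_cast hR
  have hdir : Directed (· ⊆ ·) (Bd κ R ε) := (Bd_mono R ε).directed_le
  rw [hdir.measure_iUnion]
  refine iSup_le fun Λ => ?_
  set r := M * (R : ℝ) ^ (-θ) with hr
  have hr0 : 0 ≤ r := mul_nonneg hM0 (by positivity)
  have h1 := prob_bound (d := d) (a := aw κ R) (aw_anti hκ R) Λ hr0
    (fun y => row_le hθ hθ2 hs hR Λ y) n hε
  refine h1.trans (ENNReal.ofReal_le_ofReal ?_)
  have h2 := tot_le hκ hθ hθ2 hs hR Λ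
  rw [← hM, ← hr] at h2
  have hK := KK_pos n
  rw [div_div, div_le_div_iff₀ (by positivity) (by positivity)]
  have h3 : KK n * r ^ n * ∑ y ∈ Λ, ∑ w ∈ Λ, aw κ R y w ^ 2 ≤
      KK n * r ^ n * (2 * (4 * R + 1) ^ d * r) :=
    mul_le_mul_of_nonneg_left h2 (by positivity)
  have h4 : ((4 : ℝ) * R + 1) ^ d ≤ 5 ^ d * (R : ℝ) ^ d := by
    rw [← mul_pow]
    exact pow_le_pow_left₀ (by positivity) (by linarith) d
  have h5 : (R : ℝ) ^ d * ((R : ℝ) ^ (-θ)) ^ (n + 1) * R ≤ 1 := by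
    rw [← Real.rpow_natCast ((R : ℝ) ^ (-θ)) (n + 1), ← Real.rpow_mul hR'.le,
      ← Real.rpow_natCast (R : ℝ) d, ← Real.rpow_add hR']
    nth_rewrite 2 [← Real.rpow_one (R : ℝ)]
    rw [← Real.rpow_add hR']
    apply Real.rpow_le_one_of_one_le_of_nonpos hR1
    rw [div_le_iff₀ hθ] at hn
    push_cast
    nlinarith
  have h6 : KK n * r ^ n * (2 * (4 * R + 1) ^ d * r) * R ≤
      KK n * M ^ (n + 1) * (2 * 5 ^ d) := by
    have e : KK n * r ^ n * (2 * (4 * R + 1) ^ d * r) * R =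
        KK n * M ^ (n + 1) * 2 * ((4 * R + 1) ^ d * ((R : ℝ) ^ (-θ)) ^ (n + 1) * R) := by
      rw [hr]
      ring
    rw [e]
    have h7 : (4 * (R : ℝ) + 1) ^ d * ((R : ℝ) ^ (-θ)) ^ (n + 1) * R ≤ 5 ^ d := by
      calc (4 * (R : ℝ) + 1) ^ d * ((R : ℝ) ^ (-θ)) ^ (n + 1) * R
          ≤ (5 ^ d * (R : ℝ) ^ d) * ((R : ℝ) ^ (-θ)) ^ (n + 1) * R := by
            refine mul_le_mul_of_nonneg_right ?_ hR'.le
            exact mul_le_mul_of_nonneg_right h4 (by positivity)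
        _ = 5 ^ d * ((R : ℝ) ^ d * ((R : ℝ) ^ (-θ)) ^ (n + 1) * R) := by ring
        _ ≤ 5 ^ d * 1 := mul_le_mul_of_nonneg_left h5 (by positivity)
        _ = 5 ^ d := mul_one _
    have h8 : 0 ≤ KK n * M ^ (n + 1) * 2 := by positivity
    nlinarith [mul_le_mul_of_nonneg_left h7 h8]
  have hεp : 0 < ε ^ (2 * (n + 1)) := by positivity
  calc KK n * r ^ n * (∑ y ∈ Λ, ∑ w ∈ Λ, aw κ R y w ^ 2) * (ε ^ (2 * (n + 1)) * R)
      ≤ KK n * r ^ n * (2 * (4 * R + 1) ^ d * r) * (ε ^ (2 * (n + 1)) * R) :=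
        mul_le_mul_of_nonneg_right h3 (by positivity)
    _ = (KK n * r ^ n * (2 * (4 * R + 1) ^ d * r) * R) * ε ^ (2 * (n + 1)) := by ring
    _ ≤ (KK n * M ^ (n + 1) * (2 * 5 ^ d)) * ε ^ (2 * (n + 1)) :=
        mul_le_mul_of_nonneg_right h6 hεp.le

/-- the deterministic short range part -/
theorem short_part (h : Adm T0 κ ρ0 b) (hρ0 : 0 ≤ ρ0) {R : ℕ} (hR : 0 < R)
    (Λ : Finset (Fin d → ℤ)) (u v : (Fin d → ℤ) → ℝ) :
    |∑ y ∈ Λ, ∑ w ∈ Λ, (cz R y - cz R w) * T0 y w * (u y * v w)| ≤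
      ρ0 / R * b * (∑ y ∈ Λ, u y ^ 2 + ∑ y ∈ Λ, v y ^ 2) := by
  have hR' : (0 : ℝ) < R := by exact_mod_cast hR
  have hb : 0 ≤ b := by
    have := h.T0sum 0 ∅
    simpa using this
  have h1 : ∀ y w, |(cz R y - cz R w) * T0 y w * (u y * v w)| ≤
      ρ0 / R * (|T0 y w| * u y ^ 2 + |T0 y w| * v w ^ 2) := by
    intro y w
    by_cases hyw : ρ0 < ‖y - w‖
    · rw [h.T0range y w hyw]
      simp
    · rw [not_lt] at hyw
      have h2 : |cz R y - cz R w| ≤ ρ0 / R :=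
        (cz_lip hR y w).trans (div_le_div_of_nonneg_right hyw hR'.le)
      rw [abs_mul, abs_mul]
      have h3 : |u y * v w| ≤ u y ^ 2 + v w ^ 2 := by
        rw [abs_le]
        constructor <;> nlinarith [sq_nonneg (u y + v w), sq_nonneg (u y - v w), sq_nonneg (u y),
          sq_nonneg (v w)]
      calc |cz R y - cz R w| * |T0 y w| * |u y * v w|
          ≤ ρ0 / R * |T0 y w| * (u y ^ 2 + v w ^ 2) := by
            refine mul_le_mul (mul_le_mul_of_nonneg_right h2 (abs_nonneg _)) h3 (abs_nonneg _)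
              (by positivity)
        _ = ρ0 / R * (|T0 y w| * u y ^ 2 + |T0 y w| * v w ^ 2) := by ring
  refine (Finset.abs_sum_le_sum_abs _ _).trans ?_
  refine (Finset.sum_le_sum fun y _ => Finset.abs_sum_le_sum_abs _ _).trans ?_
  refine (Finset.sum_le_sum fun y _ => Finset.sum_le_sum fun w _ => h1 y w).trans ?_
  have h4 : ∑ y ∈ Λ, ∑ w ∈ Λ, |T0 y w| * u y ^ 2 ≤ b * ∑ y ∈ Λ, u y ^ 2 := by
    rw [Finset.mul_sum]
    refine Finset.sum_le_sum fun y _ => ?_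
    rw [← Finset.sum_mul]
    exact mul_le_mul_of_nonneg_right (h.T0sum y Λ) (sq_nonneg _)
  have h5 : ∑ y ∈ Λ, ∑ w ∈ Λ, |T0 y w| * v w ^ 2 ≤ b * ∑ y ∈ Λ, v y ^ 2 := by
    rw [Finset.sum_comm, Finset.mul_sum]
    refine Finset.sum_le_sum fun y _ => ?_
    rw [← Finset.sum_mul]
    refine mul_le_mul_of_nonneg_right ?_ (sq_nonneg _)
    refine le_trans (le_of_eq ?_) (h.T0sum y Λ)
    refine Finset.sum_congr rfl fun w _ => ?_
    rw [h.T0symm]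
  simp_rw [← Finset.mul_sum, Finset.sum_add_distrib]
  rw [mul_assoc]
  refine mul_le_mul_of_nonneg_left ?_ (by positivity)
  rw [mul_add]
  exact add_le_add h4 h5

/-- a good radius gives a cut-off -/
theorem good_radius (h : Adm T0 κ ρ0 b) (hρ0 : 0 ≤ ρ0) {ε : ℝ} (hε : 0 < ε)
    (F : Finset (Fin d → ℤ)) : ∃ R0 : ℕ, 0 < R0 ∧ ∀ R : ℕ, R0 ≤ R →
      ∀ s : Sym2 (Fin d → ℤ) → Bool, s ∉ (⋃ Λ, Bd κ R (ε / 2) Λ) →
      ∃ χ : (Fin d → ℤ) →₀ ℝ,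
      (∀ y, 0 ≤ χ y ∧ χ y ≤ 1) ∧ (∀ y ∈ F, χ y = 1) ∧
      ∀ (Λ : Finset (Fin d → ℤ)) (u v : (Fin d → ℤ) → ℝ),
      |∑ y ∈ Λ, ∑ w ∈ Λ, (χ y - χ w) * Kf T0 κ s y w * (u y * v w)| ≤
        ε * (∑ y ∈ Λ, u y ^ 2 + ∑ y ∈ Λ, v y ^ 2) := by
  have hb : 0 ≤ b := by
    have := h.T0sum 0 ∅
    simpa using this
  obtain ⟨R1, hR1⟩ := exists_nat_ge (∑ y ∈ F, ‖y‖)
  obtain ⟨R2, hR2⟩ := exists_nat_ge (2 * (ρ0 * b) / ε)
  refine ⟨R1 + R2 + 1, by omega, fun R hR s hsgood => ?_⟩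
  have hRpos : 0 < R := by omega
  have hR' : (0 : ℝ) < R := by exact_mod_cast hRpos
  refine ⟨Finsupp.onFinset (bx d R) (cz R) (fun y hy => by
    by_contra hc
    exact hy (cz_out hRpos hc)), fun y => ⟨cz_nonneg R y, cz_le R y⟩, fun y hy => ?_, ?_⟩
  · apply cz_in hRpos
    have h1 : ‖y‖ ≤ ∑ y ∈ F, ‖y‖ :=
      Finset.single_le_sum (f := fun y : Fin d → ℤ => ‖y‖) (fun z _ => norm_nonneg z) hy
    have h2 : (R1 : ℝ) ≤ R := by exact_mod_cast (by omega : R1 ≤ R)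
    linarith
  · intro Λ u v
    simp only [Finsupp.onFinset_apply]
    rw [mem_iUnion, not_exists] at hsgood
    have h1 := hsgood Λ
    unfold Bd at h1
    rw [mem_ofPred_eq, not_not] at h1
    have h2 := h1 u v
    have h3 := short_part h hρ0 hRpos Λ u v
    have h4 : ρ0 / R * b ≤ ε / 2 := by
      rw [div_mul_eq_mul_div, div_le_iff₀ hR']
      have h5 : (R2 : ℝ) ≤ R := by exact_mod_cast (by omega : R2 ≤ R)
      rw [div_le_iff₀ hε] at hR2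
      nlinarith
    have e : ∑ y ∈ Λ, ∑ w ∈ Λ, (cz R y - cz R w) * Kf T0 κ s y w * (u y * v w) =
        ∑ y ∈ Λ, ∑ w ∈ Λ, (cz R y - cz R w) * T0 y w * (u y * v w) +
        ∑ y ∈ Λ, ∑ w ∈ Λ, aw κ R y w * sg (s s(y, w)) * (u y * v w) := by
      rw [← Finset.sum_add_distrib]
      refine Finset.sum_congr rfl fun y _ => ?_
      rw [← Finset.sum_add_distrib]
      refine Finset.sum_congr rfl fun w _ => ?_
      unfold Kf aw
      ring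
    rw [e]
    have hN : 0 ≤ ∑ y ∈ Λ, u y ^ 2 + ∑ y ∈ Λ, v y ^ 2 :=
      add_nonneg (Finset.sum_nonneg fun _ _ => sq_nonneg _)
        (Finset.sum_nonneg fun _ _ => sq_nonneg _)
    calc _ ≤ _ := abs_add_le _ _
      _ ≤ ρ0 / R * b * (∑ y ∈ Λ, u y ^ 2 + ∑ y ∈ Λ, v y ^ 2) +
          ε / 2 * (∑ y ∈ Λ, u y ^ 2 + ∑ y ∈ Λ, v y ^ 2) := add_le_add h3 h2
      _ ≤ ε / 2 * (∑ y ∈ Λ, u y ^ 2 + ∑ y ∈ Λ, v y ^ 2) +
          ε / 2 * (∑ y ∈ Λ, u y ^ 2 + ∑ y ∈ Λ, v y ^ 2) := by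
          gcongr
      _ = ε * (∑ y ∈ Λ, u y ^ 2 + ∑ y ∈ Λ, v y ^ 2) := by ring

theorem cutOK_ae (h : Adm T0 κ ρ0 b) (hρ0 : 0 ≤ ρ0) {θ : ℝ} (hθ : 0 < θ)
    (hs : Summable fun z : Fin d → ℤ => ‖z‖ ^ θ * κ z ^ 2) :
    ∀ᵐ s ∂(Ps d), CutOK T0 κ s := by
  -- reduce to `θ ≤ 2`
  obtain ⟨θ', hθ', hθ2, hs'⟩ : ∃ θ' : ℝ, 0 < θ' ∧ θ' ≤ 2 ∧
      Summable fun z : Fin d → ℤ => ‖z‖ ^ θ' * κ z ^ 2 := by
    refine ⟨min θ 2, lt_min hθ (by norm_num), min_le_right _ _, ?_⟩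
    refine Summable.of_nonneg_of_le (fun z => by positivity) (fun z => ?_) (hs.add h.κsq)
    rcases le_or_gt ‖z‖ 1 with h1 | h1
    · have h2 : ‖z‖ ^ (min θ 2) ≤ 1 := Real.rpow_le_one (norm_nonneg _) h1
        (le_min hθ.le (by norm_num))
      have h3 : 0 ≤ ‖z‖ ^ θ * κ z ^ 2 := by positivity
      nlinarith [sq_nonneg (κ z)]
    · have h2 : ‖z‖ ^ (min θ 2) ≤ ‖z‖ ^ θ := Real.rpow_le_rpow_of_exponent_le h1.le
        (min_le_left _ _)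
      nlinarith [sq_nonneg (κ z)]
  have key : ∀ (k : ℕ) (F : Finset (Fin d → ℤ)), ∀ᵐ s ∂(Ps d), ∃ χ : (Fin d → ℤ) →₀ ℝ,
      (∀ y, 0 ≤ χ y ∧ χ y ≤ 1) ∧ (∀ y ∈ F, χ y = 1) ∧
      ∀ (Λ : Finset (Fin d → ℤ)) (u v : (Fin d → ℤ) → ℝ),
      |∑ y ∈ Λ, ∑ w ∈ Λ, (χ y - χ w) * Kf T0 κ s y w * (u y * v w)| ≤
        (1 / ((k : ℝ) + 1)) * (∑ y ∈ Λ, u y ^ 2 + ∑ y ∈ Λ, v y ^ 2) := by
    intro k F
    have hε : 0 < 1 / ((k : ℝ) + 1) := by positivity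
    obtain ⟨R0, hR0, hgood⟩ := good_radius h hρ0 hε F
    obtain ⟨C, hC⟩ := Bd_all (d := d) h.κsymm hθ' hθ2 hs' (half_pos hε)
    rw [ae_iff]
    have hle : ∀ R : ℕ, R0 ≤ R → (Ps d) {s | ¬ ∃ χ : (Fin d → ℤ) →₀ ℝ,
      (∀ y, 0 ≤ χ y ∧ χ y ≤ 1) ∧ (∀ y ∈ F, χ y = 1) ∧
      ∀ (Λ : Finset (Fin d → ℤ)) (u v : (Fin d → ℤ) → ℝ),
      |∑ y ∈ Λ, ∑ w ∈ Λ, (χ y - χ w) * Kf T0 κ s y w * (u y * v w)| ≤
        (1 / ((k : ℝ) + 1)) * (∑ y ∈ Λ, u y ^ 2 + ∑ y ∈ Λ, v y ^ 2)} ≤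
        ENNReal.ofReal (C / R) := by
      intro R hR
      refine le_trans (measure_mono ?_) (hC R (by omega))
      intro s hs1
      by_contra hs2
      exact hs1 (hgood R hR s hs2)
    have hlim : Tendsto (fun R : ℕ => ENNReal.ofReal (C / R)) atTop (𝓝 0) := by
      have h1 : Tendsto (fun R : ℕ => C / (R : ℝ)) atTop (𝓝 0) :=
        tendsto_const_div_atTop_nhds_zero_nat C
      have h2 := ENNReal.tendsto_ofReal h1
      rwa [ENNReal.ofReal_zero] at h2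
    refine le_antisymm ?_ zero_le
    refine ge_of_tendsto hlim ?_
    filter_upwards [eventually_ge_atTop R0] with R hR
    exact hle R hR
  have hall : ∀ᵐ s ∂(Ps d), ∀ (k : ℕ) (F : Finset (Fin d → ℤ)), ∃ χ : (Fin d → ℤ) →₀ ℝ,
      (∀ y, 0 ≤ χ y ∧ χ y ≤ 1) ∧ (∀ y ∈ F, χ y = 1) ∧
      ∀ (Λ : Finset (Fin d → ℤ)) (u v : (Fin d → ℤ) → ℝ),
      |∑ y ∈ Λ, ∑ w ∈ Λ, (χ y - χ w) * Kf T0 κ s y w * (u y * v w)| ≤
        (1 / ((k : ℝ) + 1)) * (∑ y ∈ Λ, u y ^ 2 + ∑ y ∈ Λ, v y ^ 2) := by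
    rw [ae_all_iff]
    intro k
    rw [ae_all_iff]
    intro F
    exact key k F
  filter_upwards [hall] with s hs1
  intro ε hε F
  obtain ⟨k, hk⟩ := exists_nat_one_div_lt hε
  obtain ⟨χ, h1, h2, h3⟩ := hs1 k F
  refine ⟨χ, h1, h2, fun Λ u v => (h3 Λ u v).trans ?_⟩
  refine mul_le_mul_of_nonneg_right hk.le ?_
  exact add_nonneg (Finset.sum_nonneg fun _ _ => sq_nonneg _)
    (Finset.sum_nonneg fun _ _ => sq_nonneg _)

end V1176PL
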