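import Pool.Agent.V1176.PLFin

/-!
No square summable solution of `H ψ = z ψ` for any complex `z`.
-/

namespace V1176PL

open MeasureTheory ProbabilityTheory Matrix H10PL Set Filter Topology

variable {d : ℕ} {T0 : (Fin d → ℤ) → (Fin d → ℤ) → ℝ} {κ : (Fin d → ℤ) → ℝ} {ρ0 b : ℝ}

theorem comm_bound (h : Adm T0 κ ρ0 b) (s : Sym2 (Fin d → ℤ) → Bool) {ε : ℝ} (hε : 0 ≤ ε)
    (χ : (Fin d → ℤ) →₀ ℝ)
    (hχ : ∀ (Λ : Finset (Fin d → ℤ)) (u v : (Fin d → ℤ) → ℝ),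
      |∑ y ∈ Λ, ∑ w ∈ Λ, (χ y - χ w) * Kf T0 κ s y w * (u y * v w)| ≤
        ε * (∑ y ∈ Λ, u y ^ 2 + ∑ y ∈ Λ, v y ^ 2))
    (φ ψ : (Fin d → ℤ) → ℝ) (hφ1 : Summable fun y => φ y ^ 2) (hψ1 : Summable fun y => ψ y ^ 2) :
    |∑ y ∈ χ.support, χ y * φ y * ∑' w, Kf T0 κ s y w * ψ w -
      ∑ w ∈ χ.support, χ w * ψ w * ∑' y, Kf T0 κ s w y * φ y| ≤
      ε * (∑' y, φ y ^ 2 + ∑' y, ψ y ^ 2) := by
  classical
  set S := ∑ y ∈ χ.support, χ y * φ y * ∑' w, Kf T0 κ s y w * ψ w -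
    ∑ w ∈ χ.support, χ w * ψ w * ∑' y, Kf T0 κ s w y * φ y with hS
  have hlim : Tendsto (fun Λ : Finset (Fin d → ℤ) =>
      ∑ y ∈ Λ, ∑ w ∈ Λ, (χ y - χ w) * Kf T0 κ s y w * (φ y * ψ w)) atTop (𝓝 S) := by
    have h1 : Tendsto (fun Λ : Finset (Fin d → ℤ) =>
        ∑ y ∈ χ.support, χ y * φ y * ∑ w ∈ Λ, Kf T0 κ s y w * ψ w -
        ∑ w ∈ χ.support, χ w * ψ w * ∑ y ∈ Λ, Kf T0 κ s w y * φ y) atTop (𝓝 S) := by
      apply Tendsto.sub
      · apply tendsto_finsetSum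
        intro y _
        exact ((cs_tsum (Kf_sq_summable h s y) hψ1).1.hasSum).const_mul _
      · apply tendsto_finsetSum
        intro y _
        exact ((cs_tsum (Kf_sq_summable h s y) hφ1).1.hasSum).const_mul _
    refine h1.congr' ?_
    filter_upwards [eventually_ge_atTop χ.support] with Λ hΛ
    have h2 : ∑ y ∈ Λ, ∑ w ∈ Λ, (χ y - χ w) * Kf T0 κ s y w * (φ y * ψ w) =
        ∑ y ∈ Λ, χ y * φ y * ∑ w ∈ Λ, Kf T0 κ s y w * ψ w -
        ∑ w ∈ Λ, χ w * ψ w * ∑ y ∈ Λ, Kf T0 κ s w y * φ y := by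
      have h3 : ∑ w ∈ Λ, χ w * ψ w * ∑ y ∈ Λ, Kf T0 κ s w y * φ y =
          ∑ y ∈ Λ, ∑ w ∈ Λ, χ w * Kf T0 κ s y w * (φ y * ψ w) := by
        rw [Finset.sum_comm]
        refine Finset.sum_congr rfl fun w _ => ?_
        rw [Finset.mul_sum]
        refine Finset.sum_congr rfl fun y _ => ?_
        rw [Kf_symm h s w y]
        ring
      rw [h3, ← Finset.sum_sub_distrib]
      refine Finset.sum_congr rfl fun y _ => ?_
      rw [Finset.mul_sum, ← Finset.sum_sub_distrib]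
      refine Finset.sum_congr rfl fun w _ => ?_
      ring
    rw [h2]
    congr 1
    · refine Finset.sum_subset hΛ fun y _ hy => ?_
      rw [Finsupp.notMem_support_iff.mp hy]
      ring
    · refine Finset.sum_subset hΛ fun y _ hy => ?_
      rw [Finsupp.notMem_support_iff.mp hy]
      ring
  have hle : ∀ Λ : Finset (Fin d → ℤ),
      |∑ y ∈ Λ, ∑ w ∈ Λ, (χ y - χ w) * Kf T0 κ s y w * (φ y * ψ w)| ≤
        ε * (∑' y, φ y ^ 2 + ∑' y, ψ y ^ 2) := by
    intro Λ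
    refine (hχ Λ φ ψ).trans (mul_le_mul_of_nonneg_left ?_ hε)
    exact add_le_add (hφ1.sum_le_tsum Λ (fun y _ => sq_nonneg _))
      (hψ1.sum_le_tsum Λ (fun y _ => sq_nonneg _))
  exact le_of_tendsto' hlim.abs hle

/-- no deficiency vectors -/
theorem no_def (h : Adm T0 κ ρ0 b) (s : Sym2 (Fin d → ℤ) → Bool) (hc : CutOK T0 κ s)
    (V : (Fin d → ℤ) → ℝ) (α β : ℝ) (hβ : β ≠ 0) (u v : (Fin d → ℤ) → ℝ)
    (hu : Summable fun y => u y ^ 2) (hv : Summable fun y => v y ^ 2)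
    (e1 : ∀ y, (∑' w, Kf T0 κ s y w * u w) + V y * u y = α * u y - β * v y)
    (e2 : ∀ y, (∑' w, Kf T0 κ s y w * v w) + V y * v y = β * u y + α * v y) :
    u = 0 ∧ v = 0 := by
  classical
  set N := ∑' y, u y ^ 2 + ∑' y, v y ^ 2 with hN
  have hN0 : 0 ≤ N := add_nonneg (tsum_nonneg fun y => sq_nonneg _)
    (tsum_nonneg fun y => sq_nonneg _)
  have key : ∀ x, |β| * (u x ^ 2 + v x ^ 2) ≤ 0 := by
    intro x
    apply le_of_forall_pos_le_add
    intro ε hε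
    rw [zero_add]
    have hε' : 0 < ε / (N + 1) := by positivity
    obtain ⟨χ, hχ1, hχ2, hχ3⟩ := hc (ε / (N + 1)) hε' {x}
    have hχx : χ x = 1 := hχ2 x (Finset.mem_singleton_self x)
    have h1 := comm_bound h s hε'.le χ hχ3 u v hu hv
    have h2 : ∑ y ∈ χ.support, χ y * u y * ∑' w, Kf T0 κ s y w * v w -
        ∑ w ∈ χ.support, χ w * v w * ∑' y, Kf T0 κ s w y * u y =
        β * ∑ y ∈ χ.support, χ y * (u y ^ 2 + v y ^ 2) := by
      rw [← Finset.sum_sub_distrib, Finset.mul_sum]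
      refine Finset.sum_congr rfl fun y _ => ?_
      have h3 := e1 y
      have h4 := e2 y
      linear_combination (χ y * u y) * h4 - (χ y * v y) * h3
    rw [h2, abs_mul] at h1
    have h5 : u x ^ 2 + v x ^ 2 ≤ ∑ y ∈ χ.support, χ y * (u y ^ 2 + v y ^ 2) := by
      have hx : x ∈ χ.support := by
        rw [Finsupp.mem_support_iff, hχx]
        exact one_ne_zero
      have h6 := Finset.single_le_sum (f := fun y => χ y * (u y ^ 2 + v y ^ 2))
        (fun y _ => mul_nonneg (hχ1 y).1 (by positivity)) hx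
      simp only [hχx, one_mul] at h6
      exact h6
    have h7 : 0 ≤ ∑ y ∈ χ.support, χ y * (u y ^ 2 + v y ^ 2) :=
      Finset.sum_nonneg fun y _ => mul_nonneg (hχ1 y).1 (by positivity)
    rw [abs_of_nonneg h7, ← hN] at h1
    have h8 : ε / (N + 1) * N ≤ ε := by
      rw [div_mul_eq_mul_div, div_le_iff₀ (by positivity)]
      nlinarith
    have h9 := mul_le_mul_of_nonneg_left h5 (abs_nonneg β)
    linarith
  have hz : ∀ x, u x = 0 ∧ v x = 0 := by
    intro x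
    have h1 := key x
    have h2 : 0 < |β| := abs_pos.2 hβ
    have h3 : u x ^ 2 + v x ^ 2 ≤ 0 := by
      by_contra hcon
      rw [not_le] at hcon
      have := mul_pos h2 hcon
      linarith
    constructor
    · have : u x ^ 2 = 0 := le_antisymm (by nlinarith [sq_nonneg (v x)]) (sq_nonneg _)
      exact pow_eq_zero_iff (two_ne_zero) |>.1 this
    · have : v x ^ 2 = 0 := le_antisymm (by nlinarith [sq_nonneg (u x)]) (sq_nonneg _)
      exact pow_eq_zero_iff (two_ne_zero) |>.1 this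
  exact ⟨funext fun x => (hz x).1, funext fun x => (hz x).2⟩

theorem no_sol (h : Adm T0 κ ρ0 b) (hρ0 : 0 ≤ ρ0) (v : NNReal) (hv : v ≠ 0) {B θ : ℝ}
    (hθ : 0 < θ) (hs : Summable fun z : Fin d → ℤ => ‖z‖ ^ θ * κ z ^ 2)
    (hlong : LongR κ B) :
    ∀ᵐ q ∂((PV d v).prod (Ps d)), ∀ (z : ℂ) (ψ : (Fin d → ℤ) → ℂ),
      Summable (fun y => ‖ψ y‖ ^ 2) →
      (∀ y, (∑' w, (Kf T0 κ q.2 y w : ℂ) * ψ w) + (q.1 y : ℂ) * ψ y = z * ψ y) → ψ = 0 := by
  have hcut : ∀ᵐ q ∂((PV d v).prod (Ps d)), CutOK T0 κ q.2 :=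
    Measure.quasiMeasurePreserving_snd.ae (cutOK_ae h hρ0 hθ hs)
  filter_upwards [hcut, no_eig h hρ0 v hv hθ hs hlong] with q hq1 hq2 z ψ hψ heq
  have hu : Summable fun y => (ψ y).re ^ 2 := by
    refine Summable.of_nonneg_of_le (fun y => sq_nonneg _) (fun y => ?_) hψ
    rw [← sq_abs]
    exact pow_le_pow_left₀ (abs_nonneg _) (Complex.abs_re_le_norm _) 2
  have hv' : Summable fun y => (ψ y).im ^ 2 := by
    refine Summable.of_nonneg_of_le (fun y => sq_nonneg _) (fun y => ?_) hψ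
    rw [← sq_abs]
    exact pow_le_pow_left₀ (abs_nonneg _) (Complex.abs_im_le_norm _) 2
  have hsum : ∀ y, (∑' w, (Kf T0 κ q.2 y w : ℂ) * ψ w).re = ∑' w, Kf T0 κ q.2 y w * (ψ w).re ∧
      (∑' w, (Kf T0 κ q.2 y w : ℂ) * ψ w).im = ∑' w, Kf T0 κ q.2 y w * (ψ w).im := by
    intro y
    have h1 := (cs_tsum (Kf_sq_summable h q.2 y) hu).1
    have h2 := (cs_tsum (Kf_sq_summable h q.2 y) hv').1
    have h3 : Summable fun w => (Kf T0 κ q.2 y w : ℂ) * ψ w := by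
      have h4 : HasSum (fun w => (Kf T0 κ q.2 y w : ℂ) * ψ w)
          (⟨∑' w, Kf T0 κ q.2 y w * (ψ w).re, ∑' w, Kf T0 κ q.2 y w * (ψ w).im⟩ : ℂ) := by
        rw [Complex.hasSum_iff]
        constructor
        · simpa using h1.hasSum
        · simpa using h2.hasSum
      exact h4.summable
    constructor
    · rw [Complex.re_tsum h3]
      refine tsum_congr fun w => ?_
      simp
    · rw [Complex.im_tsum h3]
      refine tsum_congr fun w => ?_
      simp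
  have e1 : ∀ y, (∑' w, Kf T0 κ q.2 y w * (ψ w).re) + q.1 y * (ψ y).re =
      z.re * (ψ y).re - z.im * (ψ y).im := by
    intro y
    have h1 := congrArg Complex.re (heq y)
    rw [Complex.add_re, (hsum y).1, Complex.mul_re, Complex.mul_re] at h1
    simpa using h1
  have e2 : ∀ y, (∑' w, Kf T0 κ q.2 y w * (ψ w).im) + q.1 y * (ψ y).im =
      z.im * (ψ y).re + z.re * (ψ y).im := by
    intro y
    have h1 := congrArg Complex.im (heq y)
    rw [Complex.add_im, (hsum y).2, Complex.mul_im, Complex.mul_im] at h1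
    simp only [Complex.ofReal_re, Complex.ofReal_im, zero_mul, add_zero] at h1
    linarith
  by_cases hz : z.im = 0
  · have h1 : (fun y => (ψ y).re) = 0 := hq2 z.re _ ⟨hu, fun y => by rw [e1 y, hz]; ring⟩
    have h2 : (fun y => (ψ y).im) = 0 := hq2 z.re _ ⟨hv', fun y => by rw [e2 y, hz]; ring⟩
    funext y
    exact Complex.ext (congrFun h1 y) (congrFun h2 y)
  · obtain ⟨h1, h2⟩ := no_def h q.2 hq1 q.1 z.re z.im hz _ _ hu hv' e1 e2
    funext y
    exact Complex.ext (congrFun h1 y) (congrFun h2 y)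

end V1176PL
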