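import Pool.Agent.H10R2.PL.AsmD
import Pool.Agent.H10R2.PL.SWA

/-!
Almost everywhere the Green function is not square summable.
-/

namespace V1176PL

open MeasureTheory ProbabilityTheory Matrix H10PL Set Filter Topology

variable {d : ℕ} {T0 : (Fin d → ℤ) → (Fin d → ℤ) → ℝ} {κ : (Fin d → ℤ) → ℝ} {ρ0 b : ℝ}

/-- the hopping is long range: there are finite sets of displacements on which `|κ|` is comparable
to a number `β` with `β * card` arbitrarily large -/
def LongR (κ : (Fin d → ℤ) → ℝ) (B : ℝ) : Prop :=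
  ∀ N : ℝ, ∃ (S : Finset (Fin d → ℤ)) (β : ℝ), (0 : Fin d → ℤ) ∉ S ∧ 0 < β ∧
    (∀ z ∈ S, β ≤ |κ z| ∧ |κ z| ≤ B * β) ∧ N ≤ β * S.card

theorem Ck_nonneg {K a : ℝ} (hK : 0 ≤ K) (ha : 0 ≤ a) : 0 ≤ Ck K a := by
  unfold Ck
  have := Real.pi_pos
  positivity

theorem aC_nonneg (b : ℝ) (κ : (Fin d → ℤ) → ℝ) : 0 ≤ aC b κ := by
  unfold aC
  have : 0 ≤ ∑' z, κ z ^ 2 := tsum_nonneg fun z => sq_nonneg _
  positivity

theorem inf_small (h : Adm T0 κ ρ0 b) (v : NNReal) (hv : v ≠ 0) {B : ℝ}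
    (hlong : LongR κ B) (x : Fin d → ℤ) (M : ℕ) {K : ℝ} (hK : 0 < K) {δ : ℝ} (hδ : 0 < δ) :
    ((volume.restrict (Icc (-K) K)).prod ((PV d v).prod (Ps d)))
      {p | ¬ InfN T0 κ p.2.2 p.2.1 p.1 x M} ≤ ENNReal.ofReal δ := by
  classical
  set ν := ((volume.restrict (Icc (-K) K)).prod ((PV d v).prod (Ps d))) with hν
  set M' : ℝ := (M : ℝ) + 1 with hM'
  have hM'0 : 0 < M' := by positivity
  -- the potential at `x`
  obtain ⟨W2, hW2, hW2p⟩ := V_tail (d := d) v x (δ := δ / (8 * K)) (by positivity)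
  have hpi := Real.pi_pos
  have haC := aC_nonneg b κ
  have hCk := Ck_nonneg hK.le haC
  set W : ℝ := max (2 * (K + 1)) (9 * Ck K (aC b κ) * 8 / δ) with hW
  have hW1 : 2 * (K + 1) ≤ W := le_max_left _ _
  have hWpos : 0 < W := by linarith
  have hWt : 9 * Ck K (aC b κ) / W ≤ δ / 8 := by
    have h1 : 9 * Ck K (aC b κ) * 8 / δ ≤ W := le_max_right _ _
    rw [div_le_iff₀ hδ] at h1
    rw [div_le_iff₀ hWpos]
    linarith
  set g := gaussianPDFReal 0 v W with hg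
  have hg0 : 0 < g := gaussianPDFReal_pos 0 v W hv
  set cW := g * Real.pi / 2 / (2 * (W2 + 8 * W) ^ 2) with hcW
  have hden : 0 < 2 * (W2 + 8 * W) ^ 2 := by positivity
  have hcW0 : 0 < cW := by positivity
  set Q := (16 + 64 * B ^ 2) * K * 8 / (g * Real.pi * δ) with hQ
  have hQ0 : 0 < Q := by positivity
  obtain ⟨k0, hk0, hk0b⟩ := κ_bdd h
  obtain ⟨S, β, hS0, hβ, hSκ, hSN⟩ := hlong (k0 * Q + 4 * M' * Q / cW + 1)
  have hNpos : 0 < k0 * Q + 4 * M' * Q / cW + 1 := by positivity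
  have hcard : 0 < (S.card : ℝ) := by
    by_contra hc
    have : (S.card : ℝ) = 0 := le_antisymm (not_lt.1 hc) (Nat.cast_nonneg _)
    rw [this] at hSN
    linarith
  have hSn : S.Nonempty := by
    rw [← Finset.card_pos]
    exact_mod_cast hcard
  have hβk : β ≤ k0 := by
    obtain ⟨z, hz⟩ := hSn
    exact (hSκ z hz).1.trans (hk0b z)
  -- the imaginary part of the energy
  set η := min 1 (cW * β ^ 2 * S.card / (4 * M')) with hη
  have hη0 : 0 < η := lt_min one_pos (by positivity)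
  have hη1 : η ≤ 1 := min_le_left _ _
  have hη2 : η ≤ cW * β ^ 2 * S.card / (4 * M') := min_le_right _ _
  have hSη : Q ≤ S.card * η := by
    rw [hη, mul_min_of_nonneg _ _ hcard.le]
    refine le_min ?_ ?_
    · have h1 : k0 * Q ≤ k0 * S.card := by
        have h2 : β * S.card ≤ k0 * S.card := mul_le_mul_of_nonneg_right hβk hcard.le
        have h3 : 0 ≤ 4 * M' * Q / cW := by positivity
        linarith
      have := le_of_mul_le_mul_left h1 hk0
      linarith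
    · have h1 : 4 * M' * Q / cW ≤ (β * S.card) ^ 2 := by
        have h2 : 4 * M' * Q / cW ≤ β * S.card := by
          have : 0 ≤ k0 * Q := by positivity
          linarith
        have h3 : 1 ≤ β * S.card := by
          have : 0 ≤ k0 * Q := by positivity
          have : 0 ≤ 4 * M' * Q / cW := by positivity
          linarith
        nlinarith
      rw [div_le_iff₀ hcW0] at h1
      have e : (S.card : ℝ) * (cW * β ^ 2 * S.card / (4 * M')) =
          ((β * S.card) ^ 2 * cW) / (4 * M') := by ring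
      rw [e, le_div_iff₀ (by positivity)]
      linarith
  have hpt : (16 + 64 * B ^ 2) * K / (g * Real.pi * S.card * η) ≤ δ / 8 := by
    rw [div_le_iff₀ (by positivity)]
    have h1 : Q * (g * Real.pi * δ) = (16 + 64 * B ^ 2) * K * 8 := by
      rw [hQ]
      field_simp
    have h2 : Q * (g * Real.pi * δ) ≤ (S.card * η) * (g * Real.pi * δ) :=
      mul_le_mul_of_nonneg_right hSη (by positivity)
    nlinarith
  -- the range
  set c := (η * Real.sqrt M' / 2) ^ 2 with hc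
  have hsM : 0 < Real.sqrt M' := Real.sqrt_pos.2 hM'0
  have hc0 : 0 < c := by positivity
  obtain ⟨ρ1, hρ1⟩ := tail_small h (δ := δ * c * η ^ 2 / (8 * K)) (by positivity)
  set ρ := max ρ0 (max (∑ z ∈ S, ‖z‖) ρ1) with hρ
  have hρ0' : ρ0 ≤ ρ := le_max_left _ _
  have hρS : ∑ z ∈ S, ‖z‖ ≤ ρ := (le_max_left _ _).trans (le_max_right _ _)
  have hρ1' : ρ1 ≤ ρ := (le_max_right _ _).trans (le_max_right _ _)
  have hSnorm : ∀ z ∈ S, ‖z‖ ≤ ρ := by
    intro z hz
    exact (Finset.single_le_sum (f := fun y : Fin d → ℤ => ‖y‖)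
      (fun z _ => norm_nonneg z) hz).trans hρS
  have hρnn : 0 ≤ ρ := (Finset.sum_nonneg fun z _ => norm_nonneg z).trans hρS
  obtain ⟨T, hT0, hT⟩ := row_abs h ρ
  set r := 2 * (ρ * T) / (η ^ 2 * Real.sqrt M') + 1 with hr
  have hr0 : 0 < r := by positivity
  have hc2 : (ρ / r) * T * (1 / η) ≤ η * Real.sqrt M' / 2 := by
    have h1 : (ρ / r) * T * (1 / η) = (ρ * T) / (r * η) := by
      field_simp
    rw [h1, div_le_iff₀ (by positivity)]
    have h2 : η * Real.sqrt M' / 2 * (r * η) = ρ * T + η ^ 2 * Real.sqrt M' / 2 := by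
      have hD : 0 < η ^ 2 * Real.sqrt M' := by positivity
      have h3 : η ^ 2 * Real.sqrt M' * (2 * (ρ * T) / (η ^ 2 * Real.sqrt M')) = 2 * (ρ * T) :=
        mul_div_cancel₀ _ hD.ne'
      rw [hr]
      linear_combination (1 / 2) * h3
    rw [h2]
    have : 0 ≤ η ^ 2 * Real.sqrt M' / 2 := by positivity
    linarith
  clear_value r ρ c η
  set Λ := (ball_finite x (r + ρ)).toFinset with hΛ
  have hΛm : ∀ y, ‖y - x‖ ≤ r + ρ → y ∈ Λ := by
    intro y hy
    rw [hΛ, Set.Finite.mem_toFinset]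
    exact hy
  have hx : x ∈ Λ := hΛm x (by rw [sub_self, norm_zero]; exact add_nonneg hr0.le hρnn)
  have hSΛ : ∀ z ∈ S, x - z ∈ Λ := by
    intro z hz
    apply hΛm
    have e : x - z - x = -z := by abel
    rw [e, norm_neg]
    have := hSnorm z hz
    linarith
  -- the three bad events
  set thr := β ^ 2 * (g * Real.pi * S.card / 2) / (2 * (W2 + 8 * W) ^ 2) with hthr
  have hthr4 : 4 * M' * η ≤ thr := by
    have h1 := hη2
    rw [le_div_iff₀ (by positivity)] at h1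
    have h2 : thr = cW * β ^ 2 * S.card := by
      rw [hthr, hcW]
      ring
    rw [h2]
    linarith
  have hb1 : ν {p | W2 < |p.2.1 x|} ≤ ENNReal.ofReal (δ / 4) := by
    have e : {p : ℝ × (((Fin d → ℤ) → ℝ) × (Sym2 (Fin d → ℤ) → Bool)) | W2 < |p.2.1 x|} =
        (univ : Set ℝ) ×ˢ ({V : (Fin d → ℤ) → ℝ | W2 < |V x|} ×ˢ
          (univ : Set (Sym2 (Fin d → ℤ) → Bool))) := by
      ext p
      simp
    rw [e, hν, Measure.prod_prod, Measure.prod_prod, measure_univ (μ := Ps d), mul_one,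
      Measure.restrict_apply_univ, Real.volume_Icc]
    calc ENNReal.ofReal (K - -K) * (PV d v) {V | W2 < |V x|}
        ≤ ENNReal.ofReal (K - -K) * ENNReal.ofReal (δ / (8 * K)) := by gcongr
      _ = ENNReal.ofReal (δ / 4) := by
          rw [← ENNReal.ofReal_mul (by linarith)]
          congr 1
          field_simp
          ring
  clear_value Λ
  have hb2 := fv_lattice h v hv Λ S x hx hS0 hSnorm hSΛ hSn hβ hSκ hK hW1 hη0 hη1 hW2
  rw [← hν, ← hg, ← hthr] at hb2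
  have hb3 := long_lattice h v (ρ := ρ) (η := η) (r := r) hρ0' hη0 hr0 Λ x hx hK hc0
  rw [← hν] at hb3
  have hsub : {p : ℝ × (((Fin d → ℤ) → ℝ) × (Sym2 (Fin d → ℤ) → Bool)) |
      ¬ InfN T0 κ p.2.2 p.2.1 p.1 x M} ⊆
      {p | W2 < |p.2.1 x|} ∪ ({p | |p.2.1 x| ≤ W2 ∧
        Pm (Am T0 κ ρ Λ p.2.2) (fun i : Λ => p.2.1 i) p.1 η ⟨x, hx⟩ ⟨x, hx⟩ < thr} ∪
      {p | ¬ (∑' y, (∑ w ∈ Λ, (Kf T0 κ p.2.2 y w - Kr T0 κ ρ p.2.2 y w) *
        ff T0 κ ρ η r Λ x hx p.2.2 p.2.1 p.1 w) ^ 2) ≤ c}) := by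
    intro p hp
    by_contra hcon
    simp only [mem_union, mem_ofPred_eq, not_or, not_lt, not_and, not_not] at hcon
    obtain ⟨h1, h2, h3⟩ := hcon
    apply hp
    have h4 := h2 h1
    exact infN_of h p.2.2 p.2.1 p.1 x hρ0' hρnn hr0 hη0 Λ hΛm hx hT0
      (fun y => hT Λ p.2.2 y) (by rw [hM']; linarith) hM'0 (hthr4.trans h4) hc2 (hc ▸ h3)
  refine (measure_mono hsub).trans ((measure_union_le _ _).trans ?_)
  refine (add_le_add hb1 ((measure_union_le _ _).trans (add_le_add hb2 hb3))).trans ?_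
  clear hb1 hb2 hb3 hsub
  clear_value thr cW Q W g
  have htl0 : 0 ≤ (∑' y : Fin d → ℤ, if ρ < ‖y‖ then κ y ^ 2 else 0) := tsum_nonneg fun y => by
    split_ifs
    · exact sq_nonneg _
    · exact le_rfl
  have n1 : 0 ≤ δ / 4 := by positivity
  have n2 : 0 ≤ 9 * Ck K (aC b κ) / W +
      (16 + 64 * B ^ 2) * K / (g * Real.pi * S.card * η) := by positivity
  have n3 : 0 ≤ 2 * K * ((∑' y : Fin d → ℤ, if ρ < ‖y‖ then κ y ^ 2 else 0) *
      (1 / η ^ 2) / c) := by positivity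
  rw [← ENNReal.ofReal_add n2 n3, ← ENNReal.ofReal_add n1 (add_nonneg n2 n3)]
  apply ENNReal.ofReal_le_ofReal
  have ht := hρ1 ρ hρ1'
  have h5 : 2 * K * ((∑' y : Fin d → ℤ, if ρ < ‖y‖ then κ y ^ 2 else 0) * (1 / η ^ 2) / c) ≤
      δ / 4 := by
    calc 2 * K * ((∑' y : Fin d → ℤ, if ρ < ‖y‖ then κ y ^ 2 else 0) * (1 / η ^ 2) / c)
        ≤ 2 * K * ((δ * c * η ^ 2 / (8 * K)) * (1 / η ^ 2) / c) := by gcongr
      _ = δ / 4 := by
          field_simp
          ring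
  linarith

theorem inf_ae (h : Adm T0 κ ρ0 b) (v : NNReal) (hv : v ≠ 0) {B : ℝ}
    (hlong : LongR κ B) (x : Fin d → ℤ) :
    ∀ᵐ p ∂((volume : Measure ℝ).prod ((PV d v).prod (Ps d))), ∀ M : ℕ,
      InfN T0 κ p.2.2 p.2.1 p.1 x M := by
  rw [ae_all_iff]
  intro M
  rw [ae_iff]
  set A := {p : ℝ × (((Fin d → ℤ) → ℝ) × (Sym2 (Fin d → ℤ) → Bool)) |
    ¬ InfN T0 κ p.2.2 p.2.1 p.1 x M} with hA
  have h1 : ∀ k : ℕ, ((volume : Measure ℝ).prod ((PV d v).prod (Ps d)))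
      (A ∩ ((Icc (-((k : ℝ) + 1)) ((k : ℝ) + 1)) ×ˢ univ)) = 0 := by
    intro k
    have hK : 0 < (k : ℝ) + 1 := by positivity
    have hm : MeasurableSet ((Icc (-((k : ℝ) + 1)) ((k : ℝ) + 1)) ×ˢ
        (univ : Set (((Fin d → ℤ) → ℝ) × (Sym2 (Fin d → ℤ) → Bool)))) :=
      measurableSet_Icc.prod MeasurableSet.univ
    rw [← Measure.restrict_apply' hm, ← Measure.prod_restrict, Measure.restrict_univ]
    have h2 : ∀ δ : ℝ, 0 < δ → ((volume.restrict (Icc (-((k : ℝ) + 1)) ((k : ℝ) + 1))).prod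
        ((PV d v).prod (Ps d))) A ≤ ENNReal.ofReal δ := fun δ hδ => inf_small h v hv hlong x M hK hδ
    refine le_antisymm ?_ zero_le
    refine ENNReal.le_of_forall_pos_le_add fun ε hε _ => ?_
    rw [zero_add]
    have := h2 ε hε
    rwa [ENNReal.ofReal_coe_nnreal] at this
  have h3 : A ⊆ ⋃ k : ℕ, (A ∩ ((Icc (-((k : ℝ) + 1)) ((k : ℝ) + 1)) ×ˢ univ)) := by
    intro p hp
    obtain ⟨k, hk⟩ := exists_nat_ge |p.1|
    refine mem_iUnion.2 ⟨k, hp, ?_, mem_univ _⟩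
    rw [mem_Icc]
    have := abs_le.1 hk
    constructor <;> linarith
  exact measure_mono_null h3 (measure_iUnion_null h1)

end V1176PL
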