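import Pool.Agent.V1176.PLCut
import Pool.Agent.V1176.PLInf

/-!
Almost surely there are no eigenvalues.
-/

namespace V1176PL

open MeasureTheory ProbabilityTheory Matrix H10PL Set Filter Topology

variable {d : ℕ} {T0 : (Fin d → ℤ) → (Fin d → ℤ) → ℝ} {κ : (Fin d → ℤ) → ℝ} {ρ0 b : ℝ}

section closed

/-- configurations with a normalised eigenvector with bounded energy and norm -/
def Bn (T0 : (Fin d → ℤ) → (Fin d → ℤ) → ℝ) (κ : (Fin d → ℤ) → ℝ) (x : Fin d → ℤ) (n : ℕ) :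
    Set (((Fin d → ℤ) → ℝ) × (Sym2 (Fin d → ℤ) → Bool)) :=
  {q | ∃ (E : ℝ) (ψ : (Fin d → ℤ) → ℝ), E ∈ Icc (-(n : ℝ)) n ∧
    (∀ F : Finset (Fin d → ℤ), ∑ y ∈ F, ψ y ^ 2 ≤ n) ∧ ψ x = 1 ∧
    ∀ y, (∑' w, Kf T0 κ q.2 y w * ψ w) + q.1 y * ψ y = E * ψ y}

/-- compact set of pairs -/
def Xn (d n : ℕ) : Set (ℝ × ((Fin d → ℤ) → ℝ)) :=
  Icc (-(n : ℝ)) n ×ˢ {ψ : (Fin d → ℤ) → ℝ | ∀ F : Finset (Fin d → ℤ), ∑ y ∈ F, ψ y ^ 2 ≤ (n : ℝ)}

theorem Xn_compact (n : ℕ) : IsCompact (Xn d n) := by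
  refine isCompact_Icc.prod ?_
  have h1 : IsCompact (Set.pi univ fun _ : Fin d → ℤ => Icc (-((n : ℝ) + 1)) ((n : ℝ) + 1)) :=
    isCompact_univ_pi fun _ => isCompact_Icc
  refine h1.of_isClosed_subset ?_ ?_
  · have : {ψ : (Fin d → ℤ) → ℝ | ∀ F : Finset (Fin d → ℤ), ∑ y ∈ F, ψ y ^ 2 ≤ n} =
        ⋂ F : Finset (Fin d → ℤ), {ψ : (Fin d → ℤ) → ℝ | ∑ y ∈ F, ψ y ^ 2 ≤ n} := by
      ext ψ
      simp
    rw [this]
    refine isClosed_iInter fun F => isClosed_le ?_ continuous_const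
    exact continuous_finsetSum _ fun y _ => (continuous_apply y).pow 2
  · intro ψ hψ y _
    have h2 : ψ y ^ 2 ≤ n := by simpa using hψ {y}
    rw [mem_Icc]
    have h3 : |ψ y| ≤ (n : ℝ) + 1 := by
      apply abs_le_of_sq_le_sq _ (by positivity)
      nlinarith [(Nat.cast_nonneg n : (0 : ℝ) ≤ n)]
    exact abs_le.1 h3

theorem Kf_cont (y w : Fin d → ℤ) :
    Continuous fun s : Sym2 (Fin d → ℤ) → Bool => Kf T0 κ s y w := by
  unfold Kf
  exact continuous_const.add ((sg_cont.comp (continuous_apply _)).mul continuous_const)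

/-- dominating square summable row -/
def Gr (T0 : (Fin d → ℤ) → (Fin d → ℤ) → ℝ) (κ : (Fin d → ℤ) → ℝ) (y w : Fin d → ℤ) : ℝ :=
  2 * T0 y w ^ 2 + 2 * κ (y - w) ^ 2

theorem Gr_summable (h : Adm T0 κ ρ0 b) (y : Fin d → ℤ) : Summable (Gr T0 κ y) := by
  have h1 : Summable fun w => T0 y w ^ 2 :=
    summable_of_sum_le (fun w => sq_nonneg _) (fun F => T0_sq_sum h y F)
  have h3 : Summable fun w => κ (y - w) ^ 2 := by
    have := (Equiv.subLeft y).summable_iff.mpr h.κsq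
    exact this
  exact (h1.mul_left 2).add (h3.mul_left 2)

theorem row_cont (h : Adm T0 κ ρ0 b) (n : ℕ) (y : Fin d → ℤ) :
    Continuous fun z : (Xn d n) × (((Fin d → ℤ) → ℝ) × (Sym2 (Fin d → ℤ) → Bool)) =>
      ∑' w, Kf T0 κ z.2.2 y w * z.1.1.2 w := by
  set Fs : Finset (Fin d → ℤ) →
      (Xn d n) × (((Fin d → ℤ) → ℝ) × (Sym2 (Fin d → ℤ) → Bool)) → ℝ :=
    fun F z => ∑ w ∈ F, Kf T0 κ z.2.2 y w * z.1.1.2 w with hFs
  have hunif : TendstoUniformly Fs (fun z => ∑' w, Kf T0 κ z.2.2 y w * z.1.1.2 w) atTop := by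
    rw [Metric.tendstoUniformly_iff]
    intro ε hε
    have ht := tendsto_tsum_compl_atTop_zero (Gr T0 κ y)
    have hδ : 0 < ε ^ 2 / ((n : ℝ) + 1) := by positivity
    filter_upwards [(tendsto_order.1 ht).2 _ hδ] with F hF z
    obtain ⟨⟨⟨E, ψ⟩, hψ⟩, V, s⟩ := z
    have hψ2 : ∀ F : Finset (Fin d → ℤ), ∑ y ∈ F, ψ y ^ 2 ≤ n := hψ.2
    have hψs : Summable fun w => ψ w ^ 2 := summable_of_sum_le (fun w => sq_nonneg _) hψ2
    have hψt : ∑' w, ψ w ^ 2 ≤ n := hψs.tsum_le_of_sum_le hψ2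
    have hKs := Kf_sq_summable h s y
    have hprod := (cs_tsum hKs hψs).1
    have hsplit := hprod.sum_add_tsum_subtype_compl F
    simp only [hFs]
    have e : ∑' w, Kf T0 κ s y w * ψ w - ∑ w ∈ F, Kf T0 κ s y w * ψ w =
        ∑' w : {w // w ∉ F}, Kf T0 κ s y w * ψ w := by
      rw [← hsplit]
      ring
    rw [Real.dist_eq, e]
    have hcs := (cs_tsum (f := fun w : {w // w ∉ F} => Kf T0 κ s y w)
      (g := fun w : {w // w ∉ F} => ψ w)
      (hKs.comp_injective Subtype.val_injective) (hψs.comp_injective Subtype.val_injective)).2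
    have hG : ∑' w : {w // w ∉ F}, Kf T0 κ s y w ^ 2 ≤ ∑' w : {w // w ∉ F}, Gr T0 κ y w := by
      refine Summable.tsum_le_tsum (fun w => ?_)
        (hKs.comp_injective Subtype.val_injective)
        ((Gr_summable h y).comp_injective Subtype.val_injective)
      exact Kf_sq_le s y w
    have hψt' : ∑' w : {w // w ∉ F}, ψ w ^ 2 ≤ n := by
      refine le_trans ?_ hψt
      have h6 := hψs.sum_add_tsum_subtype_compl F
      have h7 : 0 ≤ ∑ w ∈ F, ψ w ^ 2 := Finset.sum_nonneg fun w _ => sq_nonneg _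
      linarith
    have hG0 : 0 ≤ ∑' w : {w // w ∉ F}, Gr T0 κ y w := tsum_nonneg fun w => by
      unfold Gr
      positivity
    have hlt : (∑' w : {w // w ∉ F}, Kf T0 κ s y w * ψ w) ^ 2 < ε ^ 2 := by
      refine lt_of_le_of_lt hcs ?_
      calc (∑' w : {w // w ∉ F}, Kf T0 κ s y w ^ 2) * ∑' w : {w // w ∉ F}, ψ w ^ 2
          ≤ (∑' w : {w // w ∉ F}, Gr T0 κ y w) * n :=
            mul_le_mul hG hψt' (tsum_nonneg fun w => sq_nonneg _) hG0
        _ ≤ (∑' w : {w // w ∉ F}, Gr T0 κ y w) * ((n : ℝ) + 1) :=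
            mul_le_mul_of_nonneg_left (by linarith) hG0
        _ < ε ^ 2 / ((n : ℝ) + 1) * ((n : ℝ) + 1) :=
            mul_lt_mul_of_pos_right hF (by positivity)
        _ = ε ^ 2 := by field_simp
    exact abs_lt_of_sq_lt_sq hlt hε.le
  refine hunif.continuous (Filter.Frequently.of_forall fun F => ?_)
  refine continuous_finsetSum _ fun w _ => ?_
  refine ((Kf_cont y w).comp (continuous_snd.comp continuous_snd)).mul ?_
  exact (continuous_apply w).comp (continuous_snd.comp (continuous_subtype_val.comp continuous_fst))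

theorem Bn_closed (h : Adm T0 κ ρ0 b) (x : Fin d → ℤ) (n : ℕ) : IsClosed (Bn T0 κ x n) := by
  haveI : CompactSpace (Xn d n) := isCompact_iff_compactSpace.1 (Xn_compact n)
  set T : Set ((Xn d n) × (((Fin d → ℤ) → ℝ) × (Sym2 (Fin d → ℤ) → Bool))) :=
    {z | z.1.1.2 x = 1} ∩ ⋂ y : Fin d → ℤ,
      {z | (∑' w, Kf T0 κ z.2.2 y w * z.1.1.2 w) + z.2.1 y * z.1.1.2 y = z.1.1.1 * z.1.1.2 y}
    with hT
  have hc : ∀ y : Fin d → ℤ,
      Continuous fun z : (Xn d n) × (((Fin d → ℤ) → ℝ) × (Sym2 (Fin d → ℤ) → Bool)) =>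
      z.1.1.2 y := fun y =>
    (continuous_apply y).comp (continuous_snd.comp (continuous_subtype_val.comp continuous_fst))
  have hTc : IsClosed T := by
    refine IsClosed.inter (isClosed_eq (hc x) continuous_const) (isClosed_iInter fun y => ?_)
    refine isClosed_eq ((row_cont h n y).add (((continuous_apply y).comp
      (continuous_fst.comp continuous_snd)).mul (hc y))) (Continuous.mul ?_ (hc y))
    exact continuous_fst.comp (continuous_subtype_val.comp continuous_fst)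
  have himg : Bn T0 κ x n = Prod.snd '' T := by
    ext q
    constructor
    · rintro ⟨E, ψ, h1, h2, h3, h4⟩
      refine ⟨(⟨(E, ψ), ⟨h1, h2⟩⟩, q), ⟨h3, mem_iInter.2 fun y => h4 y⟩, rfl⟩
    · rintro ⟨⟨⟨⟨E, ψ⟩, hX⟩, q'⟩, ⟨h3, h4⟩, rfl⟩
      exact ⟨E, ψ, hX.1, hX.2, h3, fun y => mem_iInter.1 h4 y⟩
  rw [himg]
  exact isClosedMap_snd_of_compactSpace _ hTc

/-- configurations with an eigenvector which does not vanish at `x` -/
def Bad (T0 : (Fin d → ℤ) → (Fin d → ℤ) → ℝ) (κ : (Fin d → ℤ) → ℝ) (x : Fin d → ℤ) :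
    Set (((Fin d → ℤ) → ℝ) × (Sym2 (Fin d → ℤ) → Bool)) :=
  {q | ∃ (E : ℝ) (ψ : (Fin d → ℤ) → ℝ), IsEig T0 κ q.2 q.1 E ψ ∧ ψ x ≠ 0}

theorem Bad_eq (x : Fin d → ℤ) : Bad T0 κ x = ⋃ n, Bn T0 κ x n := by
  ext q
  constructor
  · rintro ⟨E, ψ, ⟨h1, h2⟩, hx⟩
    obtain ⟨n, hn⟩ := exists_nat_ge (max |E| (∑' y, ((ψ x)⁻¹ * ψ y) ^ 2))
    have hn1 : |E| ≤ n := (le_max_left _ _).trans hn
    have hn2 : ∑' y, ((ψ x)⁻¹ * ψ y) ^ 2 ≤ n := (le_max_right _ _).trans hn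
    have hs : Summable fun y => ((ψ x)⁻¹ * ψ y) ^ 2 := by
      have := h1.mul_left ((ψ x)⁻¹ ^ 2)
      refine this.congr fun y => ?_
      ring
    refine mem_iUnion.2 ⟨n, E, fun y => (ψ x)⁻¹ * ψ y, abs_le.1 hn1, fun F => ?_,
      inv_mul_cancel₀ hx, fun y => ?_⟩
    · exact (hs.sum_le_tsum F (fun y _ => sq_nonneg _)).trans hn2
    · have h3 := h2 y
      have h4 : ∑' w, Kf T0 κ q.2 y w * ((ψ x)⁻¹ * ψ w) =
          (ψ x)⁻¹ * ∑' w, Kf T0 κ q.2 y w * ψ w := by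
        rw [← tsum_mul_left]
        refine tsum_congr fun w => ?_
        ring
      rw [h4]
      linear_combination (ψ x)⁻¹ * h3
  · intro hq
    obtain ⟨n, E, ψ, _, h2, h3, h4⟩ := mem_iUnion.1 hq
    exact ⟨E, ψ, ⟨summable_of_sum_le (fun w => sq_nonneg _) h2, h4⟩, by rw [h3]; exact one_ne_zero⟩

theorem Bad_meas (h : Adm T0 κ ρ0 b) (x : Fin d → ℤ) : MeasurableSet (Bad T0 κ x) := by
  rw [Bad_eq]
  exact MeasurableSet.iUnion fun n => (Bn_closed h x n).measurableSet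

end closed

section fubini

theorem ae_slice (h : Adm T0 κ ρ0 b) (v : NNReal) (hv : v ≠ 0) {B : ℝ}
    (hlong : LongR κ B) (x : Fin d → ℤ) :
    ∀ᵐ q ∂((PV d v).prod (Ps d)), ∀ᵐ E : ℝ,
      ¬ ∃ t ψ, IsEig T0 κ q.2 (Function.update q.1 x t) E ψ ∧ ψ x ≠ 0 := by
  have h0 := inf_ae h v hv hlong x
  have m5 : MeasurePreserving
      (Prod.map id (Prod.map (fun p : ((Fin d → ℤ) → ℝ) × ℝ => Function.update p.1 x p.2) id))
      ((volume : Measure ℝ).prod (((PV d v).prod (gaussianReal 0 v)).prod (Ps d)))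
      ((volume : Measure ℝ).prod ((PV d v).prod (Ps d))) :=
    (MeasurePreserving.id (volume : Measure ℝ)).prod
      ((update_mp v x).prod (MeasurePreserving.id (Ps d)))
  have m4 : MeasurePreserving (Prod.map id (Prod.map Prod.swap id))
      ((volume : Measure ℝ).prod (((gaussianReal 0 v).prod (PV d v)).prod (Ps d)))
      ((volume : Measure ℝ).prod (((PV d v).prod (gaussianReal 0 v)).prod (Ps d))) :=
    (MeasurePreserving.id (volume : Measure ℝ)).prod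
      ((Measure.measurePreserving_swap (μ := gaussianReal 0 v) (ν := PV d v)).prod
        (MeasurePreserving.id (Ps d)))
  have m3 := (MeasurePreserving.id (volume : Measure ℝ)).prod
    ((measurePreserving_prodAssoc (gaussianReal 0 v) (PV d v) (Ps d)).symm)
  have m2 := measurePreserving_prodAssoc (volume : Measure ℝ) (gaussianReal 0 v)
    ((PV d v).prod (Ps d))
  have m1 := Measure.measurePreserving_swap (μ := (PV d v).prod (Ps d))
    (ν := (volume : Measure ℝ).prod (gaussianReal 0 v))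
  have m := m5.comp (m4.comp (m3.comp (m2.comp m1)))
  have h1 := m.quasiMeasurePreserving.ae h0
  have h2 := Measure.ae_ae_of_ae_prod h1
  filter_upwards [h2] with q hq
  have h3 := Measure.ae_ae_of_ae_prod hq
  filter_upwards [h3] with E hE
  rintro ⟨t', ψ, hψ, hx⟩
  haveI := nullSingletonClass_gaussianReal (μ := 0) hv
  have h4 : ∀ᵐ t ∂(gaussianReal 0 v), t ≠ t' := by
    rw [ae_iff]
    simp
  obtain ⟨t, ht, htt⟩ := (hE.and h4).exists
  have ht' : ∀ M : ℕ, InfN T0 κ q.2 (Function.update q.1 x t) E x M := ht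
  have h5 := kill h q.2 (Function.update q.1 x t) E x ht' t' ψ
    (by rw [Function.update_idem]; exact hψ) hx
  rw [Function.update_self] at h5
  exact htt h5.symm

theorem Bad_null (h : Adm T0 κ ρ0 b) (hρ0 : 0 ≤ ρ0) (v : NNReal) (hv : v ≠ 0) {B θ : ℝ}
    (hθ : 0 < θ) (hs : Summable fun z : Fin d → ℤ => ‖z‖ ^ θ * κ z ^ 2)
    (hlong : LongR κ B) (x : Fin d → ℤ) : ((PV d v).prod (Ps d)) (Bad T0 κ x) = 0 := by
  have hcut : ∀ᵐ q ∂((PV d v).prod (Ps d)), CutOK T0 κ q.2 :=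
    Measure.quasiMeasurePreserving_snd.ae (cutOK_ae h hρ0 hθ hs)
  have h1 : ∀ᵐ q ∂((PV d v).prod (Ps d)), ∀ᵐ t ∂(gaussianReal 0 v),
      ¬ ∃ E ψ, IsEig T0 κ q.2 (Function.update q.1 x t) E ψ ∧ ψ x ≠ 0 := by
    filter_upwards [hcut, ae_slice h v hv hlong x] with q hq1 hq2
    exact (gaussianReal_absolutelyContinuous 0 hv).ae_le (null_slice h q.2 hq1 q.1 x hq2)
  -- the measure preserving map
  have m2 : MeasurePreserving
      (Prod.map (fun p : ((Fin d → ℤ) → ℝ) × ℝ => Function.update p.1 x p.2) id)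
      (((PV d v).prod (gaussianReal 0 v)).prod (Ps d)) ((PV d v).prod (Ps d)) :=
    (update_mp v x).prod (MeasurePreserving.id (Ps d))
  -- `((V, s), t) ↦ ((V, t), s)`
  have m1a := measurePreserving_prodAssoc (PV d v) (Ps d) (gaussianReal 0 v)
  have m1b := (MeasurePreserving.id (PV d v)).prod
    (Measure.measurePreserving_swap (μ := Ps d) (ν := gaussianReal 0 v))
  have m1c := (measurePreserving_prodAssoc (PV d v) (gaussianReal 0 v) (Ps d)).symm
  have m := m2.comp (m1c.comp (m1b.comp m1a))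
  have hm := Bad_meas h x
  rw [← m.measure_preimage hm.nullMeasurableSet]
  rw [Measure.measure_prod_null (m.measurable hm)]
  filter_upwards [h1] with q hq
  rw [ae_iff] at hq
  simp only [not_not] at hq
  exact hq

/-- almost surely there is no square summable eigenfunction -/
theorem no_eig (h : Adm T0 κ ρ0 b) (hρ0 : 0 ≤ ρ0) (v : NNReal) (hv : v ≠ 0) {B θ : ℝ}
    (hθ : 0 < θ) (hs : Summable fun z : Fin d → ℤ => ‖z‖ ^ θ * κ z ^ 2)
    (hlong : LongR κ B) :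
    ∀ᵐ q ∂((PV d v).prod (Ps d)), ∀ (E : ℝ) (ψ : (Fin d → ℤ) → ℝ),
      IsEig T0 κ q.2 q.1 E ψ → ψ = 0 := by
  have h1 : ∀ᵐ q ∂((PV d v).prod (Ps d)), ∀ x, q ∉ Bad T0 κ x := by
    rw [ae_all_iff]
    intro x
    rw [ae_iff]
    simp only [not_not]
    exact Bad_null h hρ0 v hv hθ hs hlong x
  filter_upwards [h1] with q hq E ψ hψ
  funext x
  by_contra hx
  exact hq x ⟨E, ψ, hψ, hx⟩

end fubini

end V1176PL
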