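import Mathlib

/-!
Deterministic part of a Khintchine inequality for antisymmetric sign matrices.
-/

namespace V1176PL

open Matrix

/-- a log-convex sequence lies below the chord -/
theorem seq_lc {y : ℕ → ℝ} (hy0 : ∀ q, 0 ≤ y q) (hy : ∀ q, y (q + 1) ^ 2 ≤ y q * y (q + 2))
    {p : ℕ} {A ζ : ℝ} (hA : 0 < A) (hζ : 0 < ζ) (h0 : y 0 ≤ A) (hp : y p ≤ A * ζ ^ p) :
    ∀ q ≤ p, y q ≤ A * ζ ^ q := by
  by_contra hcon
  push Not at hcon
  -- normalised sequence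
  set w : ℕ → ℝ := fun q => y q / (A * ζ ^ q) with hw
  have hden : ∀ q, 0 < A * ζ ^ q := fun q => by positivity
  have hw0 : ∀ q, 0 ≤ w q := fun q => div_nonneg (hy0 q) (hden q).le
  have hwlc : ∀ q, w (q + 1) ^ 2 ≤ w q * w (q + 2) := by
    intro q
    have h1 := hden q
    have h2 := hden (q + 1)
    have h3 := hden (q + 2)
    simp only [hw]
    rw [div_pow, div_mul_div_comm]
    have e : A * ζ ^ q * (A * ζ ^ (q + 2)) = (A * ζ ^ (q + 1)) ^ 2 := by ring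
    rw [e]
    exact div_le_div_of_nonneg_right (hy q) (by positivity)
  obtain ⟨q1, hq1, hq1'⟩ := hcon
  have hbig : 1 < w q1 := by
    simp only [hw]
    rw [lt_div_iff₀ (hden q1), one_mul]
    exact hq1'
  -- a maximiser on `0..p`
  obtain ⟨qm, hqm, hmax⟩ := Finset.exists_max_image (Finset.range (p + 1)) w
    ⟨q1, Finset.mem_range.2 (by omega)⟩
  have hM : 1 < w qm := lt_of_lt_of_le hbig (hmax q1 (Finset.mem_range.2 (by omega)))
  -- the smallest index with the maximal value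
  have hex : ∃ q, q ≤ p ∧ w q = w qm := ⟨qm, by have := Finset.mem_range.1 hqm; omega, rfl⟩
  classical
  have hs := Nat.find_spec hex
  set q0 := Nat.find hex with hq0
  obtain ⟨hq0p, hq0w⟩ := hs
  have hw00 : w 0 ≤ 1 := by
    simp only [hw]
    rw [div_le_one (hden 0)]
    simpa using h0
  have hwp : w p ≤ 1 := by
    simp only [hw]
    rw [div_le_one (hden p)]
    exact hp
  have hne0 : q0 ≠ 0 := by
    intro h
    rw [h] at hq0w
    linarith
  have hnep : q0 ≠ p := by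
    intro h
    rw [h] at hq0w
    linarith
  obtain ⟨q', hq'⟩ := Nat.exists_eq_succ_of_ne_zero hne0
  have h1 := hwlc q'
  have h2 : w (q' + 1) = w qm := by rw [← hq0w, hq']
  have h3 : w (q' + 2) ≤ w qm := hmax _ (Finset.mem_range.2 (by omega))
  have h4 : w q' < w qm := by
    have h5 : w q' ≤ w qm := hmax _ (Finset.mem_range.2 (by omega))
    refine lt_of_le_of_ne h5 (fun h6 => ?_)
    have := Nat.find_min hex (m := q') (by omega)
    exact this ⟨by omega, h6⟩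
  rw [h2] at h1
  have h5 := hw0 q'
  have h6 := hw0 (q' + 2)
  nlinarith

section det

variable {ι : Type*} [Fintype ι] [DecidableEq ι]

/-- squared length of `C ^ q v` -/
def yy (C : Matrix ι ι ℝ) (v : ι → ℝ) (q : ℕ) : ℝ := ((C ^ q) *ᵥ v) ⬝ᵥ ((C ^ q) *ᵥ v)

theorem dot_self_nonneg (v : ι → ℝ) : 0 ≤ v ⬝ᵥ v := by
  unfold dotProduct
  exact Finset.sum_nonneg fun i _ => mul_self_nonneg _

theorem yy_nonneg (C : Matrix ι ι ℝ) (v : ι → ℝ) (q : ℕ) : 0 ≤ yy C v q := dot_self_nonneg _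

theorem dot_cs (u v : ι → ℝ) : (u ⬝ᵥ v) ^ 2 ≤ (u ⬝ᵥ u) * (v ⬝ᵥ v) := by
  unfold dotProduct
  have := Finset.sum_mul_sq_le_sq_mul_sq Finset.univ u v
  simpa [sq] using this

theorem pow_transpose (C : Matrix ι ι ℝ) (hC : Cᵀ = -C) (q : ℕ) :
    (C ^ q)ᵀ = (-1 : ℝ) ^ q • C ^ q := by
  rw [Matrix.transpose_pow, hC]
  rw [show -C = (-1 : ℝ) • C by simp, smul_pow]

theorem dot_pow (C : Matrix ι ι ℝ) (hC : Cᵀ = -C) (q : ℕ) (u v : ι → ℝ) :
    ((C ^ q) *ᵥ u) ⬝ᵥ v = (-1 : ℝ) ^ q * (u ⬝ᵥ ((C ^ q) *ᵥ v)) := by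
  rw [Matrix.dotProduct_mulVec, ← Matrix.mulVec_transpose, pow_transpose C hC, Matrix.smul_mulVec,
    smul_dotProduct, smul_eq_mul, ← mul_assoc, ← mul_pow]
  norm_num

theorem yy_lc (C : Matrix ι ι ℝ) (hC : Cᵀ = -C) (v : ι → ℝ) (q : ℕ) :
    yy C v (q + 1) ^ 2 ≤ yy C v q * yy C v (q + 2) := by
  have h1 : yy C v (q + 1) = - (((C ^ q) *ᵥ v) ⬝ᵥ ((C ^ (q + 2)) *ᵥ v)) := by
    unfold yy
    have e1 : (C ^ (q + 1)) *ᵥ v = (C ^ 1) *ᵥ ((C ^ q) *ᵥ v) := by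
      rw [Matrix.mulVec_mulVec, ← pow_add, add_comm]
    have e2 : (C ^ (q + 2)) *ᵥ v = (C ^ 1) *ᵥ ((C ^ (q + 1)) *ᵥ v) := by
      rw [Matrix.mulVec_mulVec, ← pow_add]
      congr 2
      omega
    rw [e2]
    nth_rewrite 1 [e1]
    rw [dot_pow C hC 1]
    ring
  rw [h1, neg_sq]
  exact dot_cs _ _

theorem yy_zero (C : Matrix ι ι ℝ) (v : ι → ℝ) : yy C v 0 = v ⬝ᵥ v := by
  unfold yy
  simp

theorem yy_chord (C : Matrix ι ι ℝ) (hC : Cᵀ = -C) (v : ι → ℝ) {p : ℕ} {A ζ : ℝ} (hA : 0 < A)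
    (hζ : 0 < ζ) (h0 : v ⬝ᵥ v ≤ A) (hp : yy C v p ≤ A * ζ ^ p) (q : ℕ) (hq : q ≤ p) :
    yy C v q ≤ A * ζ ^ q :=
  seq_lc (yy_nonneg C v) (yy_lc C hC v) hA hζ (by rw [yy_zero]; exact h0) hp q hq

/-- entries of powers -/
theorem entry_sq (C : Matrix ι ι ℝ) (hC : Cᵀ = -C) (q q' : ℕ) (i j : ι) :
    ((C ^ (q + q')) j i) ^ 2 ≤ yy C (Pi.single j 1) q * yy C (Pi.single i 1) q' := by
  have h1 : (C ^ (q + q')) j i = (Pi.single j 1 : ι → ℝ) ⬝ᵥ
      ((C ^ q) *ᵥ ((C ^ q') *ᵥ (Pi.single i 1))) := by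
    rw [Matrix.mulVec_mulVec, ← pow_add]
    simp
  have h2 := dot_pow C hC q (Pi.single j 1) ((C ^ q') *ᵥ (Pi.single i 1))
  have h3 : ((C ^ (q + q')) j i) ^ 2 =
      (((C ^ q) *ᵥ (Pi.single j 1)) ⬝ᵥ ((C ^ q') *ᵥ (Pi.single i 1))) ^ 2 := by
    rw [h2, h1, mul_pow, ← pow_mul, mul_comm q 2, pow_mul]
    norm_num
  rw [h3]
  exact dot_cs _ _

theorem entry_abs (C : Matrix ι ι ℝ) (hC : Cᵀ = -C) {p : ℕ} (hp : 0 < p) {Z : ℝ} (hZ : 0 < Z)
    (i j : ι) (hi : yy C (Pi.single i 1) p ≤ Z) (hj : yy C (Pi.single j 1) p ≤ Z) (k : ℕ)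
    (hk : k ≤ 2 * p) : ((C ^ k) j i) ^ 2 ≤ (Z ^ ((1 : ℝ) / p)) ^ k := by
  set ζ := Z ^ ((1 : ℝ) / p) with hζd
  have hζ : 0 < ζ := Real.rpow_pos_of_pos hZ _
  have hζp : ζ ^ p = Z := by
    rw [hζd, ← Real.rpow_natCast, ← Real.rpow_mul hZ.le]
    have : (1 : ℝ) / p * p = 1 := by
      have : (p : ℝ) ≠ 0 := by exact_mod_cast hp.ne'
      field_simp
    rw [this, Real.rpow_one]
  have hone : ∀ i : ι, (Pi.single i 1 : ι → ℝ) ⬝ᵥ (Pi.single i 1 : ι → ℝ) ≤ 1 := by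
    intro i
    simp
  obtain ⟨q, q', hqq, hq, hq'⟩ : ∃ q q', q + q' = k ∧ q ≤ p ∧ q' ≤ p :=
    ⟨k / 2, k - k / 2, by omega, by omega, by omega⟩
  rw [← hqq]
  refine (entry_sq C hC q q' i j).trans ?_
  have h1 := yy_chord C hC (Pi.single j 1) (A := 1) one_pos hζ (hone j) (p := p)
    (by rw [hζp, one_mul]; exact hj) q hq
  have h2 := yy_chord C hC (Pi.single i 1) (A := 1) one_pos hζ (hone i) (p := p)
    (by rw [hζp, one_mul]; exact hi) q' hq'
  rw [one_mul] at h1 h2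
  rw [pow_add]
  exact mul_le_mul h1 h2 (yy_nonneg _ _ _) (by positivity)

/-- telescoping -/
theorem pow_sub (C C' : Matrix ι ι ℝ) (n : ℕ) :
    C ^ n - C' ^ n = ∑ k ∈ Finset.range n, C ^ k * (C - C') * C' ^ (n - 1 - k) := by
  induction n with
  | zero => simp
  | succ n ih =>
    rw [Finset.sum_range_succ]
    have h1 : ∑ k ∈ Finset.range n, C ^ k * (C - C') * C' ^ (n + 1 - 1 - k) =
        (∑ k ∈ Finset.range n, C ^ k * (C - C') * C' ^ (n - 1 - k)) * C' := by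
      rw [Finset.sum_mul]
      refine Finset.sum_congr rfl fun k hk => ?_
      have hk' := Finset.mem_range.1 hk
      have : n + 1 - 1 - k = (n - 1 - k) + 1 := by omega
      rw [this, pow_succ]
      simp only [Matrix.mul_assoc]
    rw [h1, ← ih]
    simp only [add_tsub_cancel_right, tsub_self, pow_zero, mul_one]
    rw [pow_succ, pow_succ]
    noncomm_ring

/-- the effect of flipping one pair of entries -/
theorem flip_bound (C C' : Matrix ι ι ℝ) (hC : Cᵀ = -C) (hC' : C'ᵀ = -C') (i j : ι) (c : ℝ)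
    (hD : C - C' = (2 * c) • (Matrix.single i j 1 - Matrix.single j i 1)) {p : ℕ} (hp : 0 < p)
    {Z : ℝ} (hZ : 0 < Z)
    (h1 : yy C (Pi.single i 1) p ≤ Z) (h2 : yy C (Pi.single j 1) p ≤ Z)
    (h3 : yy C' (Pi.single i 1) p ≤ Z) (h4 : yy C' (Pi.single j 1) p ≤ Z) :
    |c * ((C ^ (2 * p + 1) - C' ^ (2 * p + 1)) j i)| ≤ 4 * (2 * p + 1) * c ^ 2 * Z := by
  set ζ := Z ^ ((1 : ℝ) / p) with hζd
  have hζ : 0 < ζ := Real.rpow_pos_of_pos hZ _
  have hζp : ζ ^ p = Z := by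
    rw [hζd, ← Real.rpow_natCast, ← Real.rpow_mul hZ.le]
    have : (1 : ℝ) / p * p = 1 := by
      have : (p : ℝ) ≠ 0 := by exact_mod_cast hp.ne'
      field_simp
    rw [this, Real.rpow_one]
  rw [pow_sub C C' (2 * p + 1), Matrix.sum_apply, Finset.mul_sum]
  refine (Finset.abs_sum_le_sum_abs _ _).trans ?_
  have hterm : ∀ k ∈ Finset.range (2 * p + 1),
      |c * (C ^ k * (C - C') * C' ^ (2 * p + 1 - 1 - k)) j i| ≤ 4 * c ^ 2 * Z := by
    intro k hk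
    have hk' := Finset.mem_range.1 hk
    obtain ⟨m, hm⟩ : ∃ m, m = 2 * p + 1 - 1 - k := ⟨_, rfl⟩
    have hkm : k + m = 2 * p := by omega
    rw [← hm, hD]
    have e : (C ^ k * ((2 * c) • (Matrix.single i j (1 : ℝ) - Matrix.single j i 1)) * C' ^ m :
        Matrix ι ι ℝ) j i =
        2 * c * ((C ^ k) j i * (C' ^ m) j i - (C ^ k) j j * (C' ^ m) i i) := by
      have e1 : (C ^ k * ((2 * c) • (Matrix.single i j (1 : ℝ) - Matrix.single j i 1)) * C' ^ m :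
          Matrix ι ι ℝ) = (2 * c) • (C ^ k * Matrix.single i j (1 : ℝ) * C' ^ m -
            C ^ k * Matrix.single j i (1 : ℝ) * C' ^ m) := by
        rw [Matrix.mul_smul, Matrix.smul_mul, Matrix.mul_sub, Matrix.sub_mul]
      rw [e1, Matrix.smul_apply, Matrix.sub_apply, smul_eq_mul]
      have e2 : ∀ a b : ι, (C ^ k * Matrix.single a b (1 : ℝ) * C' ^ m) j i =
          (C ^ k) j a * (C' ^ m) b i := by
        intro a b
        rw [Matrix.mul_assoc, Matrix.mul_apply, Finset.sum_eq_single a]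
        · rw [Matrix.single_mul_apply_same, one_mul]
        · intro l _ hl
          rw [Matrix.single_mul_apply_of_ne _ _ _ _ _ hl, mul_zero]
        · intro h
          exact absurd (Finset.mem_univ _) h
      rw [e2, e2]
    rw [e]
    have b1 := entry_abs C hC hp hZ i j h1 h2 k (by omega)
    have b2 := entry_abs C' hC' hp hZ i j h3 h4 m (by omega)
    have b3 := entry_abs C hC hp hZ j j h2 h2 k (by omega)
    have b4 := entry_abs C' hC' hp hZ i i h3 h3 m (by omega)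
    rw [← hζd] at b1 b2 b3 b4
    have hprod : ζ ^ k * ζ ^ m = Z ^ 2 := by
      rw [← pow_add, hkm, mul_comm, pow_mul, hζp]
    have b5 : |(C ^ k) j i * (C' ^ m) j i| ≤ Z := by
      apply abs_le_of_sq_le_sq _ hZ.le
      rw [mul_pow, ← hprod]
      exact mul_le_mul b1 b2 (sq_nonneg _) (by positivity)
    have b6 : |(C ^ k) j j * (C' ^ m) i i| ≤ Z := by
      apply abs_le_of_sq_le_sq _ hZ.le
      rw [mul_pow, ← hprod]
      exact mul_le_mul b3 b4 (sq_nonneg _) (by positivity)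
    have e3 : c * (2 * c * ((C ^ k) j i * (C' ^ m) j i - (C ^ k) j j * (C' ^ m) i i)) =
        2 * c ^ 2 * ((C ^ k) j i * (C' ^ m) j i - (C ^ k) j j * (C' ^ m) i i) := by ring
    rw [e3, abs_mul, abs_of_nonneg (show 0 ≤ 2 * c ^ 2 by positivity)]
    have b7 := abs_sub ((C ^ k) j i * (C' ^ m) j i) ((C ^ k) j j * (C' ^ m) i i)
    have : 0 ≤ c ^ 2 := sq_nonneg c
    nlinarith
  refine (Finset.sum_le_sum hterm).trans ?_
  rw [Finset.sum_const, Finset.card_range, nsmul_eq_mul]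
  push_cast
  apply le_of_eq
  ring

/-- Hilbert-Schmidt norm squared -/
def hs (M : Matrix ι ι ℝ) : ℝ := ∑ i, ∑ j, M i j ^ 2

theorem hs_nonneg (M : Matrix ι ι ℝ) : 0 ≤ hs M :=
  Finset.sum_nonneg fun _ _ => Finset.sum_nonneg fun _ _ => sq_nonneg _

theorem yy_single (C : Matrix ι ι ℝ) (q : ℕ) (i : ι) :
    yy C (Pi.single i 1) q = ∑ l, (C ^ q) l i ^ 2 := by
  unfold yy dotProduct
  simp [sq]

theorem hs_eq_sum (C : Matrix ι ι ℝ) (q : ℕ) : hs (C ^ q) = ∑ i, yy C (Pi.single i 1) q := by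
  unfold hs
  rw [Finset.sum_comm]
  refine Finset.sum_congr rfl fun i _ => ?_
  rw [yy_single]

theorem hs_trace (C : Matrix ι ι ℝ) (hC : Cᵀ = -C) (p : ℕ) :
    hs (C ^ (p + 1)) = (-1) ^ (p + 1) * ∑ i, ∑ j, C i j * (C ^ (2 * p + 1)) j i := by
  have h1 : ∑ i, ∑ j, C i j * (C ^ (2 * p + 1)) j i = ∑ i, (C ^ (p + 1) * C ^ (p + 1)) i i := by
    refine Finset.sum_congr rfl fun i _ => ?_
    rw [← Matrix.mul_apply, ← pow_succ', ← pow_add]
    have : 2 * p + 1 + 1 = p + 1 + (p + 1) := by omega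
    rw [this]
  rw [h1, Finset.mul_sum]
  unfold hs
  refine Finset.sum_congr rfl fun i _ => ?_
  rw [Matrix.mul_apply, Finset.mul_sum]
  refine Finset.sum_congr rfl fun j _ => ?_
  have h2 : (C ^ (p + 1)) j i = (-1) ^ (p + 1) * (C ^ (p + 1)) i j := by
    have := congrFun (congrFun (pow_transpose C hC (p + 1)) i) j
    rw [Matrix.transpose_apply, Matrix.smul_apply, smul_eq_mul] at this
    exact this
  rw [h2]
  have h3 : ((-1 : ℝ) ^ (p + 1)) * (-1) ^ (p + 1) = 1 := by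
    rw [← mul_pow]
    norm_num
  linear_combination (-(C ^ (p + 1)) i j ^ 2) * h3

/-- small Hilbert-Schmidt norm of a power makes the bilinear form small -/
theorem form_small (C : Matrix ι ι ℝ) (hC : Cᵀ = -C) {p : ℕ} (hp : 0 < p) {ε : ℝ} (hε : 0 < ε)
    (h : hs (C ^ p) ≤ ε ^ (2 * p)) (u v : ι → ℝ) :
    |u ⬝ᵥ (C *ᵥ v)| ≤ ε * (u ⬝ᵥ u + v ⬝ᵥ v) := by
  have hv0 := dot_self_nonneg v
  have hu0 := dot_self_nonneg u
  have h1 : yy C v p ≤ (v ⬝ᵥ v) * (ε ^ 2) ^ p := by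
    have h2 : yy C v p ≤ hs (C ^ p) * (v ⬝ᵥ v) := by
      unfold yy hs
      unfold dotProduct
      rw [Finset.sum_mul]
      refine Finset.sum_le_sum fun i _ => ?_
      have := Finset.sum_mul_sq_le_sq_mul_sq Finset.univ (fun j => (C ^ p) i j) v
      unfold mulVec dotProduct
      simpa [sq] using this
    rw [← pow_mul]
    refine h2.trans ?_
    rw [mul_comm]
    exact mul_le_mul_of_nonneg_left h hv0
  have h3 : yy C v 1 ≤ ε ^ 2 * (v ⬝ᵥ v) := by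
    apply le_of_forall_pos_le_add
    intro δ hδ
    set A := v ⬝ᵥ v + δ / ε ^ 2 with hA
    have hA0 : 0 < A := by positivity
    have h4 := yy_chord C hC v hA0 (show 0 < ε ^ 2 by positivity) (p := p)
      (by rw [hA]; have : 0 ≤ δ / ε ^ 2 := by positivity
          linarith)
      (h1.trans (mul_le_mul_of_nonneg_right (by rw [hA]; have : 0 ≤ δ / ε ^ 2 := by positivity
                                                linarith) (by positivity))) 1 hp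
    rw [hA] at h4
    refine h4.trans (le_of_eq ?_)
    field_simp
  have h5 : yy C v 1 = (C *ᵥ v) ⬝ᵥ (C *ᵥ v) := by
    unfold yy
    rw [pow_one]
  rw [h5] at h3
  have h6 := dot_cs u (C *ᵥ v)
  have h7 : (u ⬝ᵥ (C *ᵥ v)) ^ 2 ≤ (ε * (u ⬝ᵥ u + v ⬝ᵥ v)) ^ 2 := by
    refine h6.trans ?_
    calc (u ⬝ᵥ u) * ((C *ᵥ v) ⬝ᵥ (C *ᵥ v)) ≤ (u ⬝ᵥ u) * (ε ^ 2 * (v ⬝ᵥ v)) :=
          mul_le_mul_of_nonneg_left h3 hu0
      _ ≤ (ε * (u ⬝ᵥ u + v ⬝ᵥ v)) ^ 2 := by
          rw [mul_pow]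
          have : 0 < ε ^ 2 := by positivity
          nlinarith [mul_nonneg hu0 hv0, sq_nonneg (u ⬝ᵥ u), sq_nonneg (v ⬝ᵥ v)]
  exact abs_le_of_sq_le_sq h7 (by positivity)

end det

end V1176PL
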