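import Pool.Agent.V1176.PLKh
import Pool.Agent.H10R2.PL.Prob

/-!
Khintchine inequality for antisymmetric sign matrices.
-/

namespace V1176PL

open MeasureTheory Matrix H10PL

variable {d : ℕ}

/-- sign matrix with weights `a` -/
def Cs (Λ : Finset (Fin d → ℤ)) (a : (Fin d → ℤ) → (Fin d → ℤ) → ℝ)
    (s : Sym2 (Fin d → ℤ) → Bool) : Matrix Λ Λ ℝ :=
  fun i j => a i j * sg (s s((i : Fin d → ℤ), (j : Fin d → ℤ)))

instance : Countable (Sym2 (Fin d → ℤ)) := by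
  unfold Sym2
  infer_instance

theorem intg {F : (Sym2 (Fin d → ℤ) → Bool) → ℝ} (hF : Continuous F) : Integrable F (Ps d) := by
  refine hF.integrable_of_hasCompactSupport ?_
  exact HasCompactSupport.of_compactSpace F

theorem sg_cont : Continuous sg := continuous_of_discreteTopology

theorem Cs_cont (Λ : Finset (Fin d → ℤ)) (a : (Fin d → ℤ) → (Fin d → ℤ) → ℝ) :
    Continuous (Cs Λ a) := by
  refine continuous_matrix fun i j => ?_
  unfold Cs
  exact continuous_const.mul (sg_cont.comp (continuous_apply _))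

theorem Cs_pow_cont (Λ : Finset (Fin d → ℤ)) (a : (Fin d → ℤ) → (Fin d → ℤ) → ℝ) (k : ℕ)
    (i j : Λ) : Continuous fun s => (Cs Λ a s ^ k) i j :=
  ((Cs_cont Λ a).pow k).matrix_elem i j

theorem Cs_tr {a : (Fin d → ℤ) → (Fin d → ℤ) → ℝ} (ha : ∀ y w, a w y = -a y w)
    (Λ : Finset (Fin d → ℤ)) (s : Sym2 (Fin d → ℤ) → Bool) : (Cs Λ a s)ᵀ = -Cs Λ a s := by
  ext i j
  rw [Matrix.transpose_apply, Matrix.neg_apply]
  unfold Cs
  rw [ha i j, Sym2.eq_swap]
  ring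

theorem sg_sq' (c : Bool) : sg c ^ 2 = 1 := by
  unfold sg
  split_ifs <;> norm_num

theorem Cs_sq (a : (Fin d → ℤ) → (Fin d → ℤ) → ℝ)
    (Λ : Finset (Fin d → ℤ)) (s : Sym2 (Fin d → ℤ) → Bool) (i j : Λ) :
    (Cs Λ a s i j) ^ 2 = a i j ^ 2 := by
  unfold Cs
  rw [mul_pow, sg_sq', mul_one]

open Classical in
/-- flip one edge -/
noncomputable def fl (y w : Fin d → ℤ) (s : Sym2 (Fin d → ℤ) → Bool) :
    Sym2 (Fin d → ℤ) → Bool := flipS {s(y, w)} s

theorem fl_mp (y w : Fin d → ℤ) : MeasurePreserving (fl y w) (Ps d) (Ps d) := by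
  classical
  exact flip_mp _

theorem fl_fl (y w : Fin d → ℤ) (s : Sym2 (Fin d → ℤ) → Bool) : fl y w (fl y w s) = s := by
  classical
  funext e
  unfold fl flipS
  split_ifs <;> simp

theorem fl_same (y w : Fin d → ℤ) (s : Sym2 (Fin d → ℤ) → Bool) :
    sg (fl y w s s(y, w)) = - sg (s s(y, w)) := by
  classical
  unfold fl flipS
  simp only [Set.mem_singleton_iff, if_true]
  cases s s(y, w) <;> simp [sg]

theorem fl_ne (y w : Fin d → ℤ) (s : Sym2 (Fin d → ℤ) → Bool) {e : Sym2 (Fin d → ℤ)}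
    (he : e ≠ s(y, w)) : fl y w s e = s e := by
  classical
  unfold fl flipS
  rw [if_neg]
  simpa using he

theorem Cs_flip {a : (Fin d → ℤ) → (Fin d → ℤ) → ℝ} (ha : ∀ y w, a w y = -a y w)
    (Λ : Finset (Fin d → ℤ)) (s : Sym2 (Fin d → ℤ) → Bool) (i j : Λ) :
    Cs Λ a s - Cs Λ a (fl i j s) =
      (2 * Cs Λ a s i j) • (Matrix.single i j 1 - Matrix.single j i 1) := by
  have haii : ∀ y, a y y = 0 := by
    intro y
    have := ha y y
    linarith
  ext k l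
  rw [Matrix.sub_apply, Matrix.smul_apply, Matrix.sub_apply, smul_eq_mul, Matrix.single_apply,
    Matrix.single_apply]
  by_cases hkl : s((k : Fin d → ℤ), (l : Fin d → ℤ)) = s((i : Fin d → ℤ), (j : Fin d → ℤ))
  · have h1 : Cs Λ a (fl i j s) k l = - Cs Λ a s k l := by
      unfold Cs
      rw [hkl, fl_same, mul_neg]
    rw [h1]
    rcases Sym2.eq_iff.1 hkl with ⟨h2, h3⟩ | ⟨h2, h3⟩
    · have h2' : k = i := Subtype.ext h2
      have h3' : l = j := Subtype.ext h3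
      subst h2' h3'
      by_cases hkl' : k = l
      · subst hkl'
        have : Cs Λ a s k k = 0 := by
          unfold Cs
          rw [haii, zero_mul]
        rw [this]
        simp
      · simp [hkl', Ne.symm hkl']
        ring
    · have h2' : k = j := Subtype.ext h2
      have h3' : l = i := Subtype.ext h3
      subst h2' h3'
      by_cases hkl' : k = l
      · subst hkl'
        have : Cs Λ a s k k = 0 := by
          unfold Cs
          rw [haii, zero_mul]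
        rw [this]
        simp
      · have h4 : Cs Λ a s k l = - Cs Λ a s l k := by
          unfold Cs
          rw [ha l k, Sym2.eq_swap]
          ring
        simp [hkl', Ne.symm hkl', h4]
        ring
  · have h1 : Cs Λ a (fl i j s) k l = Cs Λ a s k l := by
      unfold Cs
      rw [fl_ne _ _ _ hkl]
    rw [h1, sub_self]
    have h2 : ¬ (i = k ∧ j = l) := by
      rintro ⟨rfl, rfl⟩
      exact hkl rfl
    have h3 : ¬ (j = k ∧ i = l) := by
      rintro ⟨rfl, rfl⟩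
      exact hkl Sym2.eq_swap
    rw [if_neg h2, if_neg h3]
    ring

/-- expected value of `yy` -/
noncomputable def Yv (Λ : Finset (Fin d → ℤ)) (a : (Fin d → ℤ) → (Fin d → ℤ) → ℝ) (p : ℕ)
    (i : Λ) : ℝ := ∫ s, yy (Cs Λ a s) (Pi.single i 1) p ∂(Ps d)

/-- expected Hilbert-Schmidt norm -/
noncomputable def Ph (Λ : Finset (Fin d → ℤ)) (a : (Fin d → ℤ) → (Fin d → ℤ) → ℝ) (p : ℕ) : ℝ :=
  ∫ s, hs (Cs Λ a s ^ p) ∂(Ps d)

theorem yy_cont (Λ : Finset (Fin d → ℤ)) (a : (Fin d → ℤ) → (Fin d → ℤ) → ℝ) (p : ℕ) (i : Λ) :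
    Continuous fun s => yy (Cs Λ a s) (Pi.single i 1) p := by
  simp_rw [yy_single]
  exact continuous_finsetSum _ fun l _ => (Cs_pow_cont Λ a p l i).pow 2

theorem hs_cont (Λ : Finset (Fin d → ℤ)) (a : (Fin d → ℤ) → (Fin d → ℤ) → ℝ) (p : ℕ) :
    Continuous fun s => hs (Cs Λ a s ^ p) := by
  unfold hs
  exact continuous_finsetSum _ fun i _ => continuous_finsetSum _ fun j _ =>
    (Cs_pow_cont Λ a p i j).pow 2

theorem Ph_eq (Λ : Finset (Fin d → ℤ)) (a : (Fin d → ℤ) → (Fin d → ℤ) → ℝ) (p : ℕ) :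
    Ph Λ a p = ∑ i, Yv Λ a p i := by
  unfold Ph Yv
  rw [← integral_finsetSum _ fun i _ => intg (yy_cont Λ a p i)]
  refine integral_congr_ae (Filter.Eventually.of_forall fun s => ?_)
  exact hs_eq_sum _ _

theorem term_bound {a : (Fin d → ℤ) → (Fin d → ℤ) → ℝ} (ha : ∀ y w, a w y = -a y w)
    (Λ : Finset (Fin d → ℤ)) {p : ℕ} (hp : 0 < p) (i j : Λ) :
    |∫ s, Cs Λ a s i j * (Cs Λ a s ^ (2 * p + 1)) j i ∂(Ps d)| ≤
      4 * (2 * p + 1) * a i j ^ 2 * (Yv Λ a p i + Yv Λ a p j) := by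
  set F : (Sym2 (Fin d → ℤ) → Bool) → ℝ :=
    fun s => Cs Λ a s i j * (Cs Λ a s ^ (2 * p + 1)) j i with hF
  have hCc : ∀ k l : Λ, Continuous fun s => Cs Λ a s k l := by
    intro k l
    have := Cs_pow_cont Λ a 1 k l
    simpa using this
  have hFc : Continuous F := (hCc i j).mul (Cs_pow_cont Λ a (2 * p + 1) j i)
  have hflc : Continuous (fl (i : Fin d → ℤ) (j : Fin d → ℤ)) := by
    classical
    refine continuous_pi fun e => ?_
    unfold fl flipS
    split_ifs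
    · exact (continuous_of_discreteTopology (f := Bool.not)).comp (continuous_apply e)
    · exact continuous_apply e
  have hmeas : MeasurePreserving (fl (i : Fin d → ℤ) (j : Fin d → ℤ)) (Ps d) (Ps d) := fl_mp _ _
  have hinv : ∀ G : (Sym2 (Fin d → ℤ) → Bool) → ℝ, Continuous G →
      ∫ s, G (fl i j s) ∂(Ps d) = ∫ s, G s ∂(Ps d) := by
    intro G hG
    have h1 := integral_map (μ := Ps d) hmeas.measurable.aemeasurable
      (f := G) (hG.aestronglyMeasurable)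
    rw [hmeas.map_eq] at h1
    exact h1.symm
  have h1 : ∫ s, F s ∂(Ps d) = ∫ s, (1 / 2) * (F s + F (fl i j s)) ∂(Ps d) := by
    have hFi : Integrable (fun s => F (fl i j s)) (Ps d) := intg (hFc.comp hflc)
    rw [integral_const_mul, integral_add (intg hFc) hFi, hinv F hFc]
    ring
  rw [h1]
  refine (abs_integral_le_integral_abs).trans ?_
  set Zf : (Sym2 (Fin d → ℤ) → Bool) → ℝ := fun s =>
    yy (Cs Λ a s) (Pi.single i 1) p + yy (Cs Λ a s) (Pi.single j 1) p with hZf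
  have hZc : Continuous Zf := (yy_cont Λ a p i).add (yy_cont Λ a p j)
  have hpt : ∀ s, |(1 / 2) * (F s + F (fl i j s))| ≤
      2 * (2 * p + 1) * a i j ^ 2 * (Zf s + Zf (fl i j s)) := by
    intro s
    apply le_of_forall_pos_le_add
    intro δ hδ
    set δ' := δ / (2 * (2 * p + 1) * a i j ^ 2 + 1) with hδ'
    have hden : 0 < 2 * (2 * (p : ℝ) + 1) * a i j ^ 2 + 1 := by positivity
    have hδ0 : 0 < δ' := by positivity
    have hFs : F s + F (fl i j s) = Cs Λ a s i j *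
        ((Cs Λ a s ^ (2 * p + 1) - Cs Λ a (fl i j s) ^ (2 * p + 1)) j i) := by
      simp only [hF]
      have : Cs Λ a (fl i j s) i j = - Cs Λ a s i j := by
        unfold Cs
        rw [fl_same, mul_neg]
      rw [this, Matrix.sub_apply]
      ring
    have y1 := yy_nonneg (Cs Λ a s) (Pi.single i 1) p
    have y2 := yy_nonneg (Cs Λ a s) (Pi.single j 1) p
    have y3 := yy_nonneg (Cs Λ a (fl i j s)) (Pi.single i 1) p
    have y4 := yy_nonneg (Cs Λ a (fl i j s)) (Pi.single j 1) p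
    have h2 := flip_bound (Cs Λ a s) (Cs Λ a (fl i j s)) (Cs_tr ha Λ s) (Cs_tr ha Λ _) i j
      (Cs Λ a s i j) (Cs_flip ha Λ s i j) hp (Z := Zf s + Zf (fl i j s) + δ')
      (by simp only [hZf]; linarith) (by simp only [hZf]; linarith) (by simp only [hZf]; linarith)
      (by simp only [hZf]; linarith) (by simp only [hZf]; linarith)
    rw [Cs_sq] at h2
    rw [hFs, abs_mul, abs_of_pos (by norm_num : (0 : ℝ) < 1 / 2)]
    have h3 : 2 * (2 * (p : ℝ) + 1) * a i j ^ 2 * δ' ≤ δ := by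
      rw [hδ', mul_div_assoc', div_le_iff₀ hden]
      nlinarith
    nlinarith
  have hint : Integrable (fun s => 2 * (2 * (p : ℝ) + 1) * a i j ^ 2 * (Zf s + Zf (fl i j s)))
      (Ps d) := intg (continuous_const.mul (hZc.add (hZc.comp hflc)))
  refine (integral_mono (intg ((continuous_const.mul (hFc.add (hFc.comp hflc))).abs)) hint
    hpt).trans ?_
  have hZi : Integrable (fun s => Zf (fl i j s)) (Ps d) := intg (hZc.comp hflc)
  rw [integral_const_mul, integral_add (intg hZc) hZi, hinv Zf hZc]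
  have h5 : ∫ s, Zf s ∂(Ps d) = Yv Λ a p i + Yv Λ a p j := by
    simp only [hZf]
    rw [integral_add (intg (yy_cont Λ a p i)) (intg (yy_cont Λ a p j))]
    rfl
  rw [h5]
  apply le_of_eq
  ring

theorem Ph_succ {a : (Fin d → ℤ) → (Fin d → ℤ) → ℝ} (ha : ∀ y w, a w y = -a y w)
    (Λ : Finset (Fin d → ℤ)) {r : ℝ} (hr : ∀ y, ∑ w ∈ Λ, a y w ^ 2 ≤ r) {p : ℕ} (hp : 0 < p) :
    Ph Λ a (p + 1) ≤ 8 * (2 * p + 1) * r * Ph Λ a p := by
  have hCc : ∀ k l : Λ, Continuous fun s => Cs Λ a s k l := by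
    intro k l
    have := Cs_pow_cont Λ a 1 k l
    simpa using this
  have h1 : Ph Λ a (p + 1) = (-1) ^ (p + 1) * ∑ i : Λ, ∑ j : Λ,
      ∫ s, Cs Λ a s i j * (Cs Λ a s ^ (2 * p + 1)) j i ∂(Ps d) := by
    unfold Ph
    have e : ∀ s, hs (Cs Λ a s ^ (p + 1)) = (-1) ^ (p + 1) * ∑ i : Λ, ∑ j : Λ,
        Cs Λ a s i j * (Cs Λ a s ^ (2 * p + 1)) j i := fun s => hs_trace _ (Cs_tr ha Λ s) p
    simp_rw [e]
    rw [integral_const_mul, integral_finsetSum]
    · congr 1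
      refine Finset.sum_congr rfl fun i _ => ?_
      rw [integral_finsetSum]
      intro j _
      exact intg ((hCc i j).mul (Cs_pow_cont Λ a _ j i))
    · intro i _
      exact intg (continuous_finsetSum _ fun j _ => (hCc i j).mul (Cs_pow_cont Λ a _ j i))
  have h2 : Ph Λ a (p + 1) ≤ ∑ i : Λ, ∑ j : Λ,
      4 * (2 * p + 1) * a i j ^ 2 * (Yv Λ a p i + Yv Λ a p j) := by
    rw [h1]
    refine (le_abs_self _).trans ?_
    rw [abs_mul, abs_pow, abs_neg, abs_one, one_pow, one_mul]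
    refine (Finset.abs_sum_le_sum_abs _ _).trans (Finset.sum_le_sum fun i _ => ?_)
    refine (Finset.abs_sum_le_sum_abs _ _).trans (Finset.sum_le_sum fun j _ => ?_)
    exact term_bound ha Λ hp i j
  refine h2.trans ?_
  have hY : ∀ i : Λ, 0 ≤ Yv Λ a p i := fun i => integral_nonneg fun s => yy_nonneg _ _ _
  have hrow : ∀ i : Λ, ∑ j : Λ, a i j ^ 2 ≤ r := by
    intro i
    have := hr i
    rwa [← Finset.sum_coe_sort Λ] at this
  have h3 : ∑ i : Λ, ∑ j : Λ, 4 * (2 * (p : ℝ) + 1) * a i j ^ 2 * (Yv Λ a p i + Yv Λ a p j) =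
      8 * (2 * p + 1) * ∑ i : Λ, (∑ j : Λ, a i j ^ 2) * Yv Λ a p i := by
    have e1 : ∑ i : Λ, ∑ j : Λ, a i j ^ 2 * Yv Λ a p j =
        ∑ i : Λ, (∑ j : Λ, a i j ^ 2) * Yv Λ a p i := by
      rw [Finset.sum_comm]
      refine Finset.sum_congr rfl fun i _ => ?_
      rw [Finset.sum_mul]
      refine Finset.sum_congr rfl fun j _ => ?_
      rw [ha i j, neg_sq]
    have e2 : ∑ i : Λ, ∑ j : Λ, a i j ^ 2 * Yv Λ a p i =
        ∑ i : Λ, (∑ j : Λ, a i j ^ 2) * Yv Λ a p i := by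
      refine Finset.sum_congr rfl fun i _ => ?_
      rw [Finset.sum_mul]
    have e3 : ∑ i : Λ, ∑ j : Λ, 4 * (2 * (p : ℝ) + 1) * a i j ^ 2 * (Yv Λ a p i + Yv Λ a p j) =
        4 * (2 * p + 1) * (∑ i : Λ, ∑ j : Λ, a i j ^ 2 * Yv Λ a p i +
          ∑ i : Λ, ∑ j : Λ, a i j ^ 2 * Yv Λ a p j) := by
      rw [← Finset.sum_add_distrib, Finset.mul_sum]
      refine Finset.sum_congr rfl fun i _ => ?_
      rw [← Finset.sum_add_distrib, Finset.mul_sum]
      refine Finset.sum_congr rfl fun j _ => ?_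
      ring
    rw [e3, e1, e2]
    ring
  have h4 : ∑ i : Λ, (∑ j : Λ, a i j ^ 2) * Yv Λ a p i ≤ r * ∑ i : Λ, Yv Λ a p i := by
    rw [Finset.mul_sum]
    exact Finset.sum_le_sum fun i _ => mul_le_mul_of_nonneg_right (hrow i) (hY i)
  rw [h3, Ph_eq]
  have h5 : (0 : ℝ) ≤ 8 * (2 * (p : ℝ) + 1) := by positivity
  refine (mul_le_mul_of_nonneg_left h4 h5).trans (le_of_eq ?_)
  ring

/-- constants -/
noncomputable def KK : ℕ → ℝ
  | 0 => 1
  | (n + 1) => 8 * (2 * (n + 1) + 1) * KK n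

theorem KK_pos (n : ℕ) : 0 < KK n := by
  induction n with
  | zero => simp [KK]
  | succ n ih => unfold KK; positivity

theorem Ph_bound {a : (Fin d → ℤ) → (Fin d → ℤ) → ℝ} (ha : ∀ y w, a w y = -a y w)
    (Λ : Finset (Fin d → ℤ)) {r : ℝ} (hr0 : 0 ≤ r) (hr : ∀ y, ∑ w ∈ Λ, a y w ^ 2 ≤ r) (n : ℕ) :
    Ph Λ a (n + 1) ≤ KK n * r ^ n * ∑ y ∈ Λ, ∑ w ∈ Λ, a y w ^ 2 := by
  induction n with
  | zero =>
    unfold Ph KK
    rw [pow_zero, mul_one, one_mul]
    have : ∀ s, hs (Cs Λ a s ^ (0 + 1)) = ∑ y ∈ Λ, ∑ w ∈ Λ, a y w ^ 2 := by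
      intro s
      rw [zero_add, pow_one]
      unfold hs
      simp_rw [Cs_sq]
      rw [← Finset.sum_coe_sort Λ]
      refine Finset.sum_congr rfl fun i _ => ?_
      rw [← Finset.sum_coe_sort Λ]
    simp_rw [this]
    simp
  | succ n ih =>
    have h1 := Ph_succ ha Λ hr (p := n + 1) (Nat.succ_pos n)
    push_cast at h1
    refine h1.trans ?_
    unfold KK
    have h2 : 8 * (2 * ((n : ℝ) + 1) + 1) * r * Ph Λ a (n + 1) ≤
        8 * (2 * ((n : ℝ) + 1) + 1) * r * (KK n * r ^ n * ∑ y ∈ Λ, ∑ w ∈ Λ, a y w ^ 2) :=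
      mul_le_mul_of_nonneg_left ih (by positivity)
    refine h2.trans (le_of_eq ?_)
    ring

/-- the probability that the commutator form is not small -/
theorem prob_bound {a : (Fin d → ℤ) → (Fin d → ℤ) → ℝ} (ha : ∀ y w, a w y = -a y w)
    (Λ : Finset (Fin d → ℤ)) {r : ℝ} (hr0 : 0 ≤ r) (hr : ∀ y, ∑ w ∈ Λ, a y w ^ 2 ≤ r) (n : ℕ)
    {ε : ℝ} (hε : 0 < ε) :
    (Ps d) {s | ¬ ∀ u v : (Fin d → ℤ) → ℝ,
      |∑ y ∈ Λ, ∑ w ∈ Λ, a y w * sg (s s(y, w)) * (u y * v w)| ≤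
        ε * (∑ y ∈ Λ, u y ^ 2 + ∑ y ∈ Λ, v y ^ 2)} ≤
      ENNReal.ofReal (KK n * r ^ n * (∑ y ∈ Λ, ∑ w ∈ Λ, a y w ^ 2) / ε ^ (2 * (n + 1))) := by
  have hsub : {s | ¬ ∀ u v : (Fin d → ℤ) → ℝ,
      |∑ y ∈ Λ, ∑ w ∈ Λ, a y w * sg (s s(y, w)) * (u y * v w)| ≤
        ε * (∑ y ∈ Λ, u y ^ 2 + ∑ y ∈ Λ, v y ^ 2)} ⊆
      {s | ε ^ (2 * (n + 1)) ≤ hs (Cs Λ a s ^ (n + 1))} := by
    intro s hs'
    by_contra hcon
    have hlt : hs (Cs Λ a s ^ (n + 1)) ≤ ε ^ (2 * (n + 1)) := (not_le.1 hcon).le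
    apply hs'
    intro u v
    have h1 := form_small (Cs Λ a s) (Cs_tr ha Λ s) (Nat.succ_pos n) hε hlt
      (fun i : Λ => u i) (fun i : Λ => v i)
    have e1 : (fun i : Λ => u i) ⬝ᵥ (Cs Λ a s *ᵥ (fun i : Λ => v i)) =
        ∑ y ∈ Λ, ∑ w ∈ Λ, a y w * sg (s s(y, w)) * (u y * v w) := by
      unfold dotProduct mulVec dotProduct Cs
      rw [← Finset.sum_coe_sort Λ]
      refine Finset.sum_congr rfl fun i _ => ?_
      rw [← Finset.sum_coe_sort Λ, Finset.mul_sum]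
      refine Finset.sum_congr rfl fun j _ => ?_
      ring
    have e2 : ∀ f : (Fin d → ℤ) → ℝ, (fun i : Λ => f i) ⬝ᵥ (fun i : Λ => f i) =
        ∑ y ∈ Λ, f y ^ 2 := by
      intro f
      unfold dotProduct
      rw [← Finset.sum_coe_sort Λ]
      refine Finset.sum_congr rfl fun i _ => ?_
      ring
    rw [e1, e2, e2] at h1
    exact h1
  refine (measure_mono hsub).trans ?_
  have hε' : 0 < ε ^ (2 * (n + 1)) := by positivity
  have h1 := mul_meas_ge_le_integral_of_nonneg (μ := Ps d)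
    (f := fun s => hs (Cs Λ a s ^ (n + 1))) (Filter.Eventually.of_forall fun s => hs_nonneg _)
    (intg (hs_cont Λ a (n + 1))) (ε ^ (2 * (n + 1)))
  have h2 := Ph_bound ha Λ hr0 hr n
  have h3 : (Ps d).real {s | ε ^ (2 * (n + 1)) ≤ hs (Cs Λ a s ^ (n + 1))} ≤
      KK n * r ^ n * (∑ y ∈ Λ, ∑ w ∈ Λ, a y w ^ 2) / ε ^ (2 * (n + 1)) := by
    rw [le_div_iff₀ hε', mul_comm]
    exact h1.trans h2
  rw [← ENNReal.ofReal_toReal (measure_ne_top (Ps d) _)]
  exact ENNReal.ofReal_le_ofReal h3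

end V1176PL
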