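import Pool.Agent.V1176.PLCx

/-!
Power laws.
-/

namespace V1176PL

open MeasureTheory ProbabilityTheory Matrix H10PL Set Filter Topology

variable {d : ℕ}

theorem summable_norm_int {r : ℝ} (hr : r < -(d : ℝ)) :
    Summable fun z : Fin d → ℤ => ‖z‖ ^ r := by
  set L := Submodule.span ℤ (Set.range (Pi.basisFun ℝ (Fin d))) with hL
  have hrank : Module.finrank ℤ L = d := by
    rw [ZLattice.rank ℝ L]
    simp
  have h1 := ZLattice.summable_norm_rpow L r (by rw [hrank]; exact hr)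
  have hmem : ∀ z : Fin d → ℤ, (fun i => (z i : ℝ)) ∈ L := by
    intro z
    rw [hL, (Pi.basisFun ℝ (Fin d)).mem_span_iff_repr_mem ℤ]
    intro i
    rw [Pi.basisFun_repr]
    exact ⟨z i, by simp⟩
  let φ : (Fin d → ℤ) → L := fun z => ⟨fun i => (z i : ℝ), hmem z⟩
  have hinj : Function.Injective φ := by
    intro z w hzw
    have h2 := congrArg Subtype.val hzw
    funext i
    have h3 := congrFun h2 i
    simpa [φ] using h3
  have h2 := h1.comp_injective hinj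
  refine h2.congr fun z => ?_
  have : ‖φ z‖ = ‖z‖ := by
    show ‖(fun i => (z i : ℝ))‖ = ‖z‖
    rw [Pi.norm_def, Pi.norm_def]
    congr 2
  show ‖φ z‖ ^ r = ‖z‖ ^ r
  rw [this]

theorem kap_summable {κ : (Fin d → ℤ) → ℝ} {a C θ : ℝ} (hκ0 : κ 0 = 0)
    (hC : ∀ z, z ≠ 0 → |κ z| ≤ C * ‖z‖ ^ (-a)) (hθ : θ - 2 * a < -(d : ℝ)) :
    Summable fun z : Fin d → ℤ => ‖z‖ ^ θ * κ z ^ 2 := by
  refine Summable.of_nonneg_of_le (fun z => by positivity) (fun z => ?_)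
    ((summable_norm_int hθ).mul_left (C ^ 2))
  by_cases hz : z = 0
  · subst hz
    rw [hκ0]
    have : 0 ≤ C ^ 2 * ‖(0 : Fin d → ℤ)‖ ^ (θ - 2 * a) := by positivity
    simpa using this
  · have hn : 0 < ‖z‖ := norm_pos_iff.2 hz
    have h1 : κ z ^ 2 ≤ (C * ‖z‖ ^ (-a)) ^ 2 := by
      rw [← sq_abs]
      exact pow_le_pow_left₀ (abs_nonneg _) (hC z hz) 2
    calc ‖z‖ ^ θ * κ z ^ 2 ≤ ‖z‖ ^ θ * (C * ‖z‖ ^ (-a)) ^ 2 :=
          mul_le_mul_of_nonneg_left h1 (by positivity)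
      _ = C ^ 2 * (‖z‖ ^ θ * (‖z‖ ^ (-a) * ‖z‖ ^ (-a))) := by ring
      _ = C ^ 2 * ‖z‖ ^ (θ - 2 * a) := by
          rw [← Real.rpow_add hn, ← Real.rpow_add hn]
          congr 2
          ring

/-- box of displacements -/
noncomputable def sh (d L : ℕ) : Finset (Fin d → ℤ) :=
  Fintype.piFinset fun _ => Finset.Icc (L : ℤ) (2 * L)

theorem card_sh (L : ℕ) : (sh d L).card = (L + 1) ^ d := by
  unfold sh
  rw [Fintype.card_piFinset]
  simp only [Int.card_Icc, Finset.prod_const, Finset.card_univ, Fintype.card_fin]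
  congr 1
  omega

theorem norm_sh (hd : 0 < d) {L : ℕ} {z : Fin d → ℤ} (hz : z ∈ sh d L) :
    (L : ℝ) ≤ ‖z‖ ∧ ‖z‖ ≤ 2 * L := by
  unfold sh at hz
  rw [Fintype.mem_piFinset] at hz
  constructor
  · have h1 := (Finset.mem_Icc.1 (hz ⟨0, hd⟩)).1
    have h2 : ‖z ⟨0, hd⟩‖ ≤ ‖z‖ := norm_le_pi_norm z _
    rw [Int.norm_eq_abs] at h2
    have h3 : (L : ℝ) ≤ (z ⟨0, hd⟩ : ℝ) := by exact_mod_cast h1
    exact h3.trans ((le_abs_self _).trans h2)
  · rw [pi_norm_le_iff_of_nonneg (by positivity)]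
    intro i
    have h1 := Finset.mem_Icc.1 (hz i)
    rw [Int.norm_eq_abs, abs_of_nonneg (by
      have : (0 : ℤ) ≤ z i := le_trans (by positivity) h1.1
      exact_mod_cast this)]
    exact_mod_cast h1.2

theorem kap_long (hd : 0 < d) {κ : (Fin d → ℤ) → ℝ} {a c C : ℝ} (hc : 0 < c)
    (ha0 : 0 < a) (ha : a < d)
    (h1 : ∀ z, z ≠ 0 → c * ‖z‖ ^ (-a) ≤ |κ z|)
    (h2 : ∀ z, z ≠ 0 → |κ z| ≤ C * ‖z‖ ^ (-a)) : LongR κ (C / c * 2 ^ a) := by
  intro N
  have hC : 0 ≤ C := by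
    have h3 := h1 (fun _ => 1) (by
      intro h
      have := congrFun h ⟨0, hd⟩
      simp at this)
    have h4 := h2 (fun _ => 1) (by
      intro h
      have := congrFun h ⟨0, hd⟩
      simp at this)
    have h5 : 0 ≤ C * ‖(fun _ => 1 : Fin d → ℤ)‖ ^ (-a) := (abs_nonneg _).trans h4
    by_contra hcon
    rw [not_le] at hcon
    have h6 : 0 < ‖(fun _ => 1 : Fin d → ℤ)‖ ^ (-a) := by
      apply Real.rpow_pos_of_pos
      rw [norm_pos_iff]
      intro h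
      have := congrFun h ⟨0, hd⟩
      simp at this
    nlinarith
  -- `c 2^{-a} L^{d-a}` tends to infinity
  have hlim : Tendsto (fun L : ℕ => c * 2 ^ (-a) * (L : ℝ) ^ ((d : ℝ) - a)) atTop atTop := by
    apply Tendsto.const_mul_atTop (by positivity)
    exact (tendsto_rpow_atTop (by linarith)).comp tendsto_natCast_atTop_atTop
  obtain ⟨L, hL, hL1⟩ := ((hlim.eventually_ge_atTop N).and (eventually_ge_atTop 1)).exists
  have hL0 : (0 : ℝ) < L := by exact_mod_cast (by omega : 0 < L)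
  have hne : ∀ z ∈ sh d L, z ≠ 0 := by
    intro z hz h0
    have := (norm_sh hd hz).1
    rw [h0, norm_zero] at this
    linarith
  refine ⟨sh d L, c * (2 * L) ^ (-a), ?_, by positivity, fun z hz => ⟨?_, ?_⟩, ?_⟩
  · intro h0
    exact hne 0 h0 rfl
  · refine le_trans ?_ (h1 z (hne z hz))
    refine mul_le_mul_of_nonneg_left ?_ hc.le
    exact Real.rpow_le_rpow_of_nonpos (lt_of_lt_of_le hL0 (norm_sh hd hz).1) (norm_sh hd hz).2
      (by linarith)
  · refine (h2 z (hne z hz)).trans ?_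
    have h3 : ‖z‖ ^ (-a) ≤ (L : ℝ) ^ (-a) :=
      Real.rpow_le_rpow_of_nonpos hL0 (norm_sh hd hz).1 (by linarith)
    have h4 : (2 : ℝ) ^ a * (2 * (L : ℝ)) ^ (-a) = (L : ℝ) ^ (-a) := by
      rw [Real.mul_rpow (by norm_num) hL0.le, ← mul_assoc, ← Real.rpow_add (by norm_num)]
      simp
    calc C * ‖z‖ ^ (-a) ≤ C * (L : ℝ) ^ (-a) := mul_le_mul_of_nonneg_left h3 hC
      _ = C / c * 2 ^ a * (c * (2 * L) ^ (-a)) := by
          rw [← h4]
          field_simp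
  · rw [card_sh]
    refine hL.trans ?_
    have h5 : (L : ℝ) ^ ((d : ℝ) - a) = (L : ℝ) ^ (-a) * (L : ℝ) ^ d := by
      rw [← Real.rpow_natCast, ← Real.rpow_add hL0]
      congr 1
      ring
    rw [h5, Real.mul_rpow (by norm_num) hL0.le]
    have h6 : (L : ℝ) ^ d ≤ ((L : ℝ) + 1) ^ d := pow_le_pow_left₀ hL0.le (by linarith) d
    have h7 : 0 < c * 2 ^ (-a) * (L : ℝ) ^ (-a) := by positivity
    push_cast
    nlinarith [mul_le_mul_of_nonneg_left h6 h7.le]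

end V1176PL
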