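import Pool.Agent.V1176.TropDefs

namespace Pool.Agent.V1176.Trop

variable {n : ℕ}

/-- The closed coordinate cone with sign vector `s`. -/
def cone (s : Fin n → SignType) : Set (Fin n → ℝ) :=
  {x | ∀ i, (0 ≤ s i → 0 ≤ x i) ∧ (s i ≤ 0 → x i ≤ 0)}

/-- The sign vector as a real vector. -/
def sv (s : Fin n → SignType) : Fin n → ℝ := fun i => ((s i : ℤ) : ℝ)

lemma zero_mem_cone (s : Fin n → SignType) : (0 : Fin n → ℝ) ∈ cone s := by
  intro i; simp

lemma single_mem_cone (s : Fin n → SignType) (i : Fin n) (c : ℝ) (hc : 0 ≤ c) :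
    Pi.single i (c * ((s i : ℤ) : ℝ)) ∈ cone s := by
  intro j
  by_cases h : j = i
  · subst h
    rcases hs : s j with _ | _ | _ <;> simp [hc]
  · simp [Pi.single_eq_of_ne h]

lemma sv_mem_cone (s : Fin n → SignType) : sv s ∈ cone s := by
  intro j
  rcases hs : s j with _ | _ | _ <;> simp [sv, hs]

lemma smul_mem_cone {s : Fin n → SignType} {x : Fin n → ℝ} (hx : x ∈ cone s) {c : ℝ}
    (hc : 0 ≤ c) : c • x ∈ cone s := by
  intro i
  refine ⟨fun h => ?_, fun h => ?_⟩
  · simpa using mul_nonneg hc ((hx i).1 h)
  · simpa using mul_nonpos_of_nonneg_of_nonpos hc ((hx i).2 h)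

lemma cone_zero_of {s : Fin n → SignType} {x : Fin n → ℝ} (hx : x ∈ cone s) {i : Fin n}
    (hi : s i = 0) : x i = 0 :=
  le_antisymm ((hx i).2 hi.le) ((hx i).1 hi.ge)

/-- `t` is a face of `s`. -/
def le' (t s : Fin n → SignType) : Prop := ∀ i, t i = 0 ∨ t i = s i

instance (t s : Fin n → SignType) : Decidable (le' t s) := by unfold le'; infer_instance

lemma cone_subset_iff {t s : Fin n → SignType} : cone t ⊆ cone s ↔ le' t s := by
  constructor
  · intro h i
    have := h (sv_mem_cone t) i
    rcases ht : t i with _ | _ | _ <;> rcases hs : s i with _ | _ | _ <;>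
      simp_all [sv] <;> linarith
  · intro h x hx i
    rcases h i with h0 | h1
    · have := cone_zero_of hx h0
      rw [this]; simp
    · rw [← h1]; exact hx i

lemma cone_inj {t s : Fin n → SignType} (h : cone t = cone s) : t = s := by
  have h1 := cone_subset_iff.1 h.le
  have h2 := cone_subset_iff.1 h.ge
  funext i
  rcases h1 i with h0 | h0
  · rcases h2 i with h3 | h3
    · rw [h0, h3]
    · exact h3.symm
  · exact h0

/-- The common face. -/
def meet (s t : Fin n → SignType) : Fin n → SignType := fun i => if s i = t i then s i else 0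

lemma meet_le_left (s t : Fin n → SignType) : le' (meet s t) s := by
  intro i; unfold meet; split_ifs <;> simp

lemma meet_le_right (s t : Fin n → SignType) : le' (meet s t) t := by
  intro i; unfold meet; split_ifs with h <;> simp [h]

lemma cone_inter (s t : Fin n → SignType) : cone s ∩ cone t = cone (meet s t) := by
  ext x
  constructor
  · rintro ⟨h1, h2⟩ i
    have a := h1 i
    have b := h2 i
    unfold meet
    rcases hs : s i with _ | _ | _ <;> rcases ht : t i with _ | _ | _ <;>
      simp_all
  · intro h
    exact ⟨cone_subset_iff.2 (meet_le_left s t) h, cone_subset_iff.2 (meet_le_right s t) h⟩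

lemma cone_ratPoly (s : Fin n → SignType) : IsRatPoly (cone s) := by
  refine ⟨Fin n ⊕ Fin n, inferInstance,
    Sum.elim (fun i => Pi.single i (if 0 ≤ s i then -1 else 0))
      (fun i => Pi.single i (if s i ≤ 0 then 1 else 0)), fun _ => 0, ?_⟩
  ext x
  have key : ∀ (i : Fin n) (c : ℤ), ∑ j, ((Pi.single i c : Fin n → ℤ) j : ℝ) * x j = c * x i := by
    intro i c
    rw [Finset.sum_eq_single i]
    · simp
    · intro j _ hj; simp [Pi.single_eq_of_ne hj]
    · simp
  simp only [cone, Set.mem_ofPred_eq, Sum.forall, Sum.elim_inl, Sum.elim_inr, key]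
  constructor
  · intro h
    refine ⟨fun i => ?_, fun i => ?_⟩
    · split_ifs with h1
      · have := (h i).1 h1; push_cast; linarith
      · simp
    · split_ifs with h1
      · have := (h i).2 h1; push_cast; linarith
      · simp
  · rintro ⟨h1, h2⟩ i
    refine ⟨fun h => ?_, fun h => ?_⟩
    · have := h1 i; rw [if_pos h] at this; push_cast at this; linarith
    · have := h2 i; rw [if_pos h] at this; push_cast at this; linarith

/-- Faces of a coordinate cone. -/
lemma face_cone {s : Fin n → SignType} {F : Set (Fin n → ℝ)} (h : IsFaceOf F (cone s)) :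
    ∃ t, le' t s ∧ cone t = F := by
  obtain ⟨⟨x, hx⟩, c, hF⟩ := h
  rw [hF] at hx
  have h0 : ∑ j, c j * x j = 0 := by
    have h1 := hx.2 0 (zero_mem_cone s)
    have h2 := hx.2 (2 • x) (by
      have := smul_mem_cone hx.1 (c := 2) (by norm_num)
      convert this using 1
      ext i; simp [two_mul, two_smul])
    have h3 : ∑ j, c j * ((2 • x : Fin n → ℝ) j) = 2 * ∑ j, c j * x j := by
      rw [Finset.mul_sum]; refine Finset.sum_congr rfl fun j _ => ?_
      simp; ring
    rw [h3] at h2
    simp at h1
    linarith
  have hc : ∀ i, c i * ((s i : ℤ) : ℝ) ≤ 0 := by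
    intro i
    have h1 := hx.2 _ (single_mem_cone s i 1 zero_le_one)
    rw [h0] at h1
    rw [Finset.sum_eq_single i] at h1
    · simpa using h1
    · intro j _ hj; simp [Pi.single_eq_of_ne hj]
    · simp
  have hterm : ∀ y ∈ cone s, ∀ i, c i * y i ≤ 0 := by
    intro y hy i
    have h1 := hc i
    have h2 := hy i
    rcases hs : s i with _ | _ | _
    · have h3 : y i = 0 := cone_zero_of hy hs
      simp [h3]
    · simp [hs] at h1 h2
      exact mul_nonpos_of_nonneg_of_nonpos h1 h2
    · simp [hs] at h1 h2
      exact mul_nonpos_of_nonpos_of_nonneg h1 h2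
  refine ⟨fun i => if c i = 0 then s i else 0, fun i => ?_, ?_⟩
  · by_cases h : c i = 0 <;> simp [h]
  · rw [hF]
    ext y
    constructor
    · intro hy
      have hy' : y ∈ cone s := by
        refine cone_subset_iff.2 (fun i => ?_) hy
        by_cases h : c i = 0 <;> simp [h]
      refine ⟨hy', fun z hz => ?_⟩
      have : ∑ j, c j * y j = 0 := by
        refine Finset.sum_eq_zero fun j _ => ?_
        by_cases h : c j = 0
        · simp [h]
        · rw [cone_zero_of hy (i := j) (by simp [h]), mul_zero]
      rw [this]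
      exact Finset.sum_nonpos fun j _ => hterm z hz j
    · rintro ⟨hy, hy2⟩
      have h1 : ∑ j, c j * y j = 0 := by
        refine le_antisymm (Finset.sum_nonpos fun j _ => hterm y hy j) ?_
        have := hy2 0 (zero_mem_cone s)
        simpa using this
      have h2 : ∀ j, c j * y j = 0 := by
        have := (Finset.sum_eq_zero_iff_of_nonpos (fun j _ => hterm y hy j)).1 h1
        intro j; exact this j (Finset.mem_univ j)
      intro i
      by_cases h : c i = 0
      · simpa [h] using hy i
      · have : y i = 0 := by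
          rcases mul_eq_zero.1 (h2 i) with h3 | h3
          · exact absurd h3 h
          · exact h3
        simp [this]

lemma isFaceOf_cone {t s : Fin n → SignType} (h : le' t s) : IsFaceOf (cone t) (cone s) := by
  refine ⟨⟨0, zero_mem_cone t⟩, fun i => if t i = 0 then -((s i : ℤ) : ℝ) else 0, ?_⟩
  have hterm : ∀ y ∈ cone s, ∀ i, (if t i = 0 then -((s i : ℤ) : ℝ) else 0) * y i ≤ 0 := by
    intro y hy i
    have h2 := hy i
    split_ifs
    · rcases hs : s i with _ | _ | _ <;> simp_all
    · simp
  ext y
  constructor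
  · intro hy
    refine ⟨cone_subset_iff.2 h hy, fun z hz => ?_⟩
    have : ∑ j, (if t j = 0 then -((s j : ℤ) : ℝ) else 0) * y j = 0 := by
      refine Finset.sum_eq_zero fun j _ => ?_
      by_cases h : t j = 0
      · rw [cone_zero_of hy h, mul_zero]
      · simp [h]
    rw [this]
    exact Finset.sum_nonpos fun j _ => hterm z hz j
  · rintro ⟨hy, hy2⟩
    have h1 : ∑ j, (if t j = 0 then -((s j : ℤ) : ℝ) else 0) * y j = 0 := by
      refine le_antisymm (Finset.sum_nonpos fun j _ => hterm y hy j) ?_
      have := hy2 0 (zero_mem_cone s)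
      simpa using this
    have h2 := (Finset.sum_eq_zero_iff_of_nonpos (fun j _ => hterm y hy j)).1 h1
    intro i
    rcases h i with h0 | h3
    · have h4 := h2 i (Finset.mem_univ i)
      rw [if_pos h0] at h4
      have : y i = 0 := by
        have h5 := hy i
        rcases hs : s i with _ | _ | _ <;> simp_all
        linarith
      simp [this]
    · rw [h3]; exact hy i

/-- The coordinate subspace of a sign vector. -/
def csub (s : Fin n → SignType) : Submodule ℝ (Fin n → ℝ) where
  carrier := {x | ∀ i, s i = 0 → x i = 0}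
  add_mem' := by
    intro a b ha hb i hi
    simp [ha i hi, hb i hi]
  zero_mem' := by intro i _; rfl
  smul_mem' := by
    intro c x hx i hi
    simp [hx i hi]

lemma mem_csub {s : Fin n → SignType} {x : Fin n → ℝ} : x ∈ csub s ↔ ∀ i, s i = 0 → x i = 0 :=
  Iff.rfl

lemma vectorSpan_cone (s : Fin n → SignType) : vectorSpan ℝ (cone s) = csub s := by
  apply le_antisymm
  · rw [vectorSpan_def, Submodule.span_le]
    rintro _ ⟨x, hx, y, hy, rfl⟩ i hi
    simp [cone_zero_of hx hi, cone_zero_of hy hi]
  · intro x hx
    have h1 : ∀ i, Pi.single i (x i) ∈ vectorSpan ℝ (cone s) := by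
      intro i
      by_cases hi : s i = 0
      · rw [hx i hi]; simp
      · have h2 : Pi.single i (1 * ((s i : ℤ) : ℝ)) -ᵥ (0 : Fin n → ℝ) ∈ vectorSpan ℝ (cone s) :=
          vsub_mem_vectorSpan ℝ (single_mem_cone s i 1 zero_le_one) (zero_mem_cone s)
        have h3 := (vectorSpan ℝ (cone s)).smul_mem (x i * ((s i : ℤ) : ℝ)) h2
        convert h3 using 1
        ext j
        by_cases hj : j = i
        · subst hj
          rcases hs : s j with _ | _ | _ <;> simp_all
        · simp [Pi.single_eq_of_ne hj]
    have h2 : x = ∑ i, Pi.single i (x i) := (Finset.univ_sum_single x).symm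
    rw [h2]
    exact Submodule.sum_mem _ fun i _ => h1 i

/-- The support of a sign vector. -/
def ssupp (s : Fin n → SignType) : Finset (Fin n) := Finset.univ.filter (fun i => s i ≠ 0)

lemma mem_ssupp {s : Fin n → SignType} {i : Fin n} : i ∈ ssupp s ↔ s i ≠ 0 := by
  unfold ssupp
  rw [Finset.mem_filter]
  simp

lemma finrank_csub (s : Fin n → SignType) : Module.finrank ℝ (csub s) = (ssupp s).card := by
  have h : csub s = Submodule.span ℝ
      (Set.range (fun i : {i // i ∈ ssupp s} => (Pi.single i.1 1 : Fin n → ℝ))) := by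
    apply le_antisymm
    · intro x hx
      rw [(Finset.univ_sum_single x).symm]
      refine Submodule.sum_mem _ fun i _ => ?_
      by_cases hi : s i = 0
      · rw [hx i hi]; simp
      · have : (Pi.single i (x i) : Fin n → ℝ) = x i • Pi.single i 1 := by
          ext j; by_cases hj : j = i
          · subst hj; simp
          · simp [Pi.single_eq_of_ne hj]
        rw [this]
        exact Submodule.smul_mem _ _ (Submodule.subset_span ⟨⟨i, by simp [ssupp, hi]⟩, rfl⟩)
    · rw [Submodule.span_le]
      rintro _ ⟨i, rfl⟩ j hj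
      have : j ≠ i.1 := by
        rintro rfl
        exact (mem_ssupp.1 i.2) hj
      simp [Pi.single_eq_of_ne this]
  rw [h, finrank_span_eq_card, Fintype.card_coe]
  have h1 := (Pi.basisFun ℝ (Fin n)).linearIndependent
  have h2 := h1.comp (fun i : {i // i ∈ ssupp s} => i.1) Subtype.val_injective
  convert h2 using 1
  ext i j
  simp [Pi.basisFun_apply]

lemma dim_cone (s : Fin n → SignType) : dim (cone s) = (ssupp s).card := by
  unfold dim
  rw [vectorSpan_cone, finrank_csub]

/-- The primitive normal vector. -/
def nrm (t s : Fin n → SignType) : Fin n → ℤ := fun i => if t i = 0 then (s i : ℤ) else 0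

lemma isPrimitiveNormal_cone {t s : Fin n → SignType} (h : le' t s)
    (hc : (ssupp s).card = (ssupp t).card + 1) :
    IsPrimitiveNormal (cone t) (cone s) (nrm t s) := by
  have hsub : ssupp t ⊆ ssupp s := by
    intro i hi
    simp only [ssupp, Finset.mem_filter, Finset.mem_univ, true_and] at hi ⊢
    rcases h i with h0 | h0
    · exact absurd h0 hi
    · rwa [← h0]
  obtain ⟨k, hk⟩ : ∃ k, ssupp s \ ssupp t = {k} := by
    rw [← Finset.card_eq_one, Finset.card_sdiff_of_subset hsub, hc]; omega
  have hk1 : s k ≠ 0 := by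
    have : k ∈ ssupp s \ ssupp t := by rw [hk]; simp
    simp [ssupp] at this; exact this.1
  have hk2 : t k = 0 := by
    have : k ∈ ssupp s \ ssupp t := by rw [hk]; simp
    simp [ssupp] at this; exact this.2
  have hne : ∀ i, i ≠ k → t i = 0 → s i = 0 := by
    intro i hi ht
    by_contra hs
    have : i ∈ ssupp s \ ssupp t := by simp [ssupp, hs, ht]
    rw [hk] at this
    exact hi (by simpa using this)
  have hks : ((s k : ℤ) : ℝ) * ((s k : ℤ) : ℝ) = 1 := by
    rcases hs : s k with _ | _ | _ <;> simp_all
  have hks' : (s k : ℤ) * (s k : ℤ) = 1 := by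
    rcases hs : s k with _ | _ | _ <;> simp_all
  refine ⟨?_, ?_, ?_⟩
  · rw [vectorSpan_cone]
    intro i hi
    simp [toR, nrm, hi]
  · intro w hw
    refine ⟨w k * (s k : ℤ), ?_⟩
    rw [vectorSpan_cone] at hw ⊢
    intro i hi
    by_cases hik : i = k
    · subst hik
      have : w i - w i * (s i : ℤ) * (s i : ℤ) = 0 := by
        rw [mul_assoc, hks', mul_one, sub_self]
      simp only [toR, Pi.sub_apply, Pi.smul_apply, nrm, hi, if_true, smul_eq_mul]
      exact_mod_cast this
    · have h1 := hne i hik hi
      have h2 := hw i h1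
      simp only [toR, Pi.sub_apply, Pi.smul_apply, nrm, hi, if_true, smul_eq_mul, h1] at h2 ⊢
      simpa using h2
  · intro x hx y hy
    refine ⟨((s k : ℤ) : ℝ) * x k, ?_, ?_⟩
    · have := hx k
      rcases hs : s k with _ | _ | _ <;> simp_all
    · rw [vectorSpan_cone]
      intro i hi
      have hyi := cone_zero_of hy hi
      by_cases hik : i = k
      · subst hik
        simp only [toR, Pi.sub_apply, Pi.smul_apply, nrm, hi, if_true, smul_eq_mul, hyi]
        linear_combination (-(x i)) * hks
      · have h1 := hne i hik hi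
        have h2 := cone_zero_of hx h1
        simp [toR, nrm, hi, hyi, h1, h2]

end Pool.Agent.V1176.Trop
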