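import Mathlib

namespace Pool.Agent.V1176.Trop

open scoped Pointwise

/-- A rational polyhedron in `ℝⁿ`: the solution set of finitely many linear inequalities with
integer coefficients and real right-hand sides. -/
def IsRatPoly {n : ℕ} (P : Set (Fin n → ℝ)) : Prop :=
  ∃ (ι : Type) (_ : Finite ι) (A : ι → Fin n → ℤ) (b : ι → ℝ),
    P = {x | ∀ i, ∑ j, (A i j : ℝ) * x j ≤ b i}

/-- `F` is a (nonempty) face of `P`: the set of points of `P` at which some linear functional
attains its maximum over `P`.  (The functional `0` gives `F = P`.) -/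
def IsFaceOf {n : ℕ} (F P : Set (Fin n → ℝ)) : Prop :=
  F.Nonempty ∧ ∃ c : Fin n → ℝ, F = {x | x ∈ P ∧ ∀ y ∈ P, ∑ j, c j * y j ≤ ∑ j, c j * x j}

/-- The dimension of a polyhedron: the dimension of the linear space `span (P - P)`. -/
noncomputable def dim {n : ℕ} (P : Set (Fin n → ℝ)) : ℕ :=
  Module.finrank ℝ (vectorSpan ℝ P)

/-- An integer vector as a real vector. -/
def toR {n : ℕ} (v : Fin n → ℤ) : Fin n → ℝ := fun i => (v i : ℝ)

/-- `v` is a primitive integer normal vector of the polyhedron `τ` pointing into the polyhedron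
`σ ⊇ τ`: it is an integer vector of `span (σ - σ)`, it generates the integer vectors of
`span (σ - σ)` modulo `span (τ - τ)`, and it points from `τ` into `σ`. -/
def IsPrimitiveNormal {n : ℕ} (τ σ : Set (Fin n → ℝ)) (v : Fin n → ℤ) : Prop :=
  toR v ∈ vectorSpan ℝ σ ∧
  (∀ w : Fin n → ℤ, toR w ∈ vectorSpan ℝ σ → ∃ k : ℤ, toR (w - k • v) ∈ vectorSpan ℝ τ) ∧
  (∀ x ∈ σ, ∀ y ∈ τ, ∃ c : ℝ, 0 ≤ c ∧ x - y - c • toR v ∈ vectorSpan ℝ τ)

open Classical in
/-- A balanced polyhedral complex in `ℝⁿ`, pure of dimension `d`, with positive integer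
weights. -/
structure BalancedComplex (n d : ℕ) where
  /-- index set of the cells -/
  ι : Type
  /-- there are finitely many cells -/
  fin : Fintype ι
  /-- the cells -/
  cell : ι → Set (Fin n → ℝ)
  /-- each cell is listed once -/
  cell_inj : Function.Injective cell
  /-- every cell is a nonempty rational polyhedron -/
  cell_poly : ∀ i, (cell i).Nonempty ∧ IsRatPoly (cell i)
  /-- every face of a cell is a cell -/
  face_mem : ∀ i F, IsFaceOf F (cell i) → ∃ j, cell j = F
  /-- two cells which meet do so in a common face -/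
  inter_face : ∀ i j, (cell i ∩ cell j).Nonempty →
    IsFaceOf (cell i ∩ cell j) (cell i) ∧ IsFaceOf (cell i ∩ cell j) (cell j)
  /-- every cell lies in a `d`-dimensional cell -/
  pure : ∀ i, ∃ j, cell i ⊆ cell j ∧ dim (cell j) = d
  /-- the weights -/
  weight : ι → ℕ
  /-- the weights of the `d`-dimensional cells are positive -/
  weight_pos : ∀ i, dim (cell i) = d → 0 < weight i
  /-- the balancing condition at every `(d-1)`-dimensional cell -/
  balanced : ∀ j, dim (cell j) + 1 = d → ∃ v : ι → Fin n → ℤ,
    (∀ i, dim (cell i) = d → cell j ⊆ cell i → IsPrimitiveNormal (cell j) (cell i) (v i)) ∧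
    ∑ i with dim (cell i) = d ∧ cell j ⊆ cell i, (weight i : ℝ) • toR (v i) ∈
      vectorSpan ℝ (cell j)

variable {n d d₁ d₂ : ℕ}

/-- The support of a complex: the union of its cells. -/
def BalancedComplex.support (S : BalancedComplex n d) : Set (Fin n → ℝ) := ⋃ i, S.cell i

/-- The support of the stable intersection of two balanced complexes: the union of the
`σ₁ ∩ σ₂` over the pairs of cells with `dim (σ₁ + σ₂) = n`. -/
def stableSupport (S₁ : BalancedComplex n d₁) (S₂ : BalancedComplex n d₂) :
    Set (Fin n → ℝ) :=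
  {x | ∃ i j, dim (S₁.cell i + S₂.cell j) = n ∧ x ∈ S₁.cell i ∩ S₂.cell j}

/-- After the closed `d`-dimensional cells of the family `R` have been removed, the complex is
still connected through codimension one: any two of the remaining `d`-dimensional cells are
joined by a chain of remaining `d`-dimensional cells in which consecutive cells have a common
`(d-1)`-dimensional face not contained in a removed cell. -/
def BalancedComplex.ConnectedOff (S : BalancedComplex n d) (R : Set S.ι) : Prop :=
  ∀ a b, dim (S.cell a) = d → dim (S.cell b) = d → a ∉ R → b ∉ R →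
    Relation.ReflTransGen (fun i j => dim (S.cell j) = d ∧ j ∉ R ∧
      ∃ k, dim (S.cell k) + 1 = d ∧ S.cell k ⊆ S.cell i ∧ S.cell k ⊆ S.cell j ∧
        ∀ r ∈ R, ¬ S.cell k ⊆ S.cell r) a b

end Pool.Agent.V1176.Trop
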