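import Pool.Agent.V1176.TropCone

namespace Pool.Agent.V1176.Trop

/-- Sign vectors supported in `{0,1}`, `{0,2}` or `{2,3}`. -/
def ok (s : Fin 4 → SignType) : Prop :=
  (s 2 = 0 ∧ s 3 = 0) ∨ (s 1 = 0 ∧ s 3 = 0) ∨ (s 0 = 0 ∧ s 1 = 0)

instance : DecidablePred ok := fun s => by unfold ok; infer_instance

abbrev Idx : Type := {s : Fin 4 → SignType // ok s}

lemma ok_of_le {t s : Fin 4 → SignType} (h : le' t s) (hs : ok s) : ok t := by
  have h' : ∀ i, s i = 0 → t i = 0 := by
    intro i hi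
    rcases h i with h0 | h0
    · exact h0
    · rw [h0, hi]
  rcases hs with ⟨a, b⟩ | ⟨a, b⟩ | ⟨a, b⟩
  · exact Or.inl ⟨h' _ a, h' _ b⟩
  · exact Or.inr (Or.inl ⟨h' _ a, h' _ b⟩)
  · exact Or.inr (Or.inr ⟨h' _ a, h' _ b⟩)

lemma pure_dec : ∀ i : Idx, ∃ j : Idx, le' i.1 j.1 ∧ (ssupp j.1).card = 2 := by
  decide +kernel

lemma bal_dec : ∀ j : Idx, (ssupp j.1).card = 1 →
    ∑ i : Idx with ((ssupp i.1).card = 2 ∧ le' j.1 i.1), nrm j.1 i.1 = 0 := by
  decide +kernel

/-- adjacency of two-dimensional cells after the removal of `r` -/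
def adj (r i j : Idx) : Prop :=
  (ssupp i.1).card = 2 ∧ i ≠ r ∧ (ssupp j.1).card = 2 ∧ j ≠ r ∧
    (ssupp (meet i.1 j.1)).card = 1 ∧ ¬ le' (meet i.1 j.1) r.1

instance (r i j : Idx) : Decidable (adj r i j) := by unfold adj; infer_instance

/-- breadth first search -/
def step (r : Idx) (A : Finset Idx) : Finset Idx :=
  A ∪ Finset.univ.filter (fun j => ∃ i ∈ A, adj r i j)

lemma reach_step (r h : Idx) : ∀ (n : ℕ), ∀ b ∈ (step r)^[n] {h},
    Relation.ReflTransGen (adj r) h b := by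
  intro n
  induction n with
  | zero =>
    intro b hb
    simp only [Function.iterate_zero, id_eq, Finset.mem_singleton] at hb
    rw [hb]
  | succ n ih =>
    intro b hb
    rw [Function.iterate_succ_apply'] at hb
    unfold step at hb
    rw [Finset.mem_union, Finset.mem_filter] at hb
    rcases hb with hb | ⟨_, i, hi, hib⟩
    · exact ih b hb
    · exact (ih i hi).tail hib

/-- the two-dimensional cells -/
def two : Finset Idx := Finset.univ.filter (fun i => (ssupp i.1).card = 2)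

lemma mem_two {i : Idx} : i ∈ two ↔ (ssupp i.1).card = 2 := by
  unfold two; rw [Finset.mem_filter]; simp

set_option maxRecDepth 100000 in
lemma conn_dec : ∀ r ∈ two, ∃ h ∈ two, h ≠ r ∧ two.erase r ⊆ (step r)^[6] {h} := by
  decide +kernel

end Pool.Agent.V1176.Trop
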