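import Pool.Agent.V1176.TropEx

namespace Pool.Agent.V1176.Trop

open scoped Pointwise

lemma toR_zero {n : ℕ} : toR (0 : Fin n → ℤ) = 0 := by ext i; simp [toR]

lemma toR_sum {n : ℕ} {α : Type*} (s : Finset α) (f : α → Fin n → ℤ) :
    ∑ a ∈ s, toR (f a) = toR (∑ a ∈ s, f a) := by
  ext i
  simp [toR, Finset.sum_apply]

/-- The union of three coordinate planes of `ℝ⁴`, subdivided into quadrants. -/
noncomputable def S2 : BalancedComplex 4 2 where
  ι := Idx
  fin := inferInstance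
  cell := fun s => cone s.1
  cell_inj := fun s t h => Subtype.ext (cone_inj h)
  cell_poly := fun s => ⟨⟨0, zero_mem_cone _⟩, cone_ratPoly _⟩
  face_mem := by
    intro s F hF
    obtain ⟨t, ht, rfl⟩ := face_cone hF
    exact ⟨⟨t, ok_of_le ht s.2⟩, rfl⟩
  inter_face := by
    intro s t _
    rw [cone_inter]
    exact ⟨isFaceOf_cone (meet_le_left _ _), isFaceOf_cone (meet_le_right _ _)⟩
  pure := by
    intro s
    obtain ⟨t, h1, h2⟩ := pure_dec s
    exact ⟨t, cone_subset_iff.2 h1, by rw [dim_cone, h2]⟩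
  weight := fun _ => 1
  weight_pos := fun _ _ => one_pos
  balanced := by
    intro t ht
    rw [dim_cone] at ht
    refine ⟨fun s => nrm t.1 s.1, ?_, ?_⟩
    · intro s hs hts
      rw [dim_cone] at hs
      exact isPrimitiveNormal_cone (cone_subset_iff.1 hts) (by omega)
    · have h1 : (∑ i : Idx with ((ssupp i.1).card = 2 ∧ le' t.1 i.1), toR (nrm t.1 i.1)) = 0 := by
        rw [toR_sum, bal_dec t (by omega), toR_zero]
      have h2 : ∀ (inst : DecidablePred fun s : Idx => dim (cone s.1) = 2 ∧ cone t.1 ⊆ cone s.1),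
          (Finset.univ.filter (fun s : Idx => dim (cone s.1) = 2 ∧ cone t.1 ⊆ cone s.1)) =
          Finset.univ.filter (fun i : Idx => (ssupp i.1).card = 2 ∧ le' t.1 i.1) := by
        intro inst
        ext s
        simp only [Finset.mem_filter, Finset.mem_univ, true_and, dim_cone, cone_subset_iff]
      rw [h2]
      simp only [Nat.cast_one, one_smul]
      rw [h1]
      exact Submodule.zero_mem _

/-- The plane `{x₂ = 0, x₃ = x₁ + 1}` (coordinates `x₀, x₁, x₂, x₃`). -/
def plane : Set (Fin 4 → ℝ) := {x | x 2 = 0 ∧ x 3 = x 1 + 1}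

/-- Its direction. -/
def pdir : Submodule ℝ (Fin 4 → ℝ) where
  carrier := {x | x 2 = 0 ∧ x 3 = x 1}
  add_mem' := by
    rintro a b ⟨h1, h2⟩ ⟨h3, h4⟩
    exact ⟨by simp [h1, h3], by simp [h2, h4]⟩
  zero_mem' := ⟨rfl, rfl⟩
  smul_mem' := by
    rintro c x ⟨h1, h2⟩
    exact ⟨by simp [h1], by simp [h2]⟩

lemma mem_pdir {x : Fin 4 → ℝ} : x ∈ pdir ↔ x 2 = 0 ∧ x 3 = x 1 := Iff.rfl

lemma mem_plane {x : Fin 4 → ℝ} : x ∈ plane ↔ x 2 = 0 ∧ x 3 = x 1 + 1 := Iff.rfl

lemma vectorSpan_plane : vectorSpan ℝ plane = pdir := by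
  apply le_antisymm
  · rw [vectorSpan_def, Submodule.span_le]
    rintro _ ⟨x, hx, y, hy, rfl⟩
    rw [mem_plane] at hx hy
    change (x - y) 2 = 0 ∧ (x - y) 3 = (x - y) 1
    simp only [Pi.sub_apply]
    exact ⟨by rw [hx.1, hy.1]; ring, by rw [hx.2, hy.2]; ring⟩
  · intro x hx
    rw [mem_pdir] at hx
    have h0 : (![0, 0, 0, 1] : Fin 4 → ℝ) ∈ plane := by
      rw [mem_plane]; simp
    have h1 : x + ![0, 0, 0, 1] ∈ plane := by
      rw [mem_plane]; simp [hx.1, hx.2]
    have := vsub_mem_vectorSpan ℝ h1 h0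
    rwa [vsub_eq_sub, add_sub_cancel_right] at this

lemma finrank_pdir : Module.finrank ℝ pdir = 2 := by
  have h : pdir = Submodule.span ℝ (Set.range ![(![1, 0, 0, 0] : Fin 4 → ℝ), ![0, 1, 0, 1]]) := by
    apply le_antisymm
    · intro x hx
      rw [mem_pdir] at hx
      have : x = x 0 • ![1, 0, 0, 0] + x 1 • ![0, 1, 0, 1] := by
        ext i; fin_cases i <;> simp [hx.1, hx.2]
      rw [this]
      refine Submodule.add_mem _ (Submodule.smul_mem _ _ (Submodule.subset_span ⟨0, rfl⟩))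
        (Submodule.smul_mem _ _ (Submodule.subset_span ⟨1, rfl⟩))
    · rw [Submodule.span_le]
      rintro _ ⟨i, rfl⟩
      fin_cases i
      · change _ ∧ _; simp
      · change _ ∧ _; simp
  rw [h, finrank_span_eq_card]
  · simp
  · rw [LinearIndependent.pair_iff]
    intro s t hst
    have h0 := congrFun hst 0
    have h1 := congrFun hst 1
    simp at h0 h1
    exact ⟨h0, h1⟩

lemma dim_plane : dim plane = 2 := by
  unfold dim
  rw [vectorSpan_plane, finrank_pdir]

lemma plane_ratPoly : IsRatPoly plane := by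
  refine ⟨Fin 4, inferInstance, ![![0, 0, 1, 0], ![0, 0, -1, 0], ![0, -1, 0, 1], ![0, 1, 0, -1]],
    ![0, 0, 1, -1], ?_⟩
  ext x
  rw [mem_plane]
  simp only [Set.mem_ofPred_eq, Fin.forall_fin_succ, Fin.sum_univ_four]
  simp
  constructor
  · rintro ⟨h1, h2⟩
    refine ⟨by linarith, by linarith, by linarith, by linarith⟩
  · rintro ⟨h1, h2, h3, h4⟩
    exact ⟨by linarith, by linarith⟩

lemma plane_self_face : IsFaceOf plane plane := by
  refine ⟨⟨![0, 0, 0, 1], by rw [mem_plane]; simp⟩, 0, ?_⟩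
  ext x; simp

lemma face_plane {F : Set (Fin 4 → ℝ)} (h : IsFaceOf F plane) : F = plane := by
  obtain ⟨⟨x, hx⟩, c, hF⟩ := h
  have hx' := hx
  rw [hF] at hx'
  obtain ⟨hx1, hx2⟩ := hx'
  apply subset_antisymm
  · rw [hF]; exact fun y hy => hy.1
  · intro y hy
    rw [hF]
    refine ⟨hy, fun z hz => ?_⟩
    have hr : (x + x - y) ∈ plane := by
      rw [mem_plane] at hx1 hy ⊢
      simp only [Pi.sub_apply, Pi.add_apply]
      refine ⟨by rw [hx1.1, hy.1]; ring, by rw [hx1.2, hy.2]; ring⟩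
    have h1 := hx2 _ hr
    have h2 := hx2 z hz
    have h3 : ∑ j, c j * (x + x - y) j = ∑ j, c j * x j + ∑ j, c j * x j - ∑ j, c j * y j := by
      rw [← Finset.sum_add_distrib, ← Finset.sum_sub_distrib]
      refine Finset.sum_congr rfl fun j _ => ?_
      simp only [Pi.sub_apply, Pi.add_apply]; ring
    rw [h3] at h1
    linarith

/-- The plane as a balanced complex with a single cell. -/
noncomputable def S1 : BalancedComplex 4 2 where
  ι := Unit
  fin := inferInstance
  cell := fun _ => plane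
  cell_inj := fun _ _ _ => rfl
  cell_poly := fun _ => ⟨⟨![0, 0, 0, 1], by rw [mem_plane]; simp⟩, plane_ratPoly⟩
  face_mem := fun _ F hF => ⟨(), (face_plane hF).symm⟩
  inter_face := by
    intro _ _ _
    rw [Set.inter_self]
    exact ⟨plane_self_face, plane_self_face⟩
  pure := fun _ => ⟨(), le_rfl, dim_plane⟩
  weight := fun _ => 1
  weight_pos := fun _ _ => one_pos
  balanced := by
    intro _ h
    rw [dim_plane] at h
    omega

lemma support_S1 : S1.support = plane := by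
  unfold BalancedComplex.support
  have : Nonempty S1.ι := ⟨()⟩
  exact Set.iUnion_const _

lemma mem_support_S2 {x : Fin 4 → ℝ} : x ∈ S2.support ↔
    (x 2 = 0 ∧ x 3 = 0) ∨ (x 1 = 0 ∧ x 3 = 0) ∨ (x 0 = 0 ∧ x 1 = 0) := by
  unfold BalancedComplex.support
  rw [Set.mem_iUnion]
  constructor
  · rintro ⟨s, hs⟩
    rcases s.2 with ⟨a, b⟩ | ⟨a, b⟩ | ⟨a, b⟩
    · exact Or.inl ⟨cone_zero_of hs a, cone_zero_of hs b⟩
    · exact Or.inr (Or.inl ⟨cone_zero_of hs a, cone_zero_of hs b⟩)
    · exact Or.inr (Or.inr ⟨cone_zero_of hs a, cone_zero_of hs b⟩)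
  · intro h
    refine ⟨⟨fun i => SignType.sign (x i), ?_⟩, ?_⟩
    · rcases h with ⟨a, b⟩ | ⟨a, b⟩ | ⟨a, b⟩
      · exact Or.inl ⟨by simp [a], by simp [b]⟩
      · exact Or.inr (Or.inl ⟨by simp [a], by simp [b]⟩)
      · exact Or.inr (Or.inr ⟨by simp [a], by simp [b]⟩)
    · intro i
      refine ⟨fun h => ?_, fun h => ?_⟩
      · by_contra h1
        rw [not_le] at h1
        simp only [sign_neg h1] at h
        exact absurd h (by decide)
      · by_contra h1
        rw [not_le] at h1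
        simp only [sign_pos h1] at h
        exact absurd h (by decide)

/-- The intersection of the supports: a line and a point. -/
lemma mem_inter {x : Fin 4 → ℝ} : x ∈ S1.support ∩ S2.support ↔
    (x 1 = -1 ∧ x 2 = 0 ∧ x 3 = 0) ∨ x = ![0, 0, 0, 1] := by
  rw [Set.mem_inter_iff, support_S1, mem_plane, mem_support_S2]
  constructor
  · rintro ⟨⟨h1, h2⟩, h3 | h3 | h3⟩
    · left; exact ⟨by linarith, h3.1, h3.2⟩
    · exfalso; linarith [h3.1, h3.2]
    · right
      ext i; fin_cases i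
      · exact h3.1
      · exact h3.2
      · exact h1
      · change x 3 = 1; linarith [h3.2]
  · rintro (⟨h1, h2, h3⟩ | rfl)
    · exact ⟨⟨h2, by linarith⟩, Or.inl ⟨h2, h3⟩⟩
    · refine ⟨⟨?_, ?_⟩, Or.inr (Or.inr ⟨?_, ?_⟩)⟩ <;> simp

lemma dim_sum_s34 (s : Fin 4 → SignType) (h2 : s 2 ≠ 0) (h3 : s 3 ≠ 0) :
    dim (plane + cone s) = 4 := by
  have htop : vectorSpan ℝ (plane + cone s) = ⊤ := by
    rw [eq_top_iff]
    have h1 : vectorSpan ℝ plane ≤ vectorSpan ℝ (plane + cone s) :=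
      vectorSpan_mono ℝ (fun x hx => ⟨x, hx, 0, zero_mem_cone s, add_zero x⟩)
    have hq : (![0, 0, 0, 1] : Fin 4 → ℝ) ∈ plane := by rw [mem_plane]; simp
    have h4 : vectorSpan ℝ (cone s) ≤ vectorSpan ℝ (plane + cone s) := by
      rw [vectorSpan_def, Submodule.span_le]
      rintro _ ⟨x, hx, y, hy, rfl⟩
      have : (![0, 0, 0, 1] + x : Fin 4 → ℝ) -ᵥ (![0, 0, 0, 1] + y) ∈
          vectorSpan ℝ (plane + cone s) :=
        vsub_mem_vectorSpan ℝ ⟨_, hq, x, hx, rfl⟩ ⟨_, hq, y, hy, rfl⟩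
      rwa [vsub_eq_sub, add_sub_add_left_eq_sub] at this
    rw [vectorSpan_plane] at h1
    rw [vectorSpan_cone] at h4
    intro x _
    have hx : x = ![x 0, x 1, 0, x 1] + ![0, 0, x 2, x 3 - x 1] := by
      ext i; fin_cases i <;> simp
    rw [hx]
    refine Submodule.add_mem _ (h1 ?_) (h4 ?_)
    · rw [mem_pdir]; simp
    · rw [mem_csub]
      intro i hi
      fin_cases i
      · simp
      · simp
      · exact absurd hi h2
      · exact absurd hi h3
  unfold dim
  rw [htop, finrank_top]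
  simp

lemma dim_sum_lt (s : Fin 4 → SignType) (h2 : s 2 = 0) : dim (plane + cone s) < 4 := by
  have hle : vectorSpan ℝ (plane + cone s) ≤ LinearMap.ker (LinearMap.proj (R := ℝ)
      (φ := fun _ : Fin 4 => ℝ) 2) := by
    rw [vectorSpan_def, Submodule.span_le]
    rintro _ ⟨_, ⟨a, ha, b, hb, rfl⟩, _, ⟨c, hc, e, he, rfl⟩, rfl⟩
    change (a + b - (c + e)) 2 = 0
    rw [mem_plane] at ha hc
    simp [ha.1, hc.1, cone_zero_of hb h2, cone_zero_of he h2]
  have hlt : LinearMap.ker (LinearMap.proj (R := ℝ) (φ := fun _ : Fin 4 => ℝ) 2) < ⊤ := by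
    rw [lt_top_iff_ne_top]
    intro h
    have : (Pi.single 2 1 : Fin 4 → ℝ) ∈ LinearMap.ker (LinearMap.proj (R := ℝ)
      (φ := fun _ : Fin 4 => ℝ) 2) := by rw [h]; trivial
    rw [LinearMap.mem_ker] at this
    simp at this
  have h3 := Submodule.finrank_lt_finrank_of_lt (lt_of_le_of_lt hle hlt)
  rw [finrank_top] at h3
  simpa [dim] using h3

lemma dim_S2 (i : S2.ι) : dim (S2.cell i) = (ssupp (i : Idx).1).card := dim_cone _

lemma adj_symm {r i j : Idx} (h : adj r i j) : adj r j i := by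
  obtain ⟨h1, h2, h3, h4, h5, h6⟩ := h
  have : meet j.1 i.1 = meet i.1 j.1 := by
    funext k; unfold meet
    by_cases hk : i.1 k = j.1 k
    · rw [if_pos hk, if_pos hk.symm, hk]
    · rw [if_neg hk, if_neg (fun h => hk h.symm)]
  refine ⟨h3, h4, h1, h2, ?_, ?_⟩
  · rw [this]; exact h5
  · rw [this]; exact h6

lemma conn_adj {r a b : Idx} (hr : r ∈ two) (ha : (ssupp a.1).card = 2) (hb : (ssupp b.1).card = 2)
    (har : a ≠ r) (hbr : b ≠ r) : Relation.ReflTransGen (adj r) a b := by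
  obtain ⟨h, _, _, hsub⟩ := conn_dec r hr
  have h1 := reach_step r h 6 a (hsub (Finset.mem_erase.2 ⟨har, mem_two.2 ha⟩))
  have h2 := reach_step r h 6 b (hsub (Finset.mem_erase.2 ⟨hbr, mem_two.2 hb⟩))
  have h3 : Relation.ReflTransGen (adj r) a h := by
    have h4 := h1.swap
    exact h4.lift id (fun x y hxy => adj_symm hxy)
  exact h3.trans h2

lemma exists_two (a b : Idx) : ∃ r ∈ two, r ≠ a ∧ r ≠ b := by
  have hcard : 2 < two.card := by decide +kernel
  by_contra hcon
  push Not at hcon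
  have h1 : two.card ≤ ({a, b} : Finset Idx).card := by
    refine Finset.card_le_card fun r hr => ?_
    rw [Finset.mem_insert, Finset.mem_singleton]
    by_cases h : r = a
    · exact Or.inl h
    · exact Or.inr (hcon r hr h)
  have h2 : ({a, b} : Finset Idx).card ≤ 2 := Finset.card_le_two
  omega

lemma connectedOff_S2 (R : Set S2.ι) (hR : R.Subsingleton) (hd : ∀ r ∈ R, dim (S2.cell r) = 2) :
    S2.ConnectedOff R := by
  intro a b ha hb haR hbR
  rw [dim_S2] at ha hb
  -- choose the removed cell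
  obtain ⟨r, hr, hra, hrb, hrR⟩ : ∃ r : Idx, r ∈ two ∧ (a : Idx) ≠ r ∧ (b : Idx) ≠ r ∧
      ∀ q ∈ R, (q : Idx) = r := by
    by_cases h : ∃ q, q ∈ R
    · obtain ⟨q, hq⟩ := h
      have hq2 := hd q hq
      rw [dim_S2] at hq2
      exact ⟨q, mem_two.2 hq2, fun h => haR (h ▸ hq), fun h => hbR (h ▸ hq),
        fun q' hq' => hR hq' hq⟩
    · push Not at h
      obtain ⟨r, hr1, hr2, hr3⟩ := exists_two (a : Idx) (b : Idx)
      exact ⟨r, hr1, fun h => hr2 h.symm, fun h => hr3 h.symm,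
        fun q hq => absurd hq (h q)⟩
  refine (conn_adj hr ha hb hra hrb).lift id ?_
  rintro i j ⟨h1, h2, h3, h4, h5, h6⟩
  refine ⟨(dim_S2 j).trans h3, fun hjR => h4 (hrR j hjR), ?_⟩
  refine ⟨(⟨meet i.1 j.1, ok_of_le (meet_le_left _ _) i.2⟩ : Idx), ?_, ?_, ?_, ?_⟩
  · change dim (cone (meet i.1 j.1)) + 1 = 2
    rw [dim_cone, h5]
  · exact cone_subset_iff.2 (meet_le_left _ _)
  · exact cone_subset_iff.2 (meet_le_right _ _)
  · intro q hq hsub
    rw [hrR q hq] at hsub
    exact h6 (cone_subset_iff.1 hsub)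

lemma connectedOff_S1 (R : Set S1.ι) : S1.ConnectedOff R := by
  intro a b _ _ _ _
  have : a = b := rfl
  rw [this]

lemma stable_nonempty : (stableSupport S1 S2).Nonempty := by
  refine ⟨![0, 0, 0, 1], (), (⟨![0, 0, 1, 1], by decide⟩ : Idx), ?_, ?_, ?_⟩
  · exact dim_sum_s34 _ (by decide) (by decide)
  · change _ ∈ plane
    rw [mem_plane]; simp
  · change _ ∈ cone _
    intro i
    fin_cases i <;> simp

lemma not_mem_stable {x : Fin 4 → ℝ} (hx : x 1 = -1) : x ∉ stableSupport S1 S2 := by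
  rintro ⟨_, s, hd, _, hs⟩
  change x ∈ cone (s : Idx).1 at hs
  change dim (plane + cone (s : Idx).1) = 4 at hd
  have h1 : (s : Idx).1 1 ≠ 0 := by
    intro h
    have := cone_zero_of hs h
    rw [hx] at this
    norm_num at this
  have h2 : (s : Idx).1 2 = 0 := by
    rcases (s : Idx).2 with ⟨a, b⟩ | ⟨a, b⟩ | ⟨a, b⟩
    · exact a
    · exact absurd a h1
    · exact absurd b h1
  have := dim_sum_lt _ h2
  omega

/-- The connected component of the point `(0,-1,0,0)`. -/
lemma component_subset {y : Fin 4 → ℝ}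
    (hy : y ∈ connectedComponentIn (S1.support ∩ S2.support) ![0, -1, 0, 0]) : y 1 = -1 := by
  have hmem : (![0, -1, 0, 0] : Fin 4 → ℝ) ∈ S1.support ∩ S2.support := by
    rw [mem_inter]; left; simp
  have hcon := isPreconnected_connectedComponentIn (x := (![0, -1, 0, 0] : Fin 4 → ℝ))
    (F := S1.support ∩ S2.support)
  have himg : IsPreconnected ((fun x : Fin 4 → ℝ => x 1) ''
      connectedComponentIn (S1.support ∩ S2.support) ![0, -1, 0, 0]) :=
    hcon.image _ (continuous_apply 1).continuousOn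
  rcases mem_inter.1 (connectedComponentIn_subset _ _ hy) with h | h
  · exact h.1
  · exfalso
    have h0 : (-1 : ℝ) ∈ (fun x : Fin 4 → ℝ => x 1) ''
      connectedComponentIn (S1.support ∩ S2.support) ![0, -1, 0, 0] :=
      ⟨_, mem_connectedComponentIn hmem, by simp⟩
    have h1 : (0 : ℝ) ∈ (fun x : Fin 4 → ℝ => x 1) ''
      connectedComponentIn (S1.support ∩ S2.support) ![0, -1, 0, 0] :=
      ⟨y, hy, by rw [h]; simp⟩
    have h2 := himg.ordConnected.out h0 h1 (show (-1 / 2 : ℝ) ∈ Set.Icc (-1) 0 by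
      constructor <;> norm_num)
    obtain ⟨z, hz, hz1⟩ := h2
    rcases mem_inter.1 (connectedComponentIn_subset _ _ hz) with h | h
    · simp only at hz1
      rw [h.1] at hz1
      norm_num at hz1
    · simp only at hz1
      rw [h] at hz1
      norm_num at hz1

theorem main : ∃ (S₁ S₂ : BalancedComplex 4 2),
    (∀ R : Set S₁.ι, R.Subsingleton → (∀ r ∈ R, dim (S₁.cell r) = 2) → S₁.ConnectedOff R) ∧
    (∀ R : Set S₂.ι, R.Subsingleton → (∀ r ∈ R, dim (S₂.cell r) = 2) → S₂.ConnectedOff R) ∧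
    (stableSupport S₁ S₂).Nonempty ∧
    ∃ x ∈ S₁.support ∩ S₂.support,
      Disjoint (connectedComponentIn (S₁.support ∩ S₂.support) x) (stableSupport S₁ S₂) := by
  refine ⟨S1, S2, fun R _ _ => connectedOff_S1 R, connectedOff_S2, stable_nonempty,
    ![0, -1, 0, 0], ?_, ?_⟩
  · rw [mem_inter]; left; simp
  · rw [Set.disjoint_left]
    intro y hy
    exact not_mem_stable (component_subset hy)

end Pool.Agent.V1176.Trop
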